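import Mathlib

/-! Approximate formula for the Riemann zeta function in `Re s > 0`, and bounds near `Re s = 1`. -/

set_option autoImplicit false

open Filter Topology Set

namespace Pool.Agent.H17.ZB

open LSeries MeasureTheory

/-- `ζ(s) - 1/(s-1)` as an entire function -/
noncomputable def W : ℂ → ℂ :=
  Function.update (fun s => riemannZeta s - 1 / (s - 1)) 1 (Real.eulerMascheroniConstant : ℂ)

lemma W_of_ne {s : ℂ} (hs : s ≠ 1) : W s = riemannZeta s - 1 / (s - 1) := by
  unfold W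
  rw [Function.update_of_ne hs]

lemma W_differentiable : Differentiable ℂ W := by
  rw [← differentiableOn_univ,
    ← Complex.differentiableOn_compl_singleton_and_continuousAt_iff (c := 1) Filter.univ_mem]
  constructor
  · apply DifferentiableOn.congr (f := fun s => riemannZeta s - 1 / (s - 1))
    · intro s hs
      have hs1 : s ≠ 1 := by simpa using hs
      apply DifferentiableAt.differentiableWithinAt
      apply (differentiableAt_riemannZeta hs1).sub
      apply (differentiableAt_const _).div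
      · fun_prop
      · exact sub_ne_zero.mpr hs1
    · intro s hs
      have hs1 : s ≠ 1 := by simpa using hs
      exact W_of_ne hs1
  · rw [← continuousWithinAt_compl_self]
    unfold ContinuousWithinAt
    have h1 : W 1 = (Real.eulerMascheroniConstant : ℂ) := by
      unfold W
      rw [Function.update_self]
    rw [h1]
    refine Tendsto.congr' ?_ tendsto_riemannZeta_sub_one_div
    filter_upwards [self_mem_nhdsWithin] with s hs
    exact (W_of_ne hs).symm

/-- `(s-1) ζ(s)` as an entire function -/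
noncomputable def Z (s : ℂ) : ℂ := 1 + (s - 1) * W s

lemma Z_differentiable : Differentiable ℂ Z := by
  unfold Z
  exact (differentiable_const _).add ((differentiable_id.sub_const _).mul W_differentiable)

lemma Z_of_ne {s : ℂ} (hs : s ≠ 1) : Z s = (s - 1) * riemannZeta s := by
  unfold Z
  rw [W_of_ne hs]
  have : s - 1 ≠ 0 := sub_ne_zero.mpr hs
  field_simp
  ring

/-- fractional part beyond `N` -/
noncomputable def fr (N : ℕ) (t : ℝ) : ℂ := if (N : ℝ) < t then ((t - ⌊t⌋₊ : ℝ) : ℂ) else 0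

lemma fr_measurable (N : ℕ) : Measurable (fr N) := by
  unfold fr
  apply Measurable.ite measurableSet_Ioi
  · fun_prop
  · exact measurable_const

lemma fr_norm_le (N : ℕ) (t : ℝ) : ‖fr N t‖ ≤ 1 := by
  unfold fr
  split_ifs with h
  · rw [Complex.norm_real, Real.norm_eq_abs, abs_le]
    have h0 : 0 ≤ t := by
      have : (0 : ℝ) ≤ N := by positivity
      linarith
    have := Nat.floor_le h0
    have := Nat.lt_floor_add_one t
    constructor <;> linarith
  · simp

/-- `∫_N^∞ {t} t^{-s-1} dt` -/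
noncomputable def RN (N : ℕ) (s : ℂ) : ℂ := mellin (fr N) (-s)

lemma RN_eq {N : ℕ} {s : ℂ} :
    RN N s = ∫ t in Ioi (N : ℝ), ((t - ⌊t⌋₊ : ℝ) : ℂ) * (t : ℂ) ^ (-(s + 1)) := by
  unfold RN mellin
  have h1 : ∫ t in Ioi (0 : ℝ), (t : ℂ) ^ (-s - 1) • fr N t
      = ∫ t in Ioi (0 : ℝ), (Ioi (N : ℝ)).indicator (fun t : ℝ => ((t - ⌊t⌋₊ : ℝ) : ℂ) * (t : ℂ) ^ (-(s + 1))) t := by
    congr 1
    ext t
    unfold fr
    by_cases h : (N : ℝ) < t
    · rw [if_pos h, Set.indicator_of_mem (by exact h), smul_eq_mul, mul_comm]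
      congr 2
      ring
    · rw [if_neg h, Set.indicator_of_notMem (by exact h), smul_zero]
  rw [h1, setIntegral_indicator measurableSet_Ioi]
  congr 2
  rw [Set.inter_eq_right]
  intro t ht
  have h2 : (0 : ℝ) ≤ N := by positivity
  exact lt_of_le_of_lt h2 ht

lemma RN_differentiableAt {N : ℕ} (hN : 1 ≤ N) {s : ℂ} (hs : 0 < s.re) : DifferentiableAt ℂ (RN N) s := by
  have h1 : DifferentiableAt ℂ (mellin (fr N)) (-s) := by
    apply mellin_differentiableAt_of_isBigO_rpow (a := 0) (b := -s.re - 1)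
    · apply LocallyIntegrable.locallyIntegrableOn
      rw [locallyIntegrable_iff]
      intro K hK
      apply Integrable.mono' (g := fun _ => (1 : ℝ))
      · exact integrableOn_const hK.measure_lt_top.ne
      · exact (fr_measurable N).aestronglyMeasurable
      · filter_upwards with t
        exact fr_norm_le N t
    · apply Asymptotics.IsBigO.of_bound 1
      filter_upwards [eventually_gt_atTop 0] with t ht
      simp
      exact fr_norm_le N t
    · simp; exact hs
    · apply Asymptotics.IsBigO.of_bound 1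
      have h2 : ∀ᶠ t : ℝ in 𝓝[>] 0, t < 1 := (eventually_lt_nhds (by norm_num : (0 : ℝ) < 1)).filter_mono nhdsWithin_le_nhds
      filter_upwards [h2] with t ht
      have hN1 : (1 : ℝ) ≤ N := by exact_mod_cast hN
      unfold fr
      rw [if_neg (by linarith)]
      simp
    · simp
  exact h1.comp s (differentiableAt_id.neg)

lemma RN_norm_le {N : ℕ} (hN : 1 ≤ N) {s : ℂ} (hs : 0 < s.re) : ‖RN N s‖ ≤ (N : ℝ) ^ (-s.re) / s.re := by
  rw [RN_eq]
  have hN0 : (0 : ℝ) < N := by exact_mod_cast hN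
  have e : ∫ t in Ioi (N : ℝ), t ^ (-(s.re + 1)) = (N : ℝ) ^ (-s.re) / s.re := by
    rw [integral_Ioi_rpow_of_lt (by linarith) hN0]
    have : -(s.re + 1) + 1 = -s.re := by ring
    rw [this, neg_div_neg_eq]
  rw [← e]
  apply norm_integral_le_of_norm_le (integrableOn_Ioi_rpow_of_lt (by linarith) hN0)
  filter_upwards [ae_restrict_mem measurableSet_Ioi] with t ht
  have htN : (N : ℝ) < t := ht
  have ht0 : 0 < t := by linarith
  rw [norm_mul, Complex.norm_cpow_eq_rpow_re_of_pos ht0]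
  have h1 : ‖((t - ⌊t⌋₊ : ℝ) : ℂ)‖ ≤ 1 := by
    have := fr_norm_le N t
    unfold fr at this
    rwa [if_pos htN] at this
  have h3 : (-(s + 1)).re = -(s.re + 1) := by simp
  rw [h3]
  calc _ ≤ 1 * t ^ (-(s.re + 1)) := by gcongr
    _ = _ := by ring

/-- the tail coefficients -/
noncomputable def fN (N : ℕ) (n : ℕ) : ℂ := if N < n then 1 else 0

lemma sum_fN (N M : ℕ) : ∑ k ∈ Finset.Icc 1 M, fN N k = ((M - N : ℕ) : ℂ) := by
  unfold fN
  rw [← Finset.sum_filter, Finset.sum_const, nsmul_eq_mul, mul_one]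
  congr 1
  have : (Finset.Icc 1 M).filter (fun k => N < k) = Finset.Icc (N + 1) M := by
    ext k
    simp only [Finset.mem_filter, Finset.mem_Icc]
    omega
  rw [this, Nat.card_Icc]
  omega

lemma fN_summable (N : ℕ) {s : ℂ} (hs : 1 < s.re) : LSeriesSummable (fN N) s := by
  have h1 : LSeriesSummable (1 : ℕ → ℂ) s := LSeriesSummable_one_iff.mpr hs
  unfold LSeriesSummable at h1 ⊢
  apply Summable.of_norm_bounded h1.norm
  intro n
  apply LSeries.norm_term_le
  unfold fN
  split_ifs <;> simp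

lemma zeta_eq_right {N : ℕ} (hN : 1 ≤ N) {s : ℂ} (hs : 1 < s.re) :
    riemannZeta s = ∑ n ∈ Finset.Icc 1 N, (n : ℂ) ^ (-s) + (N : ℂ) ^ (1 - s) / (s - 1) - s * RN N s := by
  have hN0 : (0 : ℝ) < N := by exact_mod_cast hN
  have hNR : (1 : ℝ) ≤ N := by exact_mod_cast hN
  have hNC : (N : ℂ) ≠ 0 := by exact_mod_cast hN0.ne'
  have hs0 : s ≠ 0 := by rintro rfl; simp at hs; linarith
  have hs1 : s - 1 ≠ 0 := by
    intro h
    have : s = 1 := by linear_combination h
    rw [this] at hs; simp at hs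
  have h1 : LSeriesSummable (1 : ℕ → ℂ) s := LSeriesSummable_one_iff.mpr hs
  rw [← LSeries_one_eq_riemannZeta hs]
  -- split off the first terms
  have h2 : LSeries (1 : ℕ → ℂ) s = ∑ n ∈ Finset.Icc 1 N, (n : ℂ) ^ (-s) + LSeries (fN N) s := by
    have h3 : HasSum (fun n => term (1 : ℕ → ℂ) s n - term (fN N) s n) (LSeries (1 : ℕ → ℂ) s - LSeries (fN N) s) :=
      h1.hasSum.sub (fN_summable N hs).hasSum
    have h4 : HasSum (fun n => term (1 : ℕ → ℂ) s n - term (fN N) s n) (∑ n ∈ Finset.Icc 1 N, (n : ℂ) ^ (-s)) := by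
      have h5 : ∀ n ∉ Finset.Icc 1 N, term (1 : ℕ → ℂ) s n - term (fN N) s n = 0 := by
        intro n hn
        rw [Finset.mem_Icc, not_and_or, not_le, not_le] at hn
        rcases hn with h | h
        · have : n = 0 := by omega
          rw [this]; simp
        · rw [term_of_ne_zero (by omega), term_of_ne_zero (by omega)]
          unfold fN
          rw [if_pos h]
          simp
      have h6 : HasSum (fun n => term (1 : ℕ → ℂ) s n - term (fN N) s n)
          (∑ n ∈ Finset.Icc 1 N, (term (1 : ℕ → ℂ) s n - term (fN N) s n)) := hasSum_sum_of_ne_finset_zero h5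
      have h7 : ∑ n ∈ Finset.Icc 1 N, (term (1 : ℕ → ℂ) s n - term (fN N) s n) = ∑ n ∈ Finset.Icc 1 N, (n : ℂ) ^ (-s) := by
        apply Finset.sum_congr rfl
        intro n hn
        rw [Finset.mem_Icc] at hn
        rw [term_of_ne_zero (by omega), term_of_ne_zero (by omega)]
        unfold fN
        rw [if_neg (by omega), Complex.cpow_neg]
        simp
      rw [h7] at h6
      exact h6
    have h8 := h3.unique h4
    linear_combination h8
  rw [h2]
  have hO : (fun n : ℕ => ∑ k ∈ Finset.Icc 1 n, fN N k) =O[atTop] fun n : ℕ => (n : ℝ) ^ (1 : ℝ) := by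
    apply Asymptotics.IsBigO.of_bound 1
    filter_upwards with n
    rw [sum_fN, Real.rpow_one, Complex.norm_natCast, one_mul, Real.norm_natCast]
    exact_mod_cast Nat.sub_le n N
  rw [LSeries_eq_mul_integral (fN N) (r := 1) (by norm_num) (by linarith) (fN_summable N hs) hO]
  have hRN := RN_eq (N := N) (s := s)
  -- integrability
  have hint1 : IntegrableOn (fun t : ℝ => (t : ℂ) ^ (-s)) (Ioi (N : ℝ)) :=
    integrableOn_Ioi_cpow_of_lt (by simp; linarith) hN0
  have hint3 : IntegrableOn (fun t : ℝ => (t : ℂ) ^ (-(s + 1))) (Ioi (N : ℝ)) :=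
    integrableOn_Ioi_cpow_of_lt (by simp; linarith) hN0
  have hint2 : IntegrableOn (fun t : ℝ => ((t - ⌊t⌋₊ : ℝ) : ℂ) * (t : ℂ) ^ (-(s + 1))) (Ioi (N : ℝ)) := by
    apply Integrable.mono' (g := fun t : ℝ => t ^ (-(s.re + 1)))
      (integrableOn_Ioi_rpow_of_lt (by linarith) hN0)
    · apply AEStronglyMeasurable.mul
      · apply Measurable.aestronglyMeasurable
        fun_prop
      · apply ContinuousOn.aestronglyMeasurable _ measurableSet_Ioi
        intro t ht
        have ht1 : (N : ℝ) < t := ht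
        apply ContinuousAt.continuousWithinAt
        apply ContinuousAt.cpow
        · exact Complex.continuous_ofReal.continuousAt
        · exact continuousAt_const
        · left; simp; linarith
    · filter_upwards [ae_restrict_mem measurableSet_Ioi] with t ht
      have ht1 : (N : ℝ) < t := ht
      have ht0 : 0 < t := by linarith
      rw [norm_mul, Complex.norm_cpow_eq_rpow_re_of_pos ht0]
      have h1 : ‖((t - ⌊t⌋₊ : ℝ) : ℂ)‖ ≤ 1 := by
        have := fr_norm_le N t
        unfold fr at this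
        rwa [if_pos ht1] at this
      have h3 : (-(s + 1)).re = -(s.re + 1) := by simp
      rw [h3]
      calc _ ≤ 1 * t ^ (-(s.re + 1)) := by gcongr
        _ = _ := by ring
  have e1 : ∫ t in Ioi (1 : ℝ), (∑ k ∈ Finset.Icc 1 ⌊t⌋₊, fN N k) * (t : ℂ) ^ (-(s + 1))
      = ∫ t in Ioi (N : ℝ), (((t : ℂ) ^ (-s) - N * (t : ℂ) ^ (-(s + 1))) - ((t - ⌊t⌋₊ : ℝ) : ℂ) * (t : ℂ) ^ (-(s + 1))) := by
    have e2 : ∀ t ∈ Ioi (1 : ℝ), (∑ k ∈ Finset.Icc 1 ⌊t⌋₊, fN N k) * (t : ℂ) ^ (-(s + 1))
        = (Ioi (N : ℝ)).indicator (fun t : ℝ => ((t : ℂ) ^ (-s) - N * (t : ℂ) ^ (-(s + 1))) - ((t - ⌊t⌋₊ : ℝ) : ℂ) * (t : ℂ) ^ (-(s + 1))) t := by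
      intro t ht
      have ht1 : (1 : ℝ) < t := ht
      rw [sum_fN]
      by_cases h : (N : ℝ) < t
      · rw [Set.indicator_of_mem (by exact h)]
        have h3 : N ≤ ⌊t⌋₊ := Nat.le_floor h.le
        have ht0 : (t : ℂ) ≠ 0 := by exact_mod_cast (by linarith : t ≠ 0)
        have e3 : (t : ℂ) ^ (-s) = t * (t : ℂ) ^ (-(s + 1)) := by
          have : -s = 1 + (-(s + 1)) := by ring
          rw [this, Complex.cpow_add _ _ ht0, Complex.cpow_one]
        rw [e3, Nat.cast_sub h3]
        push_cast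
        ring
      · rw [Set.indicator_of_notMem (by exact h)]
        have h3 : ⌊t⌋₊ ≤ N := by
          have := Nat.floor_le (show 0 ≤ t by linarith)
          have h4 : (⌊t⌋₊ : ℝ) ≤ N := by linarith
          exact_mod_cast h4
        rw [Nat.sub_eq_zero_of_le h3]
        simp
    rw [setIntegral_congr_fun measurableSet_Ioi e2, setIntegral_indicator measurableSet_Ioi]
    congr 2
    rw [Set.inter_eq_right]
    intro t ht
    exact lt_of_le_of_lt hNR ht
  have i1 : ∫ t in Ioi (N : ℝ), (((t : ℂ) ^ (-s) - N * (t : ℂ) ^ (-(s + 1))) - ((t - ⌊t⌋₊ : ℝ) : ℂ) * (t : ℂ) ^ (-(s + 1)))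
      = (∫ t in Ioi (N : ℝ), ((t : ℂ) ^ (-s) - N * (t : ℂ) ^ (-(s + 1)))) - ∫ t in Ioi (N : ℝ), ((t - ⌊t⌋₊ : ℝ) : ℂ) * (t : ℂ) ^ (-(s + 1)) :=
    integral_sub (hint1.sub (hint3.const_mul _)) hint2
  have i2 : ∫ t in Ioi (N : ℝ), ((t : ℂ) ^ (-s) - N * (t : ℂ) ^ (-(s + 1)))
      = (∫ t in Ioi (N : ℝ), (t : ℂ) ^ (-s)) - ∫ t in Ioi (N : ℝ), N * (t : ℂ) ^ (-(s + 1)) :=
    integral_sub hint1 (hint3.const_mul _)
  rw [e1, i1, i2,
    integral_const_mul, ← hRN, integral_Ioi_cpow_of_lt (by simp; linarith) hN0,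
    integral_Ioi_cpow_of_lt (by simp; linarith) hN0]
  have e4 : (-(s + 1) + 1 : ℂ) = -s := by ring
  have e5 : (-s + 1 : ℂ) = 1 - s := by ring
  have e6 : (N : ℂ) ^ (1 - s) = N * (N : ℂ) ^ (-s) := by
    rw [sub_eq_add_neg, Complex.cpow_add _ _ hNC, Complex.cpow_one]
  have e7 : (1 - s : ℂ) ≠ 0 := by
    intro h; apply hs1; linear_combination -h
  rw [e4, e5]
  push_cast
  rw [e6]
  field_simp
  ring

lemma re_pos_preconnected : IsPreconnected {s : ℂ | 0 < s.re} :=
  (convex_halfSpace_re_gt 0).isPreconnected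

/-- the approximate formula in `Re s > 0` -/
lemma Z_eq {N : ℕ} (hN : 1 ≤ N) {s : ℂ} (hs : 0 < s.re) :
    Z s = (s - 1) * ∑ n ∈ Finset.Icc 1 N, (n : ℂ) ^ (-s) + (N : ℂ) ^ (1 - s) - s * (s - 1) * RN N s := by
  have hN0 : (0 : ℝ) < N := by exact_mod_cast hN
  have hNC : (N : ℂ) ≠ 0 := by exact_mod_cast hN0.ne'
  set G : ℂ → ℂ := fun s => (s - 1) * ∑ n ∈ Finset.Icc 1 N, (n : ℂ) ^ (-s) + (N : ℂ) ^ (1 - s) - s * (s - 1) * RN N s with hG
  have hopen : IsOpen {s : ℂ | 0 < s.re} := isOpen_lt continuous_const Complex.continuous_re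
  have hGan : AnalyticOnNhd ℂ G {s : ℂ | 0 < s.re} := by
    apply DifferentiableOn.analyticOnNhd _ hopen
    intro z hz
    apply DifferentiableAt.differentiableWithinAt
    have h1 : DifferentiableAt ℂ (RN N) z := RN_differentiableAt hN hz
    have h2 : DifferentiableAt ℂ (fun s : ℂ => ∑ n ∈ Finset.Icc 1 N, (n : ℂ) ^ (-s)) z := by
      apply DifferentiableAt.fun_sum
      intro n hn
      rw [Finset.mem_Icc] at hn
      have hn0 : (n : ℂ) ≠ 0 := by exact_mod_cast (by omega : n ≠ 0)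
      apply DifferentiableAt.const_cpow (by fun_prop) (Or.inl hn0)
    have h3 : DifferentiableAt ℂ (fun s : ℂ => (N : ℂ) ^ (1 - s)) z := by
      apply DifferentiableAt.const_cpow (by fun_prop) (Or.inl hNC)
    have h4 : DifferentiableAt ℂ (fun s : ℂ => s - 1) z := by fun_prop
    have h5 : DifferentiableAt ℂ (fun s : ℂ => s * (s - 1)) z := by fun_prop
    exact ((h4.mul h2).add h3).sub (h5.mul h1)
  have hZan : AnalyticOnNhd ℂ Z {s : ℂ | 0 < s.re} :=
    Z_differentiable.differentiableOn.analyticOnNhd hopen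
  have h2mem : (2 : ℂ) ∈ {s : ℂ | 0 < s.re} := by simp
  have hev : Z =ᶠ[𝓝 2] G := by
    have hopen1 : IsOpen {s : ℂ | 1 < s.re} := isOpen_lt continuous_const Complex.continuous_re
    filter_upwards [hopen1.mem_nhds (show (2 : ℂ) ∈ {s : ℂ | 1 < s.re} by simp)] with z hz
    have hz1 : z ≠ 1 := by
      rintro rfl
      simp at hz
    have hz1' : z - 1 ≠ 0 := sub_ne_zero.mpr hz1
    rw [Z_of_ne hz1, zeta_eq_right hN hz, hG]
    field_simp
  exact hZan.eqOn_of_preconnected_of_eventuallyEq hGan re_pos_preconnected h2mem hev hs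

lemma zeta_eq {N : ℕ} (hN : 1 ≤ N) {s : ℂ} (hs : 0 < s.re) (hs1 : s ≠ 1) :
    riemannZeta s = ∑ n ∈ Finset.Icc 1 N, (n : ℂ) ^ (-s) + (N : ℂ) ^ (1 - s) / (s - 1) - s * RN N s := by
  have h1 := Z_eq hN hs
  rw [Z_of_ne hs1] at h1
  have h2 : s - 1 ≠ 0 := sub_ne_zero.mpr hs1
  apply mul_left_cancel₀ h2
  rw [h1]
  field_simp

end Pool.Agent.H17.ZB
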