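import Mathlib
import Pool.Agent.H17.ZetaA

/-! Bounds for the Riemann zeta function near `Re s = 1`, and a zero-free region. -/

set_option autoImplicit false

open Filter Topology Set

namespace Pool.Agent.H17.ZB

/-- `log (|t| + 3)` -/
noncomputable def LL (t : ℝ) : ℝ := Real.log (|t| + 3)

lemma LL_ge_one (t : ℝ) : 1 ≤ LL t := by
  unfold LL
  rw [Real.le_log_iff_exp_le (by positivity)]
  have := Real.exp_one_lt_d9
  have := abs_nonneg t
  linarith

lemma LL_pos (t : ℝ) : 0 < LL t := lt_of_lt_of_le one_pos (LL_ge_one t)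

lemma LL_le_two_mul {t u : ℝ} (h : |u| ≤ 2 * |t| + 1) : LL u ≤ 2 * LL t := by
  unfold LL
  have ht := abs_nonneg t
  have hu := abs_nonneg u
  rw [← Real.log_rpow (by positivity)]
  apply Real.log_le_log (by positivity)
  rw [Real.rpow_two]
  nlinarith

lemma exp_half_le : Real.exp (1 / 2) ≤ 2 := by
  have h1 : Real.exp (1 / 2) * Real.exp (1 / 2) = Real.exp 1 := by
    rw [← Real.exp_add]; norm_num
  have h2 := Real.exp_one_lt_d9
  have h3 := Real.exp_pos (1 / 2)
  nlinarith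

/-- `n^{1-σ} ≤ 2` for `n ≤ τ`. -/
lemma rpow_le_two {t σ : ℝ} (hσ : 1 - 1 / (2 * LL t) ≤ σ) {y : ℝ} (hy : 1 ≤ y) (hyt : y ≤ |t| + 3) :
    y ^ (1 - σ) ≤ 2 := by
  have hL := LL_pos t
  have hy0 : 0 < y := by linarith
  calc y ^ (1 - σ) ≤ y ^ (1 / (2 * LL t)) := Real.rpow_le_rpow_of_exponent_le hy (by linarith)
    _ ≤ (|t| + 3) ^ (1 / (2 * LL t)) := by gcongr
    _ = Real.exp (1 / 2) := by
      have ht : 0 < |t| + 3 := by positivity
      rw [Real.rpow_def_of_pos ht]
      congr 1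
      show LL t * (1 / (2 * LL t)) = 1 / 2
      field_simp
    _ ≤ 2 := exp_half_le

lemma rpow_neg_le {t σ : ℝ} (hσ : 1 - 1 / (2 * LL t) ≤ σ) {y : ℝ} (hy : 1 ≤ y) (hyt : y ≤ |t| + 3) :
    y ^ (-σ) ≤ 2 / y := by
  have hy0 : 0 < y := by linarith
  have h1 := rpow_le_two hσ hy hyt
  have h2 : y ^ (1 - σ) = y * y ^ (-σ) := by
    rw [sub_eq_add_neg, Real.rpow_add hy0, Real.rpow_one]
  rw [h2] at h1
  rw [le_div_iff₀ hy0]
  linarith

lemma sigma_ge {t σ : ℝ} (hσ : 1 - 1 / (2 * LL t) ≤ σ) : 1 / 2 ≤ σ := by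
  have hL := LL_ge_one t
  have : 1 / (2 * LL t) ≤ 1 / 2 := by
    apply one_div_le_one_div_of_le (by norm_num)
    linarith
  linarith

lemma norm_le_re_im (s : ℂ) (h : 0 ≤ s.re) : ‖s‖ ≤ s.re + |s.im| := by
  have := Complex.norm_le_abs_re_add_abs_im s
  rwa [abs_of_nonneg h] at this

lemma W_bound {s : ℂ} (h1 : 1 - 1 / (2 * LL s.im) ≤ s.re) (h3 : s.re ≤ 3) :
    ‖W s‖ ≤ 15 * LL s.im := by
  have hL := LL_ge_one s.im
  have hσ := sigma_ge h1
  have hσ0 : 0 < s.re := by linarith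
  have hns := norm_le_re_im s hσ0.le
  have hn0 := norm_nonneg s
  by_cases hs1 : s = 1
  · subst hs1
    unfold W
    rw [Function.update_self, Complex.norm_real, Real.norm_eq_abs]
    have a1 := Real.one_half_lt_eulerMascheroniConstant
    have a2 := Real.eulerMascheroniConstant_lt_two_thirds
    rw [abs_of_pos (by linarith)]
    linarith
  have hs1' : s - 1 ≠ 0 := sub_ne_zero.mpr hs1
  by_cases ht : |s.im| < 1
  · rw [W_of_ne hs1, zeta_eq (N := 1) le_rfl hσ0 hs1]
    have e : ∑ n ∈ (Finset.Icc 1 1 : Finset ℕ), (n : ℂ) ^ (-s) + ((1 : ℕ) : ℂ) ^ (1 - s) / (s - 1) - s * RN 1 s - 1 / (s - 1) = 1 - s * RN 1 s := by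
      simp
      ring
    rw [e]
    have h2 := RN_norm_le (N := 1) le_rfl hσ0
    have h4 : ‖RN 1 s‖ ≤ 2 := by
      refine h2.trans ?_
      rw [Nat.cast_one, Real.one_rpow, div_le_iff₀ hσ0]
      linarith
    calc ‖1 - s * RN 1 s‖ ≤ ‖(1 : ℂ)‖ + ‖s * RN 1 s‖ := norm_sub_le _ _
      _ = 1 + ‖s‖ * ‖RN 1 s‖ := by rw [norm_one, norm_mul]
      _ ≤ 1 + 4 * 2 := by
        gcongr
        linarith
      _ ≤ 15 * LL s.im := by linarith
  · push Not at ht
    set τ : ℝ := |s.im| + 3 with hτ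
    have hτ0 : 0 < τ := by positivity
    set N : ℕ := ⌊τ⌋₊ with hN
    have hN1 : 1 ≤ N := Nat.le_floor (by push_cast; linarith)
    have hNτ : (N : ℝ) ≤ τ := Nat.floor_le hτ0.le
    have hτN : τ < N + 1 := Nat.lt_floor_add_one τ
    have hN2 : τ / 2 ≤ N := by linarith
    have hN0 : (0 : ℝ) < N := by exact_mod_cast hN1
    have hN1R : (1 : ℝ) ≤ N := by exact_mod_cast hN1
    rw [W_of_ne hs1, zeta_eq (N := N) hN1 hσ0 hs1]
    have b1 : ‖∑ n ∈ Finset.Icc 1 N, (n : ℂ) ^ (-s)‖ ≤ 4 * LL s.im := by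
      calc ‖∑ n ∈ Finset.Icc 1 N, (n : ℂ) ^ (-s)‖ ≤ ∑ n ∈ Finset.Icc 1 N, 2 * (1 / (n : ℝ)) := by
            apply norm_sum_le_of_le
            intro n hn
            rw [Finset.mem_Icc] at hn
            have hn0 : (0 : ℝ) < n := by exact_mod_cast hn.1
            rw [← Complex.ofReal_natCast, Complex.norm_cpow_eq_rpow_re_of_pos hn0]
            have h5 : (n : ℝ) ≤ |s.im| + 3 := le_trans (by exact_mod_cast hn.2) hNτ
            have h6 := rpow_neg_le h1 (y := n) (by exact_mod_cast hn.1) h5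
            rw [Complex.neg_re, mul_one_div]
            exact h6
        _ = 2 * ∑ n ∈ Finset.Icc 1 N, (1 / (n : ℝ)) := by rw [Finset.mul_sum]
        _ ≤ 2 * (1 + Real.log N) := by
            gcongr
            have h4 := harmonic_le_one_add_log N
            rw [harmonic_eq_sum_Icc] at h4
            push_cast at h4
            simpa [one_div] using h4
        _ ≤ 2 * (1 + LL s.im) := by
            gcongr
            unfold LL
            exact Real.log_le_log hN0 hNτ
        _ ≤ 4 * LL s.im := by linarith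
    have hs1n : 1 ≤ ‖s - 1‖ := by
      have h6 : |s.im| ≤ ‖s - 1‖ := by
        have := Complex.abs_im_le_norm (s - 1)
        simpa using this
      linarith
    have b2 : ‖(N : ℂ) ^ (1 - s) / (s - 1)‖ ≤ 2 := by
      rw [norm_div, ← Complex.ofReal_natCast, Complex.norm_cpow_eq_rpow_re_of_pos hN0]
      have h6 := rpow_le_two h1 (y := N) hN1R hNτ
      rw [div_le_iff₀ (by linarith)]
      have h7 : (1 - s).re = 1 - s.re := by simp
      rw [h7]
      nlinarith
    have b3 : ‖s * RN N s‖ ≤ 8 := by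
      rw [norm_mul]
      have h2 := RN_norm_le (N := N) hN1 hσ0
      have h6 := rpow_neg_le h1 (y := N) hN1R hNτ
      have h7 : ‖RN N s‖ ≤ 8 / τ := by
        refine h2.trans ?_
        rw [div_le_iff₀ hσ0]
        refine h6.trans ?_
        have h8 : 2 / (N : ℝ) ≤ 4 / τ := by
          rw [div_le_div_iff₀ hN0 hτ0]
          linarith
        refine h8.trans ?_
        rw [div_mul_eq_mul_div]
        gcongr
        linarith
      calc ‖s‖ * ‖RN N s‖ ≤ τ * (8 / τ) := by
            gcongr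
            linarith
        _ = 8 := by field_simp
    have b4 : ‖1 / (s - 1)‖ ≤ 1 := by
      rw [norm_div, norm_one, div_le_iff₀ (by linarith)]
      linarith
    calc ‖∑ n ∈ Finset.Icc 1 N, (n : ℂ) ^ (-s) + (N : ℂ) ^ (1 - s) / (s - 1) - s * RN N s - 1 / (s - 1)‖
        ≤ ‖∑ n ∈ Finset.Icc 1 N, (n : ℂ) ^ (-s)‖ + ‖(N : ℂ) ^ (1 - s) / (s - 1)‖ + ‖s * RN N s‖ + ‖1 / (s - 1)‖ := by
          refine (norm_sub_le _ _).trans ?_
          gcongr
          refine (norm_sub_le _ _).trans ?_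
          gcongr
          exact norm_add_le _ _
      _ ≤ 4 * LL s.im + 2 + 8 + 1 := by gcongr
      _ ≤ 15 * LL s.im := by linarith

lemma deriv_W_bound {s : ℂ} (h1 : 1 - 1 / (8 * LL s.im) ≤ s.re) (h3 : s.re ≤ 2) :
    ‖deriv W s‖ ≤ 240 * LL s.im ^ 2 := by
  have hL := LL_ge_one s.im
  have hL0 := LL_pos s.im
  have hr : 0 < 1 / (8 * LL s.im) := by positivity
  have hr1 : 1 / (8 * LL s.im) ≤ 1 / 8 := by
    apply one_div_le_one_div_of_le (by norm_num)
    linarith
  have h := Complex.norm_deriv_le_of_forall_mem_sphere_norm_le (c := s) (R := 1 / (8 * LL s.im)) (C := 30 * LL s.im)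
    (f := W) hr W_differentiable.diffContOnCl (by
      intro z hz
      rw [mem_sphere_iff_norm] at hz
      have hre : |z.re - s.re| ≤ 1 / (8 * LL s.im) := by
        have := Complex.abs_re_le_norm (z - s)
        rw [hz, Complex.sub_re] at this
        exact this
      have him : |z.im - s.im| ≤ 1 / 8 := by
        have := Complex.abs_im_le_norm (z - s)
        rw [hz, Complex.sub_im] at this
        exact this.trans hr1
      have him2 : |z.im| ≤ 2 * |s.im| + 1 := by
        have := abs_sub_abs_le_abs_sub z.im s.im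
        have := abs_nonneg s.im
        linarith
      have hLz := LL_le_two_mul him2
      have hLz0 := LL_pos z.im
      rw [abs_le] at hre
      have hz1 : 1 - 1 / (2 * LL z.im) ≤ z.re := by
        have h5 : 1 / (4 * LL s.im) ≤ 1 / (2 * LL z.im) := by
          apply one_div_le_one_div_of_le (by positivity)
          linarith
        have h6 : 1 / (4 * LL s.im) = 1 / (8 * LL s.im) + 1 / (8 * LL s.im) := by
          field_simp; norm_num
        linarith
      refine (W_bound hz1 (by linarith)).trans ?_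
      linarith)
  refine h.trans (le_of_eq ?_)
  field_simp
  norm_num

lemma Z_deriv (s : ℂ) : deriv Z s = W s + (s - 1) * deriv W s := by
  unfold Z
  have h1 : HasDerivAt (fun s : ℂ => 1 + (s - 1) * W s) (0 + (1 * W s + (s - 1) * deriv W s)) s :=
    (hasDerivAt_const s 1).add (((hasDerivAt_id' s).sub_const 1).mul (W_differentiable s).hasDerivAt)
  rw [h1.deriv]
  ring

lemma norm_sub_one_le {s : ℂ} (h0 : 0 ≤ s.re) (h3 : s.re ≤ 2) : ‖s - 1‖ ≤ |s.im| + 3 := by
  have h1 := norm_le_re_im s h0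
  have h2 := norm_sub_le s 1
  rw [norm_one] at h2
  linarith

lemma deriv_Z_bound {s : ℂ} (h1 : 1 - 1 / (8 * LL s.im) ≤ s.re) (h3 : s.re ≤ 2) :
    ‖deriv Z s‖ ≤ 255 * (|s.im| + 3) * LL s.im ^ 2 := by
  have hL := LL_ge_one s.im
  have hL0 := LL_pos s.im
  have h1' : 1 - 1 / (2 * LL s.im) ≤ s.re := by
    have : 1 / (8 * LL s.im) ≤ 1 / (2 * LL s.im) := by
      apply one_div_le_one_div_of_le (by positivity)
      linarith
    linarith
  have hσ := sigma_ge h1'
  have hW := W_bound h1' (by linarith)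
  have hW' := deriv_W_bound h1 h3
  have hs1 := norm_sub_one_le (s := s) (by linarith) h3
  have ht := abs_nonneg s.im
  rw [Z_deriv]
  calc ‖W s + (s - 1) * deriv W s‖ ≤ ‖W s‖ + ‖s - 1‖ * ‖deriv W s‖ := by
        refine (norm_add_le _ _).trans ?_
        rw [norm_mul]
    _ ≤ 15 * LL s.im + (|s.im| + 3) * (240 * LL s.im ^ 2) := by gcongr
    _ ≤ 255 * (|s.im| + 3) * LL s.im ^ 2 := by
      have : LL s.im ≤ (|s.im| + 3) * LL s.im ^ 2 := by nlinarith
      linarith

/-- 3-4-1 for zeta -/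
lemma zeta_341 {x : ℝ} (hx : 0 < x) (y : ℝ) :
    1 ≤ ‖riemannZeta (1 + x)‖ ^ 3 * ‖riemannZeta (1 + x + Complex.I * y)‖ ^ 4 * ‖riemannZeta (1 + x + 2 * Complex.I * y)‖ := by
  have h := DirichletCharacter.norm_LFunction_product_ge_one (N := 1) (1 : DirichletCharacter ℂ 1) hx y
  unfold DirichletCharacter.LFunctionTrivChar at h
  rw [one_pow, DirichletCharacter.LFunction_modOne_eq, norm_mul, norm_mul, norm_pow, norm_pow] at h
  exact h

lemma mk_re (σ t : ℝ) : ((σ : ℂ) + Complex.I * t).re = σ := by simp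
lemma mk_im (σ t : ℝ) : ((σ : ℂ) + Complex.I * t).im = t := by simp

/-- lower bound to the right of 1 -/
lemma zeta_lower_right {x t : ℝ} (hx : 0 < x) (hx1 : x ≤ 1) (ht : 1 ≤ |t|) :
    x ^ 3 / (180792 * LL t) ≤ ‖riemannZeta (1 + x + Complex.I * t)‖ ^ 4 := by
  have hL := LL_ge_one t
  have h := zeta_341 hx t
  have e1 : (1 + (x : ℂ)) ≠ 1 := by
    intro h
    have : (x : ℂ) = 0 := by linear_combination h
    have : x = 0 := by exact_mod_cast this
    linarith
  have e2 : (1 + (x : ℂ) + 2 * Complex.I * t) ≠ 1 := by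
    intro h
    have := congrArg Complex.re h
    simp at this
    linarith
  have b1 : ‖riemannZeta (1 + x)‖ ≤ 18 / x := by
    have h1 := W_of_ne e1
    have h2 : riemannZeta (1 + x) = W (1 + x) + 1 / x := by
      rw [h1]; ring
    have him : (1 + (x : ℂ)).im = 0 := by simp
    have hre : (1 + (x : ℂ)).re = 1 + x := by simp
    have h3 : ‖W (1 + x)‖ ≤ 15 * LL 0 := by
      have h4 := W_bound (s := 1 + x) (by
        rw [him, hre]
        have : 0 < 1 / (2 * LL 0) := by have := LL_pos 0; positivity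
        linarith) (by rw [hre]; linarith)
      rwa [him] at h4
    have h5 : LL 0 ≤ 17 / 15 := by
      unfold LL
      rw [abs_zero, zero_add, Real.log_le_iff_le_exp (by norm_num)]
      have h6 : Real.exp (17 / 15) = Real.exp 1 * Real.exp (2 / 15) := by rw [← Real.exp_add]; norm_num
      have h7 := Real.exp_one_gt_d9
      have h8 : 1 + 2 / 15 ≤ Real.exp (2 / 15) := by
        have := Real.add_one_le_exp (2 / 15 : ℝ)
        linarith
      rw [h6]
      nlinarith
    rw [h2]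
    calc ‖W (1 + x) + 1 / x‖ ≤ ‖W (1 + x)‖ + ‖1 / (x : ℂ)‖ := norm_add_le _ _
      _ ≤ 17 + 1 / x := by
        rw [norm_div, norm_one, Complex.norm_real, Real.norm_of_nonneg hx.le]
        gcongr
        linarith
      _ ≤ 18 / x := by
        have : 17 ≤ 17 / x := by
          rw [le_div_iff₀ hx]; linarith
        have e : 18 / x = 17 / x + 1 / x := by ring
        linarith
  have b2 : ‖riemannZeta (1 + x + 2 * Complex.I * t)‖ ≤ 31 * LL t := by
    have h1 := W_of_ne e2
    have h2 : riemannZeta (1 + x + 2 * Complex.I * t) = W (1 + x + 2 * Complex.I * t) + 1 / (1 + x + 2 * Complex.I * t - 1) := by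
      rw [h1]; ring
    have him : (1 + (x : ℂ) + 2 * Complex.I * t).im = 2 * t := by simp
    have hre : (1 + (x : ℂ) + 2 * Complex.I * t).re = 1 + x := by simp
    have h3 : ‖W (1 + x + 2 * Complex.I * t)‖ ≤ 15 * LL (2 * t) := by
      have h4 := W_bound (s := 1 + x + 2 * Complex.I * t) (by
        rw [him, hre]
        have : 0 < 1 / (2 * LL (2 * t)) := by have := LL_pos (2 * t); positivity
        linarith) (by rw [hre]; linarith)
      rwa [him] at h4
    have h5 : LL (2 * t) ≤ 2 * LL t := by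
      apply LL_le_two_mul
      rw [abs_mul, abs_two]; linarith
    have h6 : 1 ≤ ‖(1 + (x : ℂ) + 2 * Complex.I * t - 1)‖ := by
      have := Complex.abs_im_le_norm (1 + (x : ℂ) + 2 * Complex.I * t - 1)
      rw [Complex.sub_im, him, Complex.one_im, sub_zero, abs_mul, abs_two] at this
      linarith
    rw [h2]
    calc _ ≤ ‖W (1 + x + 2 * Complex.I * t)‖ + ‖1 / (1 + (x : ℂ) + 2 * Complex.I * t - 1)‖ := norm_add_le _ _
      _ ≤ 30 * LL t + 1 := by
        gcongr
        · linarith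
        · rw [norm_div, norm_one, div_le_iff₀ (by linarith)]; linarith
      _ ≤ 31 * LL t := by linarith
  have hx0 : 0 < 18 / x := by positivity
  have h1 : 1 ≤ (18 / x) ^ 3 * ‖riemannZeta (1 + x + Complex.I * t)‖ ^ 4 * (31 * LL t) := by
    refine h.trans ?_
    gcongr
  rw [div_le_iff₀ (by positivity)]
  have h2 : (18 / x) ^ 3 = 5832 / x ^ 3 := by rw [div_pow]; norm_num
  rw [h2] at h1
  have hx3 : 0 < x ^ 3 := by positivity
  rw [div_mul_eq_mul_div, div_mul_eq_mul_div, le_div_iff₀ hx3] at h1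
  linarith

lemma zeta_deriv_bound {s : ℂ} (h1 : 1 - 1 / (8 * LL s.im) ≤ s.re) (h3 : s.re ≤ 2) (ht : 1 ≤ |s.im|) :
    ‖deriv riemannZeta s‖ ≤ 241 * LL s.im ^ 2 := by
  have hL := LL_ge_one s.im
  have hs1 : s ≠ 1 := by
    rintro rfl
    simp at ht
    linarith
  have hs1' : s - 1 ≠ 0 := sub_ne_zero.mpr hs1
  have h2 : riemannZeta =ᶠ[𝓝 s] fun z => W z + (z - 1)⁻¹ := by
    filter_upwards [isOpen_ne.mem_nhds hs1] with z hz
    rw [W_of_ne hz]; ring
  rw [h2.deriv_eq]
  have h4 : HasDerivAt (fun z => W z + (z - 1)⁻¹) (deriv W s + -(1) / (s - 1) ^ 2) s :=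
    (W_differentiable s).hasDerivAt.add (((hasDerivAt_id' s).sub_const 1).inv hs1')
  rw [h4.deriv]
  have h5 : 1 ≤ ‖s - 1‖ := by
    have := Complex.abs_im_le_norm (s - 1)
    rw [Complex.sub_im, Complex.one_im, sub_zero] at this
    linarith
  have h6 : ‖-(1 : ℂ) / (s - 1) ^ 2‖ ≤ 1 := by
    rw [norm_div, norm_neg, norm_one, norm_pow, div_le_iff₀ (by positivity)]
    nlinarith
  calc _ ≤ ‖deriv W s‖ + ‖-(1 : ℂ) / (s - 1) ^ 2‖ := norm_add_le _ _
    _ ≤ 240 * LL s.im ^ 2 + 1 := add_le_add (deriv_W_bound h1 h3) h6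
    _ ≤ 241 * LL s.im ^ 2 := by nlinarith

/-- the constant of the zero-free region -/
noncomputable def kap0 : ℝ := 1 / (180792 * 964 ^ 4)

lemma kap0_pos : 0 < kap0 := by unfold kap0; positivity
lemma kap0_le : kap0 ≤ 1 / 8 := by unfold kap0; norm_num

lemma zeta_lower {σ t : ℝ} (ht : 1 ≤ |t|) (hσ : 1 - kap0 / LL t ^ 9 ≤ σ) (hσ2 : σ ≤ 2) :
    482 * kap0 / LL t ^ 7 ≤ ‖riemannZeta (σ + Complex.I * t)‖ := by
  have hL := LL_ge_one t
  have hL0 := LL_pos t
  have hk := kap0_pos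
  have hk8 := kap0_le
  set L := LL t with hLdef
  set x0 : ℝ := kap0 / L ^ 9 with hx0
  have hL9 : 1 ≤ L ^ 9 := one_le_pow₀ hL
  have hx0pos : 0 < x0 := by positivity
  have hx0le : x0 ≤ 1 / 8 := by
    rw [hx0, div_le_iff₀ (by positivity)]
    nlinarith
  have hx0le2 : x0 ≤ 1 / (8 * L) := by
    rw [hx0, div_le_div_iff₀ (by positivity) (by positivity)]
    have : L ≤ L ^ 9 := by
      calc L = L ^ 1 := (pow_one L).symm
        _ ≤ L ^ 9 := pow_le_pow_right₀ hL (by norm_num)
    nlinarith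
  have hM : kap0 ^ 3 / 180792 = (964 * kap0) ^ 4 := by
    unfold kap0
    norm_num
  have key : ∀ x : ℝ, x0 ≤ x → x ≤ 1 → 964 * kap0 / L ^ 7 ≤ ‖riemannZeta (1 + x + Complex.I * t)‖ := by
    intro x hx hx1
    have h1 := zeta_lower_right (x := x) (t := t) (by linarith) hx1 ht
    apply le_of_pow_le_pow_left₀ (n := 4) (by norm_num) (norm_nonneg _)
    refine le_trans ?_ h1
    calc (964 * kap0 / L ^ 7) ^ 4 = (kap0 ^ 3 / 180792) / (L ^ 28) := by
          rw [hM, div_pow]
          congr 1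
          ring
      _ = x0 ^ 3 / (180792 * L) := by
          rw [hx0]
          field_simp
      _ ≤ x ^ 3 / (180792 * L) := by gcongr
  by_cases hcase : 1 + x0 ≤ σ
  · have h1 := key (σ - 1) (by linarith) (by linarith)
    have e : (1 + ((σ - 1 : ℝ) : ℂ) + Complex.I * t) = (σ : ℂ) + Complex.I * t := by push_cast; ring
    rw [e] at h1
    refine le_trans ?_ h1
    gcongr
    norm_num
  · push Not at hcase
    have h1 := key x0 le_rfl (by linarith)
    have e : (1 + (x0 : ℂ) + Complex.I * t) = ((1 + x0 : ℝ) : ℂ) + Complex.I * t := by push_cast; ring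
    rw [e] at h1
    -- mean value on the segment
    set S : Set ℂ := {z | 1 - 1 / (8 * L) ≤ z.re ∧ z.re ≤ 2 ∧ z.im = t} with hS
    have hconv : Convex ℝ S := by
      have e : S = {z : ℂ | 1 - 1 / (8 * L) ≤ z.re} ∩ {z : ℂ | z.re ≤ 2} ∩ ({z : ℂ | t ≤ z.im} ∩ {z : ℂ | z.im ≤ t}) := by
        ext z
        simp only [hS, Set.mem_ofPred_eq, Set.mem_inter_iff]
        constructor
        · rintro ⟨h1, h2, h3⟩
          exact ⟨⟨h1, h2⟩, h3.ge, h3.le⟩
        · rintro ⟨⟨h1, h2⟩, h3, h4⟩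
          exact ⟨h1, h2, le_antisymm h4 h3⟩
      rw [e]
      exact ((convex_halfSpace_re_ge _).inter (convex_halfSpace_re_le 2)).inter
        ((convex_halfSpace_im_ge t).inter (convex_halfSpace_im_le t))
    have h2 : ‖riemannZeta ((1 + x0 : ℝ) + Complex.I * t) - riemannZeta (σ + Complex.I * t)‖
        ≤ 241 * L ^ 2 * ‖(((1 + x0 : ℝ) : ℂ) + Complex.I * t) - (σ + Complex.I * t)‖ := by
      apply hconv.norm_image_sub_le_of_norm_deriv_le (𝕜 := ℂ) (f := riemannZeta)
      · intro z hz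
        apply differentiableAt_riemannZeta
        rintro rfl
        have := hz.2.2
        simp at this
        rw [← this] at ht
        simp at ht
        linarith
      · intro z hz
        obtain ⟨hz1, hz2, hz3⟩ := hz
        have h3 := zeta_deriv_bound (s := z) (by rw [hz3]; exact hz1) hz2 (by rw [hz3]; exact ht)
        rw [hz3] at h3
        exact h3
      · refine ⟨?_, ?_, ?_⟩
        · rw [mk_re]; linarith
        · rw [mk_re]; exact hσ2
        · rw [mk_im]
      · refine ⟨?_, ?_, ?_⟩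
        · rw [mk_re]
          have : 0 < 1 / (8 * L) := by positivity
          linarith
        · rw [mk_re]; linarith
        · rw [mk_im]
    have h3 : ‖(((1 + x0 : ℝ) : ℂ) + Complex.I * t) - (σ + Complex.I * t)‖ ≤ 2 * x0 := by
      have e : (((1 + x0 : ℝ) : ℂ) + Complex.I * t) - (σ + Complex.I * t) = ((1 + x0 - σ : ℝ) : ℂ) := by push_cast; ring
      rw [e, Complex.norm_real, Real.norm_of_nonneg (by linarith)]
      linarith
    have h4 : 241 * L ^ 2 * ‖(((1 + x0 : ℝ) : ℂ) + Complex.I * t) - (σ + Complex.I * t)‖ ≤ 482 * kap0 / L ^ 7 := by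
      calc _ ≤ 241 * L ^ 2 * (2 * x0) := by gcongr
        _ = 482 * kap0 / L ^ 7 := by
          rw [hx0]; field_simp; norm_num
    have h5 := norm_sub_norm_le (riemannZeta ((1 + x0 : ℝ) + Complex.I * t)) (riemannZeta (σ + Complex.I * t))
    have h6 : 964 * kap0 / L ^ 7 = 482 * kap0 / L ^ 7 + 482 * kap0 / L ^ 7 := by ring
    linarith

lemma zlk_im (s : ℂ) : s = ((s.re : ℝ) : ℂ) + Complex.I * (s.im : ℝ) := by
  apply Complex.ext <;> simp

/-- lower bound for `(s-1)ζ(s)` in the zero-free region -/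
lemma Z_lower : ∃ κ c : ℝ, 0 < κ ∧ κ ≤ 1 / 8 ∧ 0 < c ∧ c ≤ 1 ∧ ∀ s : ℂ, 1 - κ / LL s.im ^ 9 ≤ s.re → s.re ≤ 2 →
    c / LL s.im ^ 7 ≤ ‖Z s‖ := by
  -- compactness for small height
  set Q : Set ℂ := {z | 1 ≤ z.re ∧ z.re ≤ 2 ∧ -1 ≤ z.im ∧ z.im ≤ 1} with hQ
  have hQc : IsCompact Q := by
    have e : Q = (Icc (1 : ℝ) 2) ×ℂ (Icc (-1 : ℝ) 1) := by
      ext z
      simp only [hQ, Set.mem_ofPred_eq, Complex.mem_reProdIm, Set.mem_Icc]
      tauto
    rw [e]
    exact IsCompact.reProdIm isCompact_Icc isCompact_Icc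
  have hQne : Q.Nonempty := ⟨1, by simp [hQ]⟩
  obtain ⟨z0, hz0, hmin⟩ := hQc.exists_isMinOn hQne (Z_differentiable.continuous.norm.continuousOn)
  have hZne : ∀ z ∈ Q, Z z ≠ 0 := by
    intro z hz
    by_cases h1 : z = 1
    · subst h1
      unfold Z
      simp
    · rw [Z_of_ne h1]
      exact mul_ne_zero (sub_ne_zero.mpr h1) (riemannZeta_ne_zero_of_one_le_re hz.1)
  set m : ℝ := ‖Z z0‖ with hm
  have hm0 : 0 < m := norm_pos_iff.mpr (hZne z0 hz0)
  have hk := kap0_pos
  have hk8 := kap0_le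
  set κ : ℝ := min kap0 (m / (2 * 255 * 4 * 4)) with hκ
  have hκ0 : 0 < κ := by
    rw [hκ]
    apply lt_min hk
    positivity
  refine ⟨κ, min 1 (min (m / 2) (482 * kap0)), hκ0, (min_le_left _ _).trans hk8, by positivity, min_le_left _ _, ?_⟩
  intro s hs hs2
  have hL := LL_ge_one s.im
  have hL0 := LL_pos s.im
  set L := LL s.im with hLdef
  have hL9 : 1 ≤ L ^ 9 := one_le_pow₀ hL
  have hL7 : 1 ≤ L ^ 7 := one_le_pow₀ hL
  by_cases ht : 1 ≤ |s.im|
  · have h1 : 1 - kap0 / L ^ 9 ≤ s.re := by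
      have : κ / L ^ 9 ≤ kap0 / L ^ 9 := by
        gcongr
        exact min_le_left _ _
      linarith
    have h2 := zeta_lower ht h1 hs2
    rw [← zlk_im] at h2
    have hs1 : s ≠ 1 := by
      rintro rfl
      simp at ht
      linarith
    rw [Z_of_ne hs1, norm_mul]
    have h5 : 1 ≤ ‖s - 1‖ := by
      have := Complex.abs_im_le_norm (s - 1)
      rw [Complex.sub_im, Complex.one_im, sub_zero] at this
      linarith
    calc min 1 (min (m / 2) (482 * kap0)) / L ^ 7 ≤ 482 * kap0 / L ^ 7 := by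
          gcongr
          exact (min_le_right _ _).trans (min_le_right _ _)
      _ ≤ ‖riemannZeta s‖ := h2
      _ = 1 * ‖riemannZeta s‖ := (one_mul _).symm
      _ ≤ _ := by gcongr
  · push Not at ht
    have htt := abs_lt.mp ht
    have hc : min 1 (min (m / 2) (482 * kap0)) / L ^ 7 ≤ m / 2 := by
      calc min 1 (min (m / 2) (482 * kap0)) / L ^ 7 ≤ min 1 (min (m / 2) (482 * kap0)) / 1 := by
            gcongr
        _ ≤ m / 2 := by
            rw [div_one]
            exact (min_le_right _ _).trans (min_le_left _ _)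
    refine hc.trans ?_
    by_cases hre : 1 ≤ s.re
    · have h1 : s ∈ Q := ⟨hre, hs2, by linarith, by linarith⟩
      have h2 := hmin h1
      have h3 : m ≤ ‖Z s‖ := h2
      linarith
    · push Not at hre
      -- move to the line
      set S : Set ℂ := {z | 1 - κ / L ^ 9 ≤ z.re ∧ z.re ≤ 2 ∧ z.im = s.im} with hS
      have hconv : Convex ℝ S := by
        have e : S = {z : ℂ | 1 - κ / L ^ 9 ≤ z.re} ∩ {z : ℂ | z.re ≤ 2} ∩ ({z : ℂ | s.im ≤ z.im} ∩ {z : ℂ | z.im ≤ s.im}) := by
          ext z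
          simp only [hS, Set.mem_ofPred_eq, Set.mem_inter_iff]
          constructor
          · rintro ⟨h1, h2, h3⟩
            exact ⟨⟨h1, h2⟩, h3.ge, h3.le⟩
          · rintro ⟨⟨h1, h2⟩, h3, h4⟩
            exact ⟨h1, h2, le_antisymm h4 h3⟩
        rw [e]
        exact ((convex_halfSpace_re_ge _).inter (convex_halfSpace_re_le 2)).inter
          ((convex_halfSpace_im_ge _).inter (convex_halfSpace_im_le _))
      have hκL : κ / L ^ 9 ≤ 1 / (8 * L) := by
        have hκ8 : κ ≤ 1 / 8 := (min_le_left _ _).trans hk8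
        rw [div_le_div_iff₀ (by positivity) (by positivity)]
        have : L ≤ L ^ 9 := by
          calc L = L ^ 1 := (pow_one L).symm
            _ ≤ L ^ 9 := pow_le_pow_right₀ hL (by norm_num)
        nlinarith
      have hL2 : L ≤ 2 := by
        rw [hLdef]
        unfold LL
        rw [Real.log_le_iff_le_exp (by positivity)]
        have h7 := Real.exp_one_gt_d9
        have h8 : Real.exp 2 = Real.exp 1 * Real.exp 1 := by rw [← Real.exp_add]; norm_num
        rw [h8]
        nlinarith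
      have h1 : ((1 : ℝ) : ℂ) + Complex.I * (s.im : ℝ) ∈ Q := by
        refine ⟨?_, ?_, ?_, ?_⟩
        · rw [mk_re]
        · rw [mk_re]; norm_num
        · rw [mk_im]; linarith
        · rw [mk_im]; linarith
      have h2 : m ≤ ‖Z (((1 : ℝ) : ℂ) + Complex.I * (s.im : ℝ))‖ := hmin h1
      have h3 : ‖Z (((1 : ℝ) : ℂ) + Complex.I * (s.im : ℝ)) - Z s‖ ≤ (255 * 4 * 4) * ‖(((1 : ℝ) : ℂ) + Complex.I * (s.im : ℝ)) - s‖ := by
        apply hconv.norm_image_sub_le_of_norm_deriv_le (𝕜 := ℂ) (f := Z)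
        · intro z _
          exact Z_differentiable z
        · intro z hz
          obtain ⟨hz1, hz2, hz3⟩ := hz
          have h4 := deriv_Z_bound (s := z) (by rw [hz3]; linarith) hz2
          rw [hz3] at h4
          refine h4.trans ?_
          have h5 : LL s.im ^ 2 ≤ 4 := by nlinarith
          calc 255 * (|s.im| + 3) * LL s.im ^ 2 ≤ 255 * 4 * 4 := by
                gcongr
                linarith
            _ = _ := by ring
        · exact ⟨hs, hs2, rfl⟩
        · refine ⟨?_, ?_, ?_⟩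
          · rw [mk_re]
            have : 0 < κ / L ^ 9 := by positivity
            linarith
          · rw [mk_re]; norm_num
          · rw [mk_im]
      have h4 : ‖(((1 : ℝ) : ℂ) + Complex.I * (s.im : ℝ)) - s‖ ≤ κ := by
        have e : (((1 : ℝ) : ℂ) + Complex.I * (s.im : ℝ)) - s = ((1 - s.re : ℝ) : ℂ) := by
          apply Complex.ext <;> simp
        rw [e, Complex.norm_real, Real.norm_of_nonneg (by linarith)]
        have : κ / L ^ 9 ≤ κ := div_le_self hκ0.le hL9
        linarith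
      have h5 : κ ≤ m / (2 * 255 * 4 * 4) := min_le_right _ _
      have h6 : (255 * 4 * 4) * ‖(((1 : ℝ) : ℂ) + Complex.I * (s.im : ℝ)) - s‖ ≤ m / 2 := by
        calc _ ≤ (255 * 4 * 4) * (m / (2 * 255 * 4 * 4)) := by gcongr; exact h4.trans h5
          _ = m / 2 := by ring
      have h7 := norm_sub_norm_le (Z (((1 : ℝ) : ℂ) + Complex.I * (s.im : ℝ))) (Z s)
      linarith

/-- `-ζ'/ζ - ζ` -/
noncomputable def K (s : ℂ) : ℂ := -W s - deriv Z s / Z s

/-- The zero-free region and the bound for `K`. -/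
theorem K_region : ∃ κ C : ℝ, 0 < κ ∧ κ ≤ 1 / 8 ∧ 0 < C ∧ ∀ s : ℂ, 1 - κ / LL s.im ^ 9 ≤ s.re → s.re ≤ 2 →
    DifferentiableAt ℂ K s ∧ ‖K s‖ ≤ C * (|s.im| + 3) ^ 2 := by
  obtain ⟨κ, c, hκ, hκ8, hc, hc1, h⟩ := Z_lower
  refine ⟨κ, 15 + 255 * 9 ^ 9 / c, hκ, hκ8, by positivity, ?_⟩
  intro s hs hs2
  have h1 := h s hs hs2
  have hL := LL_ge_one s.im
  have hL0 := LL_pos s.im
  have hκL : κ / LL s.im ^ 9 ≤ 1 / (8 * LL s.im) := by
    rw [div_le_div_iff₀ (by positivity) (by positivity)]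
    have : LL s.im ≤ LL s.im ^ 9 := by
      calc LL s.im = LL s.im ^ 1 := (pow_one _).symm
        _ ≤ LL s.im ^ 9 := pow_le_pow_right₀ hL (by norm_num)
    nlinarith
  have hs8 : 1 - 1 / (8 * LL s.im) ≤ s.re := by linarith
  have hs2' : 1 - 1 / (2 * LL s.im) ≤ s.re := by
    have : 1 / (8 * LL s.im) ≤ 1 / (2 * LL s.im) := by
      apply one_div_le_one_div_of_le (by positivity)
      linarith
    linarith
  have hZpos : 0 < ‖Z s‖ := lt_of_lt_of_le (by positivity) h1
  have hZne : Z s ≠ 0 := norm_pos_iff.mp hZpos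
  constructor
  · unfold K
    have hZ' : DifferentiableAt ℂ (deriv Z) s := by
      have : AnalyticOnNhd ℂ Z univ := Z_differentiable.differentiableOn.analyticOnNhd isOpen_univ
      exact (this.deriv s (mem_univ s)).differentiableAt
    exact (W_differentiable s).neg.sub (hZ'.div (Z_differentiable s) hZne)
  · set τ : ℝ := |s.im| + 3 with hτ
    have hτ3 : 3 ≤ τ := by rw [hτ]; linarith [abs_nonneg s.im]
    have hW := W_bound hs2' (by linarith)
    have hZ' := deriv_Z_bound hs8 hs2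
    have hL9 : LL s.im ^ 9 ≤ 9 ^ 9 * τ := by
      have h2 : LL s.im ≤ 9 * τ ^ ((1 : ℝ) / 9) := by
        have := Real.log_le_rpow_div (x := τ) (by linarith) (show (0 : ℝ) < 1 / 9 by norm_num)
        unfold LL
        rw [← hτ]
        linarith
      calc LL s.im ^ 9 ≤ (9 * τ ^ ((1 : ℝ) / 9)) ^ 9 := by gcongr
        _ = 9 ^ 9 * τ := by
          rw [mul_pow, ← Real.rpow_natCast (τ ^ ((1 : ℝ) / 9)) 9, ← Real.rpow_mul (by linarith)]
          norm_num
    have hLτ : LL s.im ≤ τ := by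
      unfold LL
      have := Real.log_le_sub_one_of_pos (show 0 < |s.im| + 3 by linarith)
      rw [hτ]; linarith
    have h3 : ‖deriv Z s / Z s‖ ≤ 255 * 9 ^ 9 / c * τ ^ 2 := by
      rw [norm_div]
      calc ‖deriv Z s‖ / ‖Z s‖ ≤ (255 * τ * LL s.im ^ 2) / (c / LL s.im ^ 7) := by gcongr
        _ = 255 * τ * LL s.im ^ 9 / c := by
          field_simp
        _ ≤ 255 * τ * (9 ^ 9 * τ) / c := by gcongr
        _ = _ := by ring
    unfold K
    calc ‖-W s - deriv Z s / Z s‖ ≤ ‖W s‖ + ‖deriv Z s / Z s‖ := by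
          refine (norm_sub_le _ _).trans ?_
          rw [norm_neg]
      _ ≤ 15 * τ ^ 2 + 255 * 9 ^ 9 / c * τ ^ 2 := by
          gcongr
          calc ‖W s‖ ≤ 15 * LL s.im := hW
            _ ≤ 15 * τ ^ 2 := by nlinarith
      _ = _ := by ring

/-- zero-free region -/
theorem zeta_zero_free : ∃ κ : ℝ, 0 < κ ∧ ∀ s : ℂ, 1 - κ / Real.log (|s.im| + 3) ^ 9 ≤ s.re → riemannZeta s ≠ 0 := by
  obtain ⟨κ, c, hκ, hκ8, hc, hc1, h⟩ := Z_lower
  refine ⟨κ, hκ, ?_⟩
  intro s hs
  by_cases hs2 : s.re ≤ 2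
  · have h1 := h s hs hs2
    have hL0 := LL_pos s.im
    have hZpos : 0 < ‖Z s‖ := lt_of_lt_of_le (by positivity) h1
    by_cases hs1 : s = 1
    · subst hs1
      exact riemannZeta_one_ne_zero
    · rw [Z_of_ne hs1] at hZpos
      have := norm_pos_iff.mp hZpos
      exact right_ne_zero_of_mul this
  · exact riemannZeta_ne_zero_of_one_le_re (by linarith)

lemma K_eq_right {s : ℂ} (hs : 1 < s.re) :
    K s = LSeries (fun n => ((ArithmeticFunction.vonMangoldt n : ℝ) : ℂ)) s - LSeries 1 s := by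
  have hs1 : s ≠ 1 := by
    rintro rfl
    simp at hs
  have hs1' : s - 1 ≠ 0 := sub_ne_zero.mpr hs1
  rw [LSeries_one_eq_riemannZeta hs]
  have h1 := ArithmeticFunction.LSeries_vonMangoldt_eq_deriv_riemannZeta_div hs
  have h2 : LSeries (fun n => ((ArithmeticFunction.vonMangoldt n : ℝ) : ℂ)) s = -deriv riemannZeta s / riemannZeta s := h1
  rw [h2]
  have hζ := riemannZeta_ne_zero_of_one_le_re hs.le
  have h3 : deriv Z s = riemannZeta s + (s - 1) * deriv riemannZeta s := by
    have h4 : Z =ᶠ[𝓝 s] fun z => (z - 1) * riemannZeta z := by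
      filter_upwards [isOpen_ne.mem_nhds hs1] with z hz
      exact Z_of_ne hz
    rw [h4.deriv_eq]
    have h5 : HasDerivAt (fun z => (z - 1) * riemannZeta z) (1 * riemannZeta s + (s - 1) * deriv riemannZeta s) s :=
      ((hasDerivAt_id' s).sub_const 1).mul (differentiableAt_riemannZeta hs1).hasDerivAt
    rw [h5.deriv]; ring
  unfold K
  rw [W_of_ne hs1, h3, Z_of_ne hs1]
  field_simp
  ring

end Pool.Agent.H17.ZB
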