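import Mathlib

/-! Wiener-Ikehara theorem for nonnegative sequences with a Chebyshev bound. -/

set_option autoImplicit false

open MeasureTheory Filter Topology Set

namespace Pool.Agent.H17.WI

/-- The Fejer kernel (Fourier transform of the triangle function). -/
noncomputable def fk (v : ℝ) : ℝ := if v = 0 then 1 else 2 * (1 - Real.cos v) / v ^ 2

lemma fk_nonneg (v : ℝ) : 0 ≤ fk v := by
  unfold fk; split_ifs
  · norm_num
  · have := Real.cos_le_one v
    have h : 0 ≤ 1 - Real.cos v := by linarith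
    positivity

lemma fk_le_one (v : ℝ) : fk v ≤ 1 := by
  unfold fk; split_ifs with h
  · norm_num
  · have := Real.one_sub_sq_div_two_le_cos (x := v)
    rw [div_le_one (by positivity)]
    linarith

lemma fk_le_four (v : ℝ) : fk v * v ^ 2 ≤ 4 := by
  unfold fk; split_ifs with h
  · subst h; norm_num
  · have := Real.neg_one_le_cos v
    rw [div_mul_cancel₀ _ (by positivity)]
    linarith

lemma fk_le (v : ℝ) : fk v ≤ 5 * (1 + v ^ 2)⁻¹ := by
  have h1 := fk_le_one v
  have h2 := fk_le_four v
  rw [← div_eq_mul_inv, le_div_iff₀ (by positivity)]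
  nlinarith

lemma fk_measurable : Measurable fk := by
  unfold fk
  refine Measurable.ite (measurableSet_eq) measurable_const ?_
  fun_prop

lemma fk_integrable : Integrable fk := by
  refine (integrable_inv_one_add_sq.const_mul 5).mono' fk_measurable.aestronglyMeasurable ?_
  filter_upwards with v
  rw [Real.norm_of_nonneg (fk_nonneg v)]
  exact fk_le v

lemma fk_neg (v : ℝ) : fk (-v) = fk v := by
  unfold fk; simp

/-- total mass -/
noncomputable def kap : ℝ := ∫ v, fk v

lemma kap_pos : 0 < kap := by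
  unfold kap
  rw [integral_pos_iff_support_of_nonneg fk_nonneg fk_integrable]
  refine lt_of_lt_of_le ?_ (measure_mono (s := Ioo 0 1) ?_)
  · simp
  · intro v hv
    simp only [Function.mem_support]
    unfold fk
    rw [if_neg hv.1.ne']
    have h1 : Real.cos v ≠ 1 := by
      intro h
      rw [Real.cos_eq_one_iff_of_lt_of_lt (by have := Real.pi_gt_three; linarith [hv.1])
        (by have := Real.pi_gt_three; linarith [hv.2])] at h
      exact hv.1.ne' h
    have h2 : 1 - Real.cos v ≠ 0 := fun h => h1 (by linarith)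
    have h3 : v ≠ 0 := hv.1.ne'
    positivity

/-- triangle function integral -/
lemma integral_tri (v : ℝ) :
    ∫ y in (-1 : ℝ)..1, ((1 - |y| : ℝ) : ℂ) * Complex.exp (Complex.I * v * y) = (fk v : ℂ) := by
  have hint : ∀ a b : ℝ, IntervalIntegrable
      (fun y : ℝ => ((1 - |y| : ℝ) : ℂ) * Complex.exp (Complex.I * v * y)) volume a b := by
    intro a b
    apply Continuous.intervalIntegrable
    fun_prop
  rw [← intervalIntegral.integral_add_adjacent_intervals (hint (-1) 0) (hint 0 1)]
  have h1 : ∫ y in (-1 : ℝ)..0, ((1 - |y| : ℝ) : ℂ) * Complex.exp (Complex.I * v * y)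
      = ∫ y in (-1 : ℝ)..0, (1 + y : ℂ) * Complex.exp (Complex.I * v * y) := by
    apply intervalIntegral.integral_congr
    intro y hy
    rw [uIcc_of_le (by norm_num)] at hy
    simp only
    rw [abs_of_nonpos hy.2]
    push_cast
    ring_nf
  have h2 : ∫ y in (0 : ℝ)..1, ((1 - |y| : ℝ) : ℂ) * Complex.exp (Complex.I * v * y)
      = ∫ y in (0 : ℝ)..1, (1 - y : ℂ) * Complex.exp (Complex.I * v * y) := by
    apply intervalIntegral.integral_congr
    intro y hy
    rw [uIcc_of_le (by norm_num)] at hy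
    simp only
    rw [abs_of_nonneg hy.1]
    push_cast
    ring_nf
  rw [h1, h2]
  by_cases hv : v = 0
  · subst hv
    have e1 : ∫ y in (-1 : ℝ)..0, (1 + y : ℂ) * Complex.exp (Complex.I * (0:ℝ) * y) = 1/2 := by
      have : ∀ y ∈ uIcc (-1 : ℝ) 0, HasDerivAt (fun y : ℝ => (y + y^2/2 : ℂ))
          ((1 + y : ℂ) * Complex.exp (Complex.I * (0:ℝ) * y)) y := by
        intro y _
        have h0 : HasDerivAt (fun y : ℝ => (y : ℂ)) 1 y := Complex.ofRealCLM.hasDerivAt
        have := h0.add ((h0.pow 2).div_const 2)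
        refine this.congr_deriv ?_
        simp
      rw [intervalIntegral.integral_eq_sub_of_hasDerivAt this]
      · push_cast; norm_num
      · apply Continuous.intervalIntegrable; fun_prop
    have e2 : ∫ y in (0 : ℝ)..1, (1 - y : ℂ) * Complex.exp (Complex.I * (0:ℝ) * y) = 1/2 := by
      have : ∀ y ∈ uIcc (0 : ℝ) 1, HasDerivAt (fun y : ℝ => (y - y^2/2 : ℂ))
          ((1 - y : ℂ) * Complex.exp (Complex.I * (0:ℝ) * y)) y := by
        intro y _
        have h0 : HasDerivAt (fun y : ℝ => (y : ℂ)) 1 y := Complex.ofRealCLM.hasDerivAt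
        have := h0.sub ((h0.pow 2).div_const 2)
        refine this.congr_deriv ?_
        simp
      rw [intervalIntegral.integral_eq_sub_of_hasDerivAt this]
      · push_cast; norm_num
      · apply Continuous.intervalIntegrable; fun_prop
    rw [e1, e2]
    simp [fk]
    norm_num
  · have hc : (Complex.I * v : ℂ) ≠ 0 := by
      simp [hv]
    set c : ℂ := Complex.I * v with hcdef
    have e1 : ∫ y in (-1 : ℝ)..0, (1 + y : ℂ) * Complex.exp (c * y)
        = (1 / c - 1 / c ^ 2) - (0 / c - 1 / c ^ 2) * Complex.exp (-c) := by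
      have : ∀ y ∈ uIcc (-1 : ℝ) 0, HasDerivAt
          (fun y : ℝ => (((1 + y) / c - 1 / c ^ 2) * Complex.exp (c * y) : ℂ))
          ((1 + y : ℂ) * Complex.exp (c * y)) y := by
        intro y _
        have h0 : HasDerivAt (fun y : ℝ => (y : ℂ)) 1 y := Complex.ofRealCLM.hasDerivAt
        have h1 : HasDerivAt (fun y : ℝ => ((1 + y) / c - 1 / c ^ 2 : ℂ)) (1 / c) y := by
          have := ((h0.const_add 1).div_const c).sub_const (1 / c ^ 2)
          exact this
        have h2 : HasDerivAt (fun y : ℝ => Complex.exp (c * y)) (Complex.exp (c * y) * (c * 1)) y :=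
          (h0.const_mul c).cexp
        have := h1.mul h2
        refine this.congr_deriv ?_
        field_simp
        ring
      rw [intervalIntegral.integral_eq_sub_of_hasDerivAt this]
      · push_cast
        simp
      · apply Continuous.intervalIntegrable; fun_prop
    have e2 : ∫ y in (0 : ℝ)..1, (1 - y : ℂ) * Complex.exp (c * y)
        = (0 / c + 1 / c ^ 2) * Complex.exp (c) - (1 / c + 1 / c ^ 2) := by
      have : ∀ y ∈ uIcc (0 : ℝ) 1, HasDerivAt
          (fun y : ℝ => (((1 - y) / c + 1 / c ^ 2) * Complex.exp (c * y) : ℂ))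
          ((1 - y : ℂ) * Complex.exp (c * y)) y := by
        intro y _
        have h0 : HasDerivAt (fun y : ℝ => (y : ℂ)) 1 y := Complex.ofRealCLM.hasDerivAt
        have h1 : HasDerivAt (fun y : ℝ => ((1 - y) / c + 1 / c ^ 2 : ℂ)) (-1 / c) y := by
          have := ((h0.const_sub 1).div_const c).add_const (1 / c ^ 2)
          exact this
        have h2 : HasDerivAt (fun y : ℝ => Complex.exp (c * y)) (Complex.exp (c * y) * (c * 1)) y :=
          (h0.const_mul c).cexp
        have := h1.mul h2
        refine this.congr_deriv ?_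
        field_simp
        ring
      rw [intervalIntegral.integral_eq_sub_of_hasDerivAt this]
      · push_cast
        simp
      · apply Continuous.intervalIntegrable; fun_prop
    rw [e1, e2]
    unfold fk
    rw [if_neg hv]
    push_cast
    rw [Complex.cos]
    have hv' : (v : ℂ) ≠ 0 := by exact_mod_cast hv
    have e3 : (v : ℂ) * Complex.I = c := by rw [hcdef]; ring
    have e4 : -(v : ℂ) * Complex.I = -c := by rw [hcdef]; ring
    rw [e3, e4]
    have hc2 : c ^ 2 = - (v : ℂ) ^ 2 := by
      rw [hcdef, mul_pow, Complex.I_sq]; ring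
    rw [hc2]
    field_simp
    ring


/-- summatory function -/
noncomputable def SS (f : ℕ → ℝ) (x : ℝ) : ℝ := ∑ n ∈ Finset.Icc 1 ⌊x⌋₊, f n

/-- normalised summatory function in exponential variable -/
noncomputable def BB (f : ℕ → ℝ) (t : ℝ) : ℝ := SS f (Real.exp t) * Real.exp (-t)

lemma SS_mono {f : ℕ → ℝ} (hf : ∀ n, 0 ≤ f n) : Monotone (SS f) := by
  intro x y hxy
  unfold SS
  apply Finset.sum_le_sum_of_subset_of_nonneg
  · exact Finset.Icc_subset_Icc_right (Nat.floor_mono hxy)
  · intro i _ _; exact hf i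

lemma BB_nonneg {f : ℕ → ℝ} (hf : ∀ n, 0 ≤ f n) (t : ℝ) : 0 ≤ BB f t := by
  unfold BB SS
  have : 0 ≤ ∑ n ∈ Finset.Icc 1 ⌊Real.exp t⌋₊, f n := Finset.sum_nonneg (fun i _ => hf i)
  positivity

lemma BB_measurable {f : ℕ → ℝ} (hf : ∀ n, 0 ≤ f n) : Measurable (BB f) := by
  unfold BB
  exact ((SS_mono hf).measurable.comp Real.measurable_exp).mul
    (Real.measurable_exp.comp measurable_neg)

lemma BB_le {f : ℕ → ℝ} {C : ℝ} (hC0 : 0 ≤ C)
    (hC : ∀ n : ℕ, ∑ k ∈ Finset.Icc 1 n, f k ≤ C * n) (t : ℝ) : BB f t ≤ C := by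
  unfold BB SS
  have h1 : ∑ n ∈ Finset.Icc 1 ⌊Real.exp t⌋₊, f n ≤ C * Real.exp t := by
    refine (hC _).trans ?_
    gcongr
    exact Nat.floor_le (Real.exp_pos t).le
  calc _ ≤ (C * Real.exp t) * Real.exp (-t) := by gcongr
    _ = C := by rw [mul_assoc, ← Real.exp_add]; simp

lemma BB_slow {f : ℕ → ℝ} (hf : ∀ n, 0 ≤ f n) {t t' : ℝ} (h : t ≤ t') :
    BB f t * Real.exp (-(t' - t)) ≤ BB f t' := by
  unfold BB
  rw [mul_assoc, ← Real.exp_add]
  have : -t + -(t' - t) = -t' := by ring
  rw [this]
  gcongr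
  exact SS_mono hf (Real.exp_le_exp.mpr h)

lemma laplace {f : ℕ → ℝ} (hf : ∀ n, 0 ≤ f n) {C : ℝ}
    (hC : ∀ n : ℕ, ∑ k ∈ Finset.Icc 1 n, f k ≤ C * n) {s : ℂ} (hs : 1 < s.re) :
    ∫ t in Ioi (0 : ℝ), (BB f t : ℂ) * Complex.exp (-(s - 1) * t)
      = LSeries (fun n => (f n : ℂ)) s / s := by
  have hO : (fun n : ℕ => ∑ k ∈ Finset.Icc 1 n, f k) =O[atTop] fun n : ℕ => (n : ℝ) ^ (1 : ℝ) := by
    apply Asymptotics.IsBigO.of_bound C
    filter_upwards with n
    rw [Real.norm_of_nonneg (Finset.sum_nonneg fun i _ => hf i), Real.rpow_one,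
      Real.norm_of_nonneg (by positivity)]
    exact hC n
  have key := LSeries_eq_mul_integral_of_nonneg f (zero_le_one) hs hO hf
  have hs0 : s ≠ 0 := by
    intro h; rw [h] at hs; simp at hs; linarith
  rw [key, mul_div_cancel_left₀ _ hs0]
  have h2 := integral_comp_exp_Ioi
    (fun x : ℝ => (∑ k ∈ Finset.Icc 1 ⌊x⌋₊, (f k : ℂ)) * (x : ℂ) ^ (-(s + 1))) 0
  rw [Real.exp_zero] at h2
  rw [← h2]
  refine setIntegral_congr_fun measurableSet_Ioi (fun t _ => ?_)
  simp only [BB, SS]
  rw [Complex.real_smul]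
  have h3 : ((Real.exp t : ℝ) : ℂ) ^ (-(s + 1)) = Complex.exp (-(s + 1) * t) := by
    rw [Complex.cpow_def_of_ne_zero (by exact_mod_cast (Real.exp_pos t).ne')]
    rw [← Complex.ofReal_log (Real.exp_pos t).le, Real.log_exp]
    ring_nf
  rw [h3]
  push_cast
  have h4 : Complex.exp (-(s - 1) * t) = Complex.exp t * Complex.exp t * Complex.exp (-(s + 1) * t) := by
    rw [← Complex.exp_add, ← Complex.exp_add]; ring_nf
  rw [h4]
  have h5 : Complex.exp (-(t : ℂ)) * Complex.exp t = 1 := by
    rw [← Complex.exp_add]; simp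
  linear_combination (∑ x ∈ Finset.Icc 1 ⌊Real.exp t⌋₊, (f x : ℂ)) * Complex.exp t * Complex.exp (-(s + 1) * t) * h5

/-- The transform of `B - A`. -/
lemma laplace_sub {f : ℕ → ℝ} (hf : ∀ n, 0 ≤ f n) {C A : ℝ} (hC0 : 0 ≤ C)
    (hC : ∀ n : ℕ, ∑ k ∈ Finset.Icc 1 n, f k ≤ C * n) {s : ℂ} (hs : 1 < s.re) :
    ∫ t in Ioi (0 : ℝ), ((BB f t - A : ℝ) : ℂ) * Complex.exp (-(s - 1) * t)
      = (LSeries (fun n => (f n : ℂ)) s - A / (s - 1) - A) / s := by
  have hre : (-(s - 1)).re < 0 := by simp; linarith
  have i1 : IntegrableOn (fun t : ℝ => (A : ℂ) * Complex.exp (-(s - 1) * t)) (Ioi 0) :=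
    (integrableOn_exp_mul_complex_Ioi hre 0).const_mul _
  have i2 : IntegrableOn (fun t : ℝ => (BB f t : ℂ) * Complex.exp (-(s - 1) * t)) (Ioi 0) := by
    refine Integrable.mono' ((integrableOn_exp_mul_complex_Ioi hre 0).norm.const_mul C) ?_ ?_
    · apply Measurable.aestronglyMeasurable
      have := BB_measurable hf
      fun_prop
    · filter_upwards with t
      rw [norm_mul, Complex.norm_real, Real.norm_of_nonneg (BB_nonneg hf t)]
      gcongr
      exact BB_le hC0 hC t
  have : ∫ t in Ioi (0 : ℝ), ((BB f t - A : ℝ) : ℂ) * Complex.exp (-(s - 1) * t)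
      = (∫ t in Ioi (0 : ℝ), (BB f t : ℂ) * Complex.exp (-(s - 1) * t))
        - ∫ t in Ioi (0 : ℝ), (A : ℂ) * Complex.exp (-(s - 1) * t) := by
    rw [← integral_sub i2 i1]
    congr 1
    ext t
    push_cast
    ring
  rw [this, laplace hf hC hs]
  rw [integral_const_mul, integral_exp_mul_complex_Ioi hre 0]
  have hs0 : s ≠ 0 := by
    intro h; rw [h] at hs; simp at hs; linarith
  have hs1 : s - 1 ≠ 0 := by
    intro h
    have : s = 1 := by linear_combination h
    rw [this] at hs; simp at hs
  have he : Complex.exp (-(s - 1) * ((0 : ℝ) : ℂ)) = 1 := by simp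
  rw [he]
  have hs2 : -(s - 1) ≠ 0 := neg_ne_zero.mpr hs1
  have e : (A : ℂ) * (-1 / -(s - 1)) = A / (s - 1) := by
    field_simp
  rw [e]
  field_simp
  ring


lemma fubini {f : ℕ → ℝ} (hf : ∀ n, 0 ≤ f n) {C A : ℝ} (hC0 : 0 ≤ C)
    (hC : ∀ n : ℕ, ∑ k ∈ Finset.Icc 1 n, f k ≤ C * n) {δ l : ℝ} (hδ : 0 < δ) (u : ℝ) :
    ∫ y in (-1 : ℝ)..1, ((1 - |y| : ℝ) : ℂ) * Complex.exp (Complex.I * (l * u) * y) *
      ((LSeries (fun n => (f n : ℂ)) (1 + δ + Complex.I * (l * y))
          - A / ((1 + δ + Complex.I * (l * y)) - 1) - A) / (1 + δ + Complex.I * (l * y)))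
      = ∫ t in Ioi (0 : ℝ), (((BB f t - A) * Real.exp (-δ * t) * fk (l * (u - t)) : ℝ) : ℂ) := by
  have h1 : ∀ y : ℝ, ((LSeries (fun n => (f n : ℂ)) (1 + δ + Complex.I * (l * y))
          - A / ((1 + δ + Complex.I * (l * y)) - 1) - A) / (1 + δ + Complex.I * (l * y)))
      = ∫ t in Ioi (0 : ℝ), ((BB f t - A : ℝ) : ℂ) *
          Complex.exp (-((1 + δ + Complex.I * (l * y)) - 1) * t) := by
    intro y
    rw [laplace_sub hf hC0 hC]
    simp
    linarith
  simp_rw [h1]
  simp_rw [← integral_const_mul]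
  rw [intervalIntegral.integral_of_le (by norm_num)]
  rw [integral_integral_swap]
  · refine setIntegral_congr_fun measurableSet_Ioi (fun t _ => ?_)
    rw [← intervalIntegral.integral_of_le (by norm_num)]
    have h2 : ∀ y : ℝ, ((1 - |y| : ℝ) : ℂ) * Complex.exp (Complex.I * (l * u) * y) *
        (((BB f t - A : ℝ) : ℂ) * Complex.exp (-((1 + δ + Complex.I * (l * y)) - 1) * t))
        = (((BB f t - A) * Real.exp (-δ * t) : ℝ) : ℂ) *
          (((1 - |y| : ℝ) : ℂ) * Complex.exp (Complex.I * (l * (u - t) : ℝ) * y)) := by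
      intro y
      have e1 : Complex.exp (Complex.I * (l * u) * y) * Complex.exp (-((1 + δ + Complex.I * (l * y)) - 1) * t)
          = Complex.exp (-δ * t) * Complex.exp (Complex.I * (l * (u - t) : ℝ) * y) := by
        rw [← Complex.exp_add, ← Complex.exp_add]
        congr 1
        push_cast
        ring
      push_cast at e1 ⊢
      linear_combination (1 - ((|y| : ℝ) : ℂ)) * ((BB f t : ℂ) - A) * e1
    simp_rw [h2]
    rw [intervalIntegral.integral_const_mul, integral_tri]
    push_cast
    ring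
  · -- integrability on the product
    have hb1 : Integrable (fun _ : ℝ => (1 : ℝ)) (volume.restrict (Ioc (-1 : ℝ) 1)) := by
      apply integrable_const
    have hb2 : Integrable (fun t : ℝ => (C + |A|) * Real.exp (-δ * t)) (volume.restrict (Ioi (0:ℝ))) :=
      (integrableOn_exp_mul_Ioi (by linarith) 0).const_mul _
    refine Integrable.mono' (hb1.mul_prod hb2) ?_ ?_
    · apply Measurable.aestronglyMeasurable
      have := BB_measurable hf
      unfold Function.uncurry
      fun_prop
    · have hmem : ∀ᵐ z : ℝ × ℝ ∂((volume.restrict (Ioc (-1 : ℝ) 1)).prod (volume.restrict (Ioi (0:ℝ)))),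
          z ∈ Ioc (-1 : ℝ) 1 ×ˢ Ioi (0:ℝ) := by
        rw [Measure.prod_restrict]
        exact ae_restrict_mem (measurableSet_Ioc.prod measurableSet_Ioi)
      filter_upwards [hmem] with z hz
      simp only [Function.uncurry]
      have e1 : ‖((1 - |z.1| : ℝ) : ℂ)‖ ≤ 1 := by
        rw [Complex.norm_real, Real.norm_eq_abs, abs_le]
        have h1 := hz.1.1
        have h2 := hz.1.2
        have h3 : |z.1| ≤ 1 := abs_le.mpr ⟨h1.le, h2⟩
        have h4 := abs_nonneg z.1
        constructor <;> linarith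
      have e2 : ‖Complex.exp (Complex.I * (l * u) * z.1)‖ = 1 := by
        rw [Complex.norm_exp]
        simp
      have e3 : ‖((BB f z.2 - A : ℝ) : ℂ)‖ ≤ C + |A| := by
        rw [Complex.norm_real, Real.norm_eq_abs]
        have h1 := BB_le hC0 hC z.2
        have h2 := BB_nonneg hf z.2
        calc |BB f z.2 - A| ≤ |BB f z.2| + |A| := abs_sub _ _
          _ ≤ C + |A| := by rw [abs_of_nonneg h2]; linarith
      have e4 : ‖Complex.exp (-((1 + δ + Complex.I * (l * z.1)) - 1) * z.2)‖ = Real.exp (-δ * z.2) := by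
        rw [Complex.norm_exp]
        congr 1
        simp
      rw [norm_mul, norm_mul, norm_mul, e2, e4]
      have := Real.exp_pos (-δ * z.2)
      calc ‖((1 - |z.1| : ℝ) : ℂ)‖ * 1 * (‖((BB f z.2 - A : ℝ) : ℂ)‖ * Real.exp (-δ * z.2))
          ≤ 1 * 1 * ((C + |A|) * Real.exp (-δ * z.2)) := by gcongr
        _ = _ := by ring


lemma fk_comp_integrable {l : ℝ} (hl : l ≠ 0) (u : ℝ) : Integrable (fun t => fk (l * (u - t))) := by
  have h1 : Integrable (fun t => fk (l * t)) := fk_integrable.comp_mul_left' hl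
  exact h1.comp_sub_left u

lemma limit_id {f : ℕ → ℝ} (hf : ∀ n, 0 ≤ f n) {C A : ℝ} (hC0 : 0 ≤ C)
    (hC : ∀ n : ℕ, ∑ k ∈ Finset.Icc 1 n, f k ≤ C * n) {F : ℂ → ℂ}
    (hF : ContinuousOn F {s | 1 ≤ s.re})
    (hFL : ∀ s : ℂ, 1 < s.re → F s = LSeries (fun n => (f n : ℂ)) s - A / (s - 1))
    {l : ℝ} (hl : l ≠ 0) (u : ℝ) :
    ∫ t in Ioi (0 : ℝ), (((BB f t - A) * fk (l * (u - t)) : ℝ) : ℂ) =
    ∫ y in (-1 : ℝ)..1, ((1 - |y| : ℝ) : ℂ) * Complex.exp (Complex.I * (l * u) * y) *
      ((F (1 + Complex.I * (l * y)) - A) / (1 + Complex.I * (l * y))) := by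
  set δ : ℕ → ℝ := fun n => 1 / ((n : ℝ) + 1) with hδ
  have hδpos : ∀ n, 0 < δ n := fun n => by rw [hδ]; positivity
  have hδle : ∀ n, δ n ≤ 1 := fun n => by
    rw [hδ]; simp only; rw [div_le_one (by positivity)]; linarith [(Nat.cast_nonneg n : (0:ℝ) ≤ n)]
  have hδlim : Tendsto δ atTop (𝓝 0) := tendsto_one_div_add_atTop_nhds_zero_nat
  -- the function G
  set G : ℂ → ℂ := fun s => (F s - A) / s with hG
  have hGc : ContinuousOn G {s | 1 ≤ s.re} := by
    apply ContinuousOn.div (hF.sub continuousOn_const) continuousOn_id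
    intro s hs h0
    simp only [id] at h0
    have hs' : 1 ≤ s.re := hs
    rw [h0] at hs'
    simp at hs'
    linarith
  -- compact set
  set K : Set ℂ := (fun p : ℝ × ℝ => (1 + p.1 + Complex.I * (l * p.2) : ℂ)) '' (Icc (0:ℝ) 1 ×ˢ Icc (-1:ℝ) 1) with hK
  have hKc : IsCompact K := by
    apply IsCompact.image (isCompact_Icc.prod isCompact_Icc)
    fun_prop
  have hKs : K ⊆ {s | 1 ≤ s.re} := by
    rintro s ⟨p, hp, rfl⟩
    have : 0 ≤ p.1 := hp.1.1
    show 1 ≤ (1 + p.1 + Complex.I * (l * p.2) : ℂ).re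
    simp
    exact this
  obtain ⟨M, hM⟩ := (hKc.exists_bound_of_continuousOn (hGc.mono hKs))
  -- rewriting fubini
  have hfub : ∀ n, ∫ y in (-1 : ℝ)..1, ((1 - |y| : ℝ) : ℂ) * Complex.exp (Complex.I * (l * u) * y) *
      G (1 + δ n + Complex.I * (l * y)) =
      ∫ t in Ioi (0 : ℝ), (((BB f t - A) * Real.exp (-δ n * t) * fk (l * (u - t)) : ℝ) : ℂ) := by
    intro n
    rw [← fubini hf hC0 hC (hδpos n) u]
    apply intervalIntegral.integral_congr
    intro y _
    simp only [hG]
    rw [hFL]
    simp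
    exact hδpos n
  have lim1 : Tendsto (fun n => ∫ y in (-1 : ℝ)..1, ((1 - |y| : ℝ) : ℂ) *
      Complex.exp (Complex.I * (l * u) * y) * G (1 + δ n + Complex.I * (l * y))) atTop
      (𝓝 (∫ y in (-1 : ℝ)..1, ((1 - |y| : ℝ) : ℂ) * Complex.exp (Complex.I * (l * u) * y) *
      G (1 + Complex.I * (l * y)))) := by
    apply intervalIntegral.tendsto_integral_filter_of_dominated_convergence (fun _ => M)
    · filter_upwards with n
      apply ContinuousOn.aestronglyMeasurable _ measurableSet_uIoc
      apply ContinuousOn.mul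
      · apply Continuous.continuousOn; fun_prop
      · apply hGc.comp
        · apply Continuous.continuousOn; fun_prop
        · intro y _
          show 1 ≤ (1 + δ n + Complex.I * (l * y) : ℂ).re
          simp
          exact (hδpos n).le
    · filter_upwards with n
      filter_upwards with y hy
      rw [uIoc_of_le (by norm_num)] at hy
      have e1 : ‖((1 - |y| : ℝ) : ℂ)‖ ≤ 1 := by
        rw [Complex.norm_real, Real.norm_eq_abs, abs_le]
        have h1 := hy.1
        have h2 := hy.2
        have h3 : |y| ≤ 1 := abs_le.mpr ⟨h1.le, h2⟩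
        have h4 := abs_nonneg y
        constructor <;> linarith
      have e2 : ‖Complex.exp (Complex.I * (l * u) * y)‖ = 1 := by
        rw [Complex.norm_exp]
        simp
      have e3 : ‖G (1 + δ n + Complex.I * (l * y))‖ ≤ M := by
        apply hM
        refine ⟨(δ n, y), ⟨⟨(hδpos n).le, hδle n⟩, ⟨hy.1.le, hy.2⟩⟩, ?_⟩
        rfl
      rw [norm_mul, norm_mul, e2]
      calc _ ≤ 1 * 1 * M := by gcongr
        _ = M := by ring
    · simp
    · filter_upwards with y hy
      apply Tendsto.mul tendsto_const_nhds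
      have hmem : (1 + Complex.I * (l * y) : ℂ) ∈ {s : ℂ | 1 ≤ s.re} := by
        show 1 ≤ (1 + Complex.I * (l * y) : ℂ).re
        simp
      have := hGc _ hmem
      refine (this.tendsto).comp ?_
      apply tendsto_nhdsWithin_iff.mpr
      constructor
      · have : Tendsto (fun n => (1 + (δ n : ℂ) + Complex.I * (l * y))) atTop
            (𝓝 (1 + ((0:ℝ):ℂ) + Complex.I * (l * y))) := by
          apply Tendsto.add _ tendsto_const_nhds
          apply Tendsto.add tendsto_const_nhds
          exact (Complex.continuous_ofReal.tendsto 0).comp hδlim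
        simpa using this
      · filter_upwards with n
        show 1 ≤ (1 + δ n + Complex.I * (l * y) : ℂ).re
        simp
        exact (hδpos n).le
  have lim2 : Tendsto (fun n => ∫ t in Ioi (0 : ℝ),
      (((BB f t - A) * Real.exp (-δ n * t) * fk (l * (u - t)) : ℝ) : ℂ)) atTop
      (𝓝 (∫ t in Ioi (0 : ℝ), (((BB f t - A) * fk (l * (u - t)) : ℝ) : ℂ))) := by
    apply tendsto_integral_of_dominated_convergence (fun t => (C + |A|) * fk (l * (u - t)))
    · intro n
      apply Measurable.aestronglyMeasurable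
      have h1 := BB_measurable hf
      have h2 := fk_measurable
      fun_prop
    · exact ((fk_comp_integrable hl u).const_mul _).integrableOn
    · intro n
      filter_upwards [ae_restrict_mem measurableSet_Ioi] with t ht
      rw [Complex.norm_real, Real.norm_eq_abs, abs_mul, abs_mul, abs_of_nonneg (fk_nonneg _),
        Real.abs_exp]
      have h1 := BB_le hC0 hC t
      have h2 := BB_nonneg hf t
      have h3 : |BB f t - A| ≤ C + |A| := by
        calc |BB f t - A| ≤ |BB f t| + |A| := abs_sub _ _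
          _ ≤ C + |A| := by rw [abs_of_nonneg h2]; linarith
      have h4 : Real.exp (-δ n * t) ≤ 1 := by
        rw [Real.exp_le_one_iff]
        have := hδpos n
        have ht' : 0 < t := ht
        nlinarith
      have h5 := fk_nonneg (l * (u - t))
      calc |BB f t - A| * Real.exp (-δ n * t) * fk (l * (u - t))
          ≤ (C + |A|) * 1 * fk (l * (u - t)) := by gcongr
        _ = _ := by ring
    · filter_upwards with t
      have : Tendsto (fun n => ((BB f t - A) * Real.exp (-δ n * t) * fk (l * (u - t)) : ℝ)) atTop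
          (𝓝 ((BB f t - A) * Real.exp (-0 * t) * fk (l * (u - t)))) := by
        apply Tendsto.mul _ tendsto_const_nhds
        apply Tendsto.mul tendsto_const_nhds
        apply (Real.continuous_exp.tendsto _).comp
        exact (hδlim.neg).mul_const t
      have h0 : ((BB f t - A) * Real.exp (-0 * t) * fk (l * (u - t))) = (BB f t - A) * fk (l * (u - t)) := by
        simp
      rw [h0] at this
      exact (Complex.continuous_ofReal.tendsto _).comp this
  simp_rw [hfub] at lim1
  exact tendsto_nhds_unique lim2 lim1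


lemma tendsto_diff {f : ℕ → ℝ} (hf : ∀ n, 0 ≤ f n) {C A : ℝ} (hC0 : 0 ≤ C)
    (hC : ∀ n : ℕ, ∑ k ∈ Finset.Icc 1 n, f k ≤ C * n) {F : ℂ → ℂ}
    (hF : ContinuousOn F {s | 1 ≤ s.re})
    (hFL : ∀ s : ℂ, 1 < s.re → F s = LSeries (fun n => (f n : ℂ)) s - A / (s - 1))
    {l : ℝ} (hl : 0 < l) :
    Tendsto (fun u : ℝ => ∫ t in Ioi (0 : ℝ), (BB f t - A) * fk (l * (u - t))) atTop (𝓝 0) := by
  -- Riemann-Lebesgue
  have RL := Real.tendsto_integral_exp_smul_cocompact
    ((Ioc (-1 : ℝ) 1).indicator (fun y : ℝ => ((1 - |y| : ℝ) : ℂ) *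
      ((F (1 + Complex.I * (l * y)) - A) / (1 + Complex.I * (l * y)))))
  have h1 : Tendsto (fun u : ℝ => -(l * u) / (2 * Real.pi)) atTop (cocompact ℝ) := by
    have : Tendsto (fun u : ℝ => -(l * u) / (2 * Real.pi)) atTop atBot := by
      apply Tendsto.atBot_div_const (by positivity)
      apply tendsto_neg_atTop_atBot.comp
      exact tendsto_id.const_mul_atTop hl
    exact this.mono_right atBot_le_cocompact
  have h2 := RL.comp h1
  have h3 : ∀ u : ℝ, ((fun w : ℝ => ∫ (v : ℝ), Real.fourierChar (-(v * w)) •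
      ((Ioc (-1 : ℝ) 1).indicator (fun y : ℝ => ((1 - |y| : ℝ) : ℂ) *
      ((F (1 + Complex.I * (l * y)) - A) / (1 + Complex.I * (l * y))))) v) ∘
      (fun u : ℝ => -(l * u) / (2 * Real.pi))) u =
      ((∫ t in Ioi (0 : ℝ), (BB f t - A) * fk (l * (u - t)) : ℝ) : ℂ) := by
    intro u
    rw [← integral_complex_ofReal, limit_id hf hC0 hC hF hFL hl.ne' u]
    rw [intervalIntegral.integral_of_le (by norm_num), ← integral_indicator measurableSet_Ioc]
    simp only [Function.comp]
    congr 1
    ext y
    by_cases hy : y ∈ Ioc (-1 : ℝ) 1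
    · rw [indicator_of_mem hy, indicator_of_mem hy]
      rw [Circle.smul_def, Real.fourierChar_apply, smul_eq_mul]
      have : Complex.exp (↑(2 * Real.pi * -(y * (-(l * u) / (2 * Real.pi)))) * Complex.I)
          = Complex.exp (Complex.I * (l * u) * y) := by
        congr 1
        push_cast
        have := Real.pi_ne_zero
        have h : (Real.pi : ℂ) ≠ 0 := by exact_mod_cast this
        field_simp
      rw [this]
      ring
    · rw [indicator_of_notMem hy, indicator_of_notMem hy]
      simp
  rw [show (fun u : ℝ => ∫ t in Ioi (0 : ℝ), (BB f t - A) * fk (l * (u - t))) =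
    fun u : ℝ => (((∫ t in Ioi (0 : ℝ), (BB f t - A) * fk (l * (u - t)) : ℝ) : ℂ)).re by
      ext u; simp]
  rw [show (0 : ℝ) = (0 : ℂ).re by simp]
  apply (Complex.continuous_re.tendsto _).comp
  refine h2.congr' ?_
  filter_upwards with u
  exact h3 u

/-- the mass of the kernel on the half line tends to the full mass -/
lemma tendsto_mass {l : ℝ} (hl : 0 < l) :
    Tendsto (fun u : ℝ => ∫ t in Ioi (0 : ℝ), fk (l * (u - t))) atTop (𝓝 (kap / l)) := by
  have h1 : ∀ u : ℝ, ∫ t in Ioi (0 : ℝ), fk (l * (u - t)) = l⁻¹ * ∫ v in Iio (l * u), fk v := by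
    intro u
    rw [← integral_indicator measurableSet_Ioi, ← integral_indicator measurableSet_Iio]
    have h2 : ∀ t, (Ioi (0 : ℝ)).indicator (fun t => fk (l * (u - t))) t
        = (fun v => (Iio (l * u)).indicator fk v) (l * (u - t)) := by
      intro t
      by_cases ht : 0 < t
      · rw [indicator_of_mem (by exact ht)]
        simp only
        rw [indicator_of_mem]
        show l * (u - t) < l * u
        nlinarith
      · rw [indicator_of_notMem (by exact ht)]
        simp only
        rw [indicator_of_notMem]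
        show ¬ (l * (u - t) < l * u)
        nlinarith
    simp_rw [h2]
    have h3 := integral_sub_left_eq_self (fun t => (fun v => (Iio (l * u)).indicator fk v) (l * t)) volume u
    simp only at h3 ⊢
    rw [h3]
    have h4 := Measure.integral_comp_mul_left (fun v => (Iio (l * u)).indicator fk v) l
    rw [h4, abs_of_pos (inv_pos.mpr hl)]
    simp
  simp_rw [h1]
  have h5 : Tendsto (fun u : ℝ => ∫ v in Iio (l * u), fk v) atTop (𝓝 kap) := by
    have h6 : Tendsto (fun b : ℝ => ∫ v in Iic b, fk v) atTop (𝓝 (∫ v, fk v)) := by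
      have := tendsto_setIntegral_of_monotone (μ := volume) (f := fk) (s := fun b : ℝ => Iic b)
        (fun _ => measurableSet_Iic) (fun a b h => Iic_subset_Iic.mpr h)
        (by
          apply fk_integrable.integrableOn)
      rwa [iUnion_Iic, setIntegral_univ] at this
    have h7 : Tendsto (fun u : ℝ => l * u) atTop atTop := tendsto_id.const_mul_atTop hl
    have := h6.comp h7
    refine this.congr (fun u => ?_)
    simp only [Function.comp]
    rw [integral_Iic_eq_integral_Iio]
  have := h5.const_mul l⁻¹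
  rwa [inv_mul_eq_div] at this

lemma tendsto_B {f : ℕ → ℝ} (hf : ∀ n, 0 ≤ f n) {C A : ℝ} (hC0 : 0 ≤ C)
    (hC : ∀ n : ℕ, ∑ k ∈ Finset.Icc 1 n, f k ≤ C * n) {F : ℂ → ℂ}
    (hF : ContinuousOn F {s | 1 ≤ s.re})
    (hFL : ∀ s : ℂ, 1 < s.re → F s = LSeries (fun n => (f n : ℂ)) s - A / (s - 1))
    {l : ℝ} (hl : 0 < l) :
    Tendsto (fun u : ℝ => ∫ t in Ioi (0 : ℝ), BB f t * fk (l * (u - t))) atTop
      (𝓝 (A * (kap / l))) := by
  have h1 := (tendsto_diff hf hC0 hC hF hFL hl).add ((tendsto_mass hl).const_mul A)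
  rw [zero_add] at h1
  refine h1.congr (fun u => ?_)
  rw [← integral_const_mul, ← integral_add]
  · congr 1
    ext t
    ring
  · apply Integrable.mono' (g := fun t => (C + |A|) * fk (l * (u - t)))
      ((fk_comp_integrable hl.ne' u).const_mul _).integrableOn
    · apply Measurable.aestronglyMeasurable
      have h1 := BB_measurable hf
      have h2 := fk_measurable
      fun_prop
    · filter_upwards with t
      rw [Real.norm_eq_abs, abs_mul, abs_of_nonneg (fk_nonneg _)]
      have h1 := BB_le hC0 hC t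
      have h2 := BB_nonneg hf t
      have h5 := fk_nonneg (l * (u - t))
      gcongr
      calc |BB f t - A| ≤ |BB f t| + |A| := abs_sub _ _
        _ ≤ C + |A| := by rw [abs_of_nonneg h2]; linarith
  · exact ((fk_comp_integrable hl.ne' u).const_mul _).integrableOn


lemma inner_mass {η : ℝ} (hη : 0 < η) : ∃ a : ℝ, 0 < a ∧ kap * (1 - η) ≤ ∫ v in (-a)..a, fk v := by
  have h := intervalIntegral_tendsto_integral fk_integrable (a := fun x : ℝ => -x) (b := fun x : ℝ => x)
    (l := atTop) tendsto_neg_atTop_atBot tendsto_id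
  have hk := kap_pos
  have h1 : kap * (1 - η) < ∫ v, fk v := by
    show kap * (1 - η) < kap
    nlinarith
  have h2 := (h.eventually_const_lt h1).and (eventually_gt_atTop (0 : ℝ))
  obtain ⟨a, ha, ha0⟩ := h2.exists
  exact ⟨a, ha0, ha.le⟩

lemma inner_change {l a : ℝ} (hl : 0 < l) (u : ℝ) :
    ∫ t in (u - a / l)..(u + a / l), fk (l * (u - t)) = l⁻¹ * ∫ v in (-a)..a, fk v := by
  have h1 := intervalIntegral.integral_comp_sub_left (a := u - a / l) (b := u + a / l)
    (fun w => fk (l * w)) u
  rw [h1]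
  have h2 := intervalIntegral.integral_comp_mul_left (a := u - (u + a / l)) (b := u - (u - a / l)) fk hl.ne'
  rw [h2, smul_eq_mul]
  have e1 : l * (u - (u + a / l)) = -a := by field_simp; ring
  have e2 : l * (u - (u - a / l)) = a := by field_simp; ring
  rw [e1, e2]

lemma B_fk_integrable {f : ℕ → ℝ} (hf : ∀ n, 0 ≤ f n) {C : ℝ} (hC0 : 0 ≤ C)
    (hC : ∀ n : ℕ, ∑ k ∈ Finset.Icc 1 n, f k ≤ C * n) {l : ℝ} (hl : 0 < l) (u : ℝ) :
    Integrable (fun t => BB f t * fk (l * (u - t))) := by
  apply Integrable.mono' (g := fun t => C * fk (l * (u - t)))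
      ((fk_comp_integrable hl.ne' u).const_mul _)
  · apply Measurable.aestronglyMeasurable
    have h1 := BB_measurable hf
    have h2 := fk_measurable
    fun_prop
  · filter_upwards with t
    rw [Real.norm_eq_abs, abs_mul, abs_of_nonneg (fk_nonneg _), abs_of_nonneg (BB_nonneg hf t)]
    have h1 := BB_le hC0 hC t
    have h5 := fk_nonneg (l * (u - t))
    gcongr

lemma upper {f : ℕ → ℝ} (hf : ∀ n, 0 ≤ f n) {C : ℝ} (hC0 : 0 ≤ C)
    (hC : ∀ n : ℕ, ∑ k ∈ Finset.Icc 1 n, f k ≤ C * n) {l a η : ℝ} (hl : 0 < l) (ha : 0 < a)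
    (hal : 2 * a / l = η) (hm : kap * (1 - η) ≤ ∫ v in (-a)..a, fk v) (u : ℝ) (hu : a / l < u) :
    BB f (u - a / l) * Real.exp (-η) * (l⁻¹ * (kap * (1 - η)))
      ≤ ∫ t in Ioi (0 : ℝ), BB f t * fk (l * (u - t)) := by
  have hal0 : 0 < a / l := by positivity
  have hB := B_fk_integrable hf hC0 hC hl u
  calc BB f (u - a / l) * Real.exp (-η) * (l⁻¹ * (kap * (1 - η)))
      ≤ BB f (u - a / l) * Real.exp (-η) * (l⁻¹ * ∫ v in (-a)..a, fk v) := by
        have := BB_nonneg hf (u - a / l)
        gcongr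
    _ = ∫ t in (u - a / l)..(u + a / l), BB f (u - a / l) * Real.exp (-η) * fk (l * (u - t)) := by
        rw [intervalIntegral.integral_const_mul, inner_change hl]
    _ ≤ ∫ t in (u - a / l)..(u + a / l), BB f t * fk (l * (u - t)) := by
        apply intervalIntegral.integral_mono_on (by linarith)
        · exact ((fk_comp_integrable hl.ne' u).const_mul _).intervalIntegrable
        · exact hB.intervalIntegrable
        · intro t ht
          have h1 := BB_slow hf ht.1
          have h2 := fk_nonneg (l * (u - t))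
          have h3 := BB_nonneg hf (u - a / l)
          refine mul_le_mul_of_nonneg_right (le_trans ?_ h1) h2
          gcongr
          have := ht.2
          have h4 : 2 * a / l = 2 * (a / l) := by ring
          rw [← hal, h4]
          linarith
    _ ≤ ∫ t in Ioi (0 : ℝ), BB f t * fk (l * (u - t)) := by
        rw [intervalIntegral.integral_of_le (by linarith)]
        apply setIntegral_mono_set hB.integrableOn
        · filter_upwards with t
          exact mul_nonneg (BB_nonneg hf t) (fk_nonneg _)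
        · apply LE.le.eventuallyLE
          intro t ht
          have := ht.1
          show 0 < t
          linarith

lemma lower {f : ℕ → ℝ} (hf : ∀ n, 0 ≤ f n) {C : ℝ} (hC0 : 0 ≤ C)
    (hC : ∀ n : ℕ, ∑ k ∈ Finset.Icc 1 n, f k ≤ C * n) {l a η : ℝ} (hl : 0 < l) (ha : 0 < a)
    (hal : 2 * a / l = η) (hm : kap * (1 - η) ≤ ∫ v in (-a)..a, fk v) (u : ℝ) (_hu : a / l < u) :
    ∫ t in Ioi (0 : ℝ), BB f t * fk (l * (u - t))
      ≤ BB f (u + a / l) * Real.exp η * (l⁻¹ * kap) + C * (l⁻¹ * (kap * η)) := by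
  have hal0 : 0 < a / l := by positivity
  have hB := B_fk_integrable hf hC0 hC hl u
  have hfk := fk_comp_integrable hl.ne' u
  have hE : Real.exp 0 = 1 := Real.exp_zero
  have hB2 := BB_nonneg hf (u + a / l)
  -- total mass
  have htot : ∫ t, fk (l * (u - t)) = l⁻¹ * kap := by
    have h3 := integral_sub_left_eq_self (fun t => fk (l * t)) volume u
    rw [h3, Measure.integral_comp_mul_left (fun v => fk v) l, abs_of_pos (inv_pos.mpr hl)]
    rfl
  -- pointwise bound
  have hpt : ∀ t : ℝ, BB f t * fk (l * (u - t)) ≤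
      BB f (u + a / l) * Real.exp η * fk (l * (u - t)) +
      C * (fk (l * (u - t)) - (Ioc (u - a / l) (u + a / l)).indicator (fun t => fk (l * (u - t))) t) := by
    intro t
    have h2 := fk_nonneg (l * (u - t))
    by_cases ht : t ∈ Ioc (u - a / l) (u + a / l)
    · rw [indicator_of_mem ht]
      have h1 := BB_slow hf ht.2
      have h5 : BB f t ≤ BB f (u + a / l) * Real.exp η := by
        have h6 : BB f t = BB f t * Real.exp (-(u + a / l - t)) * Real.exp (u + a / l - t) := by
          rw [mul_assoc, ← Real.exp_add]; simp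
        rw [h6]
        have h7 : Real.exp (u + a / l - t) ≤ Real.exp η := by
          apply Real.exp_le_exp.mpr
          rw [← hal]
          have := ht.1
          have h4 : 2 * a / l = 2 * (a / l) := by ring
          rw [h4]; linarith
        have := BB_nonneg hf t
        gcongr
      have : BB f t * fk (l * (u - t)) ≤ BB f (u + a / l) * Real.exp η * fk (l * (u - t)) := by
        gcongr
      linarith
    · rw [indicator_of_notMem ht]
      have h1 := BB_le hC0 hC t
      have : BB f t * fk (l * (u - t)) ≤ C * fk (l * (u - t)) := by gcongr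
      have h8 : 0 ≤ BB f (u + a / l) * Real.exp η * fk (l * (u - t)) := by positivity
      linarith
  have hind : Integrable ((Ioc (u - a / l) (u + a / l)).indicator (fun t => fk (l * (u - t)))) :=
    hfk.indicator measurableSet_Ioc
  calc ∫ t in Ioi (0 : ℝ), BB f t * fk (l * (u - t))
      ≤ ∫ t, BB f t * fk (l * (u - t)) := by
        apply setIntegral_le_integral hB
        filter_upwards with t
        exact mul_nonneg (BB_nonneg hf t) (fk_nonneg _)
    _ ≤ ∫ t, (BB f (u + a / l) * Real.exp η * fk (l * (u - t)) +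
      C * (fk (l * (u - t)) - (Ioc (u - a / l) (u + a / l)).indicator (fun t => fk (l * (u - t))) t)) := by
        apply integral_mono hB _ hpt
        exact (hfk.const_mul _).add ((hfk.sub hind).const_mul _)
    _ = BB f (u + a / l) * Real.exp η * (l⁻¹ * kap) + C * (l⁻¹ * kap - l⁻¹ * ∫ v in (-a)..a, fk v) := by
        have i3 : Integrable (fun t => fk (l * (u - t)) -
            (Ioc (u - a / l) (u + a / l)).indicator (fun t => fk (l * (u - t))) t) := hfk.sub hind
        have e3 : ∫ t, (fk (l * (u - t)) -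
            (Ioc (u - a / l) (u + a / l)).indicator (fun t => fk (l * (u - t))) t)
            = l⁻¹ * kap - l⁻¹ * ∫ v in (-a)..a, fk v := by
          rw [integral_sub hfk hind, htot, integral_indicator measurableSet_Ioc,
            ← intervalIntegral.integral_of_le (by linarith), inner_change hl]
        rw [integral_add (hfk.const_mul _) (i3.const_mul _), integral_const_mul,
          integral_const_mul, e3, htot]
    _ ≤ BB f (u + a / l) * Real.exp η * (l⁻¹ * kap) + C * (l⁻¹ * (kap * η)) := by
        have h9 : l⁻¹ * kap - l⁻¹ * ∫ v in (-a)..a, fk v ≤ l⁻¹ * (kap * η) := by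
          rw [← mul_sub]
          have : 0 < l⁻¹ := inv_pos.mpr hl
          apply mul_le_mul_of_nonneg_left _ this.le
          nlinarith
        have := mul_le_mul_of_nonneg_left h9 hC0
        linarith

/-- Wiener-Ikehara (with a Chebyshev bound as hypothesis). -/
theorem tendsto_BB {f : ℕ → ℝ} (hf : ∀ n, 0 ≤ f n) {C A : ℝ} (hC0 : 0 ≤ C)
    (hC : ∀ n : ℕ, ∑ k ∈ Finset.Icc 1 n, f k ≤ C * n) {F : ℂ → ℂ}
    (hF : ContinuousOn F {s | 1 ≤ s.re})
    (hFL : ∀ s : ℂ, 1 < s.re → F s = LSeries (fun n => (f n : ℂ)) s - A / (s - 1)) :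
    Tendsto (BB f) atTop (𝓝 A) := by
  have hk := kap_pos
  rw [tendsto_order]
  constructor
  · -- lower bound
    intro b hb
    have hcont : Tendsto (fun η : ℝ => Real.exp (-η) * (A - η - C * η)) (𝓝[>] 0) (𝓝 A) := by
      have : Tendsto (fun η : ℝ => Real.exp (-η) * (A - η - C * η)) (𝓝 0) (𝓝 (Real.exp (-0) * (A - 0 - C * 0))) := by
        apply Continuous.tendsto
        fun_prop
      simp only [neg_zero, Real.exp_zero, one_mul, sub_zero, mul_zero] at this
      exact this.mono_left nhdsWithin_le_nhds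
    obtain ⟨η, hη1, hη2⟩ := ((hcont.eventually_const_lt hb).and self_mem_nhdsWithin).exists
    have hη : 0 < η := hη2
    obtain ⟨a, ha, hm⟩ := inner_mass hη
    set l : ℝ := 2 * a / η with hl
    have hl0 : 0 < l := by positivity
    have hal : 2 * a / l = η := by rw [hl]; field_simp
    have hI := tendsto_B hf hC0 hC hF hFL hl0
    have hI' : ∀ᶠ u : ℝ in atTop, (A - η) * (kap / l) < ∫ t in Ioi (0 : ℝ), BB f t * fk (l * (u - t)) := by
      apply hI.eventually_const_lt
      have : 0 < kap / l := by positivity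
      nlinarith
    have hshift : Tendsto (fun u : ℝ => u - a / l) atTop atTop := tendsto_atTop_add_const_right _ _ tendsto_id
    have h3 : ∀ᶠ u : ℝ in atTop, b < BB f u := by
      filter_upwards [hshift.eventually hI', hshift.eventually_gt_atTop (a / l)] with u hu1 hu2
      have h4 := lower hf hC0 hC hl0 ha hal hm (u - a / l) hu2
      rw [sub_add_cancel] at h4
      have h5 : (A - η) * (kap / l) < BB f u * Real.exp η * (l⁻¹ * kap) + C * (l⁻¹ * (kap * η)) :=
        lt_of_lt_of_le hu1 h4
      have h6 : (A - η - C * η) * (kap / l) < (BB f u * Real.exp η) * (kap / l) := by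
        have e1 : BB f u * Real.exp η * (l⁻¹ * kap) = (BB f u * Real.exp η) * (kap / l) := by
          field_simp
        have e2 : C * (l⁻¹ * (kap * η)) = C * η * (kap / l) := by field_simp
        rw [e1, e2] at h5
        linarith
      have h7 : A - η - C * η < BB f u * Real.exp η := lt_of_mul_lt_mul_right h6 (by positivity)
      calc b < Real.exp (-η) * (A - η - C * η) := hη1
        _ ≤ Real.exp (-η) * (BB f u * Real.exp η) := by gcongr
        _ = BB f u := by
          rw [mul_comm (BB f u), ← mul_assoc, ← Real.exp_add]; simp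
    exact h3
  · intro b hb
    have hcont : Tendsto (fun η : ℝ => Real.exp η * (A + η) / (1 - η)) (𝓝[>] 0) (𝓝 A) := by
      have : Tendsto (fun η : ℝ => Real.exp η * (A + η) / (1 - η)) (𝓝 0) (𝓝 (Real.exp 0 * (A + 0) / (1 - 0))) := by
        apply ContinuousAt.tendsto
        apply ContinuousAt.div
        · fun_prop
        · fun_prop
        · norm_num
      simp only [Real.exp_zero, one_mul, sub_zero, add_zero, div_one] at this
      exact this.mono_left nhdsWithin_le_nhds
    have hlt1 : ∀ᶠ η : ℝ in 𝓝[>] 0, η < 1 := by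
      have : ∀ᶠ η : ℝ in 𝓝 0, η < 1 := eventually_lt_nhds (by norm_num)
      exact this.filter_mono nhdsWithin_le_nhds
    obtain ⟨η, ⟨hη1, hη3⟩, hη2⟩ := (((hcont.eventually_lt_const hb).and hlt1).and self_mem_nhdsWithin).exists
    have hη : 0 < η := hη2
    obtain ⟨a, ha, hm⟩ := inner_mass hη
    set l : ℝ := 2 * a / η with hl
    have hl0 : 0 < l := by positivity
    have hal : 2 * a / l = η := by rw [hl]; field_simp
    have hI := tendsto_B hf hC0 hC hF hFL hl0
    have hI' : ∀ᶠ u : ℝ in atTop, ∫ t in Ioi (0 : ℝ), BB f t * fk (l * (u - t)) < (A + η) * (kap / l) := by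
      apply hI.eventually_lt_const
      have : 0 < kap / l := by positivity
      nlinarith
    have hshift : Tendsto (fun u : ℝ => u + a / l) atTop atTop := tendsto_atTop_add_const_right _ _ tendsto_id
    have h3 : ∀ᶠ u : ℝ in atTop, BB f u < b := by
      filter_upwards [hshift.eventually hI', hshift.eventually_gt_atTop (a / l)] with u hu1 hu2
      have h4 := upper hf hC0 hC hl0 ha hal hm (u + a / l) hu2
      rw [add_sub_cancel_right] at h4
      have h5 := lt_of_le_of_lt h4 hu1
      have h6 : (BB f u * Real.exp (-η) * (1 - η)) * (kap / l) < (A + η) * (kap / l) := by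
        have e1 : BB f u * Real.exp (-η) * (l⁻¹ * (kap * (1 - η))) = (BB f u * Real.exp (-η) * (1 - η)) * (kap / l) := by
          field_simp
        rw [e1] at h5
        exact h5
      have h7 : BB f u * Real.exp (-η) * (1 - η) < A + η := lt_of_mul_lt_mul_right h6 (by positivity)
      have h8 : 0 < 1 - η := by linarith
      calc BB f u = Real.exp η * (BB f u * Real.exp (-η) * (1 - η)) / (1 - η) := by
            rw [mul_comm (BB f u) (Real.exp (-η)), mul_assoc, ← mul_assoc (Real.exp η), ← Real.exp_add]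
            field_simp
            simp
        _ ≤ Real.exp η * (A + η) / (1 - η) := by
            gcongr
        _ < b := hη1
    exact h3

end Pool.Agent.H17.WI
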