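import Mathlib
import Pool.Agent.H17.WI

/-! Prime number theorem, and prime number theorem in arithmetic progressions (fixed modulus),
from the Wiener-Ikehara theorem. -/

set_option autoImplicit false

open Filter Topology Set

namespace Pool.Agent.H17

open ArithmeticFunction ArithmeticFunction.vonMangoldt

/-- Wiener-Ikehara, in terms of real variable. -/
theorem wienerIkehara {f : ℕ → ℝ} (hf : ∀ n, 0 ≤ f n) {C A : ℝ}
    (hC : ∀ n : ℕ, ∑ k ∈ Finset.Icc 1 n, f k ≤ C * n) {F : ℂ → ℂ}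
    (hF : ContinuousOn F {s | 1 ≤ s.re})
    (hFL : ∀ s : ℂ, 1 < s.re → F s = LSeries (fun n => (f n : ℂ)) s - A / (s - 1)) :
    Tendsto (fun x : ℝ => (∑ k ∈ Finset.Icc 1 ⌊x⌋₊, f k) / x) atTop (𝓝 A) := by
  have hC' : ∀ n : ℕ, ∑ k ∈ Finset.Icc 1 n, f k ≤ |C| * n := by
    intro n
    refine (hC n).trans ?_
    gcongr
    exact le_abs_self C
  have h := (WI.tendsto_BB hf (abs_nonneg C) hC' hF hFL).comp Real.tendsto_log_atTop
  refine h.congr' ?_
  filter_upwards [eventually_gt_atTop 0] with x hx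
  simp only [Function.comp, WI.BB, WI.SS]
  rw [Real.exp_log hx, Real.exp_neg, Real.exp_log hx]
  rfl

/-- Chebyshev psi in residue class -/
noncomputable def psiAP {q : ℕ} (a : ZMod q) (x : ℝ) : ℝ := ∑ k ∈ Finset.Icc 1 ⌊x⌋₊, residueClass a k

/-- Chebyshev theta in residue class -/
noncomputable def thetaAP {q : ℕ} (a : ZMod q) (x : ℝ) : ℝ :=
  ∑ p ∈ (Finset.Icc 1 ⌊x⌋₊).filter (fun p : ℕ => p.Prime ∧ (p : ZMod q) = a), Real.log p

/-- prime counting in residue class -/
noncomputable def piAP {q : ℕ} (a : ZMod q) (x : ℝ) : ℕ :=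
  ((Finset.Icc 1 ⌊x⌋₊).filter (fun p : ℕ => p.Prime ∧ (p : ZMod q) = a)).card

theorem psiAP_tendsto {q : ℕ} [NeZero q] {a : ZMod q} (ha : IsUnit a) :
    Tendsto (fun x : ℝ => psiAP a x / x) atTop (𝓝 ((q.totient : ℝ)⁻¹)) := by
  unfold psiAP
  refine wienerIkehara (F := LFunctionResidueClassAux a) (C := Real.log 4 + 4) (residueClass_nonneg a) ?_ (continuousOn_LFunctionResidueClassAux a) ?_
  · intro n
    have h1 : ∑ k ∈ Finset.Icc 1 n, residueClass a k ≤ Chebyshev.psi n := by
      unfold Chebyshev.psi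
      rw [Nat.floor_natCast]
      have : Finset.Icc 1 n = Finset.Ioc 0 n := by ext; simp [Nat.succ_le_iff]
      rw [this]
      apply Finset.sum_le_sum
      intro i _
      exact residueClass_le a i
    exact h1.trans (Chebyshev.psi_le_const_mul_self (by positivity))
  · intro s hs
    have := eqOn_LFunctionResidueClassAux ha hs
    simp only at this
    rw [this]
    push_cast
    rfl

theorem psi_tendsto : Tendsto (fun x : ℝ => Chebyshev.psi x / x) atTop (𝓝 1) := by
  have h := psiAP_tendsto (q := 1) (a := 0) (by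
    have : (0 : ZMod 1) = 1 := Subsingleton.elim _ _
    rw [this]; exact isUnit_one)
  simp only [Nat.totient_one, Nat.cast_one, inv_one] at h
  refine h.congr (fun x => ?_)
  congr 1
  unfold psiAP Chebyshev.psi
  have : Finset.Icc 1 ⌊x⌋₊ = Finset.Ioc 0 ⌊x⌋₊ := by ext; simp [Nat.succ_le_iff]
  rw [this]
  apply Finset.sum_congr rfl
  intro i _
  unfold residueClass
  rw [indicator_of_mem]
  exact Subsingleton.elim _ _

lemma thetaAP_le_psiAP {q : ℕ} (a : ZMod q) (x : ℝ) : thetaAP a x ≤ psiAP a x := by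
  unfold thetaAP psiAP
  rw [Finset.sum_filter]
  apply Finset.sum_le_sum
  intro p _
  split_ifs with h
  · unfold residueClass
    rw [indicator_of_mem (by exact h.2), vonMangoldt_apply_prime h.1]
  · exact residueClass_nonneg a p

lemma psiAP_sub_thetaAP_le {q : ℕ} (a : ZMod q) (x : ℝ) :
    psiAP a x - thetaAP a x ≤ Chebyshev.psi x - Chebyshev.theta x := by
  unfold thetaAP psiAP Chebyshev.psi Chebyshev.theta
  rw [Finset.sum_filter, Finset.sum_filter, ← Finset.sum_sub_distrib, ← Finset.sum_sub_distrib]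
  have : Finset.Icc 1 ⌊x⌋₊ = Finset.Ioc 0 ⌊x⌋₊ := by ext; simp [Nat.succ_le_iff]
  rw [this]
  apply Finset.sum_le_sum
  intro p _
  by_cases hp : p.Prime
  · by_cases hpa : (p : ZMod q) = a
    · rw [if_pos ⟨hp, hpa⟩, if_pos hp]
      have := residueClass_le a p
      linarith
    · rw [if_neg (fun h => hpa h.2), if_pos hp]
      unfold residueClass
      rw [indicator_of_notMem (by exact hpa), vonMangoldt_apply_prime hp]
      simp
  · rw [if_neg (fun h => hp h.1), if_neg hp]
    have := residueClass_le a p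
    linarith

lemma tendsto_sqrt_mul_log_div : Tendsto (fun x : ℝ => 2 * √x * Real.log x / x) atTop (𝓝 0) := by
  have h1 : Tendsto (fun x : ℝ => Real.log x / x ^ (1 / 2 : ℝ)) atTop (𝓝 0) :=
    (isLittleO_log_rpow_atTop (by norm_num)).tendsto_div_nhds_zero
  have h2 := h1.const_mul 2
  rw [mul_zero] at h2
  refine h2.congr' ?_
  filter_upwards [eventually_gt_atTop 0] with x hx
  rw [← Real.sqrt_eq_rpow]
  have h3 : √x * √x = x := Real.mul_self_sqrt hx.le
  have h4 : 0 < √x := Real.sqrt_pos.mpr hx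
  rw [eq_div_iff hx.ne']
  have h5 : Real.log x / √x * x = Real.log x * √x := by
    calc Real.log x / √x * x = Real.log x / √x * (√x * √x) := by rw [h3]
      _ = Real.log x * √x := by field_simp
  calc 2 * (Real.log x / √x) * x = 2 * (Real.log x / √x * x) := by ring
    _ = 2 * √x * Real.log x := by rw [h5]; ring

theorem thetaAP_tendsto {q : ℕ} [NeZero q] {a : ZMod q} (ha : IsUnit a) :
    Tendsto (fun x : ℝ => thetaAP a x / x) atTop (𝓝 ((q.totient : ℝ)⁻¹)) := by
  have h := psiAP_tendsto ha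
  have h2 : Tendsto (fun x : ℝ => psiAP a x / x - thetaAP a x / x) atTop (𝓝 0) := by
    apply tendsto_of_tendsto_of_tendsto_of_le_of_le' tendsto_const_nhds tendsto_sqrt_mul_log_div
    · filter_upwards [eventually_gt_atTop 0] with x hx
      rw [← sub_div]
      have := thetaAP_le_psiAP a x
      apply div_nonneg _ hx.le
      linarith
    · filter_upwards [eventually_ge_atTop 1] with x hx
      rw [← sub_div]
      have h1 := psiAP_sub_thetaAP_le a x
      have h2 := Chebyshev.psi_sub_theta_le hx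
      have hx0 : 0 < x := by linarith
      gcongr
      linarith
  have h3 := h.sub h2
  rw [sub_zero] at h3
  refine h3.congr (fun x => ?_)
  ring

theorem theta_tendsto : Tendsto (fun x : ℝ => Chebyshev.theta x / x) atTop (𝓝 1) := by
  have h := thetaAP_tendsto (q := 1) (a := 0) (by
    have : (0 : ZMod 1) = 1 := Subsingleton.elim _ _
    rw [this]; exact isUnit_one)
  simp only [Nat.totient_one, Nat.cast_one, inv_one] at h
  refine h.congr (fun x => ?_)
  congr 1
  unfold thetaAP Chebyshev.theta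
  have : Finset.Icc 1 ⌊x⌋₊ = Finset.Ioc 0 ⌊x⌋₊ := by ext; simp [Nat.succ_le_iff]
  rw [this]
  apply Finset.sum_congr _ (fun _ _ => rfl)
  ext p
  simp only [Finset.mem_filter, and_congr_right_iff, and_iff_left_iff_imp]
  intro _ _
  exact Subsingleton.elim _ _

lemma thetaAP_le_piAP_mul_log {q : ℕ} (a : ZMod q) {x : ℝ} (hx : 1 ≤ x) :
    thetaAP a x ≤ piAP a x * Real.log x := by
  unfold thetaAP piAP
  rw [← nsmul_eq_mul]
  apply Finset.sum_le_card_nsmul
  intro p hp
  rw [Finset.mem_filter, Finset.mem_Icc] at hp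
  apply Real.log_le_log (by exact_mod_cast hp.1.1)
  calc (p : ℝ) ≤ ⌊x⌋₊ := by exact_mod_cast hp.1.2
    _ ≤ x := Nat.floor_le (by linarith)

lemma piAP_le {q : ℕ} (a : ZMod q) {x δ : ℝ} (hx : 1 < x) (hδ0 : 0 < δ) (hδ : δ < 1) :
    (piAP a x : ℝ) ≤ x ^ (1 - δ) + thetaAP a x / ((1 - δ) * Real.log x) := by
  have hlog : 0 < Real.log x := Real.log_pos hx
  have hd : 0 < 1 - δ := by linarith
  set S := (Finset.Icc 1 ⌊x⌋₊).filter (fun p : ℕ => p.Prime ∧ (p : ZMod q) = a) with hS
  have h1 : (piAP a x : ℝ) = ∑ p ∈ S, (1 : ℝ) := by simp [piAP, hS]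
  have h2 : ∑ p ∈ S, (1 : ℝ) = ∑ p ∈ S.filter (fun p : ℕ => (p : ℝ) ≤ x ^ (1 - δ)), (1 : ℝ)
      + ∑ p ∈ S.filter (fun p : ℕ => ¬ (p : ℝ) ≤ x ^ (1 - δ)), (1 : ℝ) :=
    (Finset.sum_filter_add_sum_filter_not S _ _).symm
  have h3 : ∑ p ∈ S.filter (fun p : ℕ => (p : ℝ) ≤ x ^ (1 - δ)), (1 : ℝ) ≤ x ^ (1 - δ) := by
    have hsub : S.filter (fun p : ℕ => (p : ℝ) ≤ x ^ (1 - δ)) ⊆ Finset.Icc 1 ⌊x ^ (1 - δ)⌋₊ := by
      intro p hp
      rw [Finset.mem_filter, hS, Finset.mem_filter, Finset.mem_Icc] at hp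
      rw [Finset.mem_Icc]
      exact ⟨hp.1.1.1, Nat.le_floor hp.2⟩
    calc ∑ p ∈ S.filter (fun p : ℕ => (p : ℝ) ≤ x ^ (1 - δ)), (1 : ℝ)
        = ((S.filter (fun p : ℕ => (p : ℝ) ≤ x ^ (1 - δ))).card : ℝ) := by simp
      _ ≤ ((Finset.Icc 1 ⌊x ^ (1 - δ)⌋₊).card : ℝ) := by exact_mod_cast Finset.card_le_card hsub
      _ = (⌊x ^ (1 - δ)⌋₊ : ℝ) := by simp
      _ ≤ x ^ (1 - δ) := Nat.floor_le (by positivity)
  have h4 : ∑ p ∈ S.filter (fun p : ℕ => ¬ (p : ℝ) ≤ x ^ (1 - δ)), (1 : ℝ)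
      ≤ thetaAP a x / ((1 - δ) * Real.log x) := by
    rw [le_div_iff₀ (by positivity), Finset.sum_mul]
    unfold thetaAP
    rw [← hS]
    calc ∑ p ∈ S.filter (fun p : ℕ => ¬ (p : ℝ) ≤ x ^ (1 - δ)), (1 : ℝ) * ((1 - δ) * Real.log x)
        ≤ ∑ p ∈ S.filter (fun p : ℕ => ¬ (p : ℝ) ≤ x ^ (1 - δ)), Real.log p := by
          apply Finset.sum_le_sum
          intro p hp
          rw [Finset.mem_filter, not_le] at hp
          rw [one_mul, ← Real.log_rpow (by linarith)]
          exact Real.log_le_log (by positivity) hp.2.le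
      _ ≤ ∑ p ∈ S, Real.log p := by
          apply Finset.sum_le_sum_of_subset_of_nonneg (Finset.filter_subset _ _)
          intro p hp _
          apply Real.log_natCast_nonneg
  rw [h1, h2]
  linarith

theorem piAP_tendsto {q : ℕ} [NeZero q] {a : ZMod q} (ha : IsUnit a) :
    Tendsto (fun x : ℝ => (piAP a x : ℝ) * Real.log x / x) atTop (𝓝 ((q.totient : ℝ)⁻¹)) := by
  have h := thetaAP_tendsto ha
  rw [tendsto_order]
  constructor
  · intro b hb
    filter_upwards [h.eventually_const_lt hb, eventually_ge_atTop 1] with x hx1 hx2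
    refine lt_of_lt_of_le hx1 ?_
    have := thetaAP_le_piAP_mul_log a hx2
    gcongr
  · intro b hb
    have hcont : Tendsto (fun δ : ℝ => ((q.totient : ℝ)⁻¹ + δ) / (1 - δ) + δ) (𝓝[>] 0) (𝓝 ((q.totient : ℝ)⁻¹)) := by
      have : Tendsto (fun δ : ℝ => ((q.totient : ℝ)⁻¹ + δ) / (1 - δ) + δ) (𝓝 0)
          (𝓝 (((q.totient : ℝ)⁻¹ + 0) / (1 - 0) + 0)) := by
        apply ContinuousAt.tendsto
        apply ContinuousAt.add _ continuousAt_id
        apply ContinuousAt.div
        · fun_prop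
        · fun_prop
        · norm_num
      simp only [sub_zero, add_zero, div_one] at this
      exact this.mono_left nhdsWithin_le_nhds
    have hlt1 : ∀ᶠ η : ℝ in 𝓝[>] 0, η < 1 := by
      have : ∀ᶠ η : ℝ in 𝓝 0, η < 1 := eventually_lt_nhds (by norm_num)
      exact this.filter_mono nhdsWithin_le_nhds
    obtain ⟨δ, ⟨hδ1, hδ3⟩, hδ2⟩ := (((hcont.eventually_lt_const hb).and hlt1).and self_mem_nhdsWithin).exists
    have hδ : 0 < δ := hδ2
    have h1d : 0 < 1 - δ := by linarith
    have hsmall : Tendsto (fun x : ℝ => Real.log x / x ^ δ) atTop (𝓝 0) :=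
      (isLittleO_log_rpow_atTop hδ).tendsto_div_nhds_zero
    filter_upwards [h.eventually_lt_const (show (q.totient : ℝ)⁻¹ < (q.totient : ℝ)⁻¹ + δ by linarith),
      hsmall.eventually_lt_const hδ, eventually_gt_atTop 1] with x hx1 hx2 hx3
    have hlog : 0 < Real.log x := Real.log_pos hx3
    have hx0 : 0 < x := by linarith
    have h5 := piAP_le a hx3 hδ hδ3
    calc (piAP a x : ℝ) * Real.log x / x
        ≤ (x ^ (1 - δ) + thetaAP a x / ((1 - δ) * Real.log x)) * Real.log x / x := by gcongr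
      _ = Real.log x / x ^ δ + (thetaAP a x / x) / (1 - δ) := by
          have e1 : x ^ (1 - δ) = x / x ^ δ := by rw [Real.rpow_sub hx0, Real.rpow_one]
          rw [e1]
          have : 0 < x ^ δ := by positivity
          field_simp
      _ ≤ δ + ((q.totient : ℝ)⁻¹ + δ) / (1 - δ) := by
          gcongr
      _ < b := by linarith

/-- The prime number theorem. -/
theorem pi_tendsto : Tendsto (fun x : ℝ => (Nat.primeCounting ⌊x⌋₊ : ℝ) * Real.log x / x) atTop (𝓝 1) := by
  have h := piAP_tendsto (q := 1) (a := 0) (by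
    have : (0 : ZMod 1) = 1 := Subsingleton.elim _ _
    rw [this]; exact isUnit_one)
  simp only [Nat.totient_one, Nat.cast_one, inv_one] at h
  refine h.congr (fun x => ?_)
  congr 3
  unfold piAP
  rw [← Nat.primesLE_card_eq_primeCounting, Nat.primesLE_eq_filter_Icc_one]
  congr 1
  ext p
  simp only [Finset.mem_filter, and_congr_right_iff, and_iff_left_iff_imp]
  intro _ _
  exact Subsingleton.elim _ _

end Pool.Agent.H17
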