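import Mathlib

/-! The Selberg upper bound sieve (completing Mathlib's `SelbergSieve` file). -/

set_option autoImplicit false

open Finset Real Nat ArithmeticFunction BoundingSieve
open scoped ArithmeticFunction.Moebius

namespace Pool.Agent.H17.Selb

variable (s : BoundingSieve) (z : ℕ)

/-- the Selberg denominator -/
noncomputable def GG : ℝ := ∑ l ∈ (divisors s.prodPrimes).filter (fun l => l ≤ z), s.selbergTerms l

/-- the Selberg denominator restricted to numbers coprime to `d` -/
noncomputable def GD (d : ℕ) : ℝ :=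
  ∑ m ∈ (divisors s.prodPrimes).filter (fun m => m.Coprime d ∧ d * m ≤ z), s.selbergTerms m

/-- the Selberg weights -/
noncomputable def ww (d : ℕ) : ℝ :=
  if d ∣ s.prodPrimes then (s.nu d)⁻¹ * s.selbergTerms d * (μ d : ℝ) * (GG s z)⁻¹ * GD s z d else 0

variable {s z}

lemma one_mem : 1 ∈ divisors s.prodPrimes := by
  rw [Nat.mem_divisors]
  exact ⟨one_dvd _, prodPrimes_ne_zero⟩

lemma selbergTerms_one : s.selbergTerms 1 = 1 := selbergTerms_isMultiplicative.map_one

lemma GG_pos (hz : 1 ≤ z) : 0 < GG s z := by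
  unfold GG
  apply Finset.sum_pos
  · intro l hl
    rw [Finset.mem_filter, Nat.mem_divisors] at hl
    exact selbergTerms_pos hl.1.1
  · exact ⟨1, by rw [Finset.mem_filter]; exact ⟨one_mem, hz⟩⟩

lemma GD_nonneg (d : ℕ) : 0 ≤ GD s z d := by
  unfold GD
  apply Finset.sum_nonneg
  intro l hl
  rw [Finset.mem_filter, Nat.mem_divisors] at hl
  exact (selbergTerms_pos hl.1.1).le

lemma ww_one (hz : 1 ≤ z) : ww s z 1 = 1 := by
  unfold ww
  rw [if_pos (one_dvd _), selbergTerms_one, s.nu_mult.map_one]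
  have h1 : GD s z 1 = GG s z := by
    unfold GD GG
    apply Finset.sum_congr _ (fun _ _ => rfl)
    apply Finset.filter_congr
    intro m _
    simp
  rw [h1]
  have := (GG_pos (s := s) hz).ne'
  simp [this]

lemma ww_eq_zero {d : ℕ} (hd : z < d) : ww s z d = 0 := by
  unfold ww
  split_ifs with h
  · have : GD s z d = 0 := by
      unfold GD
      apply Finset.sum_eq_zero
      intro m hm
      exfalso
      rw [Finset.mem_filter, Nat.mem_divisors] at hm
      have hm0 : m ≠ 0 := by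
        rintro rfl
        exact hm.1.2 (Nat.eq_zero_of_zero_dvd hm.1.1)
      have h1 : d * 1 ≤ d * m := Nat.mul_le_mul_left d (Nat.pos_of_ne_zero hm0)
      omega
    rw [this, mul_zero]
  · rfl

/-- for squarefree `P`, coprime factorization of divisors -/
lemma coprime_of_mul_dvd {d m : ℕ} (h : d * m ∣ s.prodPrimes) : m.Coprime d := by
  have h1 : Squarefree (d * m) := squarefree_of_dvd_prodPrimes h
  exact (Nat.coprime_of_squarefree_mul h1).symm

lemma mul_dvd_of_coprime {d m : ℕ} (hd : d ∣ s.prodPrimes) (hm : m ∣ s.prodPrimes) (h : m.Coprime d) :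
    d * m ∣ s.prodPrimes := Nat.Coprime.mul_dvd_of_dvd_of_dvd h.symm hd hm

lemma selb_mul {d m : ℕ} (h : m.Coprime d) : s.selbergTerms (d * m) = s.selbergTerms d * s.selbergTerms m :=
  selbergTerms_isMultiplicative.map_mul_of_coprime h.symm

lemma sum_GD {d : ℕ} (hd : d ∣ s.prodPrimes) :
    s.selbergTerms d * GD s z d
      = ∑ n ∈ (divisors s.prodPrimes).filter (fun n => d ∣ n ∧ n ≤ z), s.selbergTerms n := by
  have hd0 : d ≠ 0 := by rintro rfl; exact prodPrimes_ne_zero (Nat.eq_zero_of_zero_dvd hd)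
  unfold GD
  rw [Finset.mul_sum]
  apply Finset.sum_nbij' (i := fun m => d * m) (j := fun n => n / d)
  · intro m hm
    rw [Finset.mem_filter, Nat.mem_divisors] at hm ⊢
    exact ⟨⟨mul_dvd_of_coprime hd hm.1.1 hm.2.1, hm.1.2⟩, dvd_mul_right _ _, hm.2.2⟩
  · intro n hn
    rw [Finset.mem_filter, Nat.mem_divisors] at hn ⊢
    obtain ⟨⟨h1, h2⟩, h3, h4⟩ := hn
    have h5 : d * (n / d) = n := Nat.mul_div_cancel' h3
    refine ⟨⟨(Nat.div_dvd_of_dvd h3).trans h1, h2⟩, ?_, by rw [h5]; exact h4⟩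
    apply coprime_of_mul_dvd (s := s)
    rw [h5]; exact h1
  · intro m _
    exact Nat.mul_div_cancel_left m (Nat.pos_of_ne_zero hd0)
  · intro n hn
    rw [Finset.mem_filter] at hn
    exact Nat.mul_div_cancel' hn.2.1
  · intro m hm
    rw [Finset.mem_filter] at hm
    exact (selb_mul hm.2.1).symm

lemma sum_moebius_dvd {l n : ℕ} (hn : Squarefree n) (hn0 : n ≠ 0) :
    ∑ d ∈ n.divisors.filter (fun d => l ∣ d), (μ d : ℝ) = if n = l then (μ l : ℝ) else 0 := by
  by_cases hl : l ∣ n
  · have hl0 : l ≠ 0 := by rintro rfl; exact hn0 (Nat.eq_zero_of_zero_dvd hl)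
    have h1 : ∑ d ∈ n.divisors.filter (fun d => l ∣ d), (μ d : ℝ) = ∑ e ∈ (n / l).divisors, (μ l : ℝ) * (μ e : ℝ) := by
      symm
      apply Finset.sum_nbij' (i := fun e => l * e) (j := fun d => d / l)
      · intro e he
        rw [Nat.mem_divisors] at he
        rw [Finset.mem_filter, Nat.mem_divisors]
        refine ⟨⟨?_, hn0⟩, dvd_mul_right _ _⟩
        have h2 := Nat.mul_dvd_mul_left l he.1
        rwa [Nat.mul_div_cancel' hl] at h2
      · intro d hd
        rw [Finset.mem_filter, Nat.mem_divisors] at hd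
        rw [Nat.mem_divisors]
        refine ⟨Nat.div_dvd_div hd.2 hd.1.1, ?_⟩
        exact (Nat.div_pos (Nat.le_of_dvd (Nat.pos_of_ne_zero hn0) hl) (Nat.pos_of_ne_zero hl0)).ne'
      · intro e _
        exact Nat.mul_div_cancel_left e (Nat.pos_of_ne_zero hl0)
      · intro d hd
        rw [Finset.mem_filter] at hd
        exact Nat.mul_div_cancel' hd.2
      · intro e he
        rw [Nat.mem_divisors] at he
        have h2 := Nat.mul_dvd_mul_left l he.1
        rw [Nat.mul_div_cancel' hl] at h2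
        have h3 : Squarefree (l * e) := Squarefree.squarefree_of_dvd h2 hn
        have h4 := Nat.coprime_of_squarefree_mul h3
        rw [ArithmeticFunction.isMultiplicative_moebius.map_mul_of_coprime h4]
        push_cast
        rfl
    rw [h1, ← Finset.mul_sum]
    have h2 : ∑ e ∈ (n / l).divisors, (μ e : ℝ) = if n / l = 1 then 1 else 0 := by
      have h3 : ∑ e ∈ (n / l).divisors, μ e = if n / l = 1 then 1 else 0 := by
        have h5 := congrArg (fun f : ArithmeticFunction ℤ => f (n / l)) ArithmeticFunction.coe_zeta_mul_moebius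
        simp only [ArithmeticFunction.coe_zeta_mul_apply, ArithmeticFunction.one_apply] at h5
        exact h5
      have h4 := congrArg (fun r : ℤ => (r : ℝ)) h3
      push_cast at h4
      exact h4
    rw [h2]
    have h3 : n / l = 1 ↔ n = l := by
      rw [Nat.div_eq_iff_eq_mul_left (Nat.pos_of_ne_zero hl0) hl, one_mul]
    by_cases h4 : n = l
    · rw [if_pos (h3.mpr h4), if_pos h4, mul_one]
    · rw [if_neg (fun h => h4 (h3.mp h)), if_neg h4, mul_zero]
  · rw [if_neg (by rintro rfl; exact hl dvd_rfl)]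
    apply Finset.sum_eq_zero
    intro d hd
    exfalso
    rw [Finset.mem_filter, Nat.mem_divisors] at hd
    exact hl (hd.2.trans hd.1.1)

lemma sum_nu_ww {l : ℕ} (hl : l ∣ s.prodPrimes) :
    (∑ d ∈ divisors s.prodPrimes, if l ∣ d then s.nu d * ww s z d else 0)
      = if l ≤ z then s.selbergTerms l * (μ l : ℝ) * (GG s z)⁻¹ else 0 := by
  have h1 : ∀ d ∈ divisors s.prodPrimes, (if l ∣ d then s.nu d * ww s z d else 0)
      = ∑ n ∈ divisors s.prodPrimes, (if l ∣ d ∧ d ∣ n ∧ n ≤ z then (GG s z)⁻¹ * s.selbergTerms n * (μ d : ℝ) else 0) := by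
    intro d hd
    rw [Nat.mem_divisors] at hd
    by_cases hld : l ∣ d
    · rw [if_pos hld]
      unfold ww
      rw [if_pos hd.1]
      have h2 := sum_GD (z := z) hd.1
      have h3 := nu_ne_zero hd.1
      calc s.nu d * ((s.nu d)⁻¹ * s.selbergTerms d * (μ d : ℝ) * (GG s z)⁻¹ * GD s z d)
          = (GG s z)⁻¹ * (s.selbergTerms d * GD s z d) * (μ d : ℝ) := by field_simp
        _ = _ := by
          rw [h2, Finset.mul_sum, Finset.sum_mul, Finset.sum_filter]
          apply Finset.sum_congr rfl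
          intro n _
          by_cases h4 : d ∣ n ∧ n ≤ z
          · rw [if_pos h4, if_pos ⟨hld, h4⟩]
          · rw [if_neg h4, if_neg (fun h => h4 h.2)]
    · rw [if_neg hld]
      symm
      apply Finset.sum_eq_zero
      intro n _
      rw [if_neg (fun h => hld h.1)]
  rw [Finset.sum_congr rfl h1, Finset.sum_comm]
  have h2 : ∀ n ∈ divisors s.prodPrimes,
      ∑ d ∈ divisors s.prodPrimes, (if l ∣ d ∧ d ∣ n ∧ n ≤ z then (GG s z)⁻¹ * s.selbergTerms n * (μ d : ℝ) else 0)
      = if n = l then (if n ≤ z then (GG s z)⁻¹ * s.selbergTerms n * (μ l : ℝ) else 0) else 0 := by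
    intro n hn
    rw [Nat.mem_divisors] at hn
    have hnsq : Squarefree n := squarefree_of_dvd_prodPrimes hn.1
    have hn0 : n ≠ 0 := hnsq.ne_zero
    by_cases hnz : n ≤ z
    · have h3 : ∑ d ∈ divisors s.prodPrimes, (if l ∣ d ∧ d ∣ n ∧ n ≤ z then (GG s z)⁻¹ * s.selbergTerms n * (μ d : ℝ) else 0)
          = (GG s z)⁻¹ * s.selbergTerms n * ∑ d ∈ n.divisors.filter (fun d => l ∣ d), (μ d : ℝ) := by
        rw [Finset.mul_sum, ← Finset.sum_filter]
        apply Finset.sum_congr _ (fun _ _ => rfl)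
        ext d
        simp only [Finset.mem_filter, Nat.mem_divisors]
        constructor
        · rintro ⟨⟨_, _⟩, h5, h6, _⟩
          exact ⟨⟨h6, hn0⟩, h5⟩
        · rintro ⟨⟨h5, _⟩, h6⟩
          exact ⟨⟨h5.trans hn.1, hn.2⟩, h6, h5, hnz⟩
      rw [h3, sum_moebius_dvd hnsq hn0, if_pos hnz]
      split_ifs <;> ring
    · rw [if_neg hnz]
      rw [Finset.sum_eq_zero (fun d _ => if_neg (fun h => hnz h.2.2))]
      simp
  rw [Finset.sum_congr rfl h2, Finset.sum_ite_eq' , if_pos (by rw [Nat.mem_divisors]; exact ⟨hl, prodPrimes_ne_zero⟩)]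
  split_ifs <;> ring

lemma mainSum_eq (hz : 1 ≤ z) : s.mainSum (lambdaSquared (ww s z)) = (GG s z)⁻¹ := by
  rw [mainSum_lambdaSquared_eq_sum_mul_sum_sq]
  have h1 : ∀ l ∈ divisors s.prodPrimes, (s.selbergTerms l)⁻¹ *
        (∑ d ∈ divisors s.prodPrimes, if l ∣ d then s.nu d * ww s z d else 0) ^ 2
      = if l ≤ z then s.selbergTerms l * ((GG s z)⁻¹) ^ 2 else 0 := by
    intro l hl
    rw [Nat.mem_divisors] at hl
    rw [sum_nu_ww hl.1]
    split_ifs
    · have h2 := (selbergTerms_pos hl.1).ne'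
      have h3 : ((μ l : ℤ) : ℝ) ^ 2 = 1 := by
        have h4 := ArithmeticFunction.moebius_sq_eq_one_of_squarefree (squarefree_of_dvd_prodPrimes hl.1)
        exact_mod_cast h4
      calc (s.selbergTerms l)⁻¹ * (s.selbergTerms l * (μ l : ℝ) * (GG s z)⁻¹) ^ 2
          = (s.selbergTerms l)⁻¹ * s.selbergTerms l * s.selbergTerms l * ((μ l : ℝ) ^ 2) * ((GG s z)⁻¹) ^ 2 := by ring
        _ = _ := by rw [h3, inv_mul_cancel₀ h2]; ring
    · simp
  rw [Finset.sum_congr rfl h1, ← Finset.sum_filter, ← Finset.sum_mul]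
  have h2 := (GG_pos (s := s) hz).ne'
  show GG s z * ((GG s z)⁻¹) ^ 2 = _
  field_simp

lemma GD_le {d : ℕ} (hd : d ∣ s.prodPrimes) :
    (s.nu d)⁻¹ * s.selbergTerms d * GD s z d ≤ GG s z := by
  have h1 := sum_divisors_selbergTerms_eq_selbergTerms_mul_nu_inv hd
  rw [mul_comm (s.nu d)⁻¹, ← h1, ← Finset.sum_filter]
  unfold GD GG
  rw [Finset.sum_mul_sum, ← Finset.sum_product']
  have hd0 : d ≠ 0 := by rintro rfl; exact prodPrimes_ne_zero (Nat.eq_zero_of_zero_dvd hd)
  have h2 : ∀ u ∈ ((divisors s.prodPrimes).filter (fun l => l ∣ d)) ×ˢ ((divisors s.prodPrimes).filter (fun m => m.Coprime d ∧ d * m ≤ z)),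
      s.selbergTerms u.1 * s.selbergTerms u.2 = s.selbergTerms (u.1 * u.2) := by
    intro u hu
    rw [Finset.mem_product, Finset.mem_filter, Finset.mem_filter] at hu
    rw [selb_mul]
    exact Nat.Coprime.coprime_dvd_right hu.1.2 hu.2.2.1
  rw [Finset.sum_congr rfl h2]
  rw [← Finset.sum_image (f := s.selbergTerms) (g := fun u : ℕ × ℕ => u.1 * u.2)]
  · apply Finset.sum_le_sum_of_subset_of_nonneg
    · intro n hn
      rw [Finset.mem_image] at hn
      obtain ⟨u, hu, rfl⟩ := hn
      rw [Finset.mem_product, Finset.mem_filter, Finset.mem_filter, Nat.mem_divisors, Nat.mem_divisors] at hu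
      obtain ⟨⟨⟨h3, h4⟩, h5⟩, ⟨h6, h7⟩, h8, h9⟩ := hu
      rw [Finset.mem_filter, Nat.mem_divisors]
      refine ⟨⟨mul_dvd_of_coprime h3 h6 (Nat.Coprime.coprime_dvd_right h5 h8), h4⟩, ?_⟩
      exact (Nat.mul_le_mul_right u.2 (Nat.le_of_dvd (Nat.pos_of_ne_zero hd0) h5)).trans h9
    · intro n hn _
      rw [Finset.mem_filter, Nat.mem_divisors] at hn
      exact (selbergTerms_pos hn.1.1).le
  · intro u hu v hv huv
    simp only [Finset.coe_product, Finset.coe_filter, Set.mem_prod, Set.mem_ofPred_eq] at hu hv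
    have e1 : Nat.gcd (u.1 * u.2) d = u.1 := by
      rw [Nat.Coprime.gcd_mul_right_cancel u.1 hu.2.2.1]
      exact Nat.gcd_eq_left hu.1.2
    have e2 : Nat.gcd (v.1 * v.2) d = v.1 := by
      rw [Nat.Coprime.gcd_mul_right_cancel v.1 hv.2.2.1]
      exact Nat.gcd_eq_left hv.1.2
    have h3 : u.1 * u.2 = v.1 * v.2 := huv
    have h4 : u.1 = v.1 := by rw [← e1, ← e2, h3]
    have hu0 : u.1 ≠ 0 := by
      intro h5
      have := hu.1.2
      rw [h5] at this
      exact hd0 (Nat.eq_zero_of_zero_dvd this)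
    rw [← h4] at h3
    exact Prod.ext h4 (Nat.eq_of_mul_eq_mul_left (Nat.pos_of_ne_zero hu0) h3)

lemma abs_ww_le (hz : 1 ≤ z) (d : ℕ) : |ww s z d| ≤ 1 := by
  unfold ww
  split_ifs with hd
  · have h1 := GD_le (z := z) hd
    have h2 := GG_pos (s := s) hz
    have h3 : |((μ d : ℤ) : ℝ)| ≤ 1 := by
      have h4 := ArithmeticFunction.abs_moebius_le_one (n := d)
      exact_mod_cast h4
    have h5 : 0 ≤ (s.nu d)⁻¹ * s.selbergTerms d * GD s z d := by
      have h6 := (nu_pos_of_dvd_prodPrimes hd).le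
      have h7 := (selbergTerms_pos hd).le
      have h8 := GD_nonneg (s := s) (z := z) d
      positivity
    have h6 : (s.nu d)⁻¹ * s.selbergTerms d * (μ d : ℝ) * (GG s z)⁻¹ * GD s z d
        = ((s.nu d)⁻¹ * s.selbergTerms d * GD s z d) * (GG s z)⁻¹ * (μ d : ℝ) := by ring
    rw [h6, abs_mul, abs_of_nonneg (mul_nonneg h5 (inv_nonneg.mpr h2.le))]
    have h7 : (s.nu d)⁻¹ * s.selbergTerms d * GD s z d * (GG s z)⁻¹ ≤ 1 := by
      rw [← div_eq_mul_inv, div_le_one h2]
      exact h1
    calc (s.nu d)⁻¹ * s.selbergTerms d * GD s z d * (GG s z)⁻¹ * |((μ d : ℤ) : ℝ)|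
        ≤ 1 * 1 := mul_le_mul h7 h3 (abs_nonneg _) zero_le_one
      _ = 1 := one_mul 1
  · simp

lemma errSum_le (hz : 1 ≤ z) : s.errSum (lambdaSquared (ww s z))
    ≤ ∑ d1 ∈ (divisors s.prodPrimes).filter (fun l => l ≤ z),
        ∑ d2 ∈ (divisors s.prodPrimes).filter (fun l => l ≤ z), |s.rem (d1.lcm d2)| := by
  unfold errSum lambdaSquared
  have h1 : ∀ d ∈ divisors s.prodPrimes,
      |∑ d1 ∈ d.divisors, ∑ d2 ∈ d.divisors, (if d = Nat.lcm d1 d2 then ww s z d1 * ww s z d2 else 0)| * |s.rem d|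
      ≤ ∑ d1 ∈ (divisors s.prodPrimes).filter (fun l => l ≤ z),
        ∑ d2 ∈ (divisors s.prodPrimes).filter (fun l => l ≤ z), (if d = d1.lcm d2 then |s.rem (d1.lcm d2)| else 0) := by
    intro d hd
    rw [Nat.mem_divisors] at hd
    have h2 : |∑ d1 ∈ d.divisors, ∑ d2 ∈ d.divisors, (if d = Nat.lcm d1 d2 then ww s z d1 * ww s z d2 else 0)|
        ≤ ∑ d1 ∈ (divisors s.prodPrimes).filter (fun l => l ≤ z),
        ∑ d2 ∈ (divisors s.prodPrimes).filter (fun l => l ≤ z), (if d = d1.lcm d2 then (1 : ℝ) else 0) := by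
      calc |∑ d1 ∈ d.divisors, ∑ d2 ∈ d.divisors, (if d = Nat.lcm d1 d2 then ww s z d1 * ww s z d2 else 0)|
          ≤ ∑ d1 ∈ d.divisors, ∑ d2 ∈ d.divisors, |if d = Nat.lcm d1 d2 then ww s z d1 * ww s z d2 else 0| :=
            (Finset.abs_sum_le_sum_abs _ _).trans (Finset.sum_le_sum (fun i _ => Finset.abs_sum_le_sum_abs _ _))
        _ ≤ ∑ d1 ∈ d.divisors, ∑ d2 ∈ d.divisors, (if d1 ≤ z then (if d2 ≤ z then (if d = d1.lcm d2 then (1 : ℝ) else 0) else 0) else 0) := by
            apply Finset.sum_le_sum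
            intro d1 _
            apply Finset.sum_le_sum
            intro d2 _
            by_cases e1 : d1 ≤ z
            · by_cases e2 : d2 ≤ z
              · rw [if_pos e1, if_pos e2]
                by_cases e3 : d = d1.lcm d2
                · rw [if_pos e3, if_pos e3, abs_mul]
                  calc |ww s z d1| * |ww s z d2| ≤ 1 * 1 :=
                        mul_le_mul (abs_ww_le hz d1) (abs_ww_le hz d2) (abs_nonneg _) zero_le_one
                    _ = 1 := one_mul 1
                · rw [if_neg e3, if_neg e3, abs_zero]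
              · rw [if_pos e1, if_neg e2, ww_eq_zero (not_le.mp e2), mul_zero]
                simp
            · rw [if_neg e1, ww_eq_zero (not_le.mp e1), zero_mul]
              simp
        _ = ∑ d1 ∈ d.divisors.filter (fun l => l ≤ z), ∑ d2 ∈ d.divisors.filter (fun l => l ≤ z), (if d = d1.lcm d2 then (1 : ℝ) else 0) := by
            rw [Finset.sum_filter]
            apply Finset.sum_congr rfl
            intro d1 _
            split_ifs with e1
            · rw [Finset.sum_filter]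
            · simp
        _ ≤ _ := by
            have hsub : d.divisors.filter (fun l => l ≤ z) ⊆ (divisors s.prodPrimes).filter (fun l => l ≤ z) := by
              intro r hr
              rw [Finset.mem_filter, Nat.mem_divisors] at hr ⊢
              exact ⟨⟨hr.1.1.trans hd.1, hd.2⟩, hr.2⟩
            refine (Finset.sum_le_sum (fun d1 _ => Finset.sum_le_sum_of_subset_of_nonneg hsub ?_)).trans
              (Finset.sum_le_sum_of_subset_of_nonneg hsub ?_)
            · intro d2 _ _
              split_ifs <;> norm_num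
            · intro d1 _ _
              apply Finset.sum_nonneg
              intro d2 _
              split_ifs <;> norm_num
    refine (mul_le_mul_of_nonneg_right h2 (abs_nonneg _)).trans (le_of_eq ?_)
    rw [Finset.sum_mul]
    apply Finset.sum_congr rfl
    intro d1 _
    rw [Finset.sum_mul]
    apply Finset.sum_congr rfl
    intro d2 _
    split_ifs with h
    · rw [one_mul, ← h]
    · rw [zero_mul]
  refine (Finset.sum_le_sum h1).trans (le_of_eq ?_)
  rw [Finset.sum_comm]
  apply Finset.sum_congr rfl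
  intro d1 hd1
  rw [Finset.sum_comm]
  apply Finset.sum_congr rfl
  intro d2 hd2
  rw [Finset.mem_filter, Nat.mem_divisors] at hd1 hd2
  rw [Finset.sum_ite_eq', if_pos]
  rw [Nat.mem_divisors]
  exact ⟨Nat.lcm_dvd hd1.1.1 hd2.1.1, hd1.1.2⟩

/-- **Selberg's sieve.** -/
theorem selberg_bound (hz : 1 ≤ z) : s.siftedSum ≤ s.totalMass * (GG s z)⁻¹ +
    ∑ d1 ∈ (divisors s.prodPrimes).filter (fun l => l ≤ z),
        ∑ d2 ∈ (divisors s.prodPrimes).filter (fun l => l ≤ z), |s.rem (d1.lcm d2)| := by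
  have h1 := siftedSum_le_mainSum_errSum_of_upperMoebius (s := s) (lambdaSquared (ww s z))
    (upperMoebius_lambdaSquared (ww s z) (ww_one hz))
  rw [mainSum_eq hz] at h1
  exact h1.trans (add_le_add le_rfl (errSum_le hz))

end Pool.Agent.H17.Selb
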