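import Mathlib

/-! Elementary bounds for Dirichlet characters and their L-series on the half plane Re s > 1. -/

set_option autoImplicit false

open Filter Topology Set

namespace Pool.Agent.H17

/-- Partial sums of a nonprincipal character are bounded by the modulus. -/
lemma norm_sum_range_char_le {q : ℕ} [NeZero q] {χ : DirichletCharacter ℂ q} (hχ : χ ≠ 1) (N : ℕ) :
    ‖∑ n ∈ Finset.range N, χ n‖ ≤ q := by
  have hper : ∀ M : ℕ, ∑ n ∈ Finset.range (M + q), χ n = ∑ n ∈ Finset.range M, χ n := by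
    intro M
    rw [Finset.sum_range_add]
    have h0 : ∑ x ∈ Finset.range q, χ ((M + x : ℕ) : ZMod q) = 0 := by
      have h1 : ∑ x ∈ Finset.range q, χ ((M + x : ℕ) : ZMod q) = ∑ a : ZMod q, χ (M + a) := by
        apply Finset.sum_bij (fun (x : ℕ) _ => (x : ZMod q))
        · intro a _; exact Finset.mem_univ _
        · intro a ha b hb hab
          rw [Finset.mem_range] at ha hb
          have := congrArg ZMod.val hab
          rwa [ZMod.val_cast_of_lt ha, ZMod.val_cast_of_lt hb] at this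
        · intro b _
          exact ⟨b.val, Finset.mem_range.mpr (ZMod.val_lt b), ZMod.natCast_zmod_val b⟩
        · intro a _; push_cast; rfl
      rw [h1]
      have h2 : ∑ a : ZMod q, χ (M + a) = ∑ a : ZMod q, χ a :=
        Fintype.sum_equiv (Equiv.addLeft (M : ZMod q)) _ _ (fun _ => rfl)
      rw [h2]
      exact MulChar.sum_eq_zero_of_ne_one hχ
    rw [h0, add_zero]
  induction N using Nat.strong_induction_on with
  | _ N ih =>
    by_cases h : N < q
    · calc ‖∑ n ∈ Finset.range N, χ n‖ ≤ ∑ n ∈ Finset.range N, ‖χ n‖ := norm_sum_le _ _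
        _ ≤ ∑ n ∈ Finset.range N, (1 : ℝ) := Finset.sum_le_sum (fun n _ => DirichletCharacter.norm_le_one χ n)
        _ = N := by simp
        _ ≤ q := by exact_mod_cast h.le
    · push Not at h
      have hq : 0 < q := Nat.pos_of_neZero q
      have := hper (N - q)
      rw [Nat.sub_add_cancel h] at this
      rw [this]
      exact ih (N - q) (by omega)

lemma norm_sum_Icc_char_le {q : ℕ} [NeZero q] {χ : DirichletCharacter ℂ q} (hχ : χ ≠ 1) (N : ℕ) :
    ‖∑ n ∈ Finset.Icc 1 N, χ n‖ ≤ q := by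
  have h1 := norm_sum_range_char_le hχ (N + 1)
  rw [Finset.range_eq_Ico, Finset.sum_eq_sum_Ico_succ_bot (by omega)] at h1
  have hq : q ≠ 1 := by
    rintro rfl
    apply hχ
    exact Subsingleton.elim _ _
  have h0 : χ ((0 : ℕ) : ZMod q) = 0 := by
    rw [Nat.cast_zero]
    apply MulChar.map_nonunit
    intro h
    have h1q : 1 < q := by
      have := Nat.pos_of_neZero q
      omega
    have : Fact (1 < q) := ⟨h1q⟩
    exact not_isUnit_zero h
  rw [h0, zero_add] at h1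
  have h2 : Finset.Ico (0 + 1) (N + 1) = Finset.Icc 1 N := by ext; simp
  rwa [h2] at h1

/-- Abel summation bound for monotone nonnegative weights. -/
lemma norm_sum_mul_mono_le {a : ℕ → ℂ} {w : ℕ → ℝ} {B : ℝ}
    (hS : ∀ N : ℕ, ‖∑ n ∈ Finset.Icc 1 N, a n‖ ≤ B)
    (hw : ∀ n, 1 ≤ n → 0 ≤ w n) (hm : ∀ n, 1 ≤ n → w n ≤ w (n + 1)) (N : ℕ) (hN : 1 ≤ N) :
    ‖∑ n ∈ Finset.Icc 1 N, a n * w n‖ ≤ 2 * B * w N := by
  have key : ∀ N : ℕ, 1 ≤ N → ∑ n ∈ Finset.Icc 1 N, a n * w n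
      = (∑ n ∈ Finset.Icc 1 N, a n) * w N - ∑ m ∈ Finset.Ico 1 N, (∑ n ∈ Finset.Icc 1 m, a n) * (w (m + 1) - w m : ℝ) := by
    intro N hN
    induction N, hN using Nat.le_induction with
    | base => simp
    | succ n hn ih =>
      rw [Finset.sum_Icc_succ_top (by omega), ih, Finset.sum_Icc_succ_top (by omega),
        Finset.sum_Ico_succ_top (by omega)]
      push_cast
      ring
  have hB : 0 ≤ B := (norm_nonneg _).trans (hS 0)
  rw [key N hN]
  have h1 : ‖∑ m ∈ Finset.Ico 1 N, (∑ n ∈ Finset.Icc 1 m, a n) * ((w (m + 1) - w m : ℝ) : ℂ)‖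
      ≤ B * (w N - w 1) := by
    calc _ ≤ ∑ m ∈ Finset.Ico 1 N, ‖(∑ n ∈ Finset.Icc 1 m, a n) * ((w (m + 1) - w m : ℝ) : ℂ)‖ :=
          norm_sum_le _ _
      _ ≤ ∑ m ∈ Finset.Ico 1 N, B * (w (m + 1) - w m) := by
          apply Finset.sum_le_sum
          intro m hm'
          rw [Finset.mem_Ico] at hm'
          rw [norm_mul, Complex.norm_real, Real.norm_eq_abs, abs_of_nonneg (by linarith [hm m hm'.1])]
          have := hm m hm'.1
          apply mul_le_mul_of_nonneg_right (hS m) (by linarith)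
      _ = B * (w N - w 1) := by
          rw [← Finset.mul_sum, Finset.sum_Ico_sub _ hN]
  have h2 : ‖(∑ n ∈ Finset.Icc 1 N, a n) * (w N : ℂ)‖ ≤ B * w N := by
    rw [norm_mul, Complex.norm_real, Real.norm_eq_abs, abs_of_nonneg (hw N hN)]
    exact mul_le_mul_of_nonneg_right (hS N) (hw N hN)
  calc _ ≤ ‖(∑ n ∈ Finset.Icc 1 N, a n) * (w N : ℂ)‖ + ‖∑ m ∈ Finset.Ico 1 N, (∑ n ∈ Finset.Icc 1 m, a n) * ((w (m + 1) - w m : ℝ) : ℂ)‖ :=
        norm_sub_le _ _
    _ ≤ B * w N + B * (w N - w 1) := add_le_add h2 h1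
    _ ≤ 2 * B * w N := by
        have := mul_nonneg hB (hw 1 le_rfl)
        linarith

/-- Abel summation bound for antitone nonnegative weights. -/
lemma norm_sum_mul_anti_le {a : ℕ → ℂ} {w : ℕ → ℝ} {B : ℝ}
    (hS : ∀ N : ℕ, ‖∑ n ∈ Finset.Icc 1 N, a n‖ ≤ B)
    (hw : ∀ n, 1 ≤ n → 0 ≤ w n) (hm : ∀ n, 1 ≤ n → w (n + 1) ≤ w n) (N : ℕ) (hN : 1 ≤ N) :
    ‖∑ n ∈ Finset.Icc 1 N, a n * w n‖ ≤ B * w 1 := by
  have key : ∀ N : ℕ, 1 ≤ N → ∑ n ∈ Finset.Icc 1 N, a n * w n
      = (∑ n ∈ Finset.Icc 1 N, a n) * w N - ∑ m ∈ Finset.Ico 1 N, (∑ n ∈ Finset.Icc 1 m, a n) * (w (m + 1) - w m : ℝ) := by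
    intro N hN
    induction N, hN using Nat.le_induction with
    | base => simp
    | succ n hn ih =>
      rw [Finset.sum_Icc_succ_top (by omega), ih, Finset.sum_Icc_succ_top (by omega),
        Finset.sum_Ico_succ_top (by omega)]
      push_cast
      ring
  have hB : 0 ≤ B := (norm_nonneg _).trans (hS 0)
  rw [key N hN]
  have h1 : ‖∑ m ∈ Finset.Ico 1 N, (∑ n ∈ Finset.Icc 1 m, a n) * ((w (m + 1) - w m : ℝ) : ℂ)‖
      ≤ B * (w 1 - w N) := by
    calc _ ≤ ∑ m ∈ Finset.Ico 1 N, ‖(∑ n ∈ Finset.Icc 1 m, a n) * ((w (m + 1) - w m : ℝ) : ℂ)‖ :=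
          norm_sum_le _ _
      _ ≤ ∑ m ∈ Finset.Ico 1 N, B * (-(w (m + 1) - w m)) := by
          apply Finset.sum_le_sum
          intro m hm'
          rw [Finset.mem_Ico] at hm'
          have := hm m hm'.1
          rw [norm_mul, Complex.norm_real, Real.norm_eq_abs, abs_of_nonpos (by linarith)]
          apply mul_le_mul_of_nonneg_right (hS m) (by linarith)
      _ = B * (w 1 - w N) := by
          rw [← Finset.mul_sum, Finset.sum_neg_distrib, Finset.sum_Ico_sub _ hN]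
          ring
  have h2 : ‖(∑ n ∈ Finset.Icc 1 N, a n) * (w N : ℂ)‖ ≤ B * w N := by
    rw [norm_mul, Complex.norm_real, Real.norm_eq_abs, abs_of_nonneg (hw N hN)]
    exact mul_le_mul_of_nonneg_right (hS N) (hw N hN)
  calc _ ≤ ‖(∑ n ∈ Finset.Icc 1 N, a n) * (w N : ℂ)‖ + ‖∑ m ∈ Finset.Ico 1 N, (∑ n ∈ Finset.Icc 1 m, a n) * ((w (m + 1) - w m : ℝ) : ℂ)‖ :=
        norm_sub_le _ _
    _ ≤ B * w N + B * (w 1 - w N) := add_le_add h2 h1
    _ = B * w 1 := by ring


open LSeries MeasureTheory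

/-- Bound for an L-series from a bound `B √N` for the partial sums. -/
lemma norm_LSeries_le_of_partial {f : ℕ → ℂ} {B : ℝ} {s : ℂ} (hs : 1 < s.re)
    (hsum : LSeriesSummable f s)
    (hS : ∀ N : ℕ, ‖∑ n ∈ Finset.Icc 1 N, f n‖ ≤ B * (N : ℝ) ^ (1 / 2 : ℝ)) :
    ‖LSeries f s‖ ≤ 2 * B * ‖s‖ := by
  have hB : 0 ≤ B := by
    have := (norm_nonneg _).trans (hS 1)
    simpa using this
  have hO : (fun n : ℕ => ∑ k ∈ Finset.Icc 1 n, f k) =O[atTop] fun n : ℕ => (n : ℝ) ^ (1 / 2 : ℝ) := by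
    apply Asymptotics.IsBigO.of_bound B
    filter_upwards with n
    rw [Real.norm_of_nonneg (by positivity)]
    exact hS n
  rw [LSeries_eq_mul_integral f (r := 1 / 2) (by norm_num) (by linarith) hsum hO, norm_mul]
  have hint : ∫ t in Ioi (1 : ℝ), B * t ^ (-(3 / 2) : ℝ) = 2 * B := by
    rw [integral_const_mul, integral_Ioi_rpow_of_lt (by norm_num) (by norm_num)]
    norm_num
    ring
  have h1 : ‖∫ t in Ioi (1 : ℝ), (∑ k ∈ Finset.Icc 1 ⌊t⌋₊, f k) * (t : ℂ) ^ (-(s + 1))‖ ≤ 2 * B := by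
    rw [← hint]
    apply norm_integral_le_of_norm_le
    · exact (integrableOn_Ioi_rpow_of_lt (by norm_num) (by norm_num)).const_mul B
    · filter_upwards [ae_restrict_mem measurableSet_Ioi] with t ht
      have ht1 : (1 : ℝ) < t := ht
      have ht0 : 0 < t := by linarith
      rw [norm_mul, Complex.norm_cpow_eq_rpow_re_of_pos ht0]
      have h2 : ‖∑ k ∈ Finset.Icc 1 ⌊t⌋₊, f k‖ ≤ B * t ^ (1 / 2 : ℝ) := by
        refine (hS _).trans ?_
        gcongr
        exact Nat.floor_le ht0.le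
      have h3 : t ^ (-(s + 1)).re ≤ t ^ (-2 : ℝ) := by
        apply Real.rpow_le_rpow_of_exponent_le ht1.le
        simp
        linarith
      calc _ ≤ (B * t ^ (1 / 2 : ℝ)) * t ^ (-2 : ℝ) := by gcongr
        _ = B * t ^ (-(3 / 2) : ℝ) := by
          rw [mul_assoc, ← Real.rpow_add ht0]
          norm_num
  calc ‖s‖ * ‖∫ t in Ioi (1 : ℝ), (∑ k ∈ Finset.Icc 1 ⌊t⌋₊, f k) * (t : ℂ) ^ (-(s + 1))‖
      ≤ ‖s‖ * (2 * B) := by gcongr
    _ = 2 * B * ‖s‖ := by ring

lemma abscissa_char_lt {q : ℕ} (χ : DirichletCharacter ℂ q) {s : ℂ} (hs : 1 < s.re) :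
    abscissaOfAbsConv (fun n : ℕ => χ n) < s.re := by
  have h1 : abscissaOfAbsConv (fun n : ℕ => χ n) ≤ 1 := by
    apply abscissaOfAbsConv_le_of_forall_lt_LSeriesSummable
    intro y hy
    apply DirichletCharacter.LSeriesSummable_of_one_lt_re
    simpa using hy
  refine lt_of_le_of_lt h1 ?_
  exact_mod_cast hs

lemma one_le_rpow_half {N : ℕ} (hN : 1 ≤ N) : (1 : ℝ) ≤ (N : ℝ) ^ (1 / 2 : ℝ) := by
  apply Real.one_le_rpow
  · exact_mod_cast hN
  · norm_num

lemma norm_LSeries_char_le {q : ℕ} [NeZero q] {χ : DirichletCharacter ℂ q} (hχ : χ ≠ 1) {s : ℂ}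
    (hs : 1 < s.re) : ‖LSeries (fun n : ℕ => χ n) s‖ ≤ 2 * q * ‖s‖ := by
  apply norm_LSeries_le_of_partial hs (DirichletCharacter.LSeriesSummable_of_one_lt_re χ hs)
  intro N
  rcases Nat.eq_zero_or_pos N with rfl | hN
  · simp
  · calc _ ≤ (q : ℝ) := norm_sum_Icc_char_le hχ N
      _ = q * 1 := by ring
      _ ≤ q * (N : ℝ) ^ (1 / 2 : ℝ) := by
        gcongr
        exact one_le_rpow_half hN

lemma norm_LSeries_logchar_le {q : ℕ} [NeZero q] {χ : DirichletCharacter ℂ q} (hχ : χ ≠ 1) {s : ℂ}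
    (hs : 1 < s.re) : ‖LSeries (logMul (fun n : ℕ => χ n)) s‖ ≤ 8 * q * ‖s‖ := by
  have h := norm_LSeries_le_of_partial (f := logMul (fun n : ℕ => χ n)) (B := 4 * q) hs
    (LSeriesSummable_logMul_of_lt_re (abscissa_char_lt χ hs)) ?_
  · calc _ ≤ _ := h
      _ = _ := by ring
  intro N
  rcases Nat.eq_zero_or_pos N with rfl | hN
  · simp
  have h1 := norm_sum_mul_mono_le (a := fun n : ℕ => χ n) (w := fun n : ℕ => Real.log n) (B := q)
    (norm_sum_Icc_char_le hχ) (fun n _ => Real.log_natCast_nonneg n)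
    (fun n hn => by
      apply Real.log_le_log
      · exact_mod_cast hn
      · push_cast; linarith) N hN
  have h2 : ∑ n ∈ Finset.Icc 1 N, logMul (fun n : ℕ => χ n) n
      = ∑ n ∈ Finset.Icc 1 N, χ n * ((Real.log n : ℝ) : ℂ) := by
    apply Finset.sum_congr rfl
    intro n _
    simp only [logMul]
    rw [Complex.natCast_log, mul_comm]
  rw [h2]
  refine h1.trans ?_
  have h3 : Real.log N ≤ 2 * (N : ℝ) ^ (1 / 2 : ℝ) := by
    have := Real.log_le_rpow_div (x := N) (ε := 1 / 2) (by positivity) (by norm_num)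
    linarith
  calc 2 * (q : ℝ) * Real.log N ≤ 2 * q * (2 * (N : ℝ) ^ (1 / 2 : ℝ)) := by gcongr
    _ = _ := by ring

lemma norm_LSeries_loglogchar_le {q : ℕ} [NeZero q] {χ : DirichletCharacter ℂ q} (hχ : χ ≠ 1) {s : ℂ}
    (hs : 1 < s.re) : ‖LSeries (logMul (logMul (fun n : ℕ => χ n))) s‖ ≤ 64 * q * ‖s‖ := by
  have hab : abscissaOfAbsConv (logMul (fun n : ℕ => χ n)) < s.re := by
    rw [LSeries.abscissaOfAbsConv_logMul]
    exact abscissa_char_lt χ hs
  have h := norm_LSeries_le_of_partial (f := logMul (logMul (fun n : ℕ => χ n))) (B := 32 * q) hs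
    (LSeriesSummable_logMul_of_lt_re hab) ?_
  · calc _ ≤ _ := h
      _ = _ := by ring
  intro N
  rcases Nat.eq_zero_or_pos N with rfl | hN
  · simp
  have h1 := norm_sum_mul_mono_le (a := fun n : ℕ => χ n) (w := fun n : ℕ => Real.log n ^ 2) (B := q)
    (norm_sum_Icc_char_le hχ) (fun n _ => by positivity)
    (fun n hn => by
      have h0 := Real.log_natCast_nonneg n
      gcongr
      linarith) N hN
  have h2 : ∑ n ∈ Finset.Icc 1 N, logMul (logMul (fun n : ℕ => χ n)) n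
      = ∑ n ∈ Finset.Icc 1 N, χ n * ((Real.log n ^ 2 : ℝ) : ℂ) := by
    apply Finset.sum_congr rfl
    intro n _
    simp only [logMul]
    push_cast
    ring
  rw [h2]
  refine h1.trans ?_
  have h3 : Real.log N ≤ 4 * (N : ℝ) ^ (1 / 4 : ℝ) := by
    have := Real.log_le_rpow_div (x := N) (ε := 1 / 4) (by positivity) (by norm_num)
    linarith
  have h0 := Real.log_natCast_nonneg N
  calc 2 * (q : ℝ) * Real.log N ^ 2 ≤ 2 * q * (4 * (N : ℝ) ^ (1 / 4 : ℝ)) ^ 2 := by gcongr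
    _ = 32 * q * ((N : ℝ) ^ (1 / 4 : ℝ)) ^ 2 := by ring
    _ = _ := by
      rw [← Real.rpow_natCast, ← Real.rpow_mul (by positivity)]
      norm_num

open DirichletCharacter

lemma norm_LFunction_le {q : ℕ} [NeZero q] {χ : DirichletCharacter ℂ q} (hχ : χ ≠ 1) {s : ℂ}
    (hs : 1 < s.re) : ‖LFunction χ s‖ ≤ 2 * q * ‖s‖ := by
  rw [LFunction_eq_LSeries χ hs]
  exact norm_LSeries_char_le hχ hs

lemma norm_deriv_LFunction_le {q : ℕ} [NeZero q] {χ : DirichletCharacter ℂ q} (hχ : χ ≠ 1) {s : ℂ}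
    (hs : 1 < s.re) : ‖deriv (LFunction χ) s‖ ≤ 8 * q * ‖s‖ := by
  rw [deriv_LFunction_eq_deriv_LSeries χ hs, LSeries_deriv (abscissa_char_lt χ hs), norm_neg]
  exact norm_LSeries_logchar_le hχ hs

lemma norm_deriv_deriv_LFunction_le {q : ℕ} [NeZero q] {χ : DirichletCharacter ℂ q} (hχ : χ ≠ 1) {s : ℂ}
    (hs : 1 < s.re) : ‖deriv (deriv (LFunction χ)) s‖ ≤ 64 * q * ‖s‖ := by
  have hab : abscissaOfAbsConv (logMul (fun n : ℕ => χ n)) < s.re := by
    rw [LSeries.abscissaOfAbsConv_logMul]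
    exact abscissa_char_lt χ hs
  have h1 : deriv (LFunction χ) =ᶠ[𝓝 s] fun z => - LSeries (logMul (fun n : ℕ => χ n)) z := by
    have hopen : IsOpen {z : ℂ | 1 < z.re} := isOpen_lt continuous_const Complex.continuous_re
    filter_upwards [hopen.mem_nhds hs] with z hz
    rw [deriv_LFunction_eq_deriv_LSeries χ hz, LSeries_deriv (abscissa_char_lt χ hz)]
  rw [h1.deriv_eq]
  have h2 : deriv (fun z => - LSeries (logMul (fun n : ℕ => χ n)) z) s
      = LSeries (logMul (logMul (fun n : ℕ => χ n))) s := by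
    rw [deriv.fun_neg, LSeries_deriv hab, neg_neg]
  rw [h2]
  exact norm_LSeries_loglogchar_le hχ hs


open LSeries MeasureTheory DirichletCharacter

/-- Bound for an L-series from a bound `B N` for the partial sums. -/
lemma norm_LSeries_le_of_partial_lin {f : ℕ → ℂ} {B : ℝ} {s : ℂ} (hs : 1 < s.re)
    (hsum : LSeriesSummable f s)
    (hS : ∀ N : ℕ, ‖∑ n ∈ Finset.Icc 1 N, f n‖ ≤ B * N) :
    ‖LSeries f s‖ ≤ B * ‖s‖ / (s.re - 1) := by
  have hB : 0 ≤ B := by
    have := (norm_nonneg _).trans (hS 1)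
    simpa using this
  have hO : (fun n : ℕ => ∑ k ∈ Finset.Icc 1 n, f k) =O[atTop] fun n : ℕ => (n : ℝ) ^ (1 : ℝ) := by
    apply Asymptotics.IsBigO.of_bound B
    filter_upwards with n
    rw [Real.rpow_one, Real.norm_of_nonneg (by positivity)]
    exact hS n
  rw [LSeries_eq_mul_integral f (r := 1) (by norm_num) (by linarith) hsum hO, norm_mul]
  have hint : ∫ t in Ioi (1 : ℝ), B * t ^ (-s.re : ℝ) = B / (s.re - 1) := by
    rw [integral_const_mul, integral_Ioi_rpow_of_lt (by linarith) (by norm_num)]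
    rw [Real.one_rpow]
    have h1 : -s.re + 1 ≠ 0 := by intro h; linarith
    have h2 : s.re - 1 ≠ 0 := by intro h; linarith
    field_simp
    ring
  have h1 : ‖∫ t in Ioi (1 : ℝ), (∑ k ∈ Finset.Icc 1 ⌊t⌋₊, f k) * (t : ℂ) ^ (-(s + 1))‖ ≤ B / (s.re - 1) := by
    rw [← hint]
    apply norm_integral_le_of_norm_le
    · exact (integrableOn_Ioi_rpow_of_lt (by linarith) (by norm_num)).const_mul B
    · filter_upwards [ae_restrict_mem measurableSet_Ioi] with t ht
      have ht1 : (1 : ℝ) < t := ht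
      have ht0 : 0 < t := by linarith
      rw [norm_mul, Complex.norm_cpow_eq_rpow_re_of_pos ht0]
      have h2 : ‖∑ k ∈ Finset.Icc 1 ⌊t⌋₊, f k‖ ≤ B * t := by
        refine (hS _).trans ?_
        gcongr
        exact Nat.floor_le ht0.le
      calc _ ≤ (B * t) * t ^ (-(s + 1)).re := by gcongr
        _ = B * t ^ (-s.re : ℝ) := by
          rw [mul_assoc]
          nth_rewrite 1 [← Real.rpow_one t]
          rw [← Real.rpow_add ht0]
          congr 2
          simp
  calc ‖s‖ * ‖∫ t in Ioi (1 : ℝ), (∑ k ∈ Finset.Icc 1 ⌊t⌋₊, f k) * (t : ℂ) ^ (-(s + 1))‖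
      ≤ ‖s‖ * (B / (s.re - 1)) := by gcongr
    _ = B * ‖s‖ / (s.re - 1) := by ring

lemma norm_LSeries_triv_le {f : ℕ → ℂ} (hf : ∀ n, ‖f n‖ ≤ 1) {s : ℂ} (hs : 1 < s.re) :
    ‖LSeries f s‖ ≤ s.re / (s.re - 1) := by
  have hσ : 1 < ((s.re : ℝ) : ℂ).re := by simpa using hs
  -- compare with the series of the constant one at the real point
  have hsum1 : LSeriesSummable (1 : ℕ → ℂ) ((s.re : ℝ) : ℂ) := LSeriesSummable_one_iff.mpr hσ
  have h1 := norm_LSeries_le_of_partial_lin (f := 1) (B := 1) hσ hsum1 (by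
    intro N; simp)
  have h2 : ‖LSeries f s‖ ≤ ‖LSeries (1 : ℕ → ℂ) ((s.re : ℝ) : ℂ)‖ := by
    have hterm : ∀ n, ‖term f s n‖ ≤ (term (1 : ℕ → ℂ) ((s.re : ℝ) : ℂ) n).re := by
      intro n
      rcases eq_or_ne n 0 with rfl | hn
      · simp
      · rw [norm_term_eq, if_neg hn, term_of_ne_zero hn]
        have hn0 : (0 : ℝ) < n := by exact_mod_cast Nat.pos_of_ne_zero hn
        have e : ((1 : ℕ → ℂ) n / (n : ℂ) ^ ((s.re : ℝ) : ℂ)).re = 1 / (n : ℝ) ^ s.re := by
          rw [← Complex.ofReal_natCast, ← Complex.ofReal_cpow hn0.le]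
          simp
        rw [e]
        gcongr
        exact hf n
    have hsr : Summable (fun n => (term (1 : ℕ → ℂ) ((s.re : ℝ) : ℂ) n).re) :=
      (Complex.hasSum_re hsum1.hasSum).summable
    calc ‖LSeries f s‖ ≤ ∑' n, (term (1 : ℕ → ℂ) ((s.re : ℝ) : ℂ) n).re :=
          tsum_of_norm_bounded hsr.hasSum hterm
      _ = (LSeries (1 : ℕ → ℂ) ((s.re : ℝ) : ℂ)).re := by
          rw [LSeries, Complex.re_tsum hsum1]
      _ ≤ _ := Complex.re_le_norm _
  refine h2.trans (h1.trans_eq ?_)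
  rw [one_mul, Complex.norm_real, Real.norm_of_nonneg (by linarith)]
  simp

lemma norm_LFunction_ge_trivial {q : ℕ} [NeZero q] (χ : DirichletCharacter ℂ q) {s : ℂ}
    (hs : 1 < s.re) : (s.re - 1) / s.re ≤ ‖LFunction χ s‖ := by
  rw [LFunction_eq_LSeries χ hs]
  have h1 := LSeries.mul_mu_eq_one χ hs
  have h2 : ‖LSeries ((fun n : ℕ => χ n) * (fun n : ℕ => ((ArithmeticFunction.moebius n : ℤ) : ℂ))) s‖ ≤ s.re / (s.re - 1) := by
    apply norm_LSeries_triv_le _ hs
    intro n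
    rw [Pi.mul_apply, norm_mul]
    have h3 := DirichletCharacter.norm_le_one χ (n : ZMod q)
    have h4 : ‖((ArithmeticFunction.moebius n : ℤ) : ℂ)‖ ≤ 1 := by
      rw [Complex.norm_intCast]
      exact_mod_cast ArithmeticFunction.abs_moebius_le_one
    calc _ ≤ (1 : ℝ) * 1 := by gcongr
      _ = 1 := by ring
  have h3 : ‖LSeries (fun n : ℕ => χ n) s‖ * ‖LSeries ((fun n : ℕ => χ n) * (fun n : ℕ => ((ArithmeticFunction.moebius n : ℤ) : ℂ))) s‖ = 1 := by
    rw [← norm_mul, h1, norm_one]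
  have hpos : 0 < s.re - 1 := by linarith
  have hpos2 : 0 < s.re := by linarith
  have h5 := norm_nonneg (LSeries (fun n : ℕ => χ n) s)
  rw [div_le_iff₀ hpos2]
  have h6 : 1 ≤ ‖LSeries (fun n : ℕ => χ n) s‖ * (s.re / (s.re - 1)) :=
    h3.symm.le.trans (mul_le_mul_of_nonneg_left h2 h5)
  rw [mul_div_assoc', le_div_iff₀ hpos] at h6
  linarith

lemma norm_LFunction_one_le {q : ℕ} [NeZero q] {s : ℂ}
    (hs : 1 < s.re) : ‖LFunction (1 : DirichletCharacter ℂ q) s‖ ≤ s.re / (s.re - 1) := by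
  rw [LFunction_eq_LSeries _ hs]
  apply norm_LSeries_triv_le _ hs
  intro n
  exact DirichletCharacter.norm_le_one _ _

/-- bound for zeta near the line -/
lemma norm_zeta_le {s : ℂ} (hs : 1 < s.re) (hs2 : s.im ≠ 0) :
    ‖riemannZeta s‖ ≤ ‖s‖ / |s.im| + 2 * ‖s‖ := by
  rw [← LSeries_one_eq_riemannZeta hs]
  have hO : (fun n : ℕ => ∑ k ∈ Finset.Icc 1 n, (1 : ℕ → ℂ) k) =O[atTop] fun n : ℕ => (n : ℝ) ^ (1 : ℝ) := by
    apply Asymptotics.IsBigO.of_bound 1
    filter_upwards with n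
    simp
  rw [LSeries_eq_mul_integral (1 : ℕ → ℂ) (r := 1) (by norm_num) (by linarith)
    (LSeriesSummable_one_iff.mpr hs) hO, norm_mul]
  have hs0 : s - 1 ≠ 0 := by
    intro h
    have : s = 1 := by linear_combination h
    rw [this] at hs; simp at hs
  have hint1 : IntegrableOn (fun t : ℝ => (t : ℂ) ^ (-s)) (Ioi 1) :=
    integrableOn_Ioi_cpow_of_lt (by simp; linarith) (by norm_num)
  have hint2 : IntegrableOn (fun t : ℝ => ((⌊t⌋₊ : ℂ) - t) * (t : ℂ) ^ (-(s + 1))) (Ioi 1) := by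
    apply Integrable.mono' (g := fun t : ℝ => t ^ (-2 : ℝ))
      (integrableOn_Ioi_rpow_of_lt (by norm_num) (by norm_num))
    · apply AEStronglyMeasurable.mul
      · apply Measurable.aestronglyMeasurable
        fun_prop
      · apply ContinuousOn.aestronglyMeasurable _ measurableSet_Ioi
        intro t ht
        have ht1 : (1 : ℝ) < t := ht
        apply ContinuousAt.continuousWithinAt
        apply ContinuousAt.cpow
        · exact Complex.continuous_ofReal.continuousAt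
        · exact continuousAt_const
        · left; simp; linarith
    · filter_upwards [ae_restrict_mem measurableSet_Ioi] with t ht
      have ht1 : (1 : ℝ) < t := ht
      have ht0 : 0 < t := by linarith
      rw [norm_mul, Complex.norm_cpow_eq_rpow_re_of_pos ht0]
      have h1 : ‖((⌊t⌋₊ : ℂ) - t)‖ ≤ 1 := by
        rw [← Complex.ofReal_natCast, ← Complex.ofReal_sub, Complex.norm_real, Real.norm_eq_abs, abs_le]
        have := Nat.floor_le ht0.le
        have := Nat.lt_floor_add_one t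
        constructor <;> linarith
      have h3 : t ^ (-(s + 1)).re ≤ t ^ (-2 : ℝ) := by
        apply Real.rpow_le_rpow_of_exponent_le ht1.le
        simp
        linarith
      calc _ ≤ 1 * t ^ (-2 : ℝ) := by gcongr
        _ = _ := by ring
  have e1 : ∫ t in Ioi (1 : ℝ), (∑ k ∈ Finset.Icc 1 ⌊t⌋₊, (1 : ℕ → ℂ) k) * (t : ℂ) ^ (-(s + 1))
      = 1 / (s - 1) + ∫ t in Ioi (1 : ℝ), ((⌊t⌋₊ : ℂ) - t) * (t : ℂ) ^ (-(s + 1)) := by
    have e2 : ∫ t in Ioi (1 : ℝ), (t : ℂ) ^ (-s) = 1 / (s - 1) := by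
      rw [integral_Ioi_cpow_of_lt (by simp; linarith) (by norm_num)]
      simp
      have : -s + 1 = -(s - 1) := by ring
      rw [this]
      field_simp
    rw [← e2, ← integral_add hint1 hint2]
    apply setIntegral_congr_fun measurableSet_Ioi
    intro t ht
    have ht1 : (1 : ℝ) < t := ht
    have ht0 : (t : ℂ) ≠ 0 := by
      exact_mod_cast (by linarith : t ≠ 0)
    simp only [Pi.one_apply, Finset.sum_const, Nat.card_Icc, add_tsub_cancel_right, nsmul_eq_mul, mul_one]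
    have e3 : (t : ℂ) ^ (-s) = t * (t : ℂ) ^ (-(s + 1)) := by
      have : -s = 1 + (-(s + 1)) := by ring
      rw [this, Complex.cpow_add _ _ ht0, Complex.cpow_one]
    rw [e3]
    ring
  have h4 : ‖∫ t in Ioi (1 : ℝ), ((⌊t⌋₊ : ℂ) - t) * (t : ℂ) ^ (-(s + 1))‖ ≤ 1 := by
    have e4 : ∫ t in Ioi (1 : ℝ), t ^ (-2 : ℝ) = 1 := by
      rw [integral_Ioi_rpow_of_lt (by norm_num) (by norm_num)]
      norm_num
    refine le_of_le_of_eq ?_ e4
    apply norm_integral_le_of_norm_le (integrableOn_Ioi_rpow_of_lt (by norm_num) (by norm_num))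
    filter_upwards [ae_restrict_mem measurableSet_Ioi] with t ht
    have ht1 : (1 : ℝ) < t := ht
    have ht0 : 0 < t := by linarith
    rw [norm_mul, Complex.norm_cpow_eq_rpow_re_of_pos ht0]
    have h1 : ‖((⌊t⌋₊ : ℂ) - t)‖ ≤ 1 := by
      rw [← Complex.ofReal_natCast, ← Complex.ofReal_sub, Complex.norm_real, Real.norm_eq_abs, abs_le]
      have := Nat.floor_le ht0.le
      have := Nat.lt_floor_add_one t
      constructor <;> linarith
    have h3 : t ^ (-(s + 1)).re ≤ t ^ (-2 : ℝ) := by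
      apply Real.rpow_le_rpow_of_exponent_le ht1.le
      simp
      linarith
    calc _ ≤ 1 * t ^ (-2 : ℝ) := by gcongr
      _ = _ := by ring
  rw [e1]
  have h5 : ‖1 / (s - 1)‖ ≤ 1 / |s.im| := by
    rw [norm_div, norm_one]
    have h6 : |s.im| ≤ ‖s - 1‖ := by
      have := Complex.abs_im_le_norm (s - 1)
      simpa using this
    have h7 : 0 < |s.im| := abs_pos.mpr hs2
    gcongr
  have hn := norm_nonneg s
  calc ‖s‖ * ‖1 / (s - 1) + ∫ t in Ioi (1 : ℝ), ((⌊t⌋₊ : ℂ) - t) * (t : ℂ) ^ (-(s + 1))‖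
      ≤ ‖s‖ * (1 / |s.im| + 1) := by
        gcongr
        exact (norm_add_le _ _).trans (add_le_add h5 h4)
    _ ≤ ‖s‖ / |s.im| + 2 * ‖s‖ := by
        rw [mul_add, mul_one, mul_one_div]
        linarith

lemma norm_LFunction_one_le' {q : ℕ} [NeZero q] {s : ℂ}
    (hs : 1 < s.re) (hs2 : s.im ≠ 0) :
    ‖LFunction (1 : DirichletCharacter ℂ q) s‖ ≤ q * (‖s‖ / |s.im| + 2 * ‖s‖) := by
  have hs1 : s ≠ 1 := by rintro rfl; simp at hs
  have h := LFunctionTrivChar_eq_mul_riemannZeta (N := q) hs1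
  unfold LFunctionTrivChar at h
  rw [h, norm_mul, norm_prod]
  have h1 : ∏ p ∈ q.primeFactors, ‖1 - (p : ℂ) ^ (-s)‖ ≤ q := by
    calc ∏ p ∈ q.primeFactors, ‖1 - (p : ℂ) ^ (-s)‖ ≤ ∏ p ∈ q.primeFactors, (p : ℝ) := by
          apply Finset.prod_le_prod
          · intro p _; exact norm_nonneg _
          · intro p hp
            have hpp := Nat.prime_of_mem_primeFactors hp
            have hp2 : (2 : ℝ) ≤ p := by exact_mod_cast hpp.two_le
            have hp0 : (0 : ℝ) < p := by linarith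
            have h3 : ‖(p : ℂ) ^ (-s)‖ ≤ 1 := by
              rw [← Complex.ofReal_natCast, Complex.norm_cpow_eq_rpow_re_of_pos hp0]
              apply Real.rpow_le_one_of_one_le_of_nonpos (by linarith)
              simp; linarith
            calc ‖1 - (p : ℂ) ^ (-s)‖ ≤ ‖(1 : ℂ)‖ + ‖(p : ℂ) ^ (-s)‖ := norm_sub_le _ _
              _ ≤ 1 + 1 := by rw [norm_one]; linarith
              _ ≤ p := by linarith
      _ = ((∏ p ∈ q.primeFactors, p : ℕ) : ℝ) := by push_cast; rfl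
      _ ≤ q := by
          exact_mod_cast Nat.le_of_dvd (Nat.pos_of_neZero q) (Nat.prod_primeFactors_dvd q)
  have h2 := norm_zeta_le hs hs2
  gcongr


open LSeries MeasureTheory DirichletCharacter

lemma re_mk (x t : ℝ) : (1 + (x : ℂ) + Complex.I * t).re = 1 + x := by simp
lemma im_mk (x t : ℝ) : (1 + (x : ℂ) + Complex.I * t).im = t := by simp

lemma norm_mk_le {x t : ℝ} (hx0 : 0 ≤ x) (hx : x ≤ 1) : ‖(1 + (x : ℂ) + Complex.I * t)‖ ≤ |t| + 2 := by
  calc ‖(1 + (x : ℂ) + Complex.I * t)‖ ≤ ‖(1 + (x : ℂ))‖ + ‖Complex.I * t‖ := norm_add_le _ _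
    _ ≤ (‖(1 : ℂ)‖ + ‖(x : ℂ)‖) + ‖Complex.I * t‖ := by gcongr; exact norm_add_le _ _
    _ = (1 + |x|) + |t| := by rw [norm_one, Complex.norm_real, norm_mul, Complex.norm_I, Complex.norm_real]; simp
    _ ≤ |t| + 2 := by rw [abs_of_nonneg hx0]; linarith

/-- Mean value bound for L on the half plane. -/
lemma norm_LFunction_sub_le {q : ℕ} [NeZero q] {χ : DirichletCharacter ℂ q} (hχ : χ ≠ 1)
    {x y t u T : ℝ} (hx : 0 < x) (hx1 : x ≤ 1) (hy : 0 < y) (hy1 : y ≤ 1) (ht : |t| ≤ T) (hu : |u| ≤ T) :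
    ‖LFunction χ (1 + x + Complex.I * t) - LFunction χ (1 + y + Complex.I * u)‖
      ≤ 8 * q * (T + 2) * ‖((1 + x + Complex.I * t) - (1 + y + Complex.I * u) : ℂ)‖ := by
  set S : Set ℂ := {z | 1 < z.re ∧ z.re ≤ 2 ∧ -T ≤ z.im ∧ z.im ≤ T} with hS
  have hconv : Convex ℝ S := by
    have e : S = {z : ℂ | 1 < z.re} ∩ {z : ℂ | z.re ≤ 2} ∩ {z : ℂ | -T ≤ z.im} ∩ {z : ℂ | z.im ≤ T} := by
      ext z; simp [hS, and_assoc]
    rw [e]
    exact (((convex_halfSpace_re_gt 1).inter (convex_halfSpace_re_le 2)).inter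
      (convex_halfSpace_im_ge (-T))).inter (convex_halfSpace_im_le T)
  have hmem : ∀ (a b : ℝ), 0 < a → a ≤ 1 → |b| ≤ T → (1 + a + Complex.I * b : ℂ) ∈ S := by
    intro a b ha ha1 hb
    rw [hS]
    refine ⟨?_, ?_, ?_, ?_⟩
    · rw [re_mk]; linarith
    · rw [re_mk]; linarith
    · rw [im_mk]; exact (abs_le.mp hb).1
    · rw [im_mk]; exact (abs_le.mp hb).2
  apply hconv.norm_image_sub_le_of_norm_deriv_le (𝕜 := ℂ) (f := LFunction χ)
  · intro z hz
    exact (differentiable_LFunction hχ) z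
  · intro z hz
    have h1 := norm_deriv_LFunction_le hχ hz.1
    refine h1.trans ?_
    gcongr
    have h2 : z = 1 + ((z.re - 1 : ℝ) : ℂ) + Complex.I * (z.im : ℝ) := by
      apply Complex.ext <;> simp
    have h3 := norm_mk_le (x := z.re - 1) (t := z.im) (by linarith [hz.1]) (by linarith [hz.2.1])
    rw [← h2] at h3
    have h4 : |z.im| ≤ T := abs_le.mpr ⟨hz.2.2.1, hz.2.2.2⟩
    linarith
  · exact hmem y u hy hy1 hu
  · exact hmem x t hx hx1 ht

/-- The 3-4-1 inequality turned into a lower bound. -/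
lemma norm_LFunction_ge_of_bound {q : ℕ} [NeZero q] {χ : DirichletCharacter ℂ q} (hχ : χ ≠ 1)
    {t M : ℝ} (hM : 1 ≤ M)
    (hb : ∀ x : ℝ, 0 < x → x ≤ 1 → ‖LFunction (χ ^ 2) (1 + x + 2 * Complex.I * t)‖ ≤ M)
    {x : ℝ} (hx : 0 < x) (hx1 : x ≤ 1) :
    1 / (16 * M * (16 * q * (|t| + 2)) ^ 4) ≤ ‖LFunction χ (1 + x + Complex.I * t)‖ := by
  have hq1 : (1 : ℝ) ≤ q := by exact_mod_cast Nat.pos_of_neZero q
  set τ : ℝ := |t| + 2 with hτ
  have hτ2 : 2 ≤ τ := by rw [hτ]; linarith [abs_nonneg t]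
  set D : ℝ := 16 * q * τ with hD
  have hD1 : 1 ≤ D := by rw [hD]; nlinarith
  have hDpos : 0 < D := by linarith
  set η : ℝ := 1 / (D ^ 4 * (8 * M)) with hη
  have hηpos : 0 < η := by rw [hη]; positivity
  have hη1 : η ≤ 1 := by
    rw [hη, div_le_one (by positivity)]
    have : 1 ≤ D ^ 4 := one_le_pow₀ hD1
    nlinarith
  -- lower bound at x by 3-4-1
  have h341 : ∀ x : ℝ, 0 < x → x ≤ 1 → x ^ 3 / (8 * M) ≤ ‖LFunction χ (1 + x + Complex.I * t)‖ ^ 4 := by
    intro x hx hx1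
    have h1 := norm_LFunction_product_ge_one χ hx t
    rw [norm_mul, norm_mul, norm_pow, norm_pow] at h1
    have h2 : ‖LFunctionTrivChar q (1 + x)‖ ≤ 2 / x := by
      have h3 := norm_LFunction_one_le (q := q) (s := 1 + x) (by simp; exact hx)
      have h4 : (1 + (x : ℂ)).re = 1 + x := by simp
      rw [h4] at h3
      refine h3.trans ?_
      rw [add_sub_cancel_left]
      gcongr
      linarith
    have h3 := hb x hx hx1
    have h4 : ‖LFunctionTrivChar q (1 + x)‖ ^ 3 * ‖LFunction χ (1 + x + Complex.I * t)‖ ^ 4 *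
        ‖LFunction (χ ^ 2) (1 + x + 2 * Complex.I * t)‖
        ≤ (2 / x) ^ 3 * ‖LFunction χ (1 + x + Complex.I * t)‖ ^ 4 * M := by
      gcongr
    have h5 : 1 ≤ (2 / x) ^ 3 * ‖LFunction χ (1 + x + Complex.I * t)‖ ^ 4 * M := h1.trans h4
    rw [div_le_iff₀ (by positivity)]
    have h6 : (2 / x) ^ 3 = 8 / x ^ 3 := by rw [div_pow]; norm_num
    rw [h6] at h5
    have hx3 : 0 < x ^ 3 := by positivity
    rw [div_mul_eq_mul_div, div_mul_eq_mul_div, le_div_iff₀ hx3] at h5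
    linarith
  by_cases hxη : η ≤ x
  · -- trivial bound
    have h1 := norm_LFunction_ge_trivial χ (s := 1 + x + Complex.I * t) (by rw [re_mk]; linarith)
    rw [re_mk, add_sub_cancel_left] at h1
    refine le_trans ?_ h1
    calc 1 / (16 * M * D ^ 4) = η / 2 := by rw [hη]; field_simp; norm_num
      _ ≤ x / 2 := by gcongr
      _ ≤ x / (1 + x) := by gcongr; linarith
  · push Not at hxη
    have h1 := h341 η hηpos hη1
    have h2 : 1 / (D ^ 3 * (8 * M)) ≤ ‖LFunction χ (1 + η + Complex.I * t)‖ := by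
      apply le_of_pow_le_pow_left₀ (n := 4) (by norm_num) (norm_nonneg _)
      refine le_trans (le_of_eq ?_) h1
      rw [hη]
      field_simp
    have h3 := norm_LFunction_sub_le hχ (t := t) (u := t) (T := |t|) hηpos hη1 hx hx1 le_rfl le_rfl
    have h4 : ‖((1 + η + Complex.I * t) - (1 + x + Complex.I * t) : ℂ)‖ ≤ η := by
      have : ((1 + η + Complex.I * t) - (1 + x + Complex.I * t) : ℂ) = ((η - x : ℝ) : ℂ) := by
        push_cast; ring
      rw [this, Complex.norm_real, Real.norm_of_nonneg (by linarith)]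
      linarith
    have h5 : ‖LFunction χ (1 + η + Complex.I * t)‖ - ‖LFunction χ (1 + x + Complex.I * t)‖
        ≤ 8 * q * τ * η := by
      refine (norm_sub_norm_le _ _).trans (h3.trans ?_)
      gcongr
    have h6 : 8 * q * τ * η = (1 / 2) * (1 / (D ^ 3 * (8 * M))) := by
      rw [hη, hD]; field_simp; norm_num
    have h7 : 1 / (16 * M * D ^ 4) ≤ (1 / 2) * (1 / (D ^ 3 * (8 * M))) := by
      rw [div_mul_div_comm, one_mul]
      apply one_div_le_one_div_of_le (by positivity)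
      have : D ^ 3 ≤ D ^ 4 := pow_le_pow_right₀ hD1 (by norm_num)
      nlinarith
    linarith


open LSeries MeasureTheory DirichletCharacter

/-- geometric sums -/
noncomputable def gsum (t : ℝ) (n : ℕ) : ℝ := ∑ i ∈ Finset.range n, t ^ i

lemma gsum_ge {s : ℝ} (_hs : 0 < s) {n : ℕ} (_hn : 1 ≤ n) : (n : ℝ) * s ^ (n - 1) ≤ gsum (s ^ 2) n := by
  unfold gsum
  have h1 : 2 * ∑ i ∈ Finset.range n, (s ^ 2) ^ i
      = ∑ i ∈ Finset.range n, ((s ^ 2) ^ i + (s ^ 2) ^ (n - 1 - i)) := by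
    rw [Finset.sum_add_distrib, Finset.sum_range_reflect (fun i => (s ^ 2) ^ i) n]
    ring
  have h2 : ∑ i ∈ Finset.range n, 2 * s ^ (n - 1) ≤ ∑ i ∈ Finset.range n, ((s ^ 2) ^ i + (s ^ 2) ^ (n - 1 - i)) := by
    apply Finset.sum_le_sum
    intro i hi
    rw [Finset.mem_range] at hi
    have h3 : s ^ (n - 1) = s ^ i * s ^ (n - 1 - i) := by
      rw [← pow_add]; congr 1; omega
    rw [h3, ← pow_mul, ← pow_mul, mul_comm 2 i, mul_comm 2 (n - 1 - i), pow_mul, pow_mul]
    nlinarith [sq_nonneg (s ^ i - s ^ (n - 1 - i))]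
  rw [← h1] at h2
  simp only [Finset.sum_const, Finset.card_range, nsmul_eq_mul] at h2
  linarith

lemma gsum_succ (t : ℝ) (n : ℕ) : gsum t (n + 1) = 1 + t * gsum t n := by
  unfold gsum
  rw [Finset.sum_range_succ', Finset.mul_sum]
  simp only [pow_zero, pow_succ']
  ring

/-- `b n = (1/n - t^n/(1+...+t^(n-1)))/(1-t)` -/
noncomputable def bmon (t : ℝ) (n : ℕ) : ℝ := 1 / n - t ^ n / gsum t n

lemma gsum_pos {t : ℝ} (ht : 0 < t) {n : ℕ} (hn : 1 ≤ n) : 0 < gsum t n := by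
  unfold gsum
  apply Finset.sum_pos
  · intro i _; positivity
  · rw [Finset.nonempty_range_iff]; omega

lemma bmon_anti {t : ℝ} (ht : 0 < t) (ht1 : t < 1) {n : ℕ} (hn : 1 ≤ n) : bmon t (n + 1) ≤ bmon t n := by
  obtain ⟨s, hs0, hst⟩ : ∃ s : ℝ, 0 < s ∧ s ^ 2 = t := ⟨√t, Real.sqrt_pos.mpr ht, Real.sq_sqrt ht.le⟩
  have hs1 : s < 1 := by nlinarith
  have g1 := gsum_ge hs0 hn
  have g2 := gsum_ge hs0 (show 1 ≤ n + 1 by omega)
  rw [hst] at g1 g2
  have p1 := gsum_pos ht hn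
  have p2 := gsum_pos ht (show 1 ≤ n + 1 by omega)
  have hn0 : (0 : ℝ) < n := by exact_mod_cast hn
  have key : (n : ℝ) * (n + 1) * t ^ n ≤ gsum t n * gsum t (n + 1) := by
    have h1 : (n : ℝ) * (n + 1) * t ^ n ≤ ((n : ℝ) * s ^ (n - 1)) * (((n + 1 : ℕ) : ℝ) * s ^ (n + 1 - 1)) := by
      have h2 : s ^ (2 * n) ≤ s ^ (n - 1 + n) := pow_le_pow_of_le_one hs0.le hs1.le (by omega)
      have h3 : t ^ n = s ^ (2 * n) := by rw [← hst, pow_mul]
      rw [h3]
      push_cast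
      calc (n : ℝ) * (n + 1) * s ^ (2 * n) ≤ (n : ℝ) * (n + 1) * s ^ (n - 1 + n) := by gcongr
        _ = _ := by rw [pow_add]; ring
    refine h1.trans ?_
    gcongr
  unfold bmon
  have e : 1 / (n : ℝ) - t ^ n / gsum t n - (1 / ((n + 1 : ℕ) : ℝ) - t ^ (n + 1) / gsum t (n + 1))
      = 1 / ((n : ℝ) * (n + 1)) - t ^ n / (gsum t n * gsum t (n + 1)) := by
    have h5 := gsum_succ t n
    push_cast
    rw [pow_succ]
    field_simp
    linear_combination (-((n : ℝ) * (n + 1) * t ^ n)) * h5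
  have h8 : t ^ n / (gsum t n * gsum t (n + 1)) ≤ 1 / ((n : ℝ) * (n + 1)) := by
    rw [div_le_div_iff₀ (by positivity) (by positivity)]
    linarith
  linarith

lemma bmon_nonneg {t : ℝ} (ht : 0 < t) (ht1 : t < 1) {n : ℕ} (hn : 1 ≤ n) : 0 ≤ bmon t n := by
  unfold bmon
  have p1 := gsum_pos ht hn
  have hn0 : (0 : ℝ) < n := by exact_mod_cast hn
  rw [sub_nonneg, div_le_div_iff₀ p1 hn0, one_mul]
  unfold gsum
  calc t ^ n * n = ∑ i ∈ Finset.range n, t ^ n := by simp; ring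
    _ ≤ ∑ i ∈ Finset.range n, t ^ i := by
      apply Finset.sum_le_sum
      intro i hi
      rw [Finset.mem_range] at hi
      exact pow_le_pow_of_le_one ht.le ht1.le hi.le

lemma bmon_one (t : ℝ) : bmon t 1 = 1 - t := by
  unfold bmon gsum; simp


open LSeries MeasureTheory DirichletCharacter

/-- real part of a character as arithmetic function -/
noncomputable def cre {q : ℕ} (χ : DirichletCharacter ℂ q) : ArithmeticFunction ℝ :=
  ⟨fun n => if n = 0 then 0 else (χ (n : ZMod q)).re, by simp⟩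

lemma cre_apply {q : ℕ} (χ : DirichletCharacter ℂ q) {n : ℕ} (hn : n ≠ 0) : cre χ n = (χ (n : ZMod q)).re := by
  simp [cre, hn]

lemma quad_cases {q : ℕ} {χ : DirichletCharacter ℂ q} (hχ : χ ^ 2 = 1) (n : ℕ) :
    (χ (n : ZMod q) = 0 ∨ χ (n : ZMod q) = 1 ∨ χ (n : ZMod q) = -1) :=
  MulChar.isQuadratic_iff_sq_eq_one.mpr hχ n

lemma char_eq_cre {q : ℕ} {χ : DirichletCharacter ℂ q} (hχ : χ ^ 2 = 1) {n : ℕ} (hn : n ≠ 0) :
    χ (n : ZMod q) = (cre χ n : ℂ) := by
  rw [cre_apply χ hn]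
  rcases quad_cases hχ n with h | h | h <;> rw [h] <;> simp

lemma cre_mul {q : ℕ} {χ : DirichletCharacter ℂ q} (hχ : χ ^ 2 = 1) {m n : ℕ} (hm : m ≠ 0) (hn : n ≠ 0) :
    cre χ (m * n) = cre χ m * cre χ n := by
  have h := char_eq_cre hχ (mul_ne_zero hm hn)
  rw [Nat.cast_mul, map_mul, char_eq_cre hχ hm, char_eq_cre hχ hn] at h
  exact_mod_cast h.symm

lemma cre_one {q : ℕ} (χ : DirichletCharacter ℂ q) : cre χ 1 = 1 := by
  rw [cre_apply χ one_ne_zero]; simp

lemma cre_isMultiplicative {q : ℕ} {χ : DirichletCharacter ℂ q} (hχ : χ ^ 2 = 1) :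
    (cre χ).IsMultiplicative := by
  refine ⟨cre_one χ, ?_⟩
  intro m n _
  rcases eq_or_ne m 0 with rfl | hm
  · simp
  rcases eq_or_ne n 0 with rfl | hn
  · simp
  exact cre_mul hχ hm hn

lemma cre_cases {q : ℕ} {χ : DirichletCharacter ℂ q} (hχ : χ ^ 2 = 1) (n : ℕ) :
    cre χ n = 0 ∨ cre χ n = 1 ∨ cre χ n = -1 := by
  rcases eq_or_ne n 0 with rfl | hn
  · left; simp
  rw [cre_apply χ hn]
  rcases quad_cases hχ n with h | h | h <;> rw [h] <;> simp

lemma cre_pow {q : ℕ} {χ : DirichletCharacter ℂ q} (hχ : χ ^ 2 = 1) {n : ℕ} (hn : n ≠ 0) (k : ℕ) :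
    cre χ (n ^ k) = cre χ n ^ k := by
  induction k with
  | zero => simp [cre_one]
  | succ k ih => rw [pow_succ, cre_mul hχ (pow_ne_zero _ hn) hn, ih, pow_succ]

/-- the convolution of one and the character -/
noncomputable def rr {q : ℕ} (χ : DirichletCharacter ℂ q) : ArithmeticFunction ℝ :=
  (ArithmeticFunction.zeta : ArithmeticFunction ℝ) * cre χ

lemma rr_apply {q : ℕ} (χ : DirichletCharacter ℂ q) (n : ℕ) : rr χ n = ∑ d ∈ n.divisors, cre χ d := by
  unfold rr
  rw [ArithmeticFunction.coe_zeta_mul_apply]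

lemma rr_isMultiplicative {q : ℕ} {χ : DirichletCharacter ℂ q} (hχ : χ ^ 2 = 1) :
    (rr χ).IsMultiplicative :=
  ArithmeticFunction.isMultiplicative_zeta.natCast.mul (cre_isMultiplicative hχ)

lemma rr_prime_pow {q : ℕ} {χ : DirichletCharacter ℂ q} (hχ : χ ^ 2 = 1) {p : ℕ} (hp : p.Prime) (k : ℕ) :
    rr χ (p ^ k) = ∑ i ∈ Finset.range (k + 1), cre χ p ^ i := by
  rw [rr_apply, Nat.sum_divisors_prime_pow hp]
  apply Finset.sum_congr rfl
  intro i _
  exact cre_pow hχ hp.ne_zero i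

lemma rr_prime_pow_nonneg {q : ℕ} {χ : DirichletCharacter ℂ q} (hχ : χ ^ 2 = 1) {p : ℕ} (hp : p.Prime) (k : ℕ) :
    0 ≤ rr χ (p ^ k) := by
  rw [rr_prime_pow hχ hp]
  rcases cre_cases hχ p with h | h | h
  · rw [h]; apply Finset.sum_nonneg; intro i _; positivity
  · rw [h]; apply Finset.sum_nonneg; intro i _; positivity
  · rw [h, neg_one_geom_sum]; split_ifs <;> norm_num

lemma rr_prime_pow_even {q : ℕ} {χ : DirichletCharacter ℂ q} (hχ : χ ^ 2 = 1) {p : ℕ} (hp : p.Prime) (k : ℕ) :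
    1 ≤ rr χ (p ^ (2 * k)) := by
  rw [rr_prime_pow hχ hp]
  rcases cre_cases hχ p with h | h | h
  · rw [h, Finset.sum_range_succ']
    simp
  · rw [h]; simp; 
  · rw [h, neg_one_geom_sum]
    have : ¬ _root_.Even (2 * k + 1) := by
      rw [Nat.not_even_iff_odd]; exact odd_two_mul_add_one k
    rw [if_neg this]

lemma rr_nonneg {q : ℕ} {χ : DirichletCharacter ℂ q} (hχ : χ ^ 2 = 1) (n : ℕ) : 0 ≤ rr χ n := by
  rcases eq_or_ne n 0 with rfl | hn
  · simp
  rw [(rr_isMultiplicative hχ).multiplicative_factorization _ hn]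
  apply Finset.prod_nonneg
  intro p hp
  exact rr_prime_pow_nonneg hχ (Nat.prime_of_mem_primeFactors hp) _

lemma rr_sq_ge {q : ℕ} {χ : DirichletCharacter ℂ q} (hχ : χ ^ 2 = 1) {m : ℕ} (hm : m ≠ 0) : 1 ≤ rr χ (m ^ 2) := by
  rw [(rr_isMultiplicative hχ).multiplicative_factorization _ (pow_ne_zero 2 hm)]
  unfold Finsupp.prod
  have : (1 : ℝ) = ∏ p ∈ (m ^ 2).factorization.support, 1 := by simp
  rw [this]
  apply Finset.prod_le_prod
  · intro i _; norm_num
  · intro p hp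
    have hpp : p.Prime := Nat.prime_of_mem_primeFactors hp
    rw [Nat.factorization_pow]
    simp only [Finsupp.coe_smul, Pi.smul_apply, smul_eq_mul]
    exact rr_prime_pow_even hχ hpp _

lemma geom_block {t : ℝ} (ht : 0 < t) (_ht1 : t < 1) {d : ℕ} (hd : 1 ≤ d) (K : ℕ) :
    (1 - t) * ∑ m ∈ Finset.Icc 1 K, t ^ (d * m) = t ^ d / gsum t d - t ^ (d * (K + 1)) / gsum t d := by
  have hg := gsum_pos ht hd
  have h1 : (1 - t) * gsum t d = 1 - t ^ d := by
    unfold gsum
    have := mul_neg_geom_sum t d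
    linarith
  induction K with
  | zero => simp
  | succ K ih =>
    rw [Finset.sum_Icc_succ_top (by omega), mul_add, ih]
    have h2 : (1 - t) * t ^ (d * (K + 1)) = t ^ (d * (K + 1)) / gsum t d - t ^ (d * (K + 1 + 1)) / gsum t d := by
      rw [← sub_div, eq_div_iff hg.ne']
      have h3 : t ^ (d * (K + 1 + 1)) = t ^ (d * (K + 1)) * t ^ d := by rw [← pow_add]; ring_nf
      rw [h3]
      linear_combination (t ^ (d * (K + 1))) * h1
    rw [h2]; ring

/-- double counting -/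
lemma sum_rr {q : ℕ} (χ : DirichletCharacter ℂ q) (t : ℝ) (X : ℕ) :
    ∑ n ∈ Finset.Icc 1 X, rr χ n * t ^ n
      = ∑ d ∈ Finset.Icc 1 X, cre χ d * ∑ m ∈ Finset.Icc 1 (X / d), t ^ (d * m) := by
  have h1 : ∀ n ∈ Finset.Icc 1 X, rr χ n * t ^ n
      = ∑ d ∈ Finset.Icc 1 X, if d ∣ n then cre χ d * t ^ n else 0 := by
    intro n hn
    rw [Finset.mem_Icc] at hn
    rw [rr_apply, Finset.sum_mul, ← Finset.sum_filter]
    apply Finset.sum_congr _ (fun _ _ => rfl)
    ext d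
    simp only [Nat.mem_divisors, Finset.mem_filter, Finset.mem_Icc]
    constructor
    · rintro ⟨h, h'⟩
      exact ⟨⟨Nat.pos_of_dvd_of_pos h (by omega), (Nat.le_of_dvd (by omega) h).trans hn.2⟩, h⟩
    · rintro ⟨_, h⟩
      exact ⟨h, by omega⟩
  rw [Finset.sum_congr rfl h1, Finset.sum_comm]
  apply Finset.sum_congr rfl
  intro d hd
  rw [Finset.mem_Icc] at hd
  rw [← Finset.sum_filter, Finset.mul_sum]
  symm
  apply Finset.sum_bij (fun m _ => d * m)
  · intro m hm
    rw [Finset.mem_Icc] at hm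
    rw [Finset.mem_filter, Finset.mem_Icc]
    refine ⟨⟨Nat.mul_pos (by omega) (by omega), ?_⟩, dvd_mul_right d m⟩
    calc d * m ≤ d * (X / d) := Nat.mul_le_mul_left d hm.2
      _ ≤ X := Nat.mul_div_le X d
  · intro a _ b _ hab
    exact Nat.eq_of_mul_eq_mul_left (by omega) hab
  · intro n hn
    rw [Finset.mem_filter, Finset.mem_Icc] at hn
    obtain ⟨m, rfl⟩ := hn.2
    refine ⟨m, ?_, rfl⟩
    rw [Finset.mem_Icc]
    constructor
    · by_contra h
      have : m = 0 := by omega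
      rw [this] at hn; simp at hn
    · rw [Nat.le_div_iff_mul_le (by omega)]
      rw [mul_comm]; exact hn.1.2
  · intro m _; rfl

lemma sum_rr_le {q : ℕ} [NeZero q] {χ : DirichletCharacter ℂ q} (hχ1 : χ ≠ 1) (hχ : χ ^ 2 = 1) {t : ℝ}
    (ht : 0 < t) (ht1 : t < 1) {X : ℕ} (hX : 1 ≤ X) :
    (1 - t) * ∑ n ∈ Finset.Icc 1 X, rr χ n * t ^ n
      ≤ ∑ d ∈ Finset.Icc 1 X, cre χ d / d + q * (1 - t) + X * t ^ X := by
  rw [sum_rr, Finset.mul_sum]
  have h1 : ∀ d ∈ Finset.Icc 1 X, (1 - t) * (cre χ d * ∑ m ∈ Finset.Icc 1 (X / d), t ^ (d * m))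
      ≤ cre χ d / d - cre χ d * bmon t d + t ^ X := by
    intro d hd
    rw [Finset.mem_Icc] at hd
    have hg := gsum_pos ht hd.1
    have e1 : (1 - t) * (cre χ d * ∑ m ∈ Finset.Icc 1 (X / d), t ^ (d * m))
        = cre χ d * ((1 - t) * ∑ m ∈ Finset.Icc 1 (X / d), t ^ (d * m)) := by ring
    rw [e1, geom_block ht ht1 hd.1]
    unfold bmon
    have h2 : - (cre χ d * (t ^ (d * (X / d + 1)) / gsum t d)) ≤ t ^ X := by
      have h3 : t ^ (d * (X / d + 1)) ≤ t ^ X := by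
        apply pow_le_pow_of_le_one ht.le ht1.le
        have := Nat.div_add_mod X d
        have := Nat.mod_lt X (show 0 < d by omega)
        nlinarith
      have h4 : 1 ≤ gsum t d := by
        unfold gsum
        calc (1 : ℝ) = ∑ i ∈ Finset.range 1, t ^ i := by simp
          _ ≤ _ := by
            apply Finset.sum_le_sum_of_subset_of_nonneg
            · intro i hi; rw [Finset.mem_range] at *; omega
            · intro i _ _; positivity
      have h5 : t ^ (d * (X / d + 1)) / gsum t d ≤ t ^ X := by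
        rw [div_le_iff₀ hg]
        have : 0 < t ^ X := by positivity
        nlinarith
      have h6 : 0 ≤ t ^ (d * (X / d + 1)) / gsum t d := by positivity
      have h7 : 0 < t ^ X := by positivity
      rcases cre_cases hχ d with h | h | h <;> rw [h] <;> linarith
    have e2 : cre χ d * (t ^ d / gsum t d - t ^ (d * (X / d + 1)) / gsum t d)
        = cre χ d / d - cre χ d * (1 / d - t ^ d / gsum t d) - (cre χ d * (t ^ (d * (X / d + 1)) / gsum t d)) := by
      ring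
    rw [e2]
    linarith
  refine (Finset.sum_le_sum h1).trans ?_
  rw [Finset.sum_add_distrib, Finset.sum_sub_distrib]
  have h8 : |∑ d ∈ Finset.Icc 1 X, cre χ d * bmon t d| ≤ q * (1 - t) := by
    have h9 := norm_sum_mul_anti_le (a := fun n : ℕ => χ n) (w := fun n => bmon t n) (B := q)
      (norm_sum_Icc_char_le hχ1) (fun n hn => bmon_nonneg ht ht1 hn) (fun n hn => bmon_anti ht ht1 hn) X hX
    rw [bmon_one] at h9
    have h10 : ∑ n ∈ Finset.Icc 1 X, χ n * (bmon t n : ℂ) = ((∑ d ∈ Finset.Icc 1 X, cre χ d * bmon t d : ℝ) : ℂ) := by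
      push_cast
      apply Finset.sum_congr rfl
      intro n hn
      rw [Finset.mem_Icc] at hn
      rw [char_eq_cre hχ (by omega)]
    rw [h10, Complex.norm_real] at h9
    exact h9
  have h11 := (abs_le.mp h8).1
  simp only [Finset.sum_const, Nat.card_Icc, add_tsub_cancel_right, nsmul_eq_mul]
  linarith


open LSeries MeasureTheory DirichletCharacter

lemma norm_sum_shift_le {q : ℕ} [NeZero q] {χ : DirichletCharacter ℂ q} (hχ : χ ≠ 1) (X N : ℕ) :
    ‖∑ n ∈ Finset.Icc 1 N, χ ((X + n : ℕ) : ZMod q)‖ ≤ 2 * q := by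
  have h1 : ∑ n ∈ Finset.Icc 1 N, χ ((X + n : ℕ) : ZMod q)
      = ∑ n ∈ Finset.Icc 1 (X + N), χ (n : ZMod q) - ∑ n ∈ Finset.Icc 1 X, χ (n : ZMod q) := by
    induction N with
    | zero => simp
    | succ N ih =>
      rw [Finset.sum_Icc_succ_top (by omega), ih, ← add_assoc, Finset.sum_Icc_succ_top (by omega)]
      ring
  rw [h1]
  refine (norm_sub_le _ _).trans ?_
  have h2 := norm_sum_Icc_char_le hχ (X + N)
  have h3 := norm_sum_Icc_char_le hχ X
  linarith

lemma LSeries_sub_partial_le {q : ℕ} [NeZero q] {χ : DirichletCharacter ℂ q} (hχ : χ ≠ 1) (X : ℕ)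
    {σ : ℝ} (hσ : 1 < σ) :
    ‖LSeries (fun n : ℕ => χ n) σ - ∑ n ∈ Finset.Icc 1 X, χ n * (((n : ℝ) ^ (-σ) : ℝ) : ℂ)‖ ≤ 2 * q / (X + 1) := by
  have hsum : LSeriesSummable (fun n : ℕ => χ n) (σ : ℂ) :=
    DirichletCharacter.LSeriesSummable_of_one_lt_re χ (by simpa using hσ)
  have hterm : ∀ n : ℕ, 1 ≤ n → term (fun n : ℕ => χ n) (σ : ℂ) n = χ n * (((n : ℝ) ^ (-σ) : ℝ) : ℂ) := by
    intro n hn
    rw [term_of_ne_zero (by omega), div_eq_mul_inv, Real.rpow_neg (by positivity)]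
    push_cast
    rw [Complex.ofReal_cpow (by positivity)]
    simp
  have hlim : Tendsto (fun Y : ℕ => ∑ n ∈ Finset.Icc 1 Y, χ n * (((n : ℝ) ^ (-σ) : ℝ) : ℂ)) atTop
      (𝓝 (LSeries (fun n : ℕ => χ n) σ)) := by
    have h1 := hsum.hasSum.tendsto_sum_nat
    have h2 := h1.comp (tendsto_add_atTop_nat 1)
    refine h2.congr (fun Y => ?_)
    simp only [Function.comp]
    rw [Finset.range_eq_Ico, Finset.sum_eq_sum_Ico_succ_bot (by omega)]
    rw [term_zero, zero_add]
    have h3 : Finset.Ico (0 + 1) (Y + 1) = Finset.Icc 1 Y := by ext; simp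
    rw [h3]
    apply Finset.sum_congr rfl
    intro n hn
    rw [Finset.mem_Icc] at hn
    exact hterm n hn.1
  have hbound : ∀ᶠ Y : ℕ in atTop, ‖∑ n ∈ Finset.Icc 1 Y, χ n * (((n : ℝ) ^ (-σ) : ℝ) : ℂ)
      - ∑ n ∈ Finset.Icc 1 X, χ n * (((n : ℝ) ^ (-σ) : ℝ) : ℂ)‖ ≤ 2 * q / (X + 1) := by
    filter_upwards [eventually_ge_atTop (X + 1)] with Y hY
    obtain ⟨N, rfl⟩ : ∃ N, Y = X + N := ⟨Y - X, by omega⟩
    have h1 : ∑ n ∈ Finset.Icc 1 (X + N), χ n * (((n : ℝ) ^ (-σ) : ℝ) : ℂ)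
      - ∑ n ∈ Finset.Icc 1 X, χ n * (((n : ℝ) ^ (-σ) : ℝ) : ℂ)
      = ∑ n ∈ Finset.Icc 1 N, χ ((X + n : ℕ) : ZMod q) * (((((X + n : ℕ) : ℝ)) ^ (-σ) : ℝ) : ℂ) := by
      clear hY
      induction N with
      | zero => simp
      | succ N ih =>
        rw [Finset.sum_Icc_succ_top (by omega : 1 ≤ N + 1), ← ih, ← add_assoc,
          Finset.sum_Icc_succ_top (by omega)]
        ring
    rw [h1]
    have h2 := norm_sum_mul_anti_le (a := fun n : ℕ => χ ((X + n : ℕ) : ZMod q))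
      (w := fun n : ℕ => ((X + n : ℕ) : ℝ) ^ (-σ)) (B := 2 * q)
      (norm_sum_shift_le hχ X) (fun n _ => by positivity)
      (fun n hn => by
        apply Real.rpow_le_rpow_of_nonpos
        · have : (0 : ℝ) < n := by exact_mod_cast hn
          push_cast; positivity
        · push_cast; linarith
        · linarith) N (by omega)
    refine h2.trans ?_
    have h3 : ((X + 1 : ℕ) : ℝ) ^ (-σ) ≤ 1 / (X + 1) := by
      have hX1 : (1 : ℝ) ≤ ((X + 1 : ℕ) : ℝ) := by push_cast; linarith [(Nat.cast_nonneg X : (0:ℝ) ≤ X)]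
      calc ((X + 1 : ℕ) : ℝ) ^ (-σ) ≤ ((X + 1 : ℕ) : ℝ) ^ (-1 : ℝ) :=
            Real.rpow_le_rpow_of_exponent_le hX1 (by linarith)
        _ = 1 / (X + 1) := by rw [Real.rpow_neg_one]; push_cast; rw [one_div]
    calc 2 * (q : ℝ) * ((X + 1 : ℕ) : ℝ) ^ (-σ) ≤ 2 * q * (1 / (X + 1)) := by gcongr
      _ = _ := by ring
  have := (hlim.sub_const (∑ n ∈ Finset.Icc 1 X, χ n * (((n : ℝ) ^ (-σ) : ℝ) : ℂ))).norm
  exact le_of_tendsto this hbound

lemma LFunction_one_sub_partial_le {q : ℕ} [NeZero q] {χ : DirichletCharacter ℂ q} (hχ : χ ≠ 1) (X : ℕ) :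
    ‖LFunction χ 1 - ∑ n ∈ Finset.Icc 1 X, χ n / (n : ℂ)‖ ≤ 2 * q / (X + 1) := by
  have h1 : Tendsto (fun σ : ℝ => LFunction χ σ - ∑ n ∈ Finset.Icc 1 X, χ n * (((n : ℝ) ^ (-σ) : ℝ) : ℂ))
      (𝓝[>] 1) (𝓝 (LFunction χ 1 - ∑ n ∈ Finset.Icc 1 X, χ n / (n : ℂ))) := by
    apply Tendsto.mono_left _ nhdsWithin_le_nhds
    apply Tendsto.sub
    · have := (differentiable_LFunction hχ).continuous
      have h2 : Continuous (fun σ : ℝ => LFunction χ σ) := this.comp Complex.continuous_ofReal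
      have := h2.tendsto 1
      simpa using this
    · apply tendsto_finsetSum
      intro n hn
      rw [Finset.mem_Icc] at hn
      rw [div_eq_mul_inv]
      apply Tendsto.mul tendsto_const_nhds
      have hn0 : (0 : ℝ) < n := by exact_mod_cast hn.1
      have h3 : Tendsto (fun σ : ℝ => ((n : ℝ) ^ (-σ) : ℝ)) (𝓝 1) (𝓝 ((n : ℝ) ^ (-1 : ℝ))) := by
        apply (Real.continuousAt_const_rpow hn0.ne').tendsto.comp
        exact (continuous_neg.tendsto 1)
      have h4 := (Complex.continuous_ofReal.tendsto _).comp h3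
      rw [Real.rpow_neg_one] at h4
      simpa [Function.comp_def] using h4
  apply le_of_tendsto h1.norm
  filter_upwards [self_mem_nhdsWithin] with σ hσ
  have hσ1 : (1 : ℝ) < σ := hσ
  rw [LFunction_eq_LSeries χ (by simpa using hσ1)]
  exact LSeries_sub_partial_le hχ X hσ1

lemma tendsto_partial_one {q : ℕ} [NeZero q] {χ : DirichletCharacter ℂ q} (hχ : χ ≠ 1) :
    Tendsto (fun X : ℕ => ∑ n ∈ Finset.Icc 1 X, χ n / (n : ℂ)) atTop (𝓝 (LFunction χ 1)) := by
  rw [tendsto_iff_norm_sub_tendsto_zero]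
  apply squeeze_zero (fun X => norm_nonneg _) (g := fun X : ℕ => 2 * (q : ℝ) / (X + 1))
  · intro X
    rw [norm_sub_rev]
    exact LFunction_one_sub_partial_le hχ X
  · have := tendsto_one_div_add_atTop_nhds_zero_nat (𝕜 := ℝ)
    have h2 := this.const_mul (2 * (q : ℝ))
    rw [mul_zero] at h2
    refine h2.congr (fun X => ?_)
    ring

/-- Lower bound for L(1,chi), real nonprincipal chi. -/
lemma LFunction_one_ge {q : ℕ} [NeZero q] {χ : DirichletCharacter ℂ q} (hχ1 : χ ≠ 1) (hχ : χ ^ 2 = 1) :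
    1 / (64 * q) ≤ ‖LFunction χ 1‖ := by
  have hq1 : (1 : ℝ) ≤ q := by exact_mod_cast Nat.pos_of_neZero q
  have hq0 : 0 < q := Nat.pos_of_neZero q
  set M : ℕ := 8 * q with hM
  set N : ℕ := M ^ 2 with hN
  have hN0 : (0 : ℝ) < N := by
    have : 0 < N := by rw [hN, hM]; positivity
    exact_mod_cast this
  have hN64 : (N : ℝ) = 64 * q ^ 2 := by rw [hN, hM]; push_cast; ring
  set t : ℝ := 1 - 1 / N with ht
  have hN64' : (64 : ℝ) ≤ N := by rw [hN64]; nlinarith
  have hinv : 1 / (N : ℝ) ≤ 1 / 64 := one_div_le_one_div_of_le (by norm_num) hN64'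
  have hinv0 : 0 < 1 / (N : ℝ) := by positivity
  have ht0 : 0 < t := by rw [ht]; linarith
  have ht1 : t < 1 := by rw [ht]; linarith
  have htN : 1 / 4 ≤ t ^ N := by
    have h1 : 1 / 2 ≤ t ^ (32 * q ^ 2) := by
      have h2 := one_add_mul_le_pow (a := -(1 / (N : ℝ))) (by linarith) (32 * q ^ 2)
      have h3 : 1 + -(1 / (N : ℝ)) = t := by rw [ht]; ring
      rw [h3] at h2
      refine le_trans (le_of_eq ?_) h2
      push_cast
      rw [hN64]
      field_simp
      norm_num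
    have h4 : N = (32 * q ^ 2) * 2 := by
      have : (N : ℕ) = 64 * q ^ 2 := by rw [hN, hM]; ring
      omega
    rw [h4, pow_mul]
    nlinarith
  -- lower bound for the sum of rr
  have hlow : ∀ X : ℕ, N ≤ X → (M : ℝ) * (1 / 4) ≤ ∑ n ∈ Finset.Icc 1 X, rr χ n * t ^ n := by
    intro X hX
    calc (M : ℝ) * (1 / 4) = ∑ m ∈ Finset.Icc 1 M, (1 / 4 : ℝ) := by simp
      _ ≤ ∑ m ∈ Finset.Icc 1 M, rr χ (m ^ 2) * t ^ (m ^ 2) := by
          apply Finset.sum_le_sum
          intro m hm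
          rw [Finset.mem_Icc] at hm
          have h1 := rr_sq_ge hχ (show m ≠ 0 by omega)
          have h2 : t ^ N ≤ t ^ (m ^ 2) := by
            apply pow_le_pow_of_le_one ht0.le ht1.le
            rw [hN]; exact Nat.pow_le_pow_left hm.2 2
          nlinarith
      _ = ∑ n ∈ (Finset.Icc 1 M).image (fun m => m ^ 2), rr χ n * t ^ n := by
          rw [Finset.sum_image]
          intro a _ b _ hab
          exact Nat.pow_left_injective (by norm_num : 2 ≠ 0) hab
      _ ≤ ∑ n ∈ Finset.Icc 1 X, rr χ n * t ^ n := by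
          apply Finset.sum_le_sum_of_subset_of_nonneg
          · intro n hn
            rw [Finset.mem_image] at hn
            obtain ⟨m, hm, rfl⟩ := hn
            rw [Finset.mem_Icc] at hm ⊢
            constructor
            · exact Nat.one_le_pow _ _ (by omega)
            · calc m ^ 2 ≤ M ^ 2 := Nat.pow_le_pow_left hm.2 2
                _ ≤ X := hX
          · intro n _ _
            exact mul_nonneg (rr_nonneg hχ n) (by positivity)
  -- limit
  have hlim1 : Tendsto (fun X : ℕ => ∑ d ∈ Finset.Icc 1 X, cre χ d / d + q * (1 - t) + X * t ^ X) atTop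
      (𝓝 ((LFunction χ 1).re + q * (1 - t) + 0)) := by
    apply Tendsto.add
    · apply Tendsto.add _ tendsto_const_nhds
      have h1 := (Complex.continuous_re.tendsto _).comp (tendsto_partial_one hχ1)
      refine h1.congr (fun X => ?_)
      simp only [Function.comp]
      rw [Complex.re_sum]
      apply Finset.sum_congr rfl
      intro n hn
      rw [Finset.mem_Icc] at hn
      rw [char_eq_cre hχ (by omega)]
      rw [← Complex.ofReal_natCast, ← Complex.ofReal_div, Complex.ofReal_re]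
    · exact tendsto_self_mul_const_pow_of_abs_lt_one (by rw [abs_of_pos ht0]; exact ht1)
  have hle : (1 - t) * ((M : ℝ) * (1 / 4)) ≤ (LFunction χ 1).re + q * (1 - t) + 0 := by
    apply ge_of_tendsto hlim1
    filter_upwards [eventually_ge_atTop N] with X hX
    have hX1 : 1 ≤ X := by
      have : 1 ≤ N := by
        have : (1 : ℝ) ≤ N := by linarith
        exact_mod_cast this
      omega
    have h1 := sum_rr_le hχ1 hχ ht0 ht1 hX1
    have h2 := hlow X hX
    have h3 : 0 ≤ 1 - t := by linarith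
    have h4 := mul_le_mul_of_nonneg_left h2 h3
    linarith
  have h5 : 1 - t = 1 / N := by rw [ht]; ring
  rw [h5, hN64] at hle
  have h6 : (M : ℝ) = 8 * q := by rw [hM]; push_cast; ring
  rw [h6] at hle
  have h7 : 1 / (64 * (q : ℝ) ^ 2) * (8 * q * (1 / 4)) = 2 * (1 / (64 * q)) := by
    field_simp; norm_num
  have h8 : (q : ℝ) * (1 / (64 * (q : ℝ) ^ 2)) = 1 / (64 * q) := by
    field_simp
  rw [h7, h8] at hle
  have h9 := Complex.re_le_norm (LFunction χ 1)
  linarith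


open LSeries MeasureTheory DirichletCharacter

lemma norm_LFunction_sub_one_le {q : ℕ} [NeZero q] {χ : DirichletCharacter ℂ q} (hχ : χ ≠ 1)
    {x t T : ℝ} (hx : 0 < x) (hx1 : x ≤ 1) (ht : |t| ≤ T) :
    ‖LFunction χ (1 + x + Complex.I * t) - LFunction χ 1‖ ≤ 8 * q * (T + 2) * (x + |t|) := by
  have hT : 0 ≤ T := (abs_nonneg t).trans ht
  have hcont := (differentiable_LFunction hχ).continuous
  have h1 : Tendsto (fun y : ℝ => ‖LFunction χ (1 + x + Complex.I * t) - LFunction χ (1 + y + Complex.I * (0 : ℝ))‖)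
      (𝓝[>] 0) (𝓝 ‖LFunction χ (1 + x + Complex.I * t) - LFunction χ 1‖) := by
    apply Tendsto.mono_left _ nhdsWithin_le_nhds
    have h2 : Continuous (fun y : ℝ => ‖LFunction χ (1 + x + Complex.I * t) - LFunction χ (1 + y + Complex.I * (0 : ℝ))‖) := by
      fun_prop
    have := h2.tendsto 0
    simpa using this
  have h2 : Tendsto (fun y : ℝ => 8 * q * (T + 2) * ‖((1 + x + Complex.I * t) - (1 + y + Complex.I * (0 : ℝ)) : ℂ)‖)
      (𝓝[>] 0) (𝓝 (8 * q * (T + 2) * ‖((1 + x + Complex.I * t) - 1 : ℂ)‖)) := by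
    apply Tendsto.mono_left _ nhdsWithin_le_nhds
    have h3 : Continuous (fun y : ℝ => 8 * q * (T + 2) * ‖((1 + x + Complex.I * t) - (1 + y + Complex.I * (0 : ℝ)) : ℂ)‖) := by
      fun_prop
    have := h3.tendsto 0
    simpa using this
  have h3 : ‖LFunction χ (1 + x + Complex.I * t) - LFunction χ 1‖
      ≤ 8 * q * (T + 2) * ‖((1 + x + Complex.I * t) - 1 : ℂ)‖ := by
    apply le_of_tendsto_of_tendsto h1 h2
    have : ∀ᶠ y : ℝ in 𝓝[>] 0, y ≤ 1 := by
      have : ∀ᶠ y : ℝ in 𝓝 0, y < 1 := eventually_lt_nhds (by norm_num)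
      exact (this.filter_mono nhdsWithin_le_nhds).mono (fun y hy => hy.le)
    filter_upwards [this, self_mem_nhdsWithin] with y hy1 hy0
    exact norm_LFunction_sub_le hχ hx hx1 hy0 hy1 ht (by simpa using hT)
  refine h3.trans ?_
  have h4 : ‖((1 + x + Complex.I * t) - 1 : ℂ)‖ ≤ x + |t| := by
    have : ((1 + x + Complex.I * t) - 1 : ℂ) = x + Complex.I * t := by ring
    rw [this]
    refine (norm_add_le _ _).trans ?_
    rw [norm_mul, Complex.norm_I, Complex.norm_real, Complex.norm_real, one_mul]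
    simp only [Real.norm_eq_abs]
    rw [abs_of_pos hx]
  gcongr

/-- Crude lower bound for nonprincipal L-functions to the right of the line Re s = 1. -/
theorem norm_LFunction_ge {q : ℕ} [NeZero q] {χ : DirichletCharacter ℂ q} (hχ : χ ≠ 1)
    {x t : ℝ} (hx : 0 < x) (hx1 : x ≤ 1) :
    1 / (2 ^ 34 * (q * (|t| + 2)) ^ 7) ≤ ‖LFunction χ (1 + x + Complex.I * t)‖ := by
  have hq1 : (1 : ℝ) ≤ q := by exact_mod_cast Nat.pos_of_neZero q
  set τ : ℝ := |t| + 2 with hτ
  have hτ2 : 2 ≤ τ := by rw [hτ]; linarith [abs_nonneg t]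
  have hqτ : 1 ≤ q * τ := by nlinarith
  have hqτ2 : q ≤ q * τ := by nlinarith
  -- norm bound for 1 + x + 2 i t
  have hnorm : ∀ y : ℝ, 0 < y → y ≤ 1 → ‖(1 + (y : ℂ) + 2 * Complex.I * t)‖ ≤ 2 * τ := by
    intro y hy hy1
    have := norm_mk_le (x := y) (t := 2 * t) hy.le hy1
    have e : (1 + (y : ℂ) + Complex.I * ((2 * t : ℝ) : ℂ)) = 1 + (y : ℂ) + 2 * Complex.I * t := by
      push_cast; ring
    rw [e] at this
    rw [abs_mul, abs_two] at this
    rw [hτ]; linarith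
  have hre : ∀ y : ℝ, 0 < y → 1 < (1 + (y : ℂ) + 2 * Complex.I * t).re := by
    intro y hy; simp; exact hy
  by_cases hsq : χ ^ 2 = 1
  · set t0 : ℝ := 1 / (6144 * q ^ 2) with ht0
    have ht0pos : 0 < t0 := by rw [ht0]; positivity
    have hq2 : (1 : ℝ) ≤ q ^ 2 := one_le_pow₀ hq1
    have ht01 : t0 ≤ 1 / 6144 := by
      rw [ht0]
      apply one_div_le_one_div_of_le (by norm_num)
      linarith
    by_cases htt : t0 ≤ |t|
    · -- use 3-4-1
      have htne : t ≠ 0 := by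
        intro h
        rw [h, abs_zero] at htt
        linarith
      have hb : ∀ y : ℝ, 0 < y → y ≤ 1 → ‖LFunction (χ ^ 2) (1 + y + 2 * Complex.I * t)‖ ≤ 2 * q * τ / t0 := by
        intro y hy hy1
        rw [hsq]
        have him : (1 + (y : ℂ) + 2 * Complex.I * t).im = 2 * t := by simp
        have h1 := norm_LFunction_one_le' (q := q) (hre y hy) (by rw [him]; simpa using htne)
        refine h1.trans ?_
        rw [him, abs_mul, abs_two]
        have h2 := hnorm y hy hy1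
        have h3 : ‖(1 + (y : ℂ) + 2 * Complex.I * t)‖ / (2 * |t|) ≤ 2 * τ / (2 * t0) := by
          gcongr
        have h4 : 2 * ‖(1 + (y : ℂ) + 2 * Complex.I * t)‖ ≤ τ / t0 := by
          have : 2 * (2 * τ) ≤ τ / t0 := by
            rw [le_div_iff₀ ht0pos]
            nlinarith
          linarith
        have h5 : 2 * τ / (2 * t0) = τ / t0 := by field_simp
        calc (q : ℝ) * (‖(1 + (y : ℂ) + 2 * Complex.I * t)‖ / (2 * |t|) + 2 * ‖(1 + (y : ℂ) + 2 * Complex.I * t)‖)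
            ≤ q * (τ / t0 + τ / t0) := by
              apply mul_le_mul_of_nonneg_left _ (by positivity)
              rw [h5] at h3
              exact add_le_add h3 h4
          _ = 2 * q * τ / t0 := by ring
      have hM1 : 1 ≤ 2 * q * τ / t0 := by
        rw [le_div_iff₀ ht0pos]; nlinarith
      have h1 := norm_LFunction_ge_of_bound hχ hM1 hb hx hx1
      refine le_trans ?_ h1
      apply one_div_le_one_div_of_le (by positivity)
      rw [← hτ, ht0]
      have e : 16 * (2 * q * τ / (1 / (6144 * (q : ℝ) ^ 2))) * (16 * q * τ) ^ 4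
          = 12884901888 * (q ^ 7 * τ ^ 5) := by
        field_simp; norm_num
      rw [e]
      have h2 : (q : ℝ) ^ 7 * τ ^ 5 ≤ (q * τ) ^ 7 := by
        rw [mul_pow]
        gcongr
        · linarith
        · norm_num
      have h3 : (0 : ℝ) ≤ (q * τ) ^ 7 := by positivity
      nlinarith
    · push Not at htt
      by_cases hxx : x ≤ t0
      · have h1 := norm_LFunction_sub_one_le hχ hx hx1 (T := t0) htt.le
        have h2 := LFunction_one_ge hχ hsq
        have h3 : ‖LFunction χ 1‖ - ‖LFunction χ (1 + x + Complex.I * t)‖ ≤ 8 * q * (t0 + 2) * (x + |t|) := by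
          rw [norm_sub_rev] at h1
          exact (norm_sub_norm_le _ _).trans h1
        have h4 : 8 * q * (t0 + 2) * (x + |t|) ≤ 1 / (128 * q) := by
          calc 8 * (q : ℝ) * (t0 + 2) * (x + |t|) ≤ 8 * q * (1 + 2) * (t0 + t0) := by
                gcongr; linarith
            _ = 1 / (128 * q) := by rw [ht0]; field_simp; norm_num
        have h5 : 1 / (64 * (q : ℝ)) - 1 / (128 * q) = 1 / (128 * q) := by field_simp; norm_num
        have h6 : 1 / (2 ^ 34 * (q * τ) ^ 7) ≤ 1 / (128 * (q : ℝ)) := by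
          apply one_div_le_one_div_of_le (by positivity)
          have h7 : q * τ ≤ (q * τ) ^ 7 := le_self_pow₀ hqτ (by norm_num)
          nlinarith
        linarith
      · push Not at hxx
        have h1 := norm_LFunction_ge_trivial χ (s := 1 + x + Complex.I * t) (by rw [re_mk]; linarith)
        rw [re_mk, add_sub_cancel_left] at h1
        refine le_trans ?_ h1
        have h2 : t0 / 2 ≤ x / (1 + x) := by
          rw [div_le_div_iff₀ (by norm_num) (by linarith)]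
          nlinarith
        refine le_trans ?_ h2
        rw [ht0, div_div]
        apply one_div_le_one_div_of_le (by positivity)
        have h7 : (q : ℝ) ^ 2 ≤ (q * τ) ^ 7 := by
          calc (q : ℝ) ^ 2 ≤ (q * τ) ^ 2 := by gcongr
            _ ≤ (q * τ) ^ 7 := pow_le_pow_right₀ hqτ (by norm_num)
        nlinarith
  · have hb : ∀ y : ℝ, 0 < y → y ≤ 1 → ‖LFunction (χ ^ 2) (1 + y + 2 * Complex.I * t)‖ ≤ 4 * q * τ := by
      intro y hy hy1
      have h1 := norm_LFunction_le hsq (hre y hy)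
      have h2 := hnorm y hy hy1
      calc _ ≤ _ := h1
        _ ≤ 2 * q * (2 * τ) := by gcongr
        _ = _ := by ring
    have h1 := norm_LFunction_ge_of_bound hχ (by nlinarith) hb hx hx1
    refine le_trans ?_ h1
    apply one_div_le_one_div_of_le (by positivity)
    rw [← hτ]
    have e : 16 * (4 * q * τ) * (16 * q * τ) ^ 4 = 4194304 * (q * τ) ^ 5 := by ring
    rw [e]
    have h2 : (q * τ) ^ 5 ≤ (q * τ) ^ 7 := pow_le_pow_right₀ hqτ (by norm_num)
    have h3 : (0 : ℝ) ≤ (q * τ) ^ 7 := by positivity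
    nlinarith

end Pool.Agent.H17
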