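import Mathlib
import Pool.Agent.H17.CharBound

/-! Smooth sums of the von Mangoldt function twisted by a nonprincipal character. -/

set_option autoImplicit false

open Filter Topology Set

namespace Pool.Agent.H17

open LSeries MeasureTheory DirichletCharacter

/-- coefficient sequence chi * Lambda -/
noncomputable abbrev chiLam {q : ℕ} (χ : DirichletCharacter ℂ q) : ℕ → ℂ :=
  (fun n : ℕ => χ n) * fun n : ℕ => ((ArithmeticFunction.vonMangoldt n : ℝ) : ℂ)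

/-- minus the logarithmic derivative -/
noncomputable def FF {q : ℕ} [NeZero q] (χ : DirichletCharacter ℂ q) (s : ℂ) : ℂ :=
  -deriv (LFunction χ) s / LFunction χ s

lemma FF_eq {q : ℕ} [NeZero q] (χ : DirichletCharacter ℂ q) {s : ℂ} (hs : 1 < s.re) :
    FF χ s = LSeries (chiLam χ) s := by
  unfold FF chiLam
  rw [LSeries_twist_vonMangoldt_eq χ hs, deriv_LFunction_eq_deriv_LSeries χ hs,
    LFunction_eq_LSeries χ hs]

lemma LFunction_ne_zero_right {q : ℕ} [NeZero q] (χ : DirichletCharacter ℂ q) {s : ℂ} (hs : 1 < s.re) :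
    LFunction χ s ≠ 0 := by
  rw [LFunction_eq_LSeries χ hs]
  exact LSeries_ne_zero_of_one_lt_re χ hs

lemma deriv_LFunction_differentiable {q : ℕ} [NeZero q] {χ : DirichletCharacter ℂ q} (hχ : χ ≠ 1) :
    Differentiable ℂ (deriv (LFunction χ)) := by
  have h : AnalyticOnNhd ℂ (LFunction χ) univ :=
    (differentiable_LFunction hχ).differentiableOn.analyticOnNhd isOpen_univ
  intro z
  exact (h.deriv z (mem_univ z)).differentiableAt

lemma FF_hasDerivAt {q : ℕ} [NeZero q] {χ : DirichletCharacter ℂ q} (hχ : χ ≠ 1) {s : ℂ} (hs : 1 < s.re) :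
    HasDerivAt (FF χ) ((-deriv (deriv (LFunction χ)) s * LFunction χ s
      - (-deriv (LFunction χ) s) * deriv (LFunction χ) s) / (LFunction χ s) ^ 2) s := by
  unfold FF
  have h1 : HasDerivAt (fun s => -deriv (LFunction χ) s) (-deriv (deriv (LFunction χ)) s) s :=
    ((deriv_LFunction_differentiable hχ) s).hasDerivAt.neg
  have h2 : HasDerivAt (LFunction χ) (deriv (LFunction χ) s) s := ((differentiable_LFunction hχ) s).hasDerivAt
  exact h1.div h2 (LFunction_ne_zero_right χ hs)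

lemma FF_bounds {q : ℕ} [NeZero q] {χ : DirichletCharacter ℂ q} (hχ : χ ≠ 1)
    {x t : ℝ} (hx : 0 < x) (hx1 : x ≤ 1) :
    ‖FF χ (1 + x + Complex.I * t)‖ ≤ 2 ^ 37 * (q * (|t| + 2)) ^ 8 ∧
    ‖deriv (FF χ) (1 + x + Complex.I * t)‖ ≤ 2 ^ 75 * (q * (|t| + 2)) ^ 16 := by
  set s : ℂ := 1 + x + Complex.I * t with hs
  have hs1 : 1 < s.re := by rw [hs, re_mk]; linarith
  have hq1 : (1 : ℝ) ≤ q := by exact_mod_cast Nat.pos_of_neZero q
  set τ : ℝ := |t| + 2 with hτ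
  have hτ2 : 2 ≤ τ := by rw [hτ]; linarith [abs_nonneg t]
  have hsn : ‖s‖ ≤ τ := norm_mk_le hx.le hx1
  have hqτ : 1 ≤ q * τ := by nlinarith
  set Q : ℝ := q * τ with hQ
  have hL := norm_LFunction_ge hχ (t := t) hx hx1
  rw [← hs, ← hτ, ← hQ] at hL
  have hLpos : 0 < ‖LFunction χ s‖ := by
    refine lt_of_lt_of_le ?_ hL
    positivity
  have hLinv : 1 / ‖LFunction χ s‖ ≤ 2 ^ 34 * Q ^ 7 := by
    rw [div_le_iff₀ hLpos]
    rw [div_le_iff₀ (by positivity)] at hL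
    linarith
  have hd1 : ‖deriv (LFunction χ) s‖ ≤ 8 * Q := by
    have := norm_deriv_LFunction_le hχ hs1
    calc _ ≤ _ := this
      _ ≤ 8 * q * τ := by gcongr
      _ = 8 * Q := by rw [hQ]; ring
  have hd2 : ‖deriv (deriv (LFunction χ)) s‖ ≤ 64 * Q := by
    have := norm_deriv_deriv_LFunction_le hχ hs1
    calc _ ≤ _ := this
      _ ≤ 64 * q * τ := by gcongr
      _ = 64 * Q := by rw [hQ]; ring
  have hQ0 : 0 ≤ Q := by linarith
  have hF : ‖FF χ s‖ ≤ 2 ^ 37 * Q ^ 8 := by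
    unfold FF
    rw [norm_div, norm_neg, div_eq_mul_one_div]
    calc _ ≤ (8 * Q) * (2 ^ 34 * Q ^ 7) := by gcongr
      _ = 2 ^ 37 * Q ^ 8 := by ring
  refine ⟨hF, ?_⟩
  rw [(FF_hasDerivAt hχ hs1).deriv]
  have hL0 := LFunction_ne_zero_right χ hs1
  have e : (-deriv (deriv (LFunction χ)) s * LFunction χ s
      - (-deriv (LFunction χ) s) * deriv (LFunction χ) s) / (LFunction χ s) ^ 2
      = -(deriv (deriv (LFunction χ)) s / LFunction χ s) + (FF χ s) ^ 2 := by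
    unfold FF
    field_simp
    ring
  rw [e]
  have h2 : ‖deriv (deriv (LFunction χ)) s / LFunction χ s‖ ≤ 2 ^ 40 * Q ^ 8 := by
    rw [norm_div, div_eq_mul_one_div]
    calc _ ≤ (64 * Q) * (2 ^ 34 * Q ^ 7) := by gcongr
      _ = 2 ^ 40 * Q ^ 8 := by ring
  have h3 : Q ^ 8 ≤ Q ^ 16 := pow_le_pow_right₀ hqτ (by norm_num)
  calc _ ≤ ‖-(deriv (deriv (LFunction χ)) s / LFunction χ s)‖ + ‖(FF χ s) ^ 2‖ := norm_add_le _ _
    _ ≤ 2 ^ 40 * Q ^ 8 + (2 ^ 37 * Q ^ 8) ^ 2 := by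
      rw [norm_neg, norm_pow]; gcongr
    _ = 2 ^ 40 * Q ^ 8 + 2 ^ 74 * Q ^ 16 := by ring
    _ ≤ 2 ^ 75 * Q ^ 16 := by nlinarith [pow_nonneg hQ0 16]

/-- the point `σ - 2πiξ` -/
noncomputable def pt (x ξ : ℝ) : ℂ := 1 + x + Complex.I * ((-(2 * Real.pi * ξ) : ℝ) : ℂ)

lemma pt_re (x ξ : ℝ) : (pt x ξ).re = 1 + x := re_mk _ _

lemma pt_hasDerivAt (x ξ : ℝ) : HasDerivAt (pt x) (Complex.I * ((-(2 * Real.pi) : ℝ) : ℂ)) ξ := by
  unfold pt
  have h1 : HasDerivAt (fun ξ : ℝ => ((-(2 * Real.pi * ξ) : ℝ) : ℂ)) ((-(2 * Real.pi) : ℝ) : ℂ) ξ := by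
    have h2 : HasDerivAt (fun ξ : ℝ => (-(2 * Real.pi * ξ) : ℝ)) (-(2 * Real.pi)) ξ := by
      have e : (fun ξ : ℝ => (-(2 * Real.pi * ξ) : ℝ)) = fun ξ : ℝ => (-(2 * Real.pi)) * ξ := by
        ext y; ring
      rw [e]
      have := (hasDerivAt_id' ξ).const_mul (-(2 * Real.pi))
      rwa [mul_one] at this
    exact h2.ofReal_comp
  exact (h1.const_mul Complex.I).const_add _

/-- polynomial weight dominating the bounds -/
lemma tau_pow_le (ξ : ℝ) : (|(-(2 * Real.pi * ξ) : ℝ)| + 2) ^ 16 ≤ 9 ^ 16 * (|ξ| ^ 16 + 1) := by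
  have hpi : Real.pi < 3.5 := by have := Real.pi_lt_d2; linarith
  have hpi0 := Real.pi_pos
  have h1 : |(-(2 * Real.pi * ξ) : ℝ)| ≤ 7 * |ξ| := by
    rw [abs_neg, abs_mul, abs_mul, abs_two, abs_of_pos hpi0]
    have := abs_nonneg ξ
    nlinarith
  have h0 := abs_nonneg ξ
  rcases le_total |ξ| 1 with h | h
  · calc (|(-(2 * Real.pi * ξ) : ℝ)| + 2) ^ 16 ≤ (9 : ℝ) ^ 16 := by
          gcongr
          linarith
      _ ≤ 9 ^ 16 * (|ξ| ^ 16 + 1) := by
          have : 0 ≤ |ξ| ^ 16 := by positivity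
          nlinarith
  · calc (|(-(2 * Real.pi * ξ) : ℝ)| + 2) ^ 16 ≤ (9 * |ξ|) ^ 16 := by
          gcongr
          linarith
      _ = 9 ^ 16 * |ξ| ^ 16 := by ring
      _ ≤ 9 ^ 16 * (|ξ| ^ 16 + 1) := by
          have : 0 ≤ |ξ| ^ 16 := by positivity
          nlinarith

/-- The constant attached to a Schwartz function. -/
noncomputable def Cg (h : SchwartzMap ℝ ℂ) : ℝ :=
  2 ^ 78 * 9 ^ 16 * ∫ ξ : ℝ, (|ξ| ^ 16 + 1) * (‖h ξ‖ + ‖deriv h ξ‖)

lemma Cg_integrable (h : SchwartzMap ℝ ℂ) :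
    Integrable (fun ξ : ℝ => (|ξ| ^ 16 + 1) * (‖h ξ‖ + ‖deriv h ξ‖)) := by
  have h1 := h.integrable_pow_mul (μ := volume) 16
  have h2 := h.integrable_pow_mul (μ := volume) 0
  have h3 := (SchwartzMap.derivCLM ℂ ℂ h).integrable_pow_mul (μ := volume) 16
  have h4 := (SchwartzMap.derivCLM ℂ ℂ h).integrable_pow_mul (μ := volume) 0
  have h5 := ((h1.add h2).add h3).add h4
  refine h5.congr ?_
  filter_upwards with ξ
  simp only [Pi.add_apply, pow_zero, one_mul, SchwartzMap.derivCLM_apply, Real.norm_eq_abs]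
  ring


open LSeries MeasureTheory DirichletCharacter FourierTransform

lemma G_hasDerivAt {q : ℕ} [NeZero q] {χ : DirichletCharacter ℂ q} (hχ : χ ≠ 1) (h : SchwartzMap ℝ ℂ)
    {x : ℝ} (hx : 0 < x) (ξ : ℝ) :
    HasDerivAt (fun ξ : ℝ => h ξ * FF χ (pt x ξ))
      (deriv h ξ * FF χ (pt x ξ) + h ξ * (deriv (FF χ) (pt x ξ) * (Complex.I * ((-(2 * Real.pi) : ℝ) : ℂ)))) ξ := by
  have h1 : HasDerivAt h (deriv h ξ) ξ := (h.differentiable ξ).hasDerivAt
  have hs : 1 < (pt x ξ).re := by rw [pt_re]; linarith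
  have h2 : HasDerivAt (FF χ) (deriv (FF χ) (pt x ξ)) (pt x ξ) := by
    have := FF_hasDerivAt hχ hs
    exact this.differentiableAt.hasDerivAt
  have h3 := h2.comp ξ (pt_hasDerivAt x ξ)
  exact h1.mul h3

lemma G_bounds {q : ℕ} [NeZero q] {χ : DirichletCharacter ℂ q} (hχ : χ ≠ 1) (h : SchwartzMap ℝ ℂ)
    {x : ℝ} (hx : 0 < x) (hx1 : x ≤ 1) (ξ : ℝ) :
    ‖h ξ * FF χ (pt x ξ)‖ ≤ 2 ^ 78 * 9 ^ 16 * q ^ 16 * ((|ξ| ^ 16 + 1) * (‖h ξ‖ + ‖deriv h ξ‖)) ∧
    ‖deriv (fun ξ : ℝ => h ξ * FF χ (pt x ξ)) ξ‖ ≤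
      2 ^ 78 * 9 ^ 16 * q ^ 16 * ((|ξ| ^ 16 + 1) * (‖h ξ‖ + ‖deriv h ξ‖)) := by
  have hq1 : (1 : ℝ) ≤ q := by exact_mod_cast Nat.pos_of_neZero q
  obtain ⟨b1, b2⟩ := FF_bounds hχ (t := -(2 * Real.pi * ξ)) hx hx1
  have hpt : (1 + x + Complex.I * ((-(2 * Real.pi * ξ) : ℝ) : ℂ)) = pt x ξ := rfl
  rw [hpt] at b1 b2
  set τ : ℝ := |(-(2 * Real.pi * ξ) : ℝ)| + 2 with hτ
  have hτ2 : 2 ≤ τ := by rw [hτ]; linarith [abs_nonneg (-(2 * Real.pi * ξ))]
  have hQ1 : 1 ≤ q * τ := by nlinarith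
  have h816 : (q * τ) ^ 8 ≤ (q * τ) ^ 16 := pow_le_pow_right₀ hQ1 (by norm_num)
  have hτ16 := tau_pow_le ξ
  rw [← hτ] at hτ16
  have hQ16 : (q * τ) ^ 16 ≤ q ^ 16 * (9 ^ 16 * (|ξ| ^ 16 + 1)) := by
    rw [mul_pow]; gcongr
  have hn1 := norm_nonneg (h ξ)
  have hn2 := norm_nonneg (deriv h ξ)
  have hQ0 : 0 ≤ (q * τ) ^ 16 := by positivity
  set P : ℝ := q ^ 16 * (9 ^ 16 * (|ξ| ^ 16 + 1)) with hP
  have hP0 : 0 ≤ P := by positivity
  have e : 2 ^ 78 * 9 ^ 16 * (q : ℝ) ^ 16 * ((|ξ| ^ 16 + 1) * (‖h ξ‖ + ‖deriv h ξ‖))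
      = 2 ^ 78 * P * (‖h ξ‖ + ‖deriv h ξ‖) := by rw [hP]; ring
  rw [e]
  have b1' : ‖FF χ (pt x ξ)‖ ≤ 2 ^ 75 * P := by
    calc _ ≤ 2 ^ 37 * (q * τ) ^ 8 := b1
      _ ≤ 2 ^ 75 * (q * τ) ^ 16 := by nlinarith
      _ ≤ 2 ^ 75 * P := by gcongr
  have b2' : ‖deriv (FF χ) (pt x ξ)‖ ≤ 2 ^ 75 * P := b2.trans (by gcongr)
  constructor
  · rw [norm_mul]
    calc ‖h ξ‖ * ‖FF χ (pt x ξ)‖ ≤ ‖h ξ‖ * (2 ^ 75 * P) := by gcongr
      _ ≤ 2 ^ 78 * P * (‖h ξ‖ + ‖deriv h ξ‖) := by nlinarith [mul_nonneg hP0 hn1, mul_nonneg hP0 hn2]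
  · rw [(G_hasDerivAt hχ h hx ξ).deriv]
    have h2pi : ‖(Complex.I * ((-(2 * Real.pi) : ℝ) : ℂ))‖ ≤ 7 := by
      rw [norm_mul, Complex.norm_I, one_mul, Complex.norm_real, norm_neg, Real.norm_of_nonneg (by positivity)]
      have := Real.pi_lt_d2; linarith
    calc _ ≤ ‖deriv h ξ * FF χ (pt x ξ)‖ + ‖h ξ * (deriv (FF χ) (pt x ξ) * (Complex.I * ((-(2 * Real.pi) : ℝ) : ℂ)))‖ :=
          norm_add_le _ _
      _ ≤ ‖deriv h ξ‖ * (2 ^ 75 * P) + ‖h ξ‖ * ((2 ^ 75 * P) * 7) := by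
          rw [norm_mul, norm_mul, norm_mul]; gcongr
      _ ≤ 2 ^ 78 * P * (‖h ξ‖ + ‖deriv h ξ‖) := by nlinarith [mul_nonneg hP0 hn1, mul_nonneg hP0 hn2]

lemma term_pt {q : ℕ} [NeZero q] (χ : DirichletCharacter ℂ q) (x ξ : ℝ) {n : ℕ} :
    term (chiLam χ) (pt x ξ) n
      = term (chiLam χ) (1 + x) n * Complex.exp (2 * Real.pi * ξ * Real.log n * Complex.I) := by
  rcases Nat.eq_zero_or_pos n with rfl | hn
  · simp
  have hn0 : (n : ℂ) ≠ 0 := by exact_mod_cast (by omega : n ≠ 0)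
  rw [term_of_ne_zero (by omega), term_of_ne_zero (by omega)]
  unfold pt
  rw [Complex.cpow_add _ _ hn0, div_mul_eq_div_div, div_eq_mul_inv _ ((n : ℂ) ^ (Complex.I * _)),
    ← Complex.cpow_neg]
  congr 1
  rw [Complex.cpow_def_of_ne_zero hn0, Complex.natCast_log]
  congr 1
  push_cast
  ring

lemma smooth_transform {q : ℕ} [NeZero q] {χ : DirichletCharacter ℂ q} (g : SchwartzMap ℝ ℂ)
    {x : ℝ} (hx : 0 < x) (u : ℝ) :
    ∑' n : ℕ, term (chiLam χ) (1 + x) n * g (Real.log n - u)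
      = 𝓕 (fun ξ : ℝ => (𝓕 g) ξ * FF χ (pt x ξ)) u := by
  have hs : 1 < (1 + (x : ℂ)).re := by simp; exact hx
  have hsum : Summable (fun n => ‖term (chiLam χ) (1 + x) n‖) :=
    (LSeriesSummable_twist_vonMangoldt χ hs).norm
  have hĝ : Integrable (fun ξ => (𝓕 g) ξ) := (𝓕 g).integrable
  -- each term
  have hterm : ∀ n : ℕ, ∫ ξ : ℝ, (𝓕 g) ξ * term (chiLam χ) (pt x ξ) n * Complex.exp (-2 * Real.pi * ξ * u * Complex.I)
      = term (chiLam χ) (1 + x) n * g (Real.log n - u) := by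
    intro n
    have h1 : g (Real.log n - u) = ∫ ξ : ℝ, Complex.exp (2 * Real.pi * ξ * (Real.log n - u) * Complex.I) * (𝓕 g) ξ := by
      have h2 := Continuous.fourierInv_fourier_eq (f := g) g.continuous g.integrable
        (by rw [← SchwartzMap.fourier_coe]; exact (𝓕 g).integrable)
      have h3 := congrFun h2 (Real.log n - u)
      rw [← h3, Real.fourierInv_eq']
      congr 1
      ext ξ
      rw [smul_eq_mul, ← SchwartzMap.fourier_coe]
      congr 2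
      simp
      ring
    rw [h1, ← integral_const_mul]
    congr 1
    ext ξ
    rw [term_pt]
    have e : Complex.exp (2 * Real.pi * ξ * (Real.log n - u) * Complex.I)
        = Complex.exp (2 * Real.pi * ξ * Real.log n * Complex.I) * Complex.exp (-2 * Real.pi * ξ * u * Complex.I) := by
      rw [← Complex.exp_add]; congr 1; ring
    rw [e]
    ring
  have hnorm : ∀ (n : ℕ) (ξ : ℝ), ‖(𝓕 g) ξ * term (chiLam χ) (pt x ξ) n * Complex.exp (-2 * Real.pi * ξ * u * Complex.I)‖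
      = ‖(𝓕 g) ξ‖ * ‖term (chiLam χ) (1 + x) n‖ := by
    intro n ξ
    have e1 : (2 * Real.pi * ξ * Real.log n * Complex.I : ℂ) = ((2 * Real.pi * ξ * Real.log n : ℝ) : ℂ) * Complex.I := by
      push_cast; ring
    have e2 : (-2 * Real.pi * ξ * u * Complex.I : ℂ) = ((-2 * Real.pi * ξ * u : ℝ) : ℂ) * Complex.I := by
      push_cast; ring
    rw [norm_mul, norm_mul, term_pt, norm_mul, e1, e2, Complex.norm_exp_ofReal_mul_I,
      Complex.norm_exp_ofReal_mul_I, mul_one, mul_one]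
  have hF := hasSum_integral_of_summable_integral_norm
    (F := fun (n : ℕ) (ξ : ℝ) => (𝓕 g) ξ * term (chiLam χ) (pt x ξ) n * Complex.exp (-2 * Real.pi * ξ * u * Complex.I))
    (μ := volume) ?_ ?_
  · rw [Real.fourier_real_eq]
    have h5 := hF.tsum_eq
    simp_rw [hterm] at h5
    rw [h5]
    congr 1
    ext ξ
    rw [tsum_mul_right, tsum_mul_left]
    have hspt : 1 < (pt x ξ).re := by rw [pt_re]; linarith
    rw [FF_eq χ hspt]
    rw [Circle.smul_def, Real.fourierChar_apply, smul_eq_mul]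
    have e2 : Complex.exp (↑(2 * Real.pi * -(ξ * u)) * Complex.I) = Complex.exp (-2 * Real.pi * ξ * u * Complex.I) := by
      congr 1; push_cast; ring
    rw [e2]
    unfold LSeries
    ring
  · intro n
    apply Integrable.mono' (g := fun ξ => ‖(𝓕 g) ξ‖ * ‖term (chiLam χ) (1 + x) n‖) (hĝ.norm.mul_const _)
    · apply Continuous.aestronglyMeasurable
      have h1 : Continuous (fun ξ : ℝ => (𝓕 g) ξ) := (𝓕 g).continuous
      have h2 : Continuous (fun ξ : ℝ => term (chiLam χ) (pt x ξ) n) := by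
        simp_rw [term_pt]
        fun_prop
      fun_prop
    · filter_upwards with ξ
      rw [hnorm]
  · simp_rw [hnorm]
    simp_rw [integral_mul_const]
    exact hsum.mul_left _

lemma smooth_bound {q : ℕ} [NeZero q] {χ : DirichletCharacter ℂ q} (hχ : χ ≠ 1) (g : SchwartzMap ℝ ℂ)
    {x : ℝ} (hx : 0 < x) (hx1 : x ≤ 1) {u : ℝ} (hu : 0 < u) :
    ‖∑' n : ℕ, term (chiLam χ) (1 + x) n * g (Real.log n - u)‖ ≤ Cg (𝓕 g) * q ^ 16 / u := by
  rw [smooth_transform g hx u]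
  set G : ℝ → ℂ := fun ξ : ℝ => (𝓕 g) ξ * FF χ (pt x ξ) with hG
  have hdiff : Differentiable ℝ G := fun ξ => (G_hasDerivAt hχ (𝓕 g) hx ξ).differentiableAt
  have hdom := (Cg_integrable (𝓕 g)).const_mul (2 ^ 78 * 9 ^ 16 * (q : ℝ) ^ 16)
  have hint : Integrable G := by
    apply hdom.mono' hdiff.continuous.aestronglyMeasurable
    filter_upwards with ξ
    exact (G_bounds hχ (𝓕 g) hx hx1 ξ).1
  have hint' : Integrable (deriv G) := by
    apply hdom.mono' (stronglyMeasurable_deriv G).aestronglyMeasurable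
    filter_upwards with ξ
    exact (G_bounds hχ (𝓕 g) hx hx1 ξ).2
  have h1 := congrFun (Real.fourier_deriv hint hdiff hint') u
  have h2 : ‖𝓕 (deriv G) u‖ ≤ ∫ ξ, ‖deriv G ξ‖ := by
    rw [Real.fourier_real_eq]
    refine (norm_integral_le_integral_norm _).trans (le_of_eq ?_)
    congr 1
    ext ξ
    rw [Circle.norm_smul]
  have h3 : ∫ ξ, ‖deriv G ξ‖ ≤ Cg (𝓕 g) * q ^ 16 := by
    have h31 := integral_mono hint'.norm hdom (fun ξ => (G_bounds hχ (𝓕 g) hx hx1 ξ).2)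
    refine h31.trans (le_of_eq ?_)
    rw [integral_const_mul]; unfold Cg; ring
  rw [h1] at h2
  simp only [smul_eq_mul, norm_mul] at h2
  have h4 : ‖(2 * (Real.pi : ℂ) * Complex.I * (u : ℂ))‖ = 2 * Real.pi * u := by
    rw [norm_mul, norm_mul, norm_mul, Complex.norm_I, Complex.norm_real, Complex.norm_real]
    simp [abs_of_pos Real.pi_pos, abs_of_pos hu]
  rw [le_div_iff₀ hu]
  have h5 : ‖𝓕 G u‖ * u ≤ 2 * Real.pi * u * ‖𝓕 G u‖ := by
    have := Real.pi_gt_three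
    have h6 : 0 ≤ u * ‖𝓕 G u‖ := by positivity
    nlinarith
  have h7 : 2 * Real.pi * u * ‖𝓕 G u‖ ≤ ∫ ξ, ‖deriv G ξ‖ := by
    refine le_trans (le_of_eq ?_) h2
    simp [abs_of_pos Real.pi_pos, abs_of_pos hu]
  linarith


open LSeries MeasureTheory DirichletCharacter FourierTransform

lemma smooth_bound_one {q : ℕ} [NeZero q] {χ : DirichletCharacter ℂ q} (hχ : χ ≠ 1) (g : SchwartzMap ℝ ℂ)
    {R : ℝ} (hR : ∀ v, R < v → g v = 0) {u : ℝ} (hu : 0 < u) {N : ℕ} (hN : Real.exp (u + R) ≤ N) :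
    ‖∑ n ∈ Finset.Icc 1 N, χ n * ((ArithmeticFunction.vonMangoldt n : ℝ) : ℂ) / n * g (Real.log n - u)‖
      ≤ Cg (𝓕 g) * q ^ 16 / u := by
  have hfin : ∀ x : ℝ, ∑' n : ℕ, term (chiLam χ) (1 + x) n * g (Real.log n - u)
      = ∑ n ∈ Finset.Icc 1 N, term (chiLam χ) (1 + x) n * g (Real.log n - u) := by
    intro x
    apply tsum_eq_sum
    intro n hn
    rw [Finset.mem_Icc, not_and_or, not_le, not_le] at hn
    rcases hn with h | h
    · have : n = 0 := by omega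
      rw [this, term_zero, zero_mul]
    · rw [hR, mul_zero]
      have h1 : (N : ℝ) < n := by exact_mod_cast h
      have h2 : Real.exp (u + R) < n := lt_of_le_of_lt hN h1
      have h3 : u + R < Real.log n := by
        rw [Real.lt_log_iff_exp_lt (by linarith [Real.exp_pos (u + R)])]
        exact h2
      linarith
  have hlim : Tendsto (fun x : ℝ => ‖∑ n ∈ Finset.Icc 1 N, term (chiLam χ) (1 + x) n * g (Real.log n - u)‖)
      (𝓝[>] 0) (𝓝 ‖∑ n ∈ Finset.Icc 1 N, χ n * ((ArithmeticFunction.vonMangoldt n : ℝ) : ℂ) / n * g (Real.log n - u)‖) := by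
    apply Tendsto.norm
    apply tendsto_finsetSum
    intro n hn
    rw [Finset.mem_Icc] at hn
    apply Tendsto.mul_const
    have hn0 : (n : ℂ) ≠ 0 := by exact_mod_cast (by omega : n ≠ 0)
    have h1 : ∀ x : ℝ, term (chiLam χ) (1 + x) n = χ n * ((ArithmeticFunction.vonMangoldt n : ℝ) : ℂ) / (n : ℂ) ^ (1 + (x : ℂ)) := by
      intro x
      rw [term_of_ne_zero (by omega)]
      rfl
    simp_rw [h1]
    apply Tendsto.mono_left _ nhdsWithin_le_nhds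
    have h2 : Continuous (fun x : ℝ => χ n * ((ArithmeticFunction.vonMangoldt n : ℝ) : ℂ) / (n : ℂ) ^ (1 + (x : ℂ))) := by
      apply Continuous.div continuous_const
      · apply Continuous.const_cpow (by fun_prop) (Or.inl hn0)
      · intro x
        rw [Complex.cpow_def_of_ne_zero hn0]
        exact Complex.exp_ne_zero _
    have := h2.tendsto 0
    simpa using this
  apply le_of_tendsto hlim
  have h1 : ∀ᶠ x : ℝ in 𝓝[>] 0, x ≤ 1 := by
    have : ∀ᶠ y : ℝ in 𝓝 0, y < 1 := eventually_lt_nhds (by norm_num)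
    exact (this.filter_mono nhdsWithin_le_nhds).mono (fun y hy => hy.le)
  filter_upwards [h1, self_mem_nhdsWithin] with x hx1 hx0
  rw [← hfin]
  exact smooth_bound hχ g hx0 hx1 hu

end Pool.Agent.H17
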