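import Mathlib
import Pool.Agent.H17.PNT
import Pool.Agent.H17.Smooth

/-! A lower bound for primes in arithmetic progressions, uniform in small moduli. -/

set_option autoImplicit false

open Filter Topology Set

namespace Pool.Agent.H17

open ArithmeticFunction ArithmeticFunction.vonMangoldt DirichletCharacter

/-- bump function supported in `(-(R+κ), 0)`, equal to `1` on `[-R, -κ]` -/
noncomputable def bump (κ R : ℝ) (h0 : 0 < κ) (h : κ < R) : ContDiffBump (-(R + κ) / 2) where
  rIn := (R - κ) / 2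
  rOut := (R + κ) / 2
  rIn_pos := by linarith
  rIn_lt_rOut := by linarith

lemma bump_one {κ R : ℝ} (h0 : 0 < κ) (h : κ < R) {v : ℝ} (h1 : -R ≤ v) (h2 : v ≤ -κ) :
    bump κ R h0 h v = 1 := by
  apply ContDiffBump.one_of_mem_closedBall
  rw [Metric.mem_closedBall, Real.dist_eq, abs_le]
  show _ ≤ _ ∧ _ ≤ (R - κ) / 2
  change -((R - κ) / 2) ≤ _ ∧ _
  constructor <;> linarith

lemma bump_zero {κ R : ℝ} (h0 : 0 < κ) (h : κ < R) {v : ℝ} (h1 : 0 ≤ v) :
    bump κ R h0 h v = 0 := by
  apply ContDiffBump.zero_of_le_dist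
  rw [Real.dist_eq]
  change (R + κ) / 2 ≤ _
  refine le_trans ?_ (le_abs_self _)
  linarith

/-- the weight `e^v φ(v)` as a Schwartz function -/
noncomputable def gfun (κ R : ℝ) (h0 : 0 < κ) (h : κ < R) : SchwartzMap ℝ ℂ :=
  HasCompactSupport.toSchwartzMap (f := fun v : ℝ => ((Real.exp v * bump κ R h0 h v : ℝ) : ℂ))
    (by
      have h1 := (bump κ R h0 h).hasCompactSupport
      apply h1.mono
      intro v hv
      rw [Function.mem_support] at hv ⊢
      intro h2
      apply hv
      simp [h2])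
    (by
      have h1 : ContDiff ℝ ((⊤ : ℕ∞)) (bump κ R h0 h) := (bump κ R h0 h).contDiff
      have h2 : ContDiff ℝ ((⊤ : ℕ∞)) (fun v : ℝ => Real.exp v * bump κ R h0 h v) :=
        Real.contDiff_exp.mul h1
      exact Complex.ofRealCLM.contDiff.comp h2)

lemma gfun_apply {κ R : ℝ} (h0 : 0 < κ) (h : κ < R) (v : ℝ) :
    gfun κ R h0 h v = ((Real.exp v * bump κ R h0 h v : ℝ) : ℂ) := rfl

/-- main inequality -/
lemma psiAP_ge_main {κ R : ℝ} (h0 : 0 < κ) (h : κ < R) :
    ∃ C : ℝ, 0 ≤ C ∧ ∀ x : ℝ, 1 < x → ∀ (q : ℕ) [NeZero q] (a : ZMod q), IsUnit a →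
      (Chebyshev.psi (x * Real.exp (-κ)) - Chebyshev.psi (x * Real.exp (-R))) - 2 * √x * Real.log x
        - (q : ℝ) ^ 2 - C * (q : ℝ) ^ 17 * x / Real.log x ≤ q.totient * psiAP a x := by
  set g := gfun κ R h0 h with hg
  have hCg : 0 ≤ Cg (FourierTransform.fourier g) := by
    unfold Cg
    apply mul_nonneg (by positivity)
    apply MeasureTheory.integral_nonneg
    intro ξ
    simp only [Pi.zero_apply]
    positivity
  refine ⟨Cg (FourierTransform.fourier g), hCg, ?_⟩
  intro x hx q _ a ha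
  have hx0 : 0 < x := by linarith
  set u := Real.log x with hu
  have hu0 : 0 < u := Real.log_pos hx
  set N := ⌊x⌋₊ + 1 with hN
  have hxN : x ≤ N := by rw [hN]; push_cast; exact (Nat.lt_floor_add_one x).le
  have hN' : Real.exp (u + 0) ≤ N := by rw [add_zero, hu, Real.exp_log hx0]; exact hxN
  set b : ℕ → ℝ := fun n => bump κ R h0 h (Real.log n - u) with hb
  have hb0 : ∀ n, 0 ≤ b n := fun n => (bump κ R h0 h).nonneg
  have hb1 : ∀ n, b n ≤ 1 := fun n => (bump κ R h0 h).le_one
  have hbzero : ∀ n : ℕ, x ≤ n → b n = 0 := by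
    intro n hn
    apply bump_zero
    rw [sub_nonneg]
    exact Real.log_le_log hx0 hn
  -- value of g
  have hgv : ∀ n : ℕ, 1 ≤ n → (1 / (n : ℂ)) * g (Real.log n - u) = ((b n / x : ℝ) : ℂ) := by
    intro n hn
    have hn0 : (0 : ℝ) < n := by exact_mod_cast hn
    rw [hg, gfun_apply, Real.exp_sub, Real.exp_log hn0, hu, Real.exp_log hx0]
    have : (n : ℂ) ≠ 0 := by exact_mod_cast (by omega : n ≠ 0)
    have hx' : (x : ℂ) ≠ 0 := by exact_mod_cast hx0.ne'
    push_cast
    field_simp
    rfl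
  set T : DirichletCharacter ℂ q → ℂ := fun χ => ∑ n ∈ Finset.Icc 1 N, χ n * ((vonMangoldt n * b n : ℝ) : ℂ) with hT
  have hTbound : ∀ χ : DirichletCharacter ℂ q, χ ≠ 1 → ‖T χ‖ ≤ x * (Cg (FourierTransform.fourier g) * q ^ 16 / u) := by
    intro χ hχ
    have h1 := smooth_bound_one hχ g (R := 0) (by
      intro v hv
      rw [hg, gfun_apply, bump_zero h0 h hv.le]
      simp) hu0 hN'
    have h2 : T χ = x * ∑ n ∈ Finset.Icc 1 N, χ n * ((ArithmeticFunction.vonMangoldt n : ℝ) : ℂ) / n * g (Real.log n - u) := by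
      rw [hT, Finset.mul_sum]
      apply Finset.sum_congr rfl
      intro n hn
      rw [Finset.mem_Icc] at hn
      have h3 := hgv n hn.1
      have h4 : χ n * ((ArithmeticFunction.vonMangoldt n : ℝ) : ℂ) / n * g (Real.log n - u)
          = χ n * ((ArithmeticFunction.vonMangoldt n : ℝ) : ℂ) * ((1 / (n : ℂ)) * g (Real.log n - u)) := by ring
      rw [h4, h3]
      have hx' : (x : ℂ) ≠ 0 := by exact_mod_cast hx0.ne'
      push_cast
      field_simp
    rw [h2, norm_mul, Complex.norm_real, Real.norm_of_nonneg hx0.le]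
    gcongr
  -- orthogonality
  have horth : ∑ χ : DirichletCharacter ℂ q, χ a⁻¹ * T χ
      = ((q.totient * ∑ n ∈ Finset.Icc 1 N, residueClass a n * b n : ℝ) : ℂ) := by
    simp only [hT, Finset.mul_sum]
    rw [Finset.sum_comm]
    push_cast
    apply Finset.sum_congr rfl
    intro n _
    have h1 : ∀ χ : DirichletCharacter ℂ q, χ a⁻¹ * (χ n * (((vonMangoldt n : ℝ) : ℂ) * ((b n : ℝ) : ℂ)))
        = (χ a⁻¹ * χ n) * (((vonMangoldt n : ℝ) : ℂ) * ((b n : ℝ) : ℂ)) := fun χ => by ring
    simp_rw [h1]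
    rw [← Finset.sum_mul, sum_char_inv_mul_char_eq ℂ ha]
    unfold residueClass
    by_cases hn : a = n
    · rw [if_pos hn, indicator_of_mem (by exact hn.symm)]
    · rw [if_neg hn, indicator_of_notMem (by exact fun h => hn h.symm)]; simp
  have hlow : ∑ n ∈ Finset.Icc 1 N, residueClass a n * b n ≤ psiAP a x := by
    unfold psiAP
    have h1 : ∑ n ∈ Finset.Icc 1 N, residueClass a n * b n = ∑ n ∈ Finset.Icc 1 ⌊x⌋₊, residueClass a n * b n := by
      rw [hN, Finset.sum_Icc_succ_top (by omega)]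
      rw [hbzero (⌊x⌋₊ + 1) (by rw [← hN]; exact hxN)]
      simp
    rw [h1]
    apply Finset.sum_le_sum
    intro n _
    have := residueClass_nonneg a n
    nlinarith [hb1 n, hb0 n]
  -- principal character
  have hprin : Chebyshev.psi (x * Real.exp (-κ)) - Chebyshev.psi (x * Real.exp (-R)) - 2 * √x * Real.log x
        - (q : ℝ) ^ 2 ≤ (T 1).re := by
    have e1 : (T 1).re = ∑ n ∈ Finset.Icc 1 N, (if IsUnit (n : ZMod q) then vonMangoldt n * b n else 0) := by
      rw [hT, Complex.re_sum]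
      apply Finset.sum_congr rfl
      intro n _
      by_cases hn : IsUnit (n : ZMod q)
      · rw [if_pos hn, MulChar.one_apply hn, one_mul, Complex.ofReal_re]
      · rw [if_neg hn, MulChar.map_nonunit _ hn, zero_mul, Complex.zero_re]
    have e2 : ∑ n ∈ Finset.Icc 1 N, (if IsUnit (n : ZMod q) then vonMangoldt n * b n else 0)
        = ∑ n ∈ Finset.Icc 1 N, vonMangoldt n * b n
          - ∑ n ∈ Finset.Icc 1 N, (if IsUnit (n : ZMod q) then 0 else vonMangoldt n * b n) := by
      rw [← Finset.sum_sub_distrib]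
      apply Finset.sum_congr rfl
      intro n _
      split_ifs <;> ring
    have e3 : Chebyshev.psi (x * Real.exp (-κ)) - Chebyshev.psi (x * Real.exp (-R)) ≤ ∑ n ∈ Finset.Icc 1 N, vonMangoldt n * b n := by
      have hle : ⌊x * Real.exp (-R)⌋₊ ≤ ⌊x * Real.exp (-κ)⌋₊ := by
        apply Nat.floor_le_floor
        gcongr
      have h1 : Chebyshev.psi (x * Real.exp (-κ)) = Chebyshev.psi (x * Real.exp (-R)) +
          ∑ n ∈ Finset.Ioc ⌊x * Real.exp (-R)⌋₊ ⌊x * Real.exp (-κ)⌋₊, vonMangoldt n := by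
        unfold Chebyshev.psi
        rw [← Finset.sum_union]
        · congr 1
          ext n
          simp only [Finset.mem_union, Finset.mem_Ioc]
          omega
        · rw [Finset.disjoint_left]
          intro n hn hn'
          rw [Finset.mem_Ioc] at hn hn'
          omega
      rw [h1, add_sub_cancel_left]
      have h2 : ∑ n ∈ Finset.Ioc ⌊x * Real.exp (-R)⌋₊ ⌊x * Real.exp (-κ)⌋₊, vonMangoldt n
          = ∑ n ∈ Finset.Ioc ⌊x * Real.exp (-R)⌋₊ ⌊x * Real.exp (-κ)⌋₊, vonMangoldt n * b n := by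
        apply Finset.sum_congr rfl
        intro n hn
        rw [Finset.mem_Ioc] at hn
        have hn1 : x * Real.exp (-R) < n := Nat.lt_of_floor_lt hn.1
        have hn0 : n ≠ 0 := by omega
        have hn2 : (n : ℝ) ≤ x * Real.exp (-κ) := (Nat.le_floor_iff (by positivity)).mp hn.2
        have hnpos : (0 : ℝ) < n := by exact_mod_cast Nat.pos_of_ne_zero hn0
        have h3 : b n = 1 := by
          apply bump_one
          · have := Real.log_le_log (by positivity) hn1.le
            rw [Real.log_mul hx0.ne' (Real.exp_ne_zero _), Real.log_exp] at this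
            linarith
          · have := Real.log_le_log hnpos hn2
            rw [Real.log_mul hx0.ne' (Real.exp_ne_zero _), Real.log_exp] at this
            linarith
        rw [h3, mul_one]
      rw [h2]
      apply Finset.sum_le_sum_of_subset_of_nonneg
      · intro n hn
        rw [Finset.mem_Ioc] at hn
        rw [Finset.mem_Icc]
        refine ⟨by omega, hn.2.trans ?_⟩
        rw [hN]
        refine le_trans (Nat.floor_le_floor (b := x) ?_) (by omega)
        have : Real.exp (-κ) ≤ 1 := Real.exp_le_one_iff.mpr (by linarith)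
        nlinarith
      · intro n _ _
        exact mul_nonneg vonMangoldt_nonneg (hb0 n)
    have e4 : ∑ n ∈ Finset.Icc 1 N, (if IsUnit (n : ZMod q) then 0 else vonMangoldt n * b n)
        ≤ 2 * √x * Real.log x + (q : ℝ) ^ 2 := by
      have h1 : ∑ n ∈ Finset.Icc 1 N, (if IsUnit (n : ZMod q) then 0 else vonMangoldt n * b n)
          ≤ ∑ n ∈ Finset.Icc 1 N, ((if n ≤ ⌊x⌋₊ ∧ ¬ n.Prime then vonMangoldt n else 0) + (if n ≤ q then (q : ℝ) else 0)) := by
        apply Finset.sum_le_sum
        intro n hn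
        rw [Finset.mem_Icc] at hn
        have hA : (0 : ℝ) ≤ (if n ≤ ⌊x⌋₊ ∧ ¬ n.Prime then vonMangoldt n else 0) := by
          split_ifs
          · exact vonMangoldt_nonneg
          · exact le_refl _
        have hB : (0 : ℝ) ≤ (if n ≤ q then (q : ℝ) else 0) := by
          split_ifs
          · positivity
          · exact le_refl _
        by_cases hnu : IsUnit (n : ZMod q)
        · rw [if_pos hnu]; linarith
        · rw [if_neg hnu]
          have hvb : vonMangoldt n * b n ≤ vonMangoldt n := by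
            have := hb1 n
            have h3 : (0 : ℝ) ≤ vonMangoldt n := vonMangoldt_nonneg
            nlinarith
          by_cases hp : n.Prime
          · have hdvd : n ∣ q := by
              by_contra hnd
              apply hnu
              rw [ZMod.isUnit_iff_coprime]
              exact (Nat.Prime.coprime_iff_not_dvd hp).mpr hnd
            have hnq : n ≤ q := Nat.le_of_dvd (Nat.pos_of_ne_zero (NeZero.ne q)) hdvd
            rw [if_pos hnq]
            have h3 : vonMangoldt n ≤ (q : ℝ) := by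
              rw [vonMangoldt_apply_prime hp]
              calc Real.log n ≤ n := Real.log_le_self (by positivity)
                _ ≤ q := by exact_mod_cast hnq
            linarith
          · by_cases hnx : n ≤ ⌊x⌋₊
            · rw [if_pos ⟨hnx, hp⟩]
              linarith
            · have : b n = 0 := by
                apply hbzero
                have h3 : n = N := by omega
                rw [h3]; exact hxN
              rw [this]
              linarith
      refine h1.trans ?_
      rw [Finset.sum_add_distrib]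
      have h2 : ∑ n ∈ Finset.Icc 1 N, (if n ≤ ⌊x⌋₊ ∧ ¬ n.Prime then vonMangoldt n else 0) ≤ 2 * √x * Real.log x := by
        have h3 := Chebyshev.psi_sub_theta_le hx.le
        rw [Chebyshev.psi_sub_theta_eq_sum_not_prime] at h3
        refine le_trans (le_of_eq ?_) h3
        rw [← Finset.sum_filter]
        apply Finset.sum_congr _ (fun _ _ => rfl)
        ext n
        simp only [Finset.mem_filter, Finset.mem_Icc, Finset.mem_Ioc]
        constructor
        · rintro ⟨h4, h5, h6⟩
          exact ⟨⟨by omega, h5⟩, h6⟩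
        · rintro ⟨h4, h5⟩
          exact ⟨⟨by omega, by omega⟩, h4.2, h5⟩
      have h4 : ∑ n ∈ Finset.Icc 1 N, (if n ≤ q then (q : ℝ) else 0) ≤ (q : ℝ) ^ 2 := by
        rw [← Finset.sum_filter, Finset.sum_const, nsmul_eq_mul]
        have h5 : ((Finset.Icc 1 N).filter (fun n => n ≤ q)).card ≤ q := by
          refine (Finset.card_le_card (t := Finset.Icc 1 q) ?_).trans (by simp)
          intro n hn
          rw [Finset.mem_filter, Finset.mem_Icc] at hn
          rw [Finset.mem_Icc]
          exact ⟨hn.1.1, hn.2⟩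
        rw [pow_two]
        gcongr
      linarith
    rw [e1, e2]
    linarith
  -- conclusion
  have hsplit : ∑ χ : DirichletCharacter ℂ q, χ a⁻¹ * T χ = T 1 + ∑ χ ∈ Finset.univ.erase (1 : DirichletCharacter ℂ q), χ a⁻¹ * T χ := by
    rw [← Finset.add_sum_erase Finset.univ _ (Finset.mem_univ (1 : DirichletCharacter ℂ q))]
    congr 1
    have hu' : IsUnit a⁻¹ := by
      have := ZMod.mul_inv_of_unit a ha
      exact IsUnit.of_mul_eq_one a (by rw [mul_comm]; exact this)
    rw [MulChar.one_apply hu', one_mul]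
  have hrest : ‖∑ χ ∈ Finset.univ.erase (1 : DirichletCharacter ℂ q), χ a⁻¹ * T χ‖ ≤ Cg (FourierTransform.fourier g) * (q : ℝ) ^ 17 * x / u := by
    have h1 : ‖∑ χ ∈ Finset.univ.erase (1 : DirichletCharacter ℂ q), χ a⁻¹ * T χ‖
        ≤ ∑ χ ∈ Finset.univ.erase (1 : DirichletCharacter ℂ q), x * (Cg (FourierTransform.fourier g) * q ^ 16 / u) := by
      apply norm_sum_le_of_le
      intro χ hχ
      rw [norm_mul]
      have h2 := hTbound χ (Finset.ne_of_mem_erase hχ)
      have h3 := DirichletCharacter.norm_le_one χ a⁻¹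
      calc ‖χ a⁻¹‖ * ‖T χ‖ ≤ 1 * ‖T χ‖ := by gcongr
        _ ≤ _ := by rw [one_mul]; exact h2
    refine h1.trans ?_
    rw [Finset.sum_const, nsmul_eq_mul]
    have h4 : ((Finset.univ.erase (1 : DirichletCharacter ℂ q)).card : ℝ) ≤ q := by
      have h5 : (Finset.univ.erase (1 : DirichletCharacter ℂ q)).card ≤ q := by
        refine (Finset.card_le_card (Finset.erase_subset _ _)).trans ?_
        rw [Finset.card_univ, ← Nat.card_eq_fintype_card, DirichletCharacter.card_eq_totient_of_hasEnoughRootsOfUnity]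
        exact Nat.totient_le q
      exact_mod_cast h5
    calc ((Finset.univ.erase (1 : DirichletCharacter ℂ q)).card : ℝ) * (x * (Cg (FourierTransform.fourier g) * q ^ 16 / u))
        ≤ q * (x * (Cg (FourierTransform.fourier g) * q ^ 16 / u)) := by
          apply mul_le_mul_of_nonneg_right h4
          apply mul_nonneg hx0.le
          apply div_nonneg _ hu0.le
          apply mul_nonneg hCg (by positivity)
      _ = _ := by ring
  have hre : (T 1).re - Cg (FourierTransform.fourier g) * (q : ℝ) ^ 17 * x / u ≤ q.totient * ∑ n ∈ Finset.Icc 1 N, residueClass a n * b n := by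
    have h1 : (∑ χ : DirichletCharacter ℂ q, χ a⁻¹ * T χ).re = q.totient * ∑ n ∈ Finset.Icc 1 N, residueClass a n * b n := by
      rw [horth, Complex.ofReal_re]
    rw [hsplit, Complex.add_re] at h1
    have h2 := (Complex.abs_re_le_norm _).trans hrest
    rw [abs_le] at h2
    linarith [h2.1]
  have hfin : (q.totient : ℝ) * ∑ n ∈ Finset.Icc 1 N, residueClass a n * b n ≤ q.totient * psiAP a x := by
    gcongr
  linarith

lemma tendsto_psi_mul_exp (κ : ℝ) :
    Tendsto (fun x : ℝ => Chebyshev.psi (x * Real.exp (-κ)) / x) atTop (𝓝 (Real.exp (-κ))) := by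
  have h1 : Tendsto (fun x : ℝ => x * Real.exp (-κ)) atTop atTop :=
    tendsto_id.atTop_mul_const (Real.exp_pos _)
  have h2 := (psi_tendsto.comp h1).mul_const (Real.exp (-κ))
  rw [one_mul] at h2
  refine h2.congr' ?_
  filter_upwards [eventually_gt_atTop 0] with x hx
  simp only [Function.comp]
  have := Real.exp_pos (-κ)
  field_simp

/-- Lower bound for primes in progressions, uniform in moduli `q ≤ (log x)^(1/34)`. -/
theorem psiAP_lower {ε : ℝ} (hε : 0 < ε) : ∃ X : ℝ, ∀ x : ℝ, X ≤ x → ∀ (q : ℕ) [NeZero q] (a : ZMod q),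
    IsUnit a → (q : ℝ) ^ 34 ≤ Real.log x → (1 - ε) * x ≤ q.totient * psiAP a x := by
  wlog hε1 : ε ≤ 1 with H
  · obtain ⟨X, hX⟩ := H (ε := 1) one_pos le_rfl
    refine ⟨max X 0, fun x hx q _ a ha hq => ?_⟩
    have h1 := hX x ((le_max_left _ _).trans hx) q a ha hq
    have h2 : 0 ≤ x := (le_max_right _ _).trans hx
    push Not at hε1
    nlinarith
  have hκ : 0 < ε / 8 := by positivity
  have hκR : ε / 8 < 8 / ε := by
    rw [div_lt_div_iff₀ (by norm_num) hε]
    nlinarith
  obtain ⟨C, hC, hmain⟩ := psiAP_ge_main hκ hκR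
  have e1 : 1 - ε / 8 ≤ Real.exp (-(ε / 8)) := by
    have := Real.add_one_le_exp (-(ε / 8))
    linarith
  have e2 : Real.exp (-(8 / ε)) ≤ ε / 8 := by
    rw [Real.exp_neg]
    have h1 := Real.add_one_le_exp (8 / ε)
    have h2 : 8 / ε ≤ Real.exp (8 / ε) := by linarith
    calc (Real.exp (8 / ε))⁻¹ ≤ (8 / ε)⁻¹ := by
          apply inv_anti₀ (by positivity) h2
      _ = ε / 8 := by rw [inv_div]
  have t1 := tendsto_psi_mul_exp (ε / 8)
  have t2 := tendsto_psi_mul_exp (8 / ε)
  have t3 := tendsto_sqrt_mul_log_div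
  have t4 : Tendsto (fun x : ℝ => Real.log x / x) atTop (𝓝 0) := by
    have := (isLittleO_log_rpow_atTop (r := 1) one_pos).tendsto_div_nhds_zero
    simpa using this
  have t5 : Tendsto (fun x : ℝ => C * (Real.sqrt (Real.log x))⁻¹) atTop (𝓝 0) := by
    have : Tendsto (fun x : ℝ => (Real.sqrt (Real.log x))⁻¹) atTop (𝓝 0) :=
      (Real.tendsto_sqrt_atTop.comp Real.tendsto_log_atTop).inv_tendsto_atTop
    simpa using this.const_mul C
  have t := (((t1.sub t2).sub t3).sub t4).sub t5
  have hlim : 1 - ε < Real.exp (-(ε / 8)) - Real.exp (-(8 / ε)) - 0 - 0 - 0 := by linarith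
  have hev := (t.eventually_const_lt hlim).and (eventually_gt_atTop (Real.exp 1))
  obtain ⟨X, hX⟩ := eventually_atTop.mp hev
  refine ⟨X, fun x hx q _ a ha hq => ?_⟩
  obtain ⟨h1, h2⟩ := hX x hx
  have hx1 : 1 < x := by
    have := Real.add_one_le_exp (1 : ℝ)
    linarith
  have hx0 : 0 < x := by linarith
  have hlog1 : 1 ≤ Real.log x := by
    rw [Real.le_log_iff_exp_le hx0]; exact h2.le
  have hlog0 : 0 < Real.log x := by linarith
  have h3 := hmain x hx1 q a ha
  have hq1 : (1 : ℝ) ≤ q := by exact_mod_cast Nat.one_le_iff_ne_zero.mpr (NeZero.ne q)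
  have hq2 : (q : ℝ) ^ 2 ≤ Real.log x := (pow_le_pow_right₀ hq1 (by norm_num)).trans hq
  have hq17 : (q : ℝ) ^ 17 ≤ Real.sqrt (Real.log x) := by
    apply Real.le_sqrt_of_sq_le
    calc ((q : ℝ) ^ 17) ^ 2 = (q : ℝ) ^ 34 := by ring
      _ ≤ _ := hq
  refine le_trans ?_ h3
  have h4 : (1 - ε) * x ≤ (Chebyshev.psi (x * Real.exp (-(ε / 8))) / x - Chebyshev.psi (x * Real.exp (-(8 / ε))) / x
      - 2 * √x * Real.log x / x - Real.log x / x - C * (Real.sqrt (Real.log x))⁻¹) * x := by
    gcongr
  refine h4.trans ?_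
  have h5 : (Chebyshev.psi (x * Real.exp (-(ε / 8))) / x - Chebyshev.psi (x * Real.exp (-(8 / ε))) / x
      - 2 * √x * Real.log x / x - Real.log x / x - C * (Real.sqrt (Real.log x))⁻¹) * x
      = Chebyshev.psi (x * Real.exp (-(ε / 8))) - Chebyshev.psi (x * Real.exp (-(8 / ε)))
        - 2 * √x * Real.log x - Real.log x - C * x * (Real.sqrt (Real.log x))⁻¹ := by
    field_simp
  rw [h5]
  have h6 : C * (q : ℝ) ^ 17 * x / Real.log x ≤ C * x * (Real.sqrt (Real.log x))⁻¹ := by
    rw [div_le_iff₀ hlog0]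
    have h7 : Real.sqrt (Real.log x) * Real.sqrt (Real.log x) = Real.log x := Real.mul_self_sqrt hlog0.le
    have h8 : 0 < Real.sqrt (Real.log x) := Real.sqrt_pos.mpr hlog0
    calc C * (q : ℝ) ^ 17 * x = C * x * (q : ℝ) ^ 17 := by ring
      _ ≤ C * x * Real.sqrt (Real.log x) := by gcongr
      _ = C * x * ((Real.sqrt (Real.log x))⁻¹ * (Real.sqrt (Real.log x) * Real.sqrt (Real.log x))) := by
          field_simp
      _ = _ := by rw [h7]; ring
  linarith

theorem thetaAP_lower {ε : ℝ} (hε : 0 < ε) : ∃ X : ℝ, ∀ x : ℝ, X ≤ x → ∀ (q : ℕ) [NeZero q] (a : ZMod q),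
    IsUnit a → (q : ℝ) ^ 34 ≤ Real.log x → (1 - ε) * x ≤ q.totient * thetaAP a x := by
  obtain ⟨X, hX⟩ := psiAP_lower (half_pos hε)
  have t1 : Tendsto (fun x : ℝ => 2 * √x * (Real.log x) ^ 2 / x) atTop (𝓝 0) := by
    have h1 : Tendsto (fun x : ℝ => 2 * (Real.log x ^ 2 / x ^ (1/2 : ℝ))) atTop (𝓝 0) := by
      have h2 : Tendsto (fun x : ℝ => Real.log x ^ 2 / x ^ (1/2 : ℝ)) atTop (𝓝 0) := by
        have h3 := (isLittleO_log_rpow_rpow_atTop (2 : ℝ) (s := 1/2) (by norm_num)).tendsto_div_nhds_zero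
        refine h3.congr ?_
        intro x
        norm_num
      simpa using h2.const_mul 2
    refine h1.congr' ?_
    filter_upwards [eventually_gt_atTop 0] with x hx
    have h2 : x ^ (1/2 : ℝ) = √x := (Real.sqrt_eq_rpow x).symm
    rw [h2]
    have h3 : √x * √x = x := Real.mul_self_sqrt hx.le
    have h4 : 0 < √x := Real.sqrt_pos.mpr hx
    calc 2 * (Real.log x ^ 2 / √x) = 2 * Real.log x ^ 2 / √x := by ring
      _ = 2 * √x * Real.log x ^ 2 / (√x * √x) := by field_simp
      _ = 2 * √x * Real.log x ^ 2 / x := by rw [h3]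
  have hev := (t1.eventually_lt_const (half_pos hε)).and (eventually_gt_atTop (Real.exp 1))
  obtain ⟨Y, hY⟩ := eventually_atTop.mp hev
  refine ⟨max X Y, fun x hx q _ a ha hq => ?_⟩
  have h1 := hX x ((le_max_left _ _).trans hx) q a ha hq
  obtain ⟨h2, h3⟩ := hY x ((le_max_right _ _).trans hx)
  have hx1 : 1 < x := by
    have := Real.add_one_le_exp (1 : ℝ)
    linarith
  have hx0 : 0 < x := by linarith
  have hlog1 : 1 ≤ Real.log x := by
    rw [Real.le_log_iff_exp_le hx0]; exact h3.le
  have hlog0 : 0 < Real.log x := by linarith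
  have hq1 : (1 : ℝ) ≤ q := by exact_mod_cast Nat.one_le_iff_ne_zero.mpr (NeZero.ne q)
  have hq' : (q : ℝ) ≤ Real.log x := by
    calc (q : ℝ) = (q : ℝ) ^ 1 := (pow_one _).symm
      _ ≤ (q : ℝ) ^ 34 := pow_le_pow_right₀ hq1 (by norm_num)
      _ ≤ _ := hq
  have hφ : (q.totient : ℝ) ≤ Real.log x := by
    refine le_trans ?_ hq'
    exact_mod_cast Nat.totient_le q
  have h4 := psiAP_sub_thetaAP_le a x
  have h5 := Chebyshev.psi_sub_theta_le hx1.le
  have h6 : psiAP a x - thetaAP a x ≤ 2 * √x * Real.log x := h4.trans h5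
  have h7 : (q.totient : ℝ) * (psiAP a x - thetaAP a x) ≤ Real.log x * (2 * √x * Real.log x) := by
    have h8 := thetaAP_le_psiAP a x
    apply mul_le_mul hφ h6 (by linarith) hlog0.le
  have h9 : Real.log x * (2 * √x * Real.log x) ≤ ε / 2 * x := by
    rw [div_lt_iff₀ hx0] at h2
    linarith
  linarith

theorem piAP_lower {ε : ℝ} (hε : 0 < ε) : ∃ X : ℝ, ∀ x : ℝ, X ≤ x → ∀ (q : ℕ) [NeZero q] (a : ZMod q),
    IsUnit a → (q : ℝ) ^ 34 ≤ Real.log x → (1 - ε) * x / (q.totient * Real.log x) ≤ piAP a x := by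
  obtain ⟨X, hX⟩ := thetaAP_lower hε
  refine ⟨max X 2, fun x hx q _ a ha hq => ?_⟩
  have h1 := hX x ((le_max_left _ _).trans hx) q a ha hq
  have hx2 : 2 ≤ x := (le_max_right _ _).trans hx
  have hlog0 : 0 < Real.log x := Real.log_pos (by linarith)
  have hφ0 : (0 : ℝ) < q.totient := by
    exact_mod_cast Nat.totient_pos.mpr (Nat.pos_of_ne_zero (NeZero.ne q))
  have h2 := thetaAP_le_piAP_mul_log a (show 1 ≤ x by linarith)
  rw [div_le_iff₀ (by positivity)]
  calc (1 - ε) * x ≤ q.totient * thetaAP a x := h1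
    _ ≤ q.totient * (piAP a x * Real.log x) := by gcongr
    _ = _ := by ring

end Pool.Agent.H17
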