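import Mathlib

/-! The singular series of a triple of integers. -/

set_option autoImplicit false

open Filter Topology

namespace Pool.Agent.H17

/-- number of residue classes modulo `p` met by `{a, b, c}` -/
def nu (a b c p : ℕ) : ℕ := (({a, b, c} : Finset ℕ).image (fun n => n % p)).card

/-- local factor of the singular series -/
noncomputable def locf (a b c p : ℕ) : ℝ := (1 - (nu a b c p : ℝ) / (p : ℝ)) / (1 - 1 / (p : ℝ)) ^ 3

/-- singular series of `{a, b, c}` -/
noncomputable def sing3 (a b c : ℕ) : ℝ := ∏' p : Nat.Primes, locf a b c p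

lemma nu_pos (a b c p : ℕ) : 1 ≤ nu a b c p := by
  unfold nu
  apply Finset.card_pos.mpr
  exact (Finset.image_nonempty).mpr ⟨a, by simp⟩

lemma nu_le_three (a b c p : ℕ) : nu a b c p ≤ 3 := by
  unfold nu
  exact Finset.card_image_le.trans Finset.card_le_three

lemma nu_le (a b c : ℕ) {p : ℕ} (hp : 0 < p) : nu a b c p ≤ p := by
  unfold nu
  calc _ ≤ (Finset.range p).card := by
        apply Finset.card_le_card
        intro r hr
        simp only [Finset.mem_image] at hr
        obtain ⟨s, _, hs⟩ := hr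
        rw [Finset.mem_range, ← hs]
        exact Nat.mod_lt _ hp
    _ = p := by simp

lemma card_image_mod_eq (S : Finset ℕ) {p : ℕ} (hp : 0 < p) :
    (S.image (fun n => n % p)).card = (S.image (fun n : ℕ => (n : ZMod p))).card := by
  have : NeZero p := ⟨hp.ne'⟩
  have h1 : S.image (fun n => n % p) = (S.image (fun n : ℕ => (n : ZMod p))).image ZMod.val := by
    rw [Finset.image_image]
    apply Finset.image_congr
    intro n _
    simp [ZMod.val_natCast]
  rw [h1, Finset.card_image_of_injective _ (ZMod.val_injective p)]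

lemma nu_eq_zmod (a b c : ℕ) {p : ℕ} (hp : 0 < p) :
    nu a b c p = ({(a : ZMod p), (b : ZMod p), (c : ZMod p)} : Finset (ZMod p)).card := by
  unfold nu
  rw [card_image_mod_eq _ hp]
  congr 1
  simp only [Finset.image_insert, Finset.image_singleton]

lemma nu_shift {a b c : ℕ} (hab : a ≤ b) (hbc : b ≤ c) {p : ℕ} (hp : 0 < p) :
    nu 0 (c - b) (c - a) p = nu a b c p := by
  rw [nu_eq_zmod _ _ _ hp, nu_eq_zmod _ _ _ hp]
  rw [Nat.cast_sub hbc, Nat.cast_sub (hab.trans hbc)]
  have h1 : ({((0 : ℕ) : ZMod p), (c : ZMod p) - b, (c : ZMod p) - a} : Finset (ZMod p))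
      = ({(a : ZMod p), (b : ZMod p), (c : ZMod p)} : Finset (ZMod p)).image (fun r => (c : ZMod p) - r) := by
    simp only [Finset.image_insert, Finset.image_singleton, sub_self, Nat.cast_zero]
    ext r
    simp only [Finset.mem_insert, Finset.mem_singleton]
    tauto
  rw [h1, Finset.card_image_of_injective]
  intro r s hrs
  simpa using hrs

lemma nu_eq_three {a b c p : ℕ} (hab : a < b) (hbc : b < c)
    (h : ¬ p ∣ (b - a) * (c - b) * (c - a)) : nu a b c p = 3 := by
  unfold nu
  have key : ∀ {r s : ℕ}, r < s → r % p = s % p → p ∣ s - r := by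
    intro r s hrs he
    exact (Nat.modEq_iff_dvd' hrs.le).mp he
  have h1 : a % p ≠ b % p := by
    intro he
    exact h (Dvd.dvd.mul_right (Dvd.dvd.mul_right (key hab he) _) _)
  have h2 : b % p ≠ c % p := by
    intro he
    exact h (Dvd.dvd.mul_right (Dvd.dvd.mul_left (key hbc he) _) _)
  have h3 : a % p ≠ c % p := by
    intro he
    exact h (Dvd.dvd.mul_left (key (hab.trans hbc) he) _)
  simp only [Finset.image_insert, Finset.image_singleton]
  rw [Finset.card_eq_three]
  exact ⟨_, _, _, h1, h3, h2, rfl⟩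

lemma one_sub_inv_pos {p : ℕ} (hp : p.Prime) : (0 : ℝ) < 1 - 1 / p := by
  have : (2 : ℝ) ≤ p := by exact_mod_cast hp.two_le
  have h1 : 1 / (p : ℝ) ≤ 1 / 2 := by
    apply one_div_le_one_div_of_le <;> linarith
  linarith

lemma locf_nonneg (a b c : ℕ) {p : ℕ} (hp : p.Prime) : 0 ≤ locf a b c p := by
  unfold locf
  have h1 := one_sub_inv_pos hp
  have hp0 : (0 : ℝ) < p := by exact_mod_cast hp.pos
  have h2 : (nu a b c p : ℝ) / p ≤ 1 := by
    rw [div_le_one hp0]
    exact_mod_cast nu_le a b c hp.pos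
  apply div_nonneg (by linarith) (by positivity)

lemma locf_pos {a b c p : ℕ} (hp : p.Prime) (h : nu a b c p < p) : 0 < locf a b c p := by
  unfold locf
  have h1 := one_sub_inv_pos hp
  have hp0 : (0 : ℝ) < p := by exact_mod_cast hp.pos
  have h2 : (nu a b c p : ℝ) / p < 1 := by
    rw [div_lt_one hp0]
    exact_mod_cast h
  apply div_pos (by linarith) (by positivity)

lemma locf_le_one {a b c p : ℕ} (hp : p.Prime) (h : nu a b c p = 3) : locf a b c p ≤ 1 := by
  unfold locf
  have h1 := one_sub_inv_pos hp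
  have hp0 : (0 : ℝ) < p := by exact_mod_cast hp.pos
  rw [div_le_one (by positivity), h]
  set t : ℝ := 1 / p with ht
  have ht0 : 0 < t := by positivity
  have : ((3 : ℕ) : ℝ) / p = 3 * t := by rw [ht]; push_cast; ring
  rw [this]
  have ht1 : t < 1 := by linarith
  nlinarith [mul_pos ht0 ht0, mul_pos (mul_pos ht0 ht0) (show 0 < 1 - t by linarith)]

lemma locf_le_exp (a b c : ℕ) {p : ℕ} (hp : p.Prime) : locf a b c p ≤ Real.exp (2 / ((p : ℝ) - 1)) := by
  have h1 := one_sub_inv_pos hp
  have hp0 : (0 : ℝ) < p := by exact_mod_cast hp.pos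
  have hp2 : (2 : ℝ) ≤ p := by exact_mod_cast hp.two_le
  have hp1 : (0 : ℝ) < (p : ℝ) - 1 := by linarith
  have h2 : locf a b c p ≤ (1 + 1 / ((p : ℝ) - 1)) ^ 2 := by
    unfold locf
    have h3 : (1 : ℝ) ≤ nu a b c p := by exact_mod_cast nu_pos a b c p
    calc (1 - (nu a b c p : ℝ) / (p : ℝ)) / (1 - 1 / (p : ℝ)) ^ 3
        ≤ (1 - 1 / (p : ℝ)) / (1 - 1 / (p : ℝ)) ^ 3 := by gcongr
      _ = (1 + 1 / ((p : ℝ) - 1)) ^ 2 := by
          have h4 : (1 : ℝ) - 1 / p = (p - 1) / p := by field_simp
          rw [h4]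
          field_simp
          ring
  refine h2.trans ?_
  have h5 : 1 + 1 / ((p : ℝ) - 1) ≤ Real.exp (1 / ((p : ℝ) - 1)) := by
    have := Real.add_one_le_exp (1 / ((p : ℝ) - 1))
    linarith
  calc (1 + 1 / ((p : ℝ) - 1)) ^ 2 ≤ (Real.exp (1 / ((p : ℝ) - 1))) ^ 2 := by gcongr
    _ = Real.exp (2 / ((p : ℝ) - 1)) := by
        rw [← Real.exp_nat_mul]
        congr 1
        push_cast
        ring

lemma abs_locf_sub_one_le {a b c p : ℕ} (hp : p.Prime) (h : nu a b c p = 3) :
    |locf a b c p - 1| ≤ 24 / (p : ℝ) ^ 2 := by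
  have h1 := one_sub_inv_pos hp
  have hp0 : (0 : ℝ) < p := by exact_mod_cast hp.pos
  have hp2 : (2 : ℝ) ≤ p := by exact_mod_cast hp.two_le
  have hle := locf_le_one hp h
  rw [abs_sub_comm, abs_of_nonneg (by linarith)]
  unfold locf
  rw [h]
  set t : ℝ := 1 / p with ht
  have ht0 : 0 < t := by positivity
  have e1 : ((3 : ℕ) : ℝ) / p = 3 * t := by rw [ht]; push_cast; ring
  have e2 : 24 / (p : ℝ) ^ 2 = 24 * t ^ 2 := by rw [ht]; field_simp
  rw [e1, e2]
  have ht2 : t ≤ 1 / 2 := by
    rw [ht]; apply one_div_le_one_div_of_le <;> linarith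
  have h3 : (1 / 8 : ℝ) ≤ (1 - t) ^ 3 := by
    have : (1 / 2 : ℝ) ≤ 1 - t := by linarith
    calc (1 / 8 : ℝ) = (1 / 2) ^ 3 := by norm_num
      _ ≤ _ := by gcongr
  have h4 : 0 < (1 - t) ^ 3 := by linarith
  rw [sub_le_iff_le_add, ← sub_le_iff_le_add', le_div_iff₀ h4]
  nlinarith [mul_pos ht0 ht0, mul_nonneg (sq_nonneg t) (show 0 ≤ (1 - t) ^ 3 - 1/8 by linarith), pow_pos ht0 3]

lemma delta_ne_zero {a b c : ℕ} (hab : a < b) (hbc : b < c) : (b - a) * (c - b) * (c - a) ≠ 0 := by
  have h1 : b - a ≠ 0 := by omega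
  have h2 : c - b ≠ 0 := by omega
  have h3 : c - a ≠ 0 := by omega
  positivity

lemma summable_primes_inv_sq : Summable (fun p : Nat.Primes => 24 / ((p : ℕ) : ℝ) ^ 2) := by
  have h1 : Summable (fun n : ℕ => 24 / (n : ℝ) ^ 2) := by
    have := (Real.summable_one_div_nat_pow (p := 2)).mpr (by norm_num)
    refine (this.mul_left 24).congr (fun n => ?_)
    ring
  exact h1.comp_injective (i := fun p : Nat.Primes => (p : ℕ)) Subtype.val_injective

lemma finite_primes_dvd {m : ℕ} (hm : m ≠ 0) : {p : Nat.Primes | (p : ℕ) ∣ m}.Finite := by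
  have h1 : (m.primeFactors : Set ℕ).Finite := Finset.finite_toSet _
  refine (h1.preimage (f := fun p : Nat.Primes => (p : ℕ)) (Subtype.val_injective.injOn)).subset ?_
  intro p hp
  simp only [Set.mem_preimage, Finset.mem_coe, Nat.mem_primeFactors]
  exact ⟨p.2, hp, hm⟩

lemma summable_locf_sub_one {a b c : ℕ} (hab : a < b) (hbc : b < c) :
    Summable (fun p : Nat.Primes => locf a b c p - 1) := by
  apply Summable.of_norm_bounded_eventually (g := fun p : Nat.Primes => 24 / ((p : ℕ) : ℝ) ^ 2) summable_primes_inv_sq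
  have h1 := finite_primes_dvd (delta_ne_zero hab hbc)
  have h2 : ∀ᶠ p : Nat.Primes in cofinite, ¬ (p : ℕ) ∣ (b - a) * (c - b) * (c - a) := by
    rw [Filter.eventually_cofinite]
    simpa using h1
  filter_upwards [h2] with p hp
  rw [Real.norm_eq_abs]
  exact abs_locf_sub_one_le p.2 (nu_eq_three hab hbc hp)

lemma multipliable_locf {a b c : ℕ} (hab : a < b) (hbc : b < c) :
    Multipliable (fun p : Nat.Primes => locf a b c p) := by
  have := Real.multipliable_one_add_of_summable (summable_locf_sub_one hab hbc)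
  simpa using this

lemma sing3_pos {a b c : ℕ} (hab : a < b) (hbc : b < c) (h : ∀ p : ℕ, p.Prime → nu a b c p < p) :
    0 < sing3 a b c := by
  unfold sing3
  rw [← Real.rexp_tsum_eq_tprod (fun p : Nat.Primes => locf_pos p.2 (h p p.2))]
  · exact Real.exp_pos _
  · have := Real.summable_log_one_add_of_summable (summable_locf_sub_one hab hbc)
    simpa using this

lemma locf_eq_zero {a b c p : ℕ} (hp : p.Prime) (h : nu a b c p = p) : locf a b c p = 0 := by
  unfold locf
  have hp0 : (p : ℝ) ≠ 0 := by exact_mod_cast hp.ne_zero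
  rw [h, div_self hp0]
  simp

lemma sing3_nonneg {a b c : ℕ} (hab : a < b) (hbc : b < c) : 0 ≤ sing3 a b c := by
  unfold sing3
  have h := (multipliable_locf hab hbc).hasProd
  exact ge_of_tendsto h (Filter.Eventually.of_forall (fun T => Finset.prod_nonneg (fun p _ => locf_nonneg a b c p.2)))

lemma sing3_ne_zero_iff {a b c : ℕ} (hab : a < b) (hbc : b < c) :
    sing3 a b c ≠ 0 ↔ ∀ p : ℕ, p.Prime → nu a b c p < p := by
  constructor
  · intro h p hp
    by_contra hcon
    have h1 : nu a b c p = p := le_antisymm (nu_le a b c hp.pos) (not_lt.mp hcon)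
    apply h
    unfold sing3
    have h2 := (multipliable_locf hab hbc).hasProd
    refine tendsto_nhds_unique h2 ?_
    apply tendsto_const_nhds.congr'
    filter_upwards [eventually_ge_atTop ({⟨p, hp⟩} : Finset Nat.Primes)] with T hT
    symm
    apply Finset.prod_eq_zero (i := ⟨p, hp⟩)
    · exact hT (Finset.mem_singleton_self _)
    · exact locf_eq_zero hp h1
  · intro h
    exact (sing3_pos hab hbc h).ne'

/-- primes up to `y` -/
def PP (y : ℕ) : Finset ℕ := (Finset.range (y + 1)).filter Nat.Prime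

lemma mem_PP {y p : ℕ} : p ∈ PP y ↔ p ≤ y ∧ p.Prime := by
  unfold PP
  rw [Finset.mem_filter, Finset.mem_range, Nat.lt_succ_iff]

/-- truncated singular series -/
noncomputable def singW (y a b c : ℕ) : ℝ := ∏ p ∈ PP y, locf a b c p

lemma singW_nonneg (y a b c : ℕ) : 0 ≤ singW y a b c :=
  Finset.prod_nonneg (fun p hp => locf_nonneg a b c (mem_PP.mp hp).2)

/-- inclusion -/
def toPr {y : ℕ} (p : {r // r ∈ PP y}) : Nat.Primes := ⟨p.1, (mem_PP.mp p.2).2⟩

/-- the primes up to `y` as a Finset of `Nat.Primes` -/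
def PP' (y : ℕ) : Finset Nat.Primes := (PP y).attach.image toPr

lemma mem_PP' {y : ℕ} {p : Nat.Primes} : p ∈ PP' y ↔ (p : ℕ) ≤ y := by
  unfold PP'
  rw [Finset.mem_image]
  constructor
  · rintro ⟨r, _, rfl⟩
    exact (mem_PP.mp r.2).1
  · intro h
    exact ⟨⟨p, mem_PP.mpr ⟨h, p.2⟩⟩, Finset.mem_attach _ _, rfl⟩

lemma prod_PP' (y : ℕ) (f : ℕ → ℝ) : ∏ p ∈ PP' y, f p = ∏ p ∈ PP y, f p := by
  unfold PP'
  rw [Finset.prod_image]
  · exact Finset.prod_attach (PP y) f
  · intro r _ s _ hrs
    apply Subtype.ext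
    exact congrArg (fun q : Nat.Primes => (q : ℕ)) hrs

lemma card_large_primeFactors {y m : ℕ} (hy : 1 < y) (hm : m ≠ 0) (T : Finset ℕ)
    (hT : ∀ p ∈ T, p.Prime ∧ y ≤ p ∧ p ∣ m) : (T.card : ℝ) * Real.log y ≤ Real.log m := by
  have h1 : y ^ T.card ≤ m := by
    calc y ^ T.card ≤ ∏ p ∈ T, p := Finset.pow_card_le_prod T _ y (fun p hp => (hT p hp).2.1)
      _ ≤ m := by
        apply Nat.le_of_dvd (Nat.pos_of_ne_zero hm)
        apply Finset.prod_primes_dvd
        · intro p hp; exact (hT p hp).1.prime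
        · intro p hp; exact (hT p hp).2.2
  have hy0 : (0 : ℝ) < y := by exact_mod_cast (by omega : 0 < y)
  calc (T.card : ℝ) * Real.log y = Real.log ((y : ℝ) ^ T.card) := by rw [Real.log_pow]
    _ ≤ Real.log m := Real.log_le_log (by positivity) (by exact_mod_cast h1)

lemma sing3_le {a b c y : ℕ} (hab : a < b) (hbc : b < c) (hy : 1 < y) :
    sing3 a b c ≤ singW y a b c * Real.exp (2 * Real.log ((b - a) * (c - b) * (c - a) : ℕ) / (y * Real.log y)) := by
  have hΔ := delta_ne_zero hab hbc
  set Δ := (b - a) * (c - b) * (c - a) with hΔd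
  have hy0 : (0 : ℝ) < y := by exact_mod_cast (by omega : 0 < y)
  have hlogy : 0 < Real.log y := Real.log_pos (by exact_mod_cast hy)
  unfold sing3
  have h := (multipliable_locf hab hbc).hasProd
  apply le_of_tendsto h
  filter_upwards [eventually_ge_atTop (PP' y)] with T hT
  rw [← Finset.prod_sdiff hT, mul_comm, prod_PP' y (fun p => locf a b c p)]
  unfold singW
  apply mul_le_mul_of_nonneg_left _ (singW_nonneg y a b c)
  calc ∏ p ∈ T \ PP' y, locf a b c p
      ≤ ∏ p ∈ T \ PP' y, (if (p : ℕ) ∣ Δ then Real.exp (2 / y) else 1) := by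
        apply Finset.prod_le_prod
        · intro p _; exact locf_nonneg a b c p.2
        · intro p hp
          rw [Finset.mem_sdiff, mem_PP', not_le] at hp
          split_ifs with hd
          · refine (locf_le_exp a b c p.2).trans ?_
            apply Real.exp_le_exp.mpr
            apply div_le_div_of_nonneg_left (by norm_num) hy0
            have : (y : ℝ) + 1 ≤ (p : ℕ) := by exact_mod_cast hp.2
            linarith
          · exact locf_le_one p.2 (nu_eq_three hab hbc hd)
    _ = Real.exp (2 / y) ^ ((T \ PP' y).filter (fun p : Nat.Primes => (p : ℕ) ∣ Δ)).card := by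
        rw [Finset.prod_ite, Finset.prod_const, Finset.prod_const_one, mul_one]
    _ ≤ _ := by
        rw [← Real.exp_nat_mul]
        apply Real.exp_le_exp.mpr
        set T1 := (T \ PP' y).filter (fun p : Nat.Primes => (p : ℕ) ∣ Δ) with hT1
        have h1 := card_large_primeFactors hy hΔ (T1.image (fun p : Nat.Primes => (p : ℕ))) (by
          intro p hp
          rw [Finset.mem_image] at hp
          obtain ⟨r, hr, rfl⟩ := hp
          rw [hT1, Finset.mem_filter, Finset.mem_sdiff, mem_PP', not_le] at hr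
          exact ⟨r.2, hr.1.2.le, hr.2⟩)
        rw [Finset.card_image_of_injective T1 Nat.Primes.coe_nat_injective] at h1
        rw [le_div_iff₀ (by positivity)]
        calc (T1.card : ℝ) * (2 / y) * (y * Real.log y) = 2 * (T1.card * Real.log y) := by
              field_simp
          _ ≤ 2 * Real.log Δ := by gcongr

end Pool.Agent.H17
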