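import Mathlib
import Pool.Agent.H17.Sing

/-! Counting residues modulo a product of primes, and the moments of the number of elements of a
set in reduced residue classes. -/

set_option autoImplicit false

namespace Pool.Agent.H17

lemma card_range_mul {m n : ℕ} (h : m.Coprime n) (hm : m ≠ 0) (hn : n ≠ 0) (P Q : ℕ → Prop)
    [DecidablePred P] [DecidablePred Q] (hP : ∀ t, P t ↔ P (t % m)) (hQ : ∀ t, Q t ↔ Q (t % n)) :
    ((Finset.range (m * n)).filter (fun t => P t ∧ Q t)).card
      = ((Finset.range m).filter P).card * ((Finset.range n).filter Q).card := by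
  rw [← Finset.card_product]
  apply Finset.card_nbij' (i := fun t => (t % m, t % n))
    (j := fun u => (Nat.chineseRemainder h u.1 u.2 : ℕ))
  · intro t ht
    simp only [Finset.coe_filter, Set.mem_ofPred_eq, Finset.mem_range] at ht
    simp only [Finset.coe_product, Set.mem_prod, Finset.coe_filter, Set.mem_ofPred_eq, Finset.mem_range]
    exact ⟨⟨Nat.mod_lt _ (Nat.pos_of_ne_zero hm), (hP t).mp ht.2.1⟩,
      ⟨Nat.mod_lt _ (Nat.pos_of_ne_zero hn), (hQ t).mp ht.2.2⟩⟩
  · intro u hu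
    simp only [Finset.coe_product, Set.mem_prod, Finset.coe_filter, Set.mem_ofPred_eq, Finset.mem_range] at hu
    simp only [Finset.coe_filter, Set.mem_ofPred_eq, Finset.mem_range]
    have h1 := (Nat.chineseRemainder h u.1 u.2).2
    refine ⟨Nat.chineseRemainder_lt_mul h u.1 u.2 hm hn, ?_, ?_⟩
    · rw [hP, show _ % m = u.1 % m from h1.1, ← hP]; exact hu.1.2
    · rw [hQ, show _ % n = u.2 % n from h1.2, ← hQ]; exact hu.2.2
  · intro t ht
    simp only [Finset.coe_filter, Set.mem_ofPred_eq, Finset.mem_range] at ht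
    have h1 := (Nat.chineseRemainder h (t % m) (t % n)).2
    have h2 : ((Nat.chineseRemainder h (t % m) (t % n) : ℕ)) ≡ t [MOD m * n] := by
      rw [← Nat.modEq_and_modEq_iff_modEq_mul h]
      exact ⟨h1.1.trans (Nat.mod_modEq _ _), h1.2.trans (Nat.mod_modEq _ _)⟩
    have h3 := Nat.chineseRemainder_lt_mul h (t % m) (t % n) hm hn
    exact Nat.ModEq.eq_of_lt_of_lt h2 h3 ht.1
  · intro u hu
    simp only [Finset.coe_product, Set.mem_prod, Finset.coe_filter, Set.mem_ofPred_eq, Finset.mem_range] at hu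
    have h1 := (Nat.chineseRemainder h u.1 u.2).2
    apply Prod.ext
    · show _ % m = u.1
      rw [show _ % m = u.1 % m from h1.1, Nat.mod_eq_of_lt hu.1.1]
    · show _ % n = u.2
      rw [show _ % n = u.2 % n from h1.2, Nat.mod_eq_of_lt hu.2.1]

lemma card_crt (S : Finset ℕ) (hS : ∀ p ∈ S, p.Prime) (Ω : ℕ → ℕ → Prop) [∀ p, DecidablePred (Ω p)]
    (hΩ : ∀ p ∈ S, ∀ t, Ω p t ↔ Ω p (t % p)) :
    ((Finset.range (∏ p ∈ S, p)).filter (fun t => ∀ p ∈ S, Ω p t)).card
      = ∏ p ∈ S, ((Finset.range p).filter (Ω p)).card := by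
  induction S using Finset.induction_on with
  | empty => simp
  | insert q S hq ih =>
    rw [Finset.prod_insert hq, Finset.prod_insert hq]
    have hS' : ∀ p ∈ S, p.Prime := fun p hp => hS p (Finset.mem_insert_of_mem hp)
    have hΩ' : ∀ p ∈ S, ∀ t, Ω p t ↔ Ω p (t % p) := fun p hp => hΩ p (Finset.mem_insert_of_mem hp)
    rw [← ih hS' hΩ']
    have hqp : q.Prime := hS q (Finset.mem_insert_self _ _)
    have hcop : q.Coprime (∏ p ∈ S, p) := by
      apply Nat.Coprime.prod_right
      intro p hp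
      rw [Nat.coprime_primes hqp (hS' p hp)]
      rintro rfl
      exact hq hp
    rw [← card_range_mul hcop hqp.ne_zero (Finset.prod_ne_zero_iff.mpr (fun p hp => (hS' p hp).ne_zero))
      (Ω q) (fun t => ∀ p ∈ S, Ω p t) (hΩ q (Finset.mem_insert_self _ _))]
    · congr 1
      apply Finset.filter_congr
      intro t _
      simp only [Finset.forall_mem_insert]
    · intro t
      apply forall₂_congr
      intro p hp
      have : t % (∏ p ∈ S, p) % p = t % p := Nat.mod_mod_of_dvd t (Finset.dvd_prod_of_mem _ hp)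
      rw [hΩ' p hp t, hΩ' p hp (t % (∏ p ∈ S, p)), this]

lemma card_hit (a b c : ℕ) {p : ℕ} (hp : 0 < p) :
    ((Finset.range p).filter (fun t => p ∣ t + a ∨ p ∣ t + b ∨ p ∣ t + c)).card = nu a b c p := by
  have : NeZero p := ⟨hp.ne'⟩
  rw [nu_eq_zmod _ _ _ hp]
  have h1 : (((Finset.range p).filter (fun t => p ∣ t + a ∨ p ∣ t + b ∨ p ∣ t + c)).image (fun t : ℕ => -(t : ZMod p)))
      = {(a : ZMod p), (b : ZMod p), (c : ZMod p)} := by
    ext r
    simp only [Finset.mem_image, Finset.mem_filter, Finset.mem_range, Finset.mem_insert, Finset.mem_singleton]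
    have key : ∀ t s : ℕ, p ∣ t + s ↔ -(t : ZMod p) = s := by
      intro t s
      rw [← ZMod.natCast_eq_zero_iff, Nat.cast_add]
      constructor
      · intro h
        exact neg_eq_of_add_eq_zero_right h
      · intro h
        rw [← h]; ring
    constructor
    · rintro ⟨t, ⟨_, h⟩, rfl⟩
      simpa only [key] using h
    · intro h
      refine ⟨(-r).val, ⟨ZMod.val_lt _, ?_⟩, ?_⟩
      · simp only [key]
        rw [ZMod.natCast_zmod_val, neg_neg]
        exact h
      · rw [ZMod.natCast_zmod_val, neg_neg]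
  rw [← h1, Finset.card_image_of_injOn]
  intro t ht s hs hts
  simp only [Finset.coe_filter, Set.mem_ofPred_eq, Finset.mem_range] at ht hs
  have h2 : (t : ZMod p) = s := neg_injective hts
  have h3 := (ZMod.natCast_eq_natCast_iff' t s p).mp h2
  rwa [Nat.mod_eq_of_lt ht.1, Nat.mod_eq_of_lt hs.1] at h3

lemma card_miss (a b c : ℕ) {p : ℕ} (hp : 0 < p) :
    ((Finset.range p).filter (fun t => ¬ p ∣ t + a ∧ ¬ p ∣ t + b ∧ ¬ p ∣ t + c)).card = p - nu a b c p := by
  have h1 := card_hit a b c hp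
  have h2 := Finset.card_filter_add_card_filter_not (s := Finset.range p)
    (fun t => p ∣ t + a ∨ p ∣ t + b ∨ p ∣ t + c)
  rw [Finset.card_range, h1] at h2
  have h3 : (Finset.range p).filter (fun t => ¬ (p ∣ t + a ∨ p ∣ t + b ∨ p ∣ t + c))
      = (Finset.range p).filter (fun t => ¬ p ∣ t + a ∧ ¬ p ∣ t + b ∧ ¬ p ∣ t + c) := by
    apply Finset.filter_congr
    intro t _
    tauto
  rw [h3] at h2
  omega

/-- product of the primes up to `y` -/
def WW (y : ℕ) : ℕ := ∏ p ∈ PP y, p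

lemma WW_pos (y : ℕ) : 0 < WW y := Finset.prod_pos (fun p hp => (mem_PP.mp hp).2.pos)

lemma WW_le (y : ℕ) : WW y ≤ 4 ^ y := primorial_le_four_pow y

lemma coprime_WW {n y : ℕ} : n.Coprime (WW y) ↔ ∀ p ∈ PP y, ¬ p ∣ n := by
  unfold WW
  rw [Nat.coprime_prod_right_iff]
  apply forall₂_congr
  intro p hp
  rw [Nat.coprime_comm, Nat.Prime.coprime_iff_not_dvd (mem_PP.mp hp).2]

lemma totient_WW (y : ℕ) : ((WW y).totient : ℝ) = ∏ p ∈ PP y, ((p : ℝ) - 1) := by
  have h := Nat.totient_eq_mul_prod_factors (WW y)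
  have h1 : (WW y).primeFactors = PP y := by
    unfold WW
    exact Nat.primeFactors_prod (fun p hp => (mem_PP.mp hp).2)
  rw [h1] at h
  have h2 : ((WW y).totient : ℝ) = (WW y) * ∏ p ∈ PP y, (1 - (p : ℝ)⁻¹) := by
    have h3 := congrArg (fun r : ℚ => (r : ℝ)) h
    push_cast at h3
    exact h3
  rw [h2]
  unfold WW
  rw [Nat.cast_prod, ← Finset.prod_mul_distrib]
  apply Finset.prod_congr rfl
  intro p hp
  have : (p : ℝ) ≠ 0 := by exact_mod_cast (mem_PP.mp hp).2.ne_zero
  field_simp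

lemma count_triple (y a b c : ℕ) :
    (((Finset.range (WW y)).filter (fun t => (t + a).Coprime (WW y) ∧ (t + b).Coprime (WW y) ∧ (t + c).Coprime (WW y))).card : ℝ)
      = ((WW y).totient : ℝ) ^ 3 / (WW y : ℝ) ^ 2 * singW y a b c := by
  have h1 : (Finset.range (WW y)).filter (fun t => (t + a).Coprime (WW y) ∧ (t + b).Coprime (WW y) ∧ (t + c).Coprime (WW y))
      = (Finset.range (∏ p ∈ PP y, p)).filter (fun t => ∀ p ∈ PP y, (¬ p ∣ t + a ∧ ¬ p ∣ t + b ∧ ¬ p ∣ t + c)) := by
    apply Finset.filter_congr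
    intro t _
    rw [coprime_WW, coprime_WW, coprime_WW]
    constructor
    · rintro ⟨h1, h2, h3⟩ p hp
      exact ⟨h1 p hp, h2 p hp, h3 p hp⟩
    · intro h
      exact ⟨fun p hp => (h p hp).1, fun p hp => (h p hp).2.1, fun p hp => (h p hp).2.2⟩
  rw [h1, card_crt (PP y) (fun p hp => (mem_PP.mp hp).2) (fun p t => ¬ p ∣ t + a ∧ ¬ p ∣ t + b ∧ ¬ p ∣ t + c)]
  · rw [totient_WW, Nat.cast_prod]
    unfold WW singW
    rw [Nat.cast_prod, ← Finset.prod_pow, ← Finset.prod_pow, ← Finset.prod_div_distrib, ← Finset.prod_mul_distrib]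
    apply Finset.prod_congr rfl
    intro p hp
    have hpp := (mem_PP.mp hp).2
    rw [card_miss a b c hpp.pos, Nat.cast_sub (nu_le a b c hpp.pos)]
    unfold locf
    have hp0 : (p : ℝ) ≠ 0 := by exact_mod_cast hpp.ne_zero
    have hp1 : (p : ℝ) - 1 ≠ 0 := by
      have : (2 : ℝ) ≤ p := by exact_mod_cast hpp.two_le
      linarith
    have h4 : (1 : ℝ) - 1 / p = (p - 1) / p := by field_simp
    rw [h4]
    field_simp
  · intro p _ t
    have : ∀ s : ℕ, p ∣ t + s ↔ p ∣ t % p + s := by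
      intro s
      exact ((Nat.mod_modEq t p).symm.add_right s).dvd_iff dvd_rfl
    rw [← this, ← this, ← this]

/-- number of elements `a` of `A` with `t + a` coprime to `W` -/
def mt (A : Finset ℕ) (W t : ℕ) : ℕ := (A.filter (fun a => (t + a).Coprime W)).card

lemma mt_eq_sum (A : Finset ℕ) (W t : ℕ) : (mt A W t : ℝ) = ∑ a ∈ A, (if (t + a).Coprime W then (1 : ℝ) else 0) := by
  unfold mt
  rw [Finset.card_filter]
  push_cast
  rfl

lemma sum_mt_cubed (A : Finset ℕ) (y : ℕ) :
    ∑ t ∈ Finset.range (WW y), (mt A (WW y) t : ℝ) ^ 3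
      = ((WW y).totient : ℝ) ^ 3 / (WW y : ℝ) ^ 2 * ∑ a ∈ A, ∑ b ∈ A, ∑ c ∈ A, singW y a b c := by
  have h1 : ∀ t, (mt A (WW y) t : ℝ) ^ 3 = ∑ a ∈ A, ∑ b ∈ A, ∑ c ∈ A,
      (if ((t + a).Coprime (WW y) ∧ (t + b).Coprime (WW y) ∧ (t + c).Coprime (WW y)) then (1 : ℝ) else 0) := by
    intro t
    rw [mt_eq_sum, pow_three, Finset.sum_mul_sum, Finset.sum_mul_sum]
    apply Finset.sum_congr rfl
    intro a _
    apply Finset.sum_congr rfl
    intro b _
    rw [Finset.mul_sum]
    apply Finset.sum_congr rfl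
    intro c _
    by_cases ha : (t + a).Coprime (WW y)
    · by_cases hb : (t + b).Coprime (WW y)
      · by_cases hc : (t + c).Coprime (WW y)
        · rw [if_pos ha, if_pos hb, if_pos hc, if_pos ⟨ha, hb, hc⟩]; norm_num
        · rw [if_neg hc, if_neg (show ¬ ((t + a).Coprime (WW y) ∧ (t + b).Coprime (WW y) ∧ (t + c).Coprime (WW y)) from fun h => hc h.2.2)]; ring
      · rw [if_neg hb, if_neg (show ¬ ((t + a).Coprime (WW y) ∧ (t + b).Coprime (WW y) ∧ (t + c).Coprime (WW y)) from fun h => hb h.2.1)]; ring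
    · rw [if_neg ha, if_neg (show ¬ ((t + a).Coprime (WW y) ∧ (t + b).Coprime (WW y) ∧ (t + c).Coprime (WW y)) from fun h => ha h.1)]; ring
  simp_rw [h1]
  rw [Finset.sum_comm, Finset.mul_sum]
  apply Finset.sum_congr rfl
  intro a _
  rw [Finset.sum_comm, Finset.mul_sum]
  apply Finset.sum_congr rfl
  intro b _
  rw [Finset.sum_comm, Finset.mul_sum]
  apply Finset.sum_congr rfl
  intro c _
  rw [← count_triple, Finset.card_filter]
  push_cast
  rfl

lemma sum_mt (A : Finset ℕ) (y : ℕ) :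
    ∑ t ∈ Finset.range (WW y), (mt A (WW y) t : ℝ) = A.card * (WW y).totient := by
  simp_rw [mt_eq_sum]
  rw [Finset.sum_comm]
  have h1 : ∀ a ∈ A, ∑ t ∈ Finset.range (WW y), (if (t + a).Coprime (WW y) then (1 : ℝ) else 0) = (WW y).totient := by
    intro a _
    have h2 := Nat.filter_coprime_Ico_eq_totient (WW y) a
    have h3 : ∑ t ∈ Finset.range (WW y), (if (t + a).Coprime (WW y) then (1 : ℝ) else 0)
        = ∑ s ∈ Finset.Ico a (a + WW y), (if (WW y).Coprime s then (1 : ℝ) else 0) := by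
      rw [Finset.sum_Ico_eq_sum_range]
      rw [Nat.add_sub_cancel_left]
      apply Finset.sum_congr rfl
      intro t _
      have h4 : (t + a).Coprime (WW y) ↔ (WW y).Coprime (a + t) := by rw [Nat.coprime_comm, add_comm]
      simp only [h4]
    rw [h3, ← h2, Finset.card_filter]
    push_cast
    rfl
  rw [Finset.sum_congr rfl h1, Finset.sum_const, nsmul_eq_mul]

end Pool.Agent.H17
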