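import Mathlib
import Pool.Agent.H17.Crt
import Pool.Agent.H17.UPNT

/-! The average lower bound for prime triples. -/

set_option autoImplicit false

open Filter Topology

namespace Pool.Agent.H17

/-- number of `a` in `A` with `n + a` prime -/
def NN (A : Finset ℕ) (n : ℕ) : ℕ := (A.filter (fun a => (n + a).Prime)).card

/-- increasing triples of elements of `A` -/
def tri (A : Finset ℕ) : Finset (ℕ × ℕ × ℕ) :=
  (A ×ˢ A ×ˢ A).filter (fun t => t.1 < t.2.1 ∧ t.2.1 < t.2.2)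

lemma mem_tri {A : Finset ℕ} {t : ℕ × ℕ × ℕ} :
    t ∈ tri A ↔ (t.1 ∈ A ∧ t.2.1 ∈ A ∧ t.2.2 ∈ A) ∧ t.1 < t.2.1 ∧ t.2.1 < t.2.2 := by
  unfold tri
  rw [Finset.mem_filter, Finset.mem_product, Finset.mem_product]

lemma sum_tri (A : Finset ℕ) (F : ℕ → ℕ → ℕ → ℝ) :
    ∑ t ∈ tri A, F t.1 t.2.1 t.2.2
      = ∑ a ∈ A, ∑ b ∈ A, ∑ c ∈ A, (if a < b ∧ b < c then F a b c else 0) := by
  unfold tri
  rw [Finset.sum_filter, Finset.sum_product]
  apply Finset.sum_congr rfl
  intro a _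
  rw [Finset.sum_product]

lemma sum_sym (A : Finset ℕ) (F : ℕ → ℕ → ℕ → ℝ) (h1 : ∀ a b c, F a b c = F b a c)
    (h2 : ∀ a b c, F a b c = F a c b) :
    ∑ a ∈ A, ∑ b ∈ A, ∑ c ∈ A, (if a ≠ b ∧ b ≠ c ∧ a ≠ c then F a b c else 0)
      = 6 * ∑ t ∈ tri A, F t.1 t.2.1 t.2.2 := by
  rw [sum_tri]
  set G : ℕ → ℕ → ℕ → ℝ := fun a b c => if a < b ∧ b < c then F a b c else 0 with hG
  have key : ∀ a b c, (if a ≠ b ∧ b ≠ c ∧ a ≠ c then F a b c else 0)
      = G a b c + G a c b + G b a c + G b c a + G c a b + G c b a := by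
    intro a b c
    have e1 : F a c b = F a b c := (h2 a b c).symm
    have e2 : F b a c = F a b c := (h1 a b c).symm
    have e3 : F b c a = F a b c := by rw [← h2 b a c, e2]
    have e4 : F c a b = F a b c := by rw [← h1 a c b, e1]
    have e5 : F c b a = F a b c := by rw [h2 c b a, e4]
    simp only [hG, e1, e2, e3, e4, e5]
    split_ifs <;> first | (exfalso; omega) | ring
  simp_rw [key]
  simp only [Finset.sum_add_distrib]
  have s1 : ∑ a ∈ A, ∑ b ∈ A, ∑ c ∈ A, G a c b = ∑ a ∈ A, ∑ b ∈ A, ∑ c ∈ A, G a b c := by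
    apply Finset.sum_congr rfl
    intro a _
    exact Finset.sum_comm
  have s2 : ∑ a ∈ A, ∑ b ∈ A, ∑ c ∈ A, G b a c = ∑ a ∈ A, ∑ b ∈ A, ∑ c ∈ A, G a b c := Finset.sum_comm
  have s3 : ∑ a ∈ A, ∑ b ∈ A, ∑ c ∈ A, G b c a = ∑ a ∈ A, ∑ b ∈ A, ∑ c ∈ A, G a b c := by
    rw [Finset.sum_comm]
    apply Finset.sum_congr rfl
    intro a _
    exact Finset.sum_comm
  have s4 : ∑ a ∈ A, ∑ b ∈ A, ∑ c ∈ A, G c a b = ∑ a ∈ A, ∑ b ∈ A, ∑ c ∈ A, G a b c := by
    rw [← s2]
    apply Finset.sum_congr rfl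
    intro a _
    exact Finset.sum_comm
  have s5 : ∑ a ∈ A, ∑ b ∈ A, ∑ c ∈ A, G c b a = ∑ a ∈ A, ∑ b ∈ A, ∑ c ∈ A, G a b c := by
    rw [← s3]
    apply Finset.sum_congr rfl
    intro a _
    exact Finset.sum_comm
  rw [s1, s2, s3, s4, s5]
  ring

lemma sum_distinct_one (B : Finset ℕ) :
    ∑ a ∈ B, ∑ b ∈ B, ∑ c ∈ B, (if a ≠ b ∧ b ≠ c ∧ a ≠ c then (1 : ℝ) else 0)
      = (B.card : ℝ) * (B.card - 1) * (B.card - 2) := by
  have key : ∀ a b c : ℕ, (if a ≠ b ∧ b ≠ c ∧ a ≠ c then (1 : ℝ) else 0)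
      = 1 - (if a = b then 1 else 0) - (if b = c then 1 else 0) - (if a = c then 1 else 0)
        + 2 * (if a = b then (if b = c then 1 else 0) else 0) := by
    intro a b c
    split_ifs <;> first | (exfalso; omega) | norm_num
  simp_rw [key]
  simp only [Finset.sum_add_distrib, Finset.sum_sub_distrib, ← Finset.mul_sum, Finset.sum_const,
    nsmul_eq_mul, mul_one]
  have t2 : ∑ b ∈ B, ∑ c ∈ B, (if b = c then (1 : ℝ) else 0) = (B.card : ℝ) := by
    have : ∀ b ∈ B, ∑ c ∈ B, (if b = c then (1 : ℝ) else 0) = 1 := by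
      intro b hb
      rw [Finset.sum_ite_eq, if_pos hb]
    rw [Finset.sum_congr rfl this, Finset.sum_const, nsmul_eq_mul, mul_one]
  have t3 : ∑ a ∈ B, ∑ b ∈ B, ∑ c ∈ B, (if a = b then (if b = c then (1 : ℝ) else 0) else 0) = (B.card : ℝ) := by
    have : ∀ a ∈ B, ∑ b ∈ B, ∑ c ∈ B, (if a = b then (if b = c then (1 : ℝ) else 0) else 0) = 1 := by
      intro a ha
      rw [Finset.sum_comm]
      have h1 : ∀ c ∈ B, ∑ b ∈ B, (if a = b then (if b = c then (1 : ℝ) else 0) else 0) = if a = c then 1 else 0 := by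
        intro c _
        rw [Finset.sum_ite_eq, if_pos ha]
      rw [Finset.sum_congr rfl h1, Finset.sum_ite_eq, if_pos ha]
    rw [Finset.sum_congr rfl this, Finset.sum_const, nsmul_eq_mul, mul_one]
  rw [t2, t3]
  ring

lemma NN_triple (A : Finset ℕ) (n : ℕ) :
    (NN A n : ℝ) * (NN A n - 1) * (NN A n - 2)
      = 6 * ∑ t ∈ tri A, (if (n + t.1).Prime ∧ (n + t.2.1).Prime ∧ (n + t.2.2).Prime then (1 : ℝ) else 0) := by
  have h := sum_sym A (fun a b c => if (n + a).Prime ∧ (n + b).Prime ∧ (n + c).Prime then (1 : ℝ) else 0)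
    (by
      intro a b c
      congr 1
      rw [eq_iff_iff]
      tauto)
    (by
      intro a b c
      congr 1
      rw [eq_iff_iff]
      tauto)
  rw [← h]
  unfold NN
  rw [← sum_distinct_one]
  rw [Finset.sum_filter]
  apply Finset.sum_congr rfl
  intro a _
  by_cases ha : (n + a).Prime
  · rw [if_pos ha, Finset.sum_filter]
    apply Finset.sum_congr rfl
    intro b _
    by_cases hb : (n + b).Prime
    · rw [if_pos hb, Finset.sum_filter]
      apply Finset.sum_congr rfl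
      intro c _
      by_cases hc : (n + c).Prime
      · rw [if_pos hc, if_pos (⟨ha, hb, hc⟩ : (n + a).Prime ∧ (n + b).Prime ∧ (n + c).Prime)]
      · rw [if_neg hc, if_neg (show ¬ ((n + a).Prime ∧ (n + b).Prime ∧ (n + c).Prime) from fun h => hc h.2.2)]
        simp
    · rw [if_neg hb]
      symm
      apply Finset.sum_eq_zero
      intro c _
      rw [if_neg (show ¬ ((n + a).Prime ∧ (n + b).Prime ∧ (n + c).Prime) from fun h => hb h.2.1)]
      simp
  · rw [if_neg ha]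
    symm
    apply Finset.sum_eq_zero
    intro b _
    apply Finset.sum_eq_zero
    intro c _
    rw [if_neg (show ¬ ((n + a).Prime ∧ (n + b).Prime ∧ (n + c).Prime) from fun h => ha h.1)]
    simp

/-- the count of prime triples -/
noncomputable def pi3 (x : ℝ) (d' d : ℕ) : ℕ :=
  ((Finset.range (⌊x⌋₊ + 1)).filter (fun p => p.Prime ∧ (p - d).Prime ∧ (p - d').Prime)).card

lemma count_le_pi3 {x : ℝ} {M a b c : ℕ} (hab : a < b) (hbc : b < c) (hM : M + c ≤ ⌊x⌋₊) :
    ((Finset.Icc 1 M).filter (fun n => (n + a).Prime ∧ (n + b).Prime ∧ (n + c).Prime)).card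
      ≤ pi3 x (c - b) (c - a) := by
  unfold pi3
  apply Finset.card_le_card_of_injOn (fun n => n + c)
  · intro n hn
    simp only [Finset.coe_filter, Set.mem_ofPred_eq, Finset.mem_Icc, Finset.mem_range] at hn ⊢
    obtain ⟨⟨h1, h2⟩, h3, h4, h5⟩ := hn
    refine ⟨by omega, h5, ?_, ?_⟩
    · have : n + c - (c - a) = n + a := by omega
      rw [this]; exact h3
    · have : n + c - (c - b) = n + b := by omega
      rw [this]; exact h4
  · intro m _ n _ h
    simpa using h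

lemma count_le_three {M a b c p : ℕ} (hp : p.Prime) (h : nu a b c p = p) :
    ((Finset.Icc 1 M).filter (fun n => (n + a).Prime ∧ (n + b).Prime ∧ (n + c).Prime)).card ≤ 3 := by
  have hp3 : p ≤ 3 := by rw [← h]; exact nu_le_three a b c p
  have hall : ∀ t, p ∣ t + a ∨ p ∣ t + b ∨ p ∣ t + c := by
    intro t
    have h1 := card_hit a b c hp.pos
    rw [h] at h1
    have h2 : (Finset.range p).filter (fun t => p ∣ t + a ∨ p ∣ t + b ∨ p ∣ t + c) = Finset.range p := by
      apply Finset.eq_of_subset_of_card_le (Finset.filter_subset _ _)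
      rw [h1, Finset.card_range]
    have h3 : t % p ∈ (Finset.range p).filter (fun t => p ∣ t + a ∨ p ∣ t + b ∨ p ∣ t + c) := by
      rw [h2, Finset.mem_range]
      exact Nat.mod_lt _ hp.pos
    rw [Finset.mem_filter] at h3
    have key : ∀ s : ℕ, p ∣ t + s ↔ p ∣ t % p + s := by
      intro s
      exact ((Nat.mod_modEq t p).symm.add_right s).dvd_iff dvd_rfl
    rw [key, key, key]
    exact h3.2
  calc _ ≤ (Finset.Icc 1 3).card := by
        apply Finset.card_le_card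
        intro n hn
        rw [Finset.mem_filter, Finset.mem_Icc] at hn
        rw [Finset.mem_Icc]
        obtain ⟨⟨h1, _⟩, h3, h4, h5⟩ := hn
        refine ⟨h1, ?_⟩
        rcases hall n with hd | hd | hd
        · have := (Nat.prime_dvd_prime_iff_eq hp h3).mp hd
          omega
        · have := (Nat.prime_dvd_prime_iff_eq hp h4).mp hd
          omega
        · have := (Nat.prime_dvd_prime_iff_eq hp h5).mp hd
          omega
    _ = 3 := by simp

lemma cube_tangent {N μ : ℝ} (hN : 0 ≤ N) (hμ : 0 ≤ μ) : 3 * μ ^ 2 * N - 2 * μ ^ 3 ≤ N ^ 3 := by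
  have h : 0 ≤ (N - μ) ^ 2 * (N + 2 * μ) := by positivity
  nlinarith

lemma key_lower {A : Finset ℕ} {W M : ℕ} (hW : 0 < W) {μ : ℕ → ℝ} (hμ : ∀ t, 0 ≤ μ t) {ε X : ℝ}
    (h1 : ∀ t < W, (1 - ε) * X * μ t ≤ ∑ n ∈ (Finset.Icc 1 M).filter (fun n => n % W = t), (NN A n : ℝ))
    (h2 : ∀ t < W, (((Finset.Icc 1 M).filter (fun n => n % W = t)).card : ℝ) ≤ (1 + ε) * X) :
    (1 - 5 * ε) * X * ∑ t ∈ Finset.range W, μ t ^ 3 ≤ ∑ n ∈ Finset.Icc 1 M, (NN A n : ℝ) ^ 3 := by
  have e1 : ∑ n ∈ Finset.Icc 1 M, (3 * μ (n % W) ^ 2 * (NN A n : ℝ) - 2 * μ (n % W) ^ 3)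
      ≤ ∑ n ∈ Finset.Icc 1 M, (NN A n : ℝ) ^ 3 :=
    Finset.sum_le_sum (fun n _ => cube_tangent (Nat.cast_nonneg _) (hμ _))
  refine le_trans ?_ e1
  rw [← Finset.sum_fiberwise_of_maps_to (s := Finset.Icc 1 M) (t := Finset.range W) (g := fun n => n % W)
    (fun n _ => Finset.mem_range.mpr (Nat.mod_lt _ hW)), Finset.mul_sum]
  apply Finset.sum_le_sum
  intro t ht
  rw [Finset.mem_range] at ht
  have e2 : ∑ n ∈ (Finset.Icc 1 M).filter (fun n => n % W = t), (3 * μ (n % W) ^ 2 * (NN A n : ℝ) - 2 * μ (n % W) ^ 3)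
      = 3 * μ t ^ 2 * ∑ n ∈ (Finset.Icc 1 M).filter (fun n => n % W = t), (NN A n : ℝ)
        - 2 * μ t ^ 3 * (((Finset.Icc 1 M).filter (fun n => n % W = t)).card : ℝ) := by
    rw [Finset.mul_sum, mul_comm (2 * μ t ^ 3), ← nsmul_eq_mul, ← Finset.sum_const, ← Finset.sum_sub_distrib]
    apply Finset.sum_congr rfl
    intro n hn
    rw [Finset.mem_filter] at hn
    rw [hn.2]
  rw [e2]
  have h3 := h1 t ht
  have h4 := h2 t ht
  have h5 := hμ t
  have h6 : 3 * μ t ^ 2 * ((1 - ε) * X * μ t) ≤ 3 * μ t ^ 2 * ∑ n ∈ (Finset.Icc 1 M).filter (fun n => n % W = t), (NN A n : ℝ) := by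
    gcongr
  have h7 : 2 * μ t ^ 3 * (((Finset.Icc 1 M).filter (fun n => n % W = t)).card : ℝ) ≤ 2 * μ t ^ 3 * ((1 + ε) * X) := by
    gcongr
  nlinarith

lemma cubic_nat (N : ℕ) {η : ℝ} (hη : 0 < η) :
    (1 - η) * (N : ℝ) ^ 3 - 27 / η ^ 2 ≤ (N : ℝ) * (N - 1) * (N - 2) := by
  have hN : (0 : ℝ) ≤ N := Nat.cast_nonneg _
  by_cases h : 3 / η ≤ N
  · have h1 : 3 ≤ η * N := by
      rw [div_le_iff₀ hη] at h
      linarith
    have h2 : 3 * (N : ℝ) ^ 2 ≤ η * (N : ℝ) ^ 3 := by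
      calc 3 * (N : ℝ) ^ 2 ≤ (η * N) * (N : ℝ) ^ 2 := by gcongr
        _ = _ := by ring
    have h3 : 0 < 27 / η ^ 2 := by positivity
    nlinarith
  · push Not at h
    have h1 : 3 * (N : ℝ) ^ 2 ≤ 27 / η ^ 2 := by
      calc 3 * (N : ℝ) ^ 2 ≤ 3 * (3 / η) ^ 2 := by gcongr
        _ = 27 / η ^ 2 := by ring
    have h2 : 0 ≤ η * (N : ℝ) ^ 3 := by positivity
    nlinarith

lemma class_count (W M t : ℕ) (hW : 0 < W) :
    (((Finset.Icc 1 M).filter (fun n => n % W = t)).card : ℝ) ≤ M / W + 1 := by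
  have h1 : ((Finset.Icc 1 M).filter (fun n => n % W = t)).card ≤ M / W + 1 := by
    calc _ ≤ (Finset.range (M / W + 1)).card := by
          apply Finset.card_le_card_of_injOn (fun n => n / W)
          · intro n hn
            simp only [Finset.coe_filter, Set.mem_ofPred_eq, Finset.mem_Icc] at hn
            simp only [Finset.coe_range, Set.mem_Iio]
            exact Nat.lt_succ_of_le (Nat.div_le_div_right hn.1.2)
          · intro m hm n hn h
            simp only [Finset.coe_filter, Set.mem_ofPred_eq, Finset.mem_Icc] at hm hn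
            have h2 : m / W = n / W := h
            rw [← Nat.div_add_mod m W, ← Nat.div_add_mod n W, h2, hm.2, hn.2]
      _ = M / W + 1 := by simp
  calc (((Finset.Icc 1 M).filter (fun n => n % W = t)).card : ℝ) ≤ ((M / W : ℕ) : ℝ) + 1 := by exact_mod_cast h1
    _ ≤ M / W + 1 := by
      gcongr
      exact Nat.cast_div_le

lemma class_lower (W M t a : ℕ) (hW : 0 < W) (ht : t < W) :
    piAP ((t + a : ℕ) : ZMod W) (M : ℝ) ≤
      ((Finset.Icc 1 M).filter (fun n => n % W = t ∧ (n + a).Prime)).card + a := by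
  unfold piAP
  rw [Nat.floor_natCast]
  set S := (Finset.Icc 1 M).filter (fun p : ℕ => p.Prime ∧ (p : ZMod W) = ((t + a : ℕ) : ZMod W)) with hS
  rw [← Finset.card_filter_add_card_filter_not (s := S) (fun p => a < p)]
  apply Nat.add_le_add
  · apply Finset.card_le_card_of_injOn (fun p => p - a)
    · intro p hp
      simp only [hS, Finset.coe_filter, Set.mem_ofPred_eq, Finset.mem_Icc, Finset.mem_filter] at hp ⊢
      obtain ⟨⟨⟨h1, h2⟩, h3, h4⟩, h5⟩ := hp
      have h6 : p - a + a = p := by omega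
      refine ⟨⟨by omega, by omega⟩, ?_, by rw [h6]; exact h3⟩
      rw [ZMod.natCast_eq_natCast_iff] at h4
      have h7 : (p - a) + a ≡ t + a [MOD W] := by rw [h6]; exact h4
      have h8 : p - a ≡ t [MOD W] := Nat.ModEq.add_right_cancel' a h7
      rw [show (p - a) % W = t % W from h8, Nat.mod_eq_of_lt ht]
    · intro p hp r hr h
      simp only [Finset.coe_filter, Set.mem_ofPred_eq] at hp hr
      have h2 : p - a = r - a := h
      omega
  · calc (S.filter (fun p => ¬ a < p)).card ≤ (Finset.Icc 1 a).card := by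
          apply Finset.card_le_card
          intro p hp
          simp only [hS, Finset.mem_filter, Finset.mem_Icc] at hp ⊢
          omega
      _ = a := by simp

end Pool.Agent.H17
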