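import Mathlib
import Pool.Agent.H17.Avg

/-! The average lower bound for prime triples: main argument. -/

set_option autoImplicit false

open Filter Topology

namespace Pool.Agent.H17

/-- the admissible increasing triples of `A` -/
noncomputable def adm (A : Finset ℕ) : Finset (ℕ × ℕ × ℕ) :=
  (tri A).filter (fun t => sing3 t.1 t.2.1 t.2.2 ≠ 0)

lemma card_tri_le (A : Finset ℕ) : (tri A).card ≤ A.card ^ 3 := by
  unfold tri
  refine (Finset.card_filter_le _ _).trans ?_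
  rw [Finset.card_product, Finset.card_product]
  exact le_of_eq (by ring)

lemma sum_triples_upper {x : ℝ} {A : Finset ℕ} {M : ℕ} (hM : ∀ c ∈ A, M + c ≤ ⌊x⌋₊) :
    ∑ n ∈ Finset.Icc 1 M, (NN A n : ℝ) * (NN A n - 1) * (NN A n - 2)
      ≤ 6 * ∑ t ∈ adm A, (pi3 x (t.2.2 - t.2.1) (t.2.2 - t.1) : ℝ) + 18 * (A.card : ℝ) ^ 3 := by
  simp_rw [NN_triple]
  rw [← Finset.mul_sum, Finset.sum_comm]
  have h1 : ∀ t ∈ tri A, ∑ n ∈ Finset.Icc 1 M, (if (n + t.1).Prime ∧ (n + t.2.1).Prime ∧ (n + t.2.2).Prime then (1 : ℝ) else 0)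
      ≤ (if sing3 t.1 t.2.1 t.2.2 ≠ 0 then (pi3 x (t.2.2 - t.2.1) (t.2.2 - t.1) : ℝ) else 0) + 3 := by
    intro t ht
    rw [mem_tri] at ht
    obtain ⟨⟨_, _, hc⟩, hab, hbc⟩ := ht
    have e1 : ∑ n ∈ Finset.Icc 1 M, (if (n + t.1).Prime ∧ (n + t.2.1).Prime ∧ (n + t.2.2).Prime then (1 : ℝ) else 0)
        = (((Finset.Icc 1 M).filter (fun n => (n + t.1).Prime ∧ (n + t.2.1).Prime ∧ (n + t.2.2).Prime)).card : ℝ) := by
      rw [Finset.card_filter]
      push_cast
      rfl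
    rw [e1]
    by_cases hs : sing3 t.1 t.2.1 t.2.2 ≠ 0
    · rw [if_pos hs]
      have := count_le_pi3 hab hbc (hM _ hc)
      have h2 : (((Finset.Icc 1 M).filter (fun n => (n + t.1).Prime ∧ (n + t.2.1).Prime ∧ (n + t.2.2).Prime)).card : ℝ)
          ≤ pi3 x (t.2.2 - t.2.1) (t.2.2 - t.1) := by exact_mod_cast this
      linarith
    · rw [if_neg hs, zero_add]
      rw [sing3_ne_zero_iff hab hbc] at hs
      push Not at hs
      obtain ⟨p, hp, hnu⟩ := hs
      have := count_le_three (M := M) hp (le_antisymm (nu_le _ _ _ hp.pos) hnu)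
      exact_mod_cast this
  have h2 := Finset.sum_le_sum h1
  rw [Finset.sum_add_distrib, ← Finset.sum_filter, Finset.sum_const, nsmul_eq_mul] at h2
  have h3 : ((tri A).card : ℝ) ≤ (A.card : ℝ) ^ 3 := by exact_mod_cast card_tri_le A
  unfold adm
  linarith

lemma sum_singW_lower (A : Finset ℕ) (y : ℕ) :
    (A.card : ℝ) ^ 3 ≤ ∑ a ∈ A, ∑ b ∈ A, ∑ c ∈ A, singW y a b c := by
  have hW0 : (0 : ℝ) < WW y := by exact_mod_cast WW_pos y
  have hφ0 : (0 : ℝ) < (WW y).totient := by exact_mod_cast Nat.totient_pos.mpr (WW_pos y)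
  have h1 := sum_mt_cubed A y
  have h2 := sum_mt A y
  set κ : ℝ := A.card * (WW y).totient / WW y with hκ
  have hκ0 : 0 ≤ κ := by positivity
  have h3 : κ ^ 3 * WW y ≤ ∑ t ∈ Finset.range (WW y), (mt A (WW y) t : ℝ) ^ 3 := by
    have h4 : ∑ t ∈ Finset.range (WW y), (3 * κ ^ 2 * (mt A (WW y) t : ℝ) - 2 * κ ^ 3)
        ≤ ∑ t ∈ Finset.range (WW y), (mt A (WW y) t : ℝ) ^ 3 :=
      Finset.sum_le_sum (fun t _ => cube_tangent (Nat.cast_nonneg _) hκ0)
    rw [Finset.sum_sub_distrib, ← Finset.mul_sum, h2, Finset.sum_const, Finset.card_range, nsmul_eq_mul] at h4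
    have h5 : (A.card : ℝ) * (WW y).totient = κ * WW y := by rw [hκ]; field_simp
    rw [h5] at h4
    nlinarith
  rw [h1] at h3
  have h6 : κ ^ 3 * WW y = ((WW y).totient : ℝ) ^ 3 / (WW y : ℝ) ^ 2 * (A.card : ℝ) ^ 3 := by
    rw [hκ]; field_simp
  rw [h6] at h3
  exact le_of_mul_le_mul_left h3 (by positivity)

lemma nu_symm1 (a b c p : ℕ) : nu a b c p = nu b a c p := by
  unfold nu
  rw [Finset.insert_comm]

lemma nu_symm2 (a b c p : ℕ) : nu a b c p = nu a c b p := by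
  unfold nu
  rw [Finset.pair_comm]

lemma singW_symm1 (y a b c : ℕ) : singW y a b c = singW y b a c := by
  unfold singW locf
  simp_rw [nu_symm1 a b c]

lemma singW_symm2 (y a b c : ℕ) : singW y a b c = singW y a c b := by
  unfold singW locf
  simp_rw [nu_symm2 a b c]

lemma sum_singW_ge (A : Finset ℕ) (y : ℕ) :
    6 * ∑ t ∈ adm A, singW y t.1 t.2.1 t.2.2 ≤ ∑ a ∈ A, ∑ b ∈ A, ∑ c ∈ A, singW y a b c := by
  have h1 := sum_sym A (singW y) (singW_symm1 y) (singW_symm2 y)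
  have h2 : ∑ t ∈ adm A, singW y t.1 t.2.1 t.2.2 ≤ ∑ t ∈ tri A, singW y t.1 t.2.1 t.2.2 := by
    apply Finset.sum_le_sum_of_subset_of_nonneg (Finset.filter_subset _ _)
    intro t _ _
    exact singW_nonneg _ _ _ _
  have h3 : ∑ a ∈ A, ∑ b ∈ A, ∑ c ∈ A, (if a ≠ b ∧ b ≠ c ∧ a ≠ c then singW y a b c else 0)
      ≤ ∑ a ∈ A, ∑ b ∈ A, ∑ c ∈ A, singW y a b c := by
    apply Finset.sum_le_sum
    intro a _
    apply Finset.sum_le_sum
    intro b _
    apply Finset.sum_le_sum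
    intro c _
    split_ifs
    · exact le_rfl
    · exact singW_nonneg _ _ _ _
  linarith

lemma tendsto_log_pow_div (k : ℕ) : Tendsto (fun x : ℝ => (Real.log x) ^ k / x) atTop (𝓝 0) := by
  have h3 := (isLittleO_log_rpow_rpow_atTop (k : ℝ) (s := 1) (by norm_num)).tendsto_div_nhds_zero
  refine h3.congr ?_
  intro x
  rw [Real.rpow_natCast, Real.rpow_one]

lemma eventually_log_pow_le (k : ℕ) {δ : ℝ} (hδ : 0 < δ) : ∀ᶠ x : ℝ in atTop, (Real.log x) ^ k ≤ δ * x := by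
  filter_upwards [(tendsto_log_pow_div k).eventually_lt_const hδ, eventually_gt_atTop 0] with x h1 h2
  rw [div_lt_iff₀ h2] at h1
  exact h1.le

/-- the sieving level -/
noncomputable def yy (x : ℝ) : ℕ := ⌊Real.log (Real.log x) / 100⌋₊

lemma tendsto_yy : Tendsto yy atTop atTop := by
  unfold yy
  apply tendsto_nat_floor_atTop.comp
  apply Tendsto.atTop_div_const (by norm_num)
  exact Real.tendsto_log_atTop.comp Real.tendsto_log_atTop

lemma WW_yy_pow_le {x : ℝ} (hx : 1 ≤ Real.log x) : ((WW (yy x) : ℕ) : ℝ) ^ 34 ≤ Real.sqrt (Real.log x) := by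
  have h1 : ((WW (yy x) : ℕ) : ℝ) ≤ 4 ^ (yy x) := by exact_mod_cast WW_le (yy x)
  have hlog : 0 ≤ Real.log (Real.log x) := Real.log_nonneg hx
  have h2 : ((yy x : ℕ) : ℝ) ≤ Real.log (Real.log x) / 100 := Nat.floor_le (by positivity)
  have hL0 : 0 < Real.log x := by linarith
  calc ((WW (yy x) : ℕ) : ℝ) ^ 34 ≤ ((4 : ℝ) ^ (yy x)) ^ 34 := by gcongr
    _ = Real.exp (34 * (yy x) * Real.log 4) := by
        rw [← pow_mul, mul_comm (34 : ℝ) _, mul_assoc]
        rw [show ((yy x : ℕ) : ℝ) * (34 * Real.log 4) = ((yy x * 34 : ℕ) : ℝ) * Real.log 4 by push_cast; ring]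
        rw [Real.exp_nat_mul, Real.exp_log (by norm_num)]
    _ ≤ Real.exp (Real.log (Real.log x) / 2) := by
        apply Real.exp_le_exp.mpr
        have h4 : Real.log 4 ≤ 1.4 := by
          have : Real.log 4 = 2 * Real.log 2 := by
            rw [show (4 : ℝ) = 2 ^ 2 by norm_num, Real.log_pow]; norm_num
          rw [this]
          have := Real.log_two_lt_d9
          linarith
        have h5 : 0 ≤ Real.log 4 := Real.log_nonneg (by norm_num)
        calc 34 * ((yy x : ℕ) : ℝ) * Real.log 4 ≤ 34 * (Real.log (Real.log x) / 100) * 1.4 := by gcongr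
          _ ≤ Real.log (Real.log x) / 2 := by linarith
    _ = Real.sqrt (Real.log x) := by
        rw [Real.sqrt_eq_rpow, Real.rpow_def_of_pos hL0]
        congr 1
        ring

lemma yy_lower {x : ℝ} (hx : 1 ≤ yy x) : Real.log (Real.log x) ≤ 200 * (yy x : ℝ) := by
  have h1 : Real.log (Real.log x) / 100 < (yy x : ℝ) + 1 := Nat.lt_floor_add_one _
  have h2 : (1 : ℝ) ≤ yy x := by exact_mod_cast hx
  linarith

lemma delta_le {a b c : ℕ} {H : ℝ} (hab : a < b) (hbc : b < c) (hc : (c : ℝ) ≤ H) :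
    (((b - a) * (c - b) * (c - a) : ℕ) : ℝ) ≤ H ^ 3 := by
  have hH : 0 ≤ H := (Nat.cast_nonneg c).trans hc
  have h1 : ((b - a : ℕ) : ℝ) ≤ H := by
    refine le_trans ?_ hc
    exact_mod_cast (by omega : b - a ≤ c)
  have h2 : ((c - b : ℕ) : ℝ) ≤ H := by
    refine le_trans ?_ hc
    exact_mod_cast (by omega : c - b ≤ c)
  have h3 : ((c - a : ℕ) : ℝ) ≤ H := by
    refine le_trans ?_ hc
    exact_mod_cast (by omega : c - a ≤ c)
  push_cast
  calc ((b - a : ℕ) : ℝ) * ((c - b : ℕ) : ℝ) * ((c - a : ℕ) : ℝ) ≤ H * H * H := by gcongr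
    _ = H ^ 3 := by ring

/-- pointwise comparison of the singular series with the truncated one -/
lemma sing3_le_singW {δ : ℝ} (hδ : 0 < δ) : ∀ᶠ x : ℝ in atTop, ∀ a b c : ℕ, a < b → b < c →
    (c : ℝ) ≤ (Real.log x) ^ 2 → sing3 a b c ≤ (1 + δ) * singW (yy x) a b c := by
  have h1 : Tendsto (fun x : ℝ => Real.exp (2400 / Real.log (yy x))) atTop (𝓝 1) := by
    have h2 : Tendsto (fun x : ℝ => 2400 / Real.log (yy x)) atTop (𝓝 0) := by
      apply Tendsto.const_div_atTop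
      exact Real.tendsto_log_atTop.comp (tendsto_natCast_atTop_atTop.comp tendsto_yy)
    have h3 := (Real.continuous_exp.tendsto 0).comp h2
    rw [Real.exp_zero] at h3
    exact h3
  have hev := (h1.eventually_lt_const (show (1 : ℝ) < 1 + δ by linarith)).and
    ((tendsto_yy.eventually_ge_atTop 2).and (Real.tendsto_log_atTop.eventually_ge_atTop 1))
  filter_upwards [hev] with x hx a b c hab hbc hc
  obtain ⟨hx1, hx2, hx3⟩ := hx
  have hL0 : 0 < Real.log x := by linarith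
  have hy0 : (0 : ℝ) < yy x := by exact_mod_cast (by omega : 0 < yy x)
  have hlogy : 0 < Real.log (yy x) := Real.log_pos (by exact_mod_cast (by omega : 1 < yy x))
  refine (sing3_le hab hbc (y := yy x) (by omega)).trans ?_
  rw [mul_comm (1 + δ)]
  apply mul_le_mul_of_nonneg_left _ (singW_nonneg _ _ _ _)
  refine le_trans ?_ hx1.le
  apply Real.exp_le_exp.mpr
  have hΔ := delta_le hab hbc hc
  have hΔ0 : (0 : ℝ) < ((b - a) * (c - b) * (c - a) : ℕ) := by
    exact_mod_cast Nat.pos_of_ne_zero (delta_ne_zero hab hbc)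
  have h4 : Real.log ((b - a) * (c - b) * (c - a) : ℕ) ≤ 6 * Real.log (Real.log x) := by
    refine (Real.log_le_log hΔ0 hΔ).trans ?_
    rw [← pow_mul, Real.log_pow]
    norm_num
  have h5 := yy_lower (x := x) (by omega)
  rw [div_le_div_iff₀ (by positivity) hlogy]
  calc 2 * Real.log ((b - a) * (c - b) * (c - a) : ℕ) * Real.log (yy x)
      ≤ 2 * (6 * (200 * (yy x : ℝ))) * Real.log (yy x) := by
        gcongr
        linarith
    _ = 2400 * ((yy x : ℝ) * Real.log (yy x)) := by ring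

theorem average_lower_aux {e : ℝ} (he : 0 < e) (he1 : e ≤ 1 / 20) : ∃ K X : ℝ, ∀ x : ℝ, X ≤ x →
    ∀ A : Finset ℕ, (∀ a ∈ A, (a : ℝ) ≤ (Real.log x) ^ 2) →
    (K * (Real.log x) ^ 3 ≤ (A.card : ℝ) ^ 3 ∨ K * (Real.log x) ^ 3 ≤ ∑ t ∈ adm A, sing3 t.1 t.2.1 t.2.2) →
    (1 - 20 * e) * (x / (Real.log x) ^ 3 * ∑ t ∈ adm A, sing3 t.1 t.2.1 t.2.2)
      ≤ ∑ t ∈ adm A, (pi3 x (t.2.2 - t.2.1) (t.2.2 - t.1) : ℝ) := by
  obtain ⟨X0, hX0⟩ := piAP_lower (half_pos he)
  set K : ℝ := 27 / (e ^ 2 * e) + 1 with hK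
  have hK1 : 1 ≤ K := by
    rw [hK]
    have : 0 < 27 / (e ^ 2 * e) := by positivity
    linarith
  have hKc : 27 / e ^ 2 ≤ e * K := by
    rw [hK]
    have : e * (27 / (e ^ 2 * e) + 1) = 27 / e ^ 2 + e := by field_simp
    rw [this]; linarith
  have hev : ∀ᶠ x : ℝ in atTop, (4 ≤ Real.log x) ∧ (2 * X0 ≤ x) ∧ (2 ≤ x)
      ∧ ((Real.log x) ^ 4 ≤ (e / 8) * x) ∧ ((Real.log x) ^ 3 ≤ (e / 18) * x)
      ∧ (∀ a b c : ℕ, a < b → b < c →
        (c : ℝ) ≤ (Real.log x) ^ 2 → sing3 a b c ≤ (1 + e) * singW (yy x) a b c) := by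
    filter_upwards [Real.tendsto_log_atTop.eventually_ge_atTop 4, eventually_ge_atTop (2 * X0), eventually_ge_atTop 2,
      eventually_log_pow_le 4 (show 0 < e / 8 by positivity), eventually_log_pow_le 3 (show 0 < e / 18 by positivity),
      sing3_le_singW he] with x h1 h2 h3 h4 h5 h6
    exact ⟨h1, h2, h3, h4, h5, h6⟩
  obtain ⟨X, hX⟩ := eventually_atTop.mp hev
  refine ⟨K, X, fun x hx A hA hcard => ?_⟩
  obtain ⟨hL4, hxX0, hx2, hlog4, hlog3, hsing⟩ := hX x hx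
  set L : ℝ := Real.log x with hL
  have hL0 : 0 < L := by linarith
  have hx0 : 0 < x := by linarith
  set y := yy x with hy
  set W := WW y with hW
  have hWpos : 0 < W := WW_pos y
  have hW0 : (0 : ℝ) < W := by exact_mod_cast hWpos
  have hW1 : (1 : ℝ) ≤ W := by exact_mod_cast hWpos
  have hφpos : 0 < W.totient := Nat.totient_pos.mpr hWpos
  have hφ0 : (0 : ℝ) < W.totient := by exact_mod_cast hφpos
  have hW34 : (W : ℝ) ^ 34 ≤ Real.sqrt L := WW_yy_pow_le (by linarith)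
  have hsqrtL : Real.sqrt L ≤ L / 2 := by
    rw [Real.sqrt_le_left (by positivity)]
    nlinarith
  have hWL : (W : ℝ) ≤ L := by
    calc (W : ℝ) = (W : ℝ) ^ 1 := (pow_one _).symm
      _ ≤ (W : ℝ) ^ 34 := pow_le_pow_right₀ hW1 (by norm_num)
      _ ≤ L / 2 := hW34.trans hsqrtL
      _ ≤ L := by linarith
  have hφL : (W.totient : ℝ) ≤ L := by
    refine le_trans ?_ hWL
    exact_mod_cast Nat.totient_le W
  set M : ℕ := ⌊x⌋₊ - ⌊L ^ 2⌋₊ with hM
  have hL2x : L ^ 2 ≤ L ^ 4 := pow_le_pow_right₀ (by linarith) (by norm_num)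
  have hL16 : 16 ≤ L ^ 2 := by nlinarith
  have hL24 : L ^ 2 + 1 ≤ L ^ 4 := by
    have h1 : L ^ 4 = L ^ 2 * L ^ 2 := by ring
    rw [h1]
    nlinarith
  have hxL : L ^ 4 ≤ x / 8 := by nlinarith
  have hfl : ⌊L ^ 2⌋₊ ≤ ⌊x⌋₊ := Nat.floor_le_floor (by linarith)
  have hMcast : (M : ℝ) = (⌊x⌋₊ : ℝ) - (⌊L ^ 2⌋₊ : ℝ) := by rw [hM, Nat.cast_sub hfl]
  have hMle : (M : ℝ) ≤ x := by
    rw [hMcast]
    have h1 : (⌊x⌋₊ : ℝ) ≤ x := Nat.floor_le hx0.le
    have h2 : (0 : ℝ) ≤ (⌊L ^ 2⌋₊ : ℝ) := Nat.cast_nonneg _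
    linarith
  have hMge : x - 1 - L ^ 2 ≤ (M : ℝ) := by
    rw [hMcast]
    have h1 : x < (⌊x⌋₊ : ℝ) + 1 := Nat.lt_floor_add_one x
    have h2 : (⌊L ^ 2⌋₊ : ℝ) ≤ L ^ 2 := Nat.floor_le (by positivity)
    linarith
  have hMhalf : x / 2 ≤ (M : ℝ) := by linarith
  have hM0 : (0 : ℝ) < M := by linarith
  have hlogM : L / 2 ≤ Real.log M := by
    have h1 := Real.log_le_log (by positivity) hMhalf
    rw [Real.log_div hx0.ne' (by norm_num)] at h1
    have := Real.log_two_lt_d9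
    linarith
  have hlogMle : Real.log M ≤ L := Real.log_le_log hM0 hMle
  have hlogM0 : 0 < Real.log M := by linarith
  have hMA : ∀ c ∈ A, M + c ≤ ⌊x⌋₊ := by
    intro c hc
    have : c ≤ ⌊L ^ 2⌋₊ := Nat.le_floor (hA c hc)
    omega
  -- the local means
  set μ : ℕ → ℝ := fun t => (mt A W t : ℝ) * (W / (W.totient * L)) with hμ
  have hμ0 : ∀ t, 0 ≤ μ t := fun t => mul_nonneg (Nat.cast_nonneg _) (div_nonneg hW0.le (mul_nonneg hφ0.le hL0.le))
  have hNe : NeZero W := ⟨hWpos.ne'⟩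
  have h1 : ∀ t < W, (1 - e) * (x / W) * μ t ≤ ∑ n ∈ (Finset.Icc 1 M).filter (fun n => n % W = t), (NN A n : ℝ) := by
    intro t ht
    have h2 : ∀ a ∈ A, (t + a).Coprime W → (1 - e) * x / (W.totient * L)
        ≤ (((Finset.Icc 1 M).filter (fun n => n % W = t ∧ (n + a).Prime)).card : ℝ) := by
      intro a ha hcop
      have h3 := class_lower W M t a hWpos ht
      have h4 := hX0 (M : ℝ) (by linarith) W ((t + a : ℕ) : ZMod W) ((ZMod.isUnit_iff_coprime _ _).mpr hcop)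
        (hW34.trans (hsqrtL.trans hlogM))
      have h5 : (piAP ((t + a : ℕ) : ZMod W) (M : ℝ) : ℝ) ≤
          (((Finset.Icc 1 M).filter (fun n => n % W = t ∧ (n + a).Prime)).card : ℝ) + a := by exact_mod_cast h3
      have h6 : (1 - e / 2) * M / (W.totient * L) ≤ (1 - e / 2) * M / (W.totient * Real.log M) := by
        apply div_le_div_of_nonneg_left
        · apply mul_nonneg (by linarith) hM0.le
        · positivity
        · gcongr
      have h7 : (a : ℝ) ≤ L ^ 2 := hA a ha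
      have h8 : (1 - e) * x / (W.totient * L) ≤ (1 - e / 2) * M / (W.totient * L) - L ^ 2 := by
        rw [le_sub_iff_add_le, ← sub_nonneg]
        have h9 : (1 - e / 2) * M / (W.totient * L) - ((1 - e) * x / (W.totient * L) + L ^ 2)
            = ((1 - e / 2) * M - (1 - e) * x - L ^ 2 * (W.totient * L)) / (W.totient * L) := by
          field_simp
          ring
        rw [h9]
        apply div_nonneg _ (by positivity)
        have h10 : L ^ 2 * (W.totient * L) ≤ L ^ 2 * (L * L) := by gcongr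
        have h11 : (1 - e / 2) * (x - 1 - L ^ 2) ≤ (1 - e / 2) * M := by
          apply mul_le_mul_of_nonneg_left hMge (by linarith)
        have h12 : (1 - e / 2) * (1 + L ^ 2) ≤ 1 + L ^ 2 := by
          have : 0 ≤ L ^ 2 := by positivity
          nlinarith
        have h13 : L ^ 2 * (L * L) = L ^ 4 := by ring
        have h14 : 2 * L ^ 4 ≤ e / 2 * x := by linarith
        nlinarith
      linarith
    have h3 : ∑ n ∈ (Finset.Icc 1 M).filter (fun n => n % W = t), (NN A n : ℝ)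
        = ∑ a ∈ A, (((Finset.Icc 1 M).filter (fun n => n % W = t ∧ (n + a).Prime)).card : ℝ) := by
      have e1 : ∀ n, (NN A n : ℝ) = ∑ a ∈ A, (if (n + a).Prime then (1 : ℝ) else 0) := by
        intro n
        unfold NN
        rw [Finset.card_filter]
        push_cast
        rfl
      simp_rw [e1]
      rw [Finset.sum_comm]
      apply Finset.sum_congr rfl
      intro a _
      rw [← Finset.filter_filter, Finset.card_filter (fun n => (n + a).Prime)]
      push_cast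
      rfl
    rw [h3]
    have h4 : ∑ a ∈ A, (if (t + a).Coprime W then (1 - e) * x / (W.totient * L) else 0)
        ≤ ∑ a ∈ A, (((Finset.Icc 1 M).filter (fun n => n % W = t ∧ (n + a).Prime)).card : ℝ) := by
      apply Finset.sum_le_sum
      intro a ha
      split_ifs with hc
      · exact h2 a ha hc
      · exact Nat.cast_nonneg _
    refine le_trans (le_of_eq ?_) h4
    rw [← Finset.sum_filter, Finset.sum_const, nsmul_eq_mul]
    show (1 - e) * (x / W) * ((mt A W t : ℝ) * (W / (W.totient * L))) = (mt A W t : ℝ) * _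
    field_simp
  have h2 : ∀ t < W, (((Finset.Icc 1 M).filter (fun n => n % W = t)).card : ℝ) ≤ (1 + e) * (x / W) := by
    intro t _
    refine (class_count W M t hWpos).trans ?_
    have h3 : (M : ℝ) / W ≤ x / W := by gcongr
    have h4 : (1 : ℝ) ≤ e * (x / W) := by
      rw [← mul_div_assoc, le_div_iff₀ hW0, one_mul]
      have : L ≤ L ^ 4 := by
        calc L = L ^ 1 := (pow_one L).symm
          _ ≤ L ^ 4 := pow_le_pow_right₀ (by linarith) (by norm_num)
      nlinarith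
    linarith
  have hkey := key_lower hWpos hμ0 h1 h2
  -- the sum of cubes
  set T3 : ℝ := ∑ a ∈ A, ∑ b ∈ A, ∑ c ∈ A, singW y a b c with hT3
  set Q : ℝ := x / L ^ 3 * T3 with hQ
  have hcub : x / W * ∑ t ∈ Finset.range W, μ t ^ 3 = Q := by
    simp only [hμ, mul_pow, div_pow]
    rw [← Finset.sum_mul, sum_mt_cubed, ← hT3, hQ]
    change x / (W : ℝ) * (((W.totient : ℝ) ^ 3 / (W : ℝ) ^ 2 * T3) * ((W : ℝ) ^ 3 / ((W.totient : ℝ) ^ 3 * L ^ 3))) = x / L ^ 3 * T3
    field_simp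
  have hcub' : (1 - 5 * e) * Q ≤ ∑ n ∈ Finset.Icc 1 M, (NN A n : ℝ) ^ 3 := by
    rw [← hcub, ← mul_assoc]; exact hkey
  have hTlow : (A.card : ℝ) ^ 3 ≤ T3 := sum_singW_lower A y
  have hT0 : 0 ≤ T3 := le_trans (pow_nonneg (Nat.cast_nonneg _) 3) hTlow
  have hQ0 : 0 ≤ Q := mul_nonneg (div_nonneg hx0.le (pow_nonneg hL0.le 3)) hT0
  have hgeW := sum_singW_ge A y
  have hsingsum : ∑ t ∈ adm A, sing3 t.1 t.2.1 t.2.2 ≤ (1 + e) * ∑ t ∈ adm A, singW y t.1 t.2.1 t.2.2 := by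
    rw [Finset.mul_sum]
    apply Finset.sum_le_sum
    intro t ht
    unfold adm at ht
    rw [Finset.mem_filter, mem_tri] at ht
    obtain ⟨⟨⟨_, _, hc⟩, hab, hbc⟩, _⟩ := ht
    exact hsing _ _ _ hab hbc (hA _ hc)
  have hQK : K * x ≤ Q := by
    have h3 : K * L ^ 3 ≤ T3 := by
      rcases hcard with hcard | hcard
      · exact hcard.trans hTlow
      · have h4 : 0 ≤ ∑ t ∈ adm A, singW y t.1 t.2.1 t.2.2 :=
          Finset.sum_nonneg (fun t _ => singW_nonneg _ _ _ _)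
        have h5 : (1 + e) * ∑ t ∈ adm A, singW y t.1 t.2.1 t.2.2 ≤ 6 * ∑ t ∈ adm A, singW y t.1 t.2.1 t.2.2 := by
          apply mul_le_mul_of_nonneg_right _ h4
          linarith
        linarith
    rw [hQ, div_mul_eq_mul_div, le_div_iff₀ (pow_pos hL0 3)]
    calc K * x * L ^ 3 = x * (K * L ^ 3) := by ring
      _ ≤ x * T3 := by
        apply mul_le_mul_of_nonneg_left h3 hx0.le
  have hS : (1 - e) * ∑ n ∈ Finset.Icc 1 M, (NN A n : ℝ) ^ 3 - 27 / e ^ 2 * M
      ≤ ∑ n ∈ Finset.Icc 1 M, (NN A n : ℝ) * (NN A n - 1) * (NN A n - 2) := by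
    have h3 : ∑ n ∈ Finset.Icc 1 M, ((1 - e) * (NN A n : ℝ) ^ 3 - 27 / e ^ 2)
        ≤ ∑ n ∈ Finset.Icc 1 M, (NN A n : ℝ) * (NN A n - 1) * (NN A n - 2) :=
      Finset.sum_le_sum (fun n _ => cubic_nat (NN A n) he)
    rw [Finset.sum_sub_distrib, ← Finset.mul_sum, Finset.sum_const, nsmul_eq_mul] at h3
    simp only [Nat.card_Icc, Nat.add_sub_cancel] at h3
    linarith
  have hup := sum_triples_upper (x := x) hMA
  set P := ∑ t ∈ adm A, (pi3 x (t.2.2 - t.2.1) (t.2.2 - t.1) : ℝ) with hP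
  set S := ∑ t ∈ adm A, sing3 t.1 t.2.1 t.2.2 with hSdef
  -- collect
  have c1 : 27 / e ^ 2 * M ≤ e * Q := by
    calc 27 / e ^ 2 * M ≤ e * K * x := by
          apply mul_le_mul hKc hMle hM0.le (mul_nonneg he.le (by linarith))
      _ = e * (K * x) := by ring
      _ ≤ e * Q := mul_le_mul_of_nonneg_left hQK he.le
  have c2 : 18 * (A.card : ℝ) ^ 3 ≤ e * Q := by
    have h3 : 18 * T3 ≤ e * Q := by
      rw [hQ, ← mul_assoc, ← mul_div_assoc]
      apply mul_le_mul_of_nonneg_right _ hT0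
      rw [le_div_iff₀ (pow_pos hL0 3)]
      linarith
    linarith
  have c3 : (1 - e) * ((1 - 5 * e) * Q) ≤ (1 - e) * ∑ n ∈ Finset.Icc 1 M, (NN A n : ℝ) ^ 3 := by
    apply mul_le_mul_of_nonneg_left hcub' (by linarith)
  have c4 : (1 - 8 * e) * Q ≤ 6 * P := by nlinarith
  have c5 : x / L ^ 3 * (6 * S) ≤ (1 + e) * Q := by
    have h3 : 6 * S ≤ (1 + e) * T3 := by nlinarith
    calc x / L ^ 3 * (6 * S) ≤ x / L ^ 3 * ((1 + e) * T3) := mul_le_mul_of_nonneg_left h3 (div_nonneg hx0.le (pow_nonneg hL0.le 3))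
      _ = (1 + e) * Q := by rw [hQ]; ring
  have hSnn : 0 ≤ x / L ^ 3 * S := by
    apply mul_nonneg (div_nonneg hx0.le (pow_nonneg hL0.le 3))
    apply Finset.sum_nonneg
    intro t ht
    unfold adm at ht
    rw [Finset.mem_filter, mem_tri] at ht
    exact sing3_nonneg ht.1.2.1 ht.1.2.2
  have c6 : (1 - 20 * e) * ((1 + e) * Q) ≤ (1 - 8 * e) * Q := by nlinarith
  have c7 : (1 - 20 * e) * (x / L ^ 3 * (6 * S)) ≤ (1 - 20 * e) * ((1 + e) * Q) := by
    apply mul_le_mul_of_nonneg_left c5 (by linarith)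
  have c8 : (1 - 20 * e) * (x / L ^ 3 * (6 * S)) = 6 * ((1 - 20 * e) * (x / L ^ 3 * S)) := by ring
  linarith

end Pool.Agent.H17
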