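import Mathlib
import Pool.Agent.H17.ZetaB

/-! Smooth sums of `Λ(n) - 1` in short multiplicative intervals by a contour shift. -/

set_option autoImplicit false

open Filter Topology Set

namespace Pool.Agent.H17.ZB

open LSeries MeasureTheory FourierTransform

/-- the Laplace transform of a Schwartz function -/
noncomputable def Ph (g : SchwartzMap ℝ ℂ) (z : ℂ) : ℂ := ∫ v : ℝ, g v * Complex.exp (z * v)

/-- support in `[-1,1]` -/
def Sup1 (g : SchwartzMap ℝ ℂ) : Prop := ∀ v : ℝ, 1 < |v| → g v = 0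

lemma Ph_integrand_le {g : SchwartzMap ℝ ℂ} (hg : Sup1 g) (z : ℂ) (v : ℝ) :
    ‖g v * Complex.exp (z * v)‖ ≤ ‖g v‖ * Real.exp |z.re| := by
  by_cases hv : 1 < |v|
  · rw [hg v hv]; simp
  · push Not at hv
    rw [norm_mul, Complex.norm_exp]
    gcongr
    have h1 : (z * v).re = z.re * v := by simp
    rw [h1]
    calc z.re * v ≤ |z.re * v| := le_abs_self _
      _ = |z.re| * |v| := abs_mul _ _
      _ ≤ |z.re| * 1 := by gcongr
      _ = |z.re| := mul_one _

lemma Ph_integrable {g : SchwartzMap ℝ ℂ} (hg : Sup1 g) (z : ℂ) :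
    Integrable (fun v : ℝ => g v * Complex.exp (z * v)) := by
  apply Integrable.mono' (g := fun v => ‖g v‖ * Real.exp |z.re|) (g.integrable.norm.mul_const _)
  · apply Continuous.aestronglyMeasurable
    have := g.continuous
    fun_prop
  · filter_upwards with v
    exact Ph_integrand_le hg z v

lemma Ph_norm_le {g : SchwartzMap ℝ ℂ} (hg : Sup1 g) (z : ℂ) :
    ‖Ph g z‖ ≤ Real.exp |z.re| * ∫ v, ‖g v‖ := by
  unfold Ph
  calc ‖∫ v : ℝ, g v * Complex.exp (z * v)‖ ≤ ∫ v, ‖g v‖ * Real.exp |z.re| := by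
        apply norm_integral_le_of_norm_le (g.integrable.norm.mul_const _)
        filter_upwards with v
        exact Ph_integrand_le hg z v
    _ = _ := by rw [integral_mul_const]; ring

lemma Ph_differentiable {g : SchwartzMap ℝ ℂ} (hg : Sup1 g) : Differentiable ℂ (Ph g) := by
  intro z0
  have h := hasDerivAt_integral_of_dominated_loc_of_deriv_le (μ := volume) (𝕜 := ℂ)
    (F := fun (z : ℂ) (v : ℝ) => g v * Complex.exp (z * v))
    (F' := fun (z : ℂ) (v : ℝ) => g v * (Complex.exp (z * v) * v))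
    (x₀ := z0) (s := Metric.ball z0 1) (bound := fun v => ‖g v‖ * Real.exp (‖z0‖ + 1))
    (Metric.ball_mem_nhds z0 one_pos) ?_ (Ph_integrable hg z0) ?_ ?_ (g.integrable.norm.mul_const _) ?_
  · exact h.2.differentiableAt
  · filter_upwards with z
    exact (Ph_integrable hg z).aestronglyMeasurable
  · apply Continuous.aestronglyMeasurable
    have := g.continuous
    fun_prop
  · filter_upwards with v
    intro z hz
    rw [Metric.mem_ball, dist_eq_norm] at hz
    by_cases hv : 1 < |v|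
    · rw [hg v hv]; simp
    · push Not at hv
      have h1 := Ph_integrand_le hg z v
      have h2 : |z.re| ≤ ‖z0‖ + 1 := by
        have h3 := Complex.abs_re_le_norm z
        have h4 : ‖z‖ ≤ ‖z0‖ + ‖z - z0‖ := by
          have := norm_add_le z0 (z - z0)
          simpa using this
        linarith
      have e : g v * (Complex.exp (z * v) * v) = g v * Complex.exp (z * v) * v := by ring
      rw [e, norm_mul, Complex.norm_real, Real.norm_eq_abs]
      calc ‖g v * Complex.exp (z * v)‖ * |v| ≤ (‖g v‖ * Real.exp |z.re|) * 1 := by gcongr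
        _ ≤ ‖g v‖ * Real.exp (‖z0‖ + 1) := by
          rw [mul_one]
          gcongr
  · filter_upwards with v
    intro z _
    have h1 : HasDerivAt (fun z : ℂ => z * v) v z := by
      simpa using (hasDerivAt_id' z).mul_const (v : ℂ)
    exact (h1.cexp).const_mul (g v)

lemma Sup1_deriv {g : SchwartzMap ℝ ℂ} (hg : Sup1 g) : Sup1 (SchwartzMap.derivCLM ℂ ℂ g) := by
  intro v hv
  rw [SchwartzMap.derivCLM_apply]
  have h1 : (g : ℝ → ℂ) =ᶠ[𝓝 v] fun _ => 0 := by
    have hopen : IsOpen {w : ℝ | 1 < |w|} := isOpen_lt continuous_const continuous_abs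
    filter_upwards [hopen.mem_nhds hv] with w hw
    exact hg w hw
  rw [h1.deriv_eq, deriv_const]

lemma Ph_parts {g : SchwartzMap ℝ ℂ} (hg : Sup1 g) (z : ℂ) :
    z * Ph g z = - Ph (SchwartzMap.derivCLM ℂ ℂ g) z := by
  have hg' := Sup1_deriv hg
  have h1 : ∫ v : ℝ, (SchwartzMap.derivCLM ℂ ℂ g v * Complex.exp (z * v) + g v * (Complex.exp (z * v) * z)) = 0 := by
    apply integral_eq_zero_of_hasDerivAt_of_integrable (f := fun v : ℝ => g v * Complex.exp (z * v))
    · intro v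
      have h2 : HasDerivAt g (deriv g v) v := (g.differentiable v).hasDerivAt
      have h3 : HasDerivAt (fun v : ℝ => z * (v : ℂ)) z v := by
        have := (Complex.ofRealCLM.hasDerivAt (x := v)).const_mul z
        simpa using this
      have h4 := h2.mul h3.cexp
      rw [SchwartzMap.derivCLM_apply]
      exact h4
    · apply (Ph_integrable hg' z).add
      have := (Ph_integrable hg z).mul_const z
      refine this.congr ?_
      filter_upwards with v
      ring
    · exact Ph_integrable hg z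
  rw [integral_add (Ph_integrable hg' z) (by
    have := (Ph_integrable hg z).mul_const z
    refine this.congr ?_
    filter_upwards with v
    ring)] at h1
  have h2 : ∫ v : ℝ, g v * (Complex.exp (z * v) * z) = Ph g z * z := by
    unfold Ph
    rw [← integral_mul_const]
    congr 1
    ext v
    ring
  rw [h2] at h1
  unfold Ph at h1 ⊢
  linear_combination h1

lemma Ph_parts_iter (k : ℕ) {g : SchwartzMap ℝ ℂ} (hg : Sup1 g) (z : ℂ) :
    ‖z‖ ^ k * ‖Ph g z‖ = ‖Ph ((SchwartzMap.derivCLM ℂ ℂ)^[k] g) z‖ := by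
  induction k generalizing g with
  | zero => simp
  | succ k ih =>
    rw [Function.iterate_succ_apply, ← ih (Sup1_deriv hg)]
    have h1 := congrArg norm (Ph_parts hg z)
    rw [norm_mul, norm_neg] at h1
    rw [← h1]
    ring

lemma Sup1_iter (k : ℕ) {g : SchwartzMap ℝ ℂ} (hg : Sup1 g) : Sup1 ((SchwartzMap.derivCLM ℂ ℂ)^[k] g) := by
  induction k generalizing g with
  | zero => exact hg
  | succ k ih =>
    rw [Function.iterate_succ_apply]
    exact ih (Sup1_deriv hg)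

/-- size and decay of the Laplace transform -/
lemma Ph_bounds {g : SchwartzMap ℝ ℂ} (hg : Sup1 g) : ∃ A : ℝ, 1 ≤ A ∧ ∀ z : ℂ, |z.re| ≤ 1 →
    ‖Ph g z‖ ≤ A ∧ ‖z‖ ^ 8 * ‖Ph g z‖ ≤ A := by
  set A1 := Real.exp 1 * ∫ v, ‖g v‖ with hA1
  set A2 := Real.exp 1 * ∫ v, ‖(SchwartzMap.derivCLM ℂ ℂ)^[8] g v‖ with hA2
  refine ⟨max 1 (max A1 A2), le_max_left _ _, fun z hz => ⟨?_, ?_⟩⟩
  · refine (Ph_norm_le hg z).trans (le_trans ?_ ((le_max_left A1 A2).trans (le_max_right _ _)))
    have : 0 ≤ ∫ v, ‖g v‖ := integral_nonneg (fun _ => norm_nonneg _)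
    rw [hA1]
    gcongr
  · rw [Ph_parts_iter 8 hg z]
    refine (Ph_norm_le (Sup1_iter 8 hg) z).trans (le_trans ?_ ((le_max_right A1 A2).trans (le_max_right _ _)))
    have : 0 ≤ ∫ v, ‖(SchwartzMap.derivCLM ℂ ℂ)^[8] g v‖ := integral_nonneg (fun _ => norm_nonneg _)
    rw [hA2]
    gcongr

lemma fourier_eq_Ph (g : SchwartzMap ℝ ℂ) (ξ : ℝ) : (𝓕 g) ξ = Ph g (((-(2 * Real.pi) * ξ : ℝ) : ℂ) * Complex.I) := by
  rw [SchwartzMap.fourier_coe, Real.fourier_real_eq]
  unfold Ph
  congr 1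
  ext v
  rw [Circle.smul_def, Real.fourierChar_apply, smul_eq_mul, mul_comm]
  congr 2
  push_cast
  ring

lemma Ph_I_integrable (g : SchwartzMap ℝ ℂ) : Integrable (fun y : ℝ => Ph g ((y : ℂ) * Complex.I)) := by
  have h1 : Integrable (fun ξ : ℝ => (𝓕 g) ξ) := (𝓕 g).integrable
  have hne : -(2 * Real.pi) ≠ 0 := by
    have := Real.pi_pos
    intro h
    linarith
  have h2 : Integrable (fun ξ : ℝ => (fun y : ℝ => Ph g ((y : ℂ) * Complex.I)) (-(2 * Real.pi) * ξ)) := by
    refine h1.congr ?_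
    filter_upwards with ξ
    exact fourier_eq_Ph g ξ
  exact (integrable_comp_mul_left_iff (fun y : ℝ => Ph g ((y : ℂ) * Complex.I)) hne).mp h2

/-- Fourier inversion in Laplace form -/
lemma inversion (g : SchwartzMap ℝ ℂ) (v : ℝ) :
    ∫ y : ℝ, Ph g ((y : ℂ) * Complex.I) * Complex.exp (-((y * v : ℝ) : ℂ) * Complex.I) = 2 * Real.pi * g v := by
  have h2 := Continuous.fourierInv_fourier_eq (f := g) g.continuous g.integrable
    (by rw [← SchwartzMap.fourier_coe]; exact (𝓕 g).integrable)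
  have h3 := congrFun h2 v
  rw [Real.fourierInv_eq'] at h3
  have hpi := Real.pi_pos
  have h4 := MeasureTheory.Measure.integral_comp_mul_left
    (fun y : ℝ => Ph g ((y : ℂ) * Complex.I) * Complex.exp (-((y * v : ℝ) : ℂ) * Complex.I)) (-(2 * Real.pi))
  have h5 : ∫ ξ : ℝ, (fun y : ℝ => Ph g ((y : ℂ) * Complex.I) * Complex.exp (-((y * v : ℝ) : ℂ) * Complex.I)) (-(2 * Real.pi) * ξ) = g v := by
    rw [← h3]
    congr 1
    ext ξ
    rw [smul_eq_mul, ← SchwartzMap.fourier_coe, fourier_eq_Ph, mul_comm]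
    simp
    ring_nf
  rw [h5] at h4
  rw [h4]
  have h6 : |(-(2 * Real.pi))⁻¹| = (2 * Real.pi)⁻¹ := by
    rw [inv_neg, abs_neg, abs_of_pos (by positivity)]
  rw [h6, Complex.real_smul]
  generalize (∫ y : ℝ, Ph g ((y : ℂ) * Complex.I) * Complex.exp (-((y * v : ℝ) : ℂ) * Complex.I)) = J
  push_cast
  have : (Real.pi : ℂ) ≠ 0 := by exact_mod_cast hpi.ne'
  field_simp

/-- the scaled transform -/
noncomputable def Pd (g : SchwartzMap ℝ ℂ) (δ : ℝ) (w : ℂ) : ℂ := δ * Ph g (δ * w)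

lemma inversion_scaled (g : SchwartzMap ℝ ℂ) {δ : ℝ} (hδ : 0 < δ) (v : ℝ) :
    ∫ y : ℝ, Pd g δ ((y : ℂ) * Complex.I) * Complex.exp (-((y * v : ℝ) : ℂ) * Complex.I) = 2 * Real.pi * g (v / δ) := by
  rw [← inversion g (v / δ)]
  have h4 := MeasureTheory.Measure.integral_comp_mul_left
    (fun y : ℝ => Ph g ((y : ℂ) * Complex.I) * Complex.exp (-((y * (v / δ) : ℝ) : ℂ) * Complex.I)) δ
  have hδC : (δ : ℂ) ≠ 0 := by exact_mod_cast hδ.ne'
  have h5 : ∫ y : ℝ, Pd g δ ((y : ℂ) * Complex.I) * Complex.exp (-((y * v : ℝ) : ℂ) * Complex.I)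
      = δ * ∫ y : ℝ, (fun y : ℝ => Ph g ((y : ℂ) * Complex.I) * Complex.exp (-((y * (v / δ) : ℝ) : ℂ) * Complex.I)) (δ * y) := by
    rw [← integral_const_mul]
    congr 1
    ext y
    unfold Pd
    have e1 : (δ : ℂ) * ((y : ℂ) * Complex.I) = ((δ * y : ℝ) : ℂ) * Complex.I := by push_cast; ring
    have e2 : δ * y * (v / δ) = y * v := by field_simp
    rw [e1]
    show _ = δ * (Ph g (((δ * y : ℝ) : ℂ) * Complex.I) * Complex.exp (-((δ * y * (v / δ) : ℝ) : ℂ) * Complex.I))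
    rw [e2]
    ring
  rw [h5, h4, abs_of_pos (by positivity), Complex.real_smul]
  generalize (∫ y : ℝ, Ph g ((y : ℂ) * Complex.I) * Complex.exp (-((y * (v / δ) : ℝ) : ℂ) * Complex.I)) = J
  push_cast
  field_simp

lemma Pd_I_integrable (g : SchwartzMap ℝ ℂ) {δ : ℝ} (hδ : 0 < δ) :
    Integrable (fun y : ℝ => Pd g δ ((y : ℂ) * Complex.I)) := by
  have h1 := (Ph_I_integrable g).comp_mul_left' hδ.ne'
  refine (h1.const_mul (δ : ℂ)).congr ?_
  filter_upwards with y
  unfold Pd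
  have e1 : (δ : ℂ) * ((y : ℂ) * Complex.I) = ((δ * y : ℝ) : ℂ) * Complex.I := by push_cast; ring
  rw [e1]

lemma Pd_differentiable {g : SchwartzMap ℝ ℂ} (hg : Sup1 g) (δ : ℝ) : Differentiable ℂ (Pd g δ) := by
  unfold Pd
  apply Differentiable.const_mul
  exact (Ph_differentiable hg).comp (differentiable_id.const_mul _)

lemma Pd_bounds {g : SchwartzMap ℝ ℂ} {A : ℝ} (hA : ∀ z : ℂ, |z.re| ≤ 1 → ‖Ph g z‖ ≤ A ∧ ‖z‖ ^ 8 * ‖Ph g z‖ ≤ A)
    {δ : ℝ} (hδ : 0 < δ) (hδ1 : δ ≤ 1) {w : ℂ} (hw : |w.re| ≤ 1) :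
    ‖Pd g δ w‖ ≤ A * δ ∧ ‖w‖ ^ 8 * ‖Pd g δ w‖ ≤ A * (δ ^ 7)⁻¹ := by
  have h1 : |((δ : ℂ) * w).re| ≤ 1 := by
    have : ((δ : ℂ) * w).re = δ * w.re := by simp
    rw [this, abs_mul, abs_of_pos hδ]
    exact mul_le_one₀ hδ1 (abs_nonneg w.re) hw
  obtain ⟨a1, a2⟩ := hA _ h1
  unfold Pd
  have hn : ‖(δ : ℂ)‖ = δ := by rw [Complex.norm_real, Real.norm_of_nonneg hδ.le]
  constructor
  · rw [norm_mul, hn]
    calc δ * ‖Ph g (δ * w)‖ ≤ δ * A := by gcongr
      _ = A * δ := mul_comm _ _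
  · rw [norm_mul, hn]
    rw [norm_mul, hn] at a2
    calc ‖w‖ ^ 8 * (δ * ‖Ph g (δ * w)‖) = ((δ * ‖w‖) ^ 8 * ‖Ph g (δ * w)‖) * (δ ^ 7)⁻¹ := by
          field_simp
      _ ≤ A * (δ ^ 7)⁻¹ := by gcongr

/-- `Λ(n) - 1` -/
noncomputable def aa (n : ℕ) : ℂ := ((ArithmeticFunction.vonMangoldt n - 1 : ℝ) : ℂ)

lemma aa_eq : aa = (fun n => ((ArithmeticFunction.vonMangoldt n : ℝ) : ℂ)) - (1 : ℕ → ℂ) := by
  funext n
  unfold aa
  simp

lemma aa_summable {s : ℂ} (hs : 1 < s.re) : LSeriesSummable aa s := by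
  rw [aa_eq]
  exact (ArithmeticFunction.LSeriesSummable_vonMangoldt hs).sub (LSeriesSummable_one_iff.mpr hs)

lemma K_eq_aa {s : ℂ} (hs : 1 < s.re) : K s = LSeries aa s := by
  rw [K_eq_right hs, aa_eq, LSeries_sub (ArithmeticFunction.LSeriesSummable_vonMangoldt hs) (LSeriesSummable_one_iff.mpr hs)]

lemma term_shift (x y : ℝ) (n : ℕ) :
    term aa (1 + x + y * Complex.I) n = term aa (1 + x) n * Complex.exp (-((y * Real.log n : ℝ) : ℂ) * Complex.I) := by
  rcases Nat.eq_zero_or_pos n with rfl | hn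
  · simp
  have hn0 : (n : ℂ) ≠ 0 := by exact_mod_cast (by omega : n ≠ 0)
  rw [term_of_ne_zero (by omega), term_of_ne_zero (by omega)]
  rw [Complex.cpow_add _ _ hn0, div_mul_eq_div_div, div_eq_mul_inv _ ((n : ℂ) ^ ((y : ℂ) * Complex.I)),
    ← Complex.cpow_neg]
  congr 1
  rw [Complex.cpow_def_of_ne_zero hn0, ← Complex.natCast_log]
  congr 1
  push_cast
  ring

/-- the integrand -/
noncomputable def Fi (g : SchwartzMap ℝ ℂ) (δ u x : ℝ) (w : ℂ) : ℂ :=
  Pd g δ w * Complex.exp (u * w) * K (1 + x + w)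

lemma transform (g : SchwartzMap ℝ ℂ) {δ : ℝ} (hδ : 0 < δ) {x : ℝ} (hx : 0 < x) (u : ℝ) :
    2 * Real.pi * ∑' n : ℕ, term aa (1 + x) n * g ((Real.log n - u) / δ)
      = ∫ y : ℝ, Fi g δ u x ((y : ℂ) * Complex.I) := by
  have hs : 1 < (1 + (x : ℂ)).re := by simp; exact hx
  have hsum : Summable (fun n => ‖term aa (1 + x) n‖) := (aa_summable hs).norm
  have hP := Pd_I_integrable g hδ
  set G : ℕ → ℝ → ℂ := fun n y => (Pd g δ ((y : ℂ) * Complex.I) * Complex.exp (-((y * (Real.log n - u) : ℝ) : ℂ) * Complex.I)) * term aa (1 + x) n with hG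
  have hterm : ∀ n : ℕ, ∫ y : ℝ, G n y = 2 * Real.pi * (term aa (1 + x) n * g ((Real.log n - u) / δ)) := by
    intro n
    rw [hG]
    simp only
    rw [integral_mul_const, inversion_scaled g hδ]
    ring
  have hnorm : ∀ (n : ℕ) (y : ℝ), ‖G n y‖ = ‖Pd g δ ((y : ℂ) * Complex.I)‖ * ‖term aa (1 + x) n‖ := by
    intro n y
    rw [hG]
    simp only
    rw [norm_mul, norm_mul, ← Complex.ofReal_neg, Complex.norm_exp_ofReal_mul_I, mul_one]
  have hcont : Continuous (fun y : ℝ => ((y * 1 : ℝ) : ℂ)) := by fun_prop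
  have hF := hasSum_integral_of_summable_integral_norm (F := G) (μ := volume) ?_ ?_
  · have h5 := hF.tsum_eq
    simp_rw [hterm] at h5
    rw [tsum_mul_left] at h5
    rw [h5]
    congr 1
    ext y
    have hspt : 1 < (1 + (x : ℂ) + y * Complex.I).re := by simp; exact hx
    unfold Fi
    rw [K_eq_aa hspt]
    unfold LSeries
    rw [← tsum_mul_left]
    congr 1
    ext n
    rw [hG]
    simp only
    rw [term_shift]
    have e2 : Complex.exp (-((y * (Real.log n - u) : ℝ) : ℂ) * Complex.I)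
        = Complex.exp (u * ((y : ℂ) * Complex.I)) * Complex.exp (-((y * Real.log n : ℝ) : ℂ) * Complex.I) := by
      rw [← Complex.exp_add]
      congr 1
      push_cast
      ring
    rw [e2]
    ring
  · intro n
    have h1 : Integrable (fun y : ℝ => ‖Pd g δ ((y : ℂ) * Complex.I)‖ * ‖term aa (1 + x) n‖) := hP.norm.mul_const _
    refine h1.mono' ?_ ?_
    · rw [hG]
      simp only
      apply AEStronglyMeasurable.mul_const
      apply AEStronglyMeasurable.mul hP.aestronglyMeasurable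
      apply Continuous.aestronglyMeasurable
      fun_prop
    · filter_upwards with y
      rw [hnorm]
  · simp_rw [hnorm]
    simp_rw [integral_mul_const]
    exact hsum.mul_left _

lemma LL_mono {t u : ℝ} (h : |t| ≤ |u|) : LL t ≤ LL u := by
  unfold LL
  apply Real.log_le_log (by positivity)
  linarith

/-- the contour shift -/
theorem contour_bound {g : SchwartzMap ℝ ℂ} (hg : Sup1 g) : ∃ κ C : ℝ, 0 < κ ∧ 0 < C ∧
    ∀ x : ℝ, 0 < x → x ≤ 1 / 2 → ∀ δ : ℝ, 0 < δ → δ ≤ 1 → ∀ u : ℝ, 0 ≤ u → ∀ T : ℝ, 3 ≤ T →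
    ‖∑' n : ℕ, term aa (1 + x) n * g ((Real.log n - u) / δ)‖
      ≤ C * (δ * Real.exp (-(κ * u / LL T ^ 9)) * T ^ 3 + (δ ^ 7)⁻¹ * (T ^ 4)⁻¹) := by
  obtain ⟨A, hA1, hA⟩ := Ph_bounds hg
  obtain ⟨κ, C, hκ, hκ8, hC, hK⟩ := K_region
  refine ⟨κ, 40 * A * C, hκ, by positivity, ?_⟩
  intro x hx hx1 δ hδ hδ1 u hu T hT
  have hA0 : 0 < A := by linarith
  have hT0 : 0 < T := by linarith
  have hLT := LL_ge_one T
  have hLT0 := LL_pos T
  set c0 : ℝ := κ / LL T ^ 9 with hc0
  have hc0pos : 0 < c0 := by positivity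
  have hc0le : c0 ≤ 1 / 8 := by
    rw [hc0, div_le_iff₀ (by positivity)]
    have : 1 ≤ LL T ^ 9 := one_le_pow₀ hLT
    linarith
  -- bounds for the integrand
  have hKb : ∀ w : ℂ, -(κ / LL w.im ^ 9) ≤ w.re → w.re ≤ 0 →
      DifferentiableAt ℂ K (1 + x + w) ∧ ‖K (1 + x + w)‖ ≤ C * (|w.im| + 3) ^ 2 := by
    intro w h1 h2
    have him : (1 + (x : ℂ) + w).im = w.im := by simp
    have hre : (1 + (x : ℂ) + w).re = 1 + x + w.re := by simp
    have := hK (1 + x + w) (by rw [him, hre]; linarith) (by rw [hre]; linarith)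
    rw [him] at this
    exact this
  have hFdiff : ∀ w : ℂ, -(κ / LL w.im ^ 9) ≤ w.re → w.re ≤ 0 → DifferentiableAt ℂ (Fi g δ u x) w := by
    intro w h1 h2
    unfold Fi
    have a1 : DifferentiableAt ℂ (fun w : ℂ => K (1 + x + w)) w := by
      have a2 : DifferentiableAt ℂ (fun w : ℂ => 1 + (x : ℂ) + w) w := by fun_prop
      exact (hKb w h1 h2).1.comp w a2
    have a3 : DifferentiableAt ℂ (fun w : ℂ => Complex.exp (u * w)) w := by fun_prop
    exact ((Pd_differentiable hg δ w).mul a3).mul a1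
  -- rectangle
  set f : ℂ → ℂ := Fi g δ u x with hf
  have hrect := Complex.integral_boundary_rect_eq_zero_of_differentiableOn f
    (((-c0 : ℝ) : ℂ) + ((-T : ℝ) : ℂ) * Complex.I) (((0 : ℝ) : ℂ) + ((T : ℝ) : ℂ) * Complex.I) (by
      intro w hw
      rw [Complex.mem_reProdIm] at hw
      have r1 : (((-c0 : ℝ) : ℂ) + ((-T : ℝ) : ℂ) * Complex.I).re = -c0 := by simp
      have r2 : (((0 : ℝ) : ℂ) + ((T : ℝ) : ℂ) * Complex.I).re = 0 := by simp
      have r3 : (((-c0 : ℝ) : ℂ) + ((-T : ℝ) : ℂ) * Complex.I).im = -T := by simp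
      have r4 : (((0 : ℝ) : ℂ) + ((T : ℝ) : ℂ) * Complex.I).im = T := by simp
      rw [r1, r2, r3, r4, uIcc_of_le (by linarith), uIcc_of_le (by linarith)] at hw
      obtain ⟨⟨h1, h2⟩, h3, h4⟩ := hw
      apply DifferentiableAt.differentiableWithinAt
      apply hFdiff w _ h2
      have h5 : LL w.im ≤ LL T := by
        apply LL_mono
        rw [abs_of_pos hT0]
        exact abs_le.mpr ⟨h3, h4⟩
      have h6 : c0 ≤ κ / LL w.im ^ 9 := by
        rw [hc0]
        have := LL_pos w.im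
        gcongr
      linarith)
  have r1 : (((-c0 : ℝ) : ℂ) + ((-T : ℝ) : ℂ) * Complex.I).re = -c0 := by simp
  have r2 : (((0 : ℝ) : ℂ) + ((T : ℝ) : ℂ) * Complex.I).re = 0 := by simp
  have r3 : (((-c0 : ℝ) : ℂ) + ((-T : ℝ) : ℂ) * Complex.I).im = -T := by simp
  have r4 : (((0 : ℝ) : ℂ) + ((T : ℝ) : ℂ) * Complex.I).im = T := by simp
  rw [r1, r2, r3, r4] at hrect
  -- norm of exponentials
  have hexp : ∀ w : ℂ, w.re ≤ 0 → ‖Complex.exp (u * w)‖ ≤ 1 := by
    intro w hw
    rw [Complex.norm_exp]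
    have : ((u : ℂ) * w).re = u * w.re := by simp
    rw [this]
    apply Real.exp_le_one_iff.mpr
    exact mul_nonpos_of_nonneg_of_nonpos hu hw
  -- general large height bound
  have hhigh : ∀ w : ℂ, -(κ / LL w.im ^ 9) ≤ w.re → -1 ≤ w.re → w.re ≤ 0 → T ≤ |w.im| →
      ‖f w‖ ≤ 4 * A * C * (δ ^ 7)⁻¹ * (T ^ 4)⁻¹ * (w.im ^ 2)⁻¹ := by
    intro w h1 h1' h2 h3
    have b1 := (Pd_bounds hA hδ hδ1 (w := w) (abs_le.mpr ⟨by linarith, by linarith⟩)).2
    have b2 := (hKb w h1 h2).2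
    have b3 := hexp w h2
    have hY : 0 < |w.im| := by linarith
    have b4 : |w.im| ≤ ‖w‖ := Complex.abs_im_le_norm w
    have b5 : ‖Pd g δ w‖ ≤ A * (δ ^ 7)⁻¹ * (|w.im| ^ 8)⁻¹ := by
      rw [← div_eq_mul_inv, le_div_iff₀ (by positivity), mul_comm]
      refine le_trans ?_ b1
      gcongr
    have b6 : (|w.im| + 3) ^ 2 ≤ 4 * |w.im| ^ 2 :=
      (pow_le_pow_left₀ (by linarith) (by linarith : |w.im| + 3 ≤ 2 * |w.im|) 2).trans (le_of_eq (by ring))
    rw [hf]
    unfold Fi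
    rw [norm_mul, norm_mul]
    calc ‖Pd g δ w‖ * ‖Complex.exp (u * w)‖ * ‖K (1 + x + w)‖
        ≤ (A * (δ ^ 7)⁻¹ * (|w.im| ^ 8)⁻¹) * 1 * (C * (4 * |w.im| ^ 2)) := by
          gcongr
          exact b2.trans (by gcongr)
      _ = 4 * A * C * (δ ^ 7)⁻¹ * ((|w.im| ^ 4)⁻¹ * (|w.im| ^ 2)⁻¹) := by
          field_simp
      _ ≤ 4 * A * C * (δ ^ 7)⁻¹ * ((T ^ 4)⁻¹ * (|w.im| ^ 2)⁻¹) := by gcongr
      _ = _ := by rw [sq_abs]; ring
  -- the horizontal sides
  have hhor : ∀ Y : ℝ, |Y| = T → ‖∫ a : ℝ in (-c0)..0, f (a + Y * Complex.I)‖ ≤ 4 * A * C * (δ ^ 7)⁻¹ * (T ^ 4)⁻¹ := by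
    intro Y hY
    have h1 := intervalIntegral.norm_integral_le_of_norm_le_const (a := -c0) (b := 0)
      (f := fun a : ℝ => f (a + Y * Complex.I)) (C := 4 * A * C * (δ ^ 7)⁻¹ * (T ^ 4)⁻¹) (by
        intro a ha
        rw [uIoc_of_le (by linarith)] at ha
        have him : ((a : ℂ) + Y * Complex.I).im = Y := by simp
        have hre : ((a : ℂ) + Y * Complex.I).re = a := by simp
        have hLY : LL Y = LL T := by
          unfold LL
          rw [hY, abs_of_pos hT0]
        have h2 := hhigh ((a : ℂ) + Y * Complex.I) (by rw [him, hre, hLY]; linarith [ha.1]) (by rw [hre]; linarith [ha.1])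
          (by rw [hre]; exact ha.2) (by rw [him, hY])
        refine h2.trans ?_
        rw [him]
        have h3 : (Y ^ 2)⁻¹ ≤ 1 := by
          apply inv_le_one_of_one_le₀
          rw [← sq_abs, hY]
          exact one_le_pow₀ (by linarith)
        calc 4 * A * C * (δ ^ 7)⁻¹ * (T ^ 4)⁻¹ * (Y ^ 2)⁻¹ ≤ 4 * A * C * (δ ^ 7)⁻¹ * (T ^ 4)⁻¹ * 1 := by gcongr
          _ = _ := mul_one _)
    refine h1.trans ?_
    have h2 : |0 - -c0| ≤ 1 := by
      rw [zero_sub, neg_neg, abs_of_pos hc0pos]; linarith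
    calc _ ≤ 4 * A * C * (δ ^ 7)⁻¹ * (T ^ 4)⁻¹ * 1 := by gcongr
      _ = _ := mul_one _
  -- the left side
  have hleft : ‖∫ y : ℝ in (-T)..T, f (((-c0 : ℝ) : ℂ) + y * Complex.I)‖ ≤ 8 * A * C * (δ * Real.exp (-(κ * u / LL T ^ 9)) * T ^ 3) := by
    have h1 := intervalIntegral.norm_integral_le_of_norm_le_const (a := -T) (b := T)
      (f := fun y : ℝ => f (((-c0 : ℝ) : ℂ) + y * Complex.I)) (C := 4 * A * C * (δ * Real.exp (-(κ * u / LL T ^ 9)) * T ^ 2)) (by
        intro y hy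
        rw [uIoc_of_le (by linarith)] at hy
        have him : (((-c0 : ℝ) : ℂ) + y * Complex.I).im = y := by simp
        have hre : (((-c0 : ℝ) : ℂ) + y * Complex.I).re = -c0 := by simp
        have hy1 : |y| ≤ T := abs_le.mpr ⟨hy.1.le, hy.2⟩
        have hLY : LL y ≤ LL T := by
          apply LL_mono
          rw [abs_of_pos hT0]
          exact hy1
        have h6 : c0 ≤ κ / LL y ^ 9 := by
          rw [hc0]
          have := LL_pos y
          gcongr
        have b1 := (Pd_bounds hA hδ hδ1 (w := ((-c0 : ℝ) : ℂ) + y * Complex.I) (by rw [hre, abs_neg, abs_of_pos hc0pos]; linarith)).1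
        have b2 := (hKb (((-c0 : ℝ) : ℂ) + y * Complex.I) (by rw [him, hre]; linarith) (by rw [hre]; linarith)).2
        rw [him] at b2
        have b3 : ‖Complex.exp (u * (((-c0 : ℝ) : ℂ) + y * Complex.I))‖ = Real.exp (-(κ * u / LL T ^ 9)) := by
          rw [Complex.norm_exp]
          congr 1
          have : ((u : ℂ) * (((-c0 : ℝ) : ℂ) + y * Complex.I)).re = u * (-c0) := by simp
          rw [this, hc0]
          ring
        have hY0 := abs_nonneg y
        have b6 : (|y| + 3) ^ 2 ≤ 4 * T ^ 2 :=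
          (pow_le_pow_left₀ (by linarith) (by linarith : |y| + 3 ≤ 2 * T) 2).trans (le_of_eq (by ring))
        rw [hf]
        unfold Fi
        rw [norm_mul, norm_mul, b3]
        calc ‖Pd g δ (((-c0 : ℝ) : ℂ) + y * Complex.I)‖ * Real.exp (-(κ * u / LL T ^ 9)) * ‖K (1 + x + (((-c0 : ℝ) : ℂ) + y * Complex.I))‖
            ≤ (A * δ) * Real.exp (-(κ * u / LL T ^ 9)) * (C * (4 * T ^ 2)) := by
              gcongr
              exact b2.trans (by gcongr)
          _ = _ := by ring)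
    refine h1.trans (le_of_eq ?_)
    have h2 : |T - -T| = 2 * T := by
      rw [abs_of_pos (by linarith)]; ring
    rw [h2]
    ring
  -- the middle
  have hmid : ‖∫ y : ℝ in (-T)..T, f (y * Complex.I)‖ ≤ 8 * A * C * (δ * Real.exp (-(κ * u / LL T ^ 9)) * T ^ 3) + 8 * A * C * ((δ ^ 7)⁻¹ * (T ^ 4)⁻¹) := by
    have e1 : ∫ y : ℝ in (-T)..T, f (((0 : ℝ) : ℂ) + y * Complex.I) = ∫ y : ℝ in (-T)..T, f (y * Complex.I) := by
      congr 1
      ext y
      simp
    rw [e1] at hrect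
    have h1 := hhor (-T) (by rw [abs_neg, abs_of_pos hT0])
    have h2 := hhor T (abs_of_pos hT0)
    set I1 := ∫ a : ℝ in (-c0)..0, f (a + ((-T : ℝ) : ℂ) * Complex.I)
    set I2 := ∫ a : ℝ in (-c0)..0, f (a + ((T : ℝ) : ℂ) * Complex.I)
    set I3 := ∫ y : ℝ in (-T)..T, f (y * Complex.I)
    set I4 := ∫ y : ℝ in (-T)..T, f (((-c0 : ℝ) : ℂ) + y * Complex.I)
    have e2 : I3 = I4 + Complex.I * (I1 - I2) := by
      simp only [smul_eq_mul] at hrect
      have hI : Complex.I * Complex.I = -1 := Complex.I_mul_I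
      linear_combination (-Complex.I) * hrect + (I3 - I4) * hI
    rw [e2]
    calc ‖I4 + Complex.I * (I1 - I2)‖ ≤ ‖I4‖ + ‖I1 - I2‖ := by
          refine (norm_add_le _ _).trans ?_
          rw [norm_mul, Complex.norm_I, one_mul]
      _ ≤ ‖I4‖ + (‖I1‖ + ‖I2‖) := by
          gcongr
          exact norm_sub_le _ _
      _ ≤ 8 * A * C * (δ * Real.exp (-(κ * u / LL T ^ 9)) * T ^ 3) + (4 * A * C * (δ ^ 7)⁻¹ * (T ^ 4)⁻¹ + 4 * A * C * (δ ^ 7)⁻¹ * (T ^ 4)⁻¹) := by
          gcongr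
      _ = _ := by ring
  -- the tails
  have htail : ‖∫ y in (Ioc (-T) T)ᶜ, f (y * Complex.I)‖ ≤ 8 * A * C * ((δ ^ 7)⁻¹ * (T ^ 4)⁻¹) * Real.pi := by
    have hint : Integrable (fun y : ℝ => 8 * A * C * ((δ ^ 7)⁻¹ * (T ^ 4)⁻¹) * (1 + y ^ 2)⁻¹) :=
      integrable_inv_one_add_sq.const_mul _
    calc ‖∫ y in (Ioc (-T) T)ᶜ, f (y * Complex.I)‖
        ≤ ∫ y in (Ioc (-T) T)ᶜ, 8 * A * C * ((δ ^ 7)⁻¹ * (T ^ 4)⁻¹) * (1 + y ^ 2)⁻¹ := by
          apply norm_integral_le_of_norm_le hint.integrableOn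
          filter_upwards [ae_restrict_mem measurableSet_Ioc.compl] with y hy
          have hy1 : T ≤ |y| := by
            by_contra hcon
            push Not at hcon
            rw [abs_lt] at hcon
            exact hy ⟨hcon.1, hcon.2.le⟩
          have him : ((y : ℂ) * Complex.I).im = y := by simp
          have hre : ((y : ℂ) * Complex.I).re = 0 := by simp
          have h2 := hhigh ((y : ℂ) * Complex.I) (by rw [him, hre]; have := LL_pos y; have : 0 < κ / LL y ^ 9 := by positivity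
                                                     linarith) (by rw [hre]; norm_num)
            (by rw [hre]) (by rw [him]; exact hy1)
          refine h2.trans ?_
          rw [him]
          have hy2 : 9 ≤ y ^ 2 := by
            rw [← sq_abs]
            exact le_trans (by norm_num) (pow_le_pow_left₀ (by norm_num) (by linarith : (3 : ℝ) ≤ |y|) 2)
          have h3 : (y ^ 2)⁻¹ ≤ 2 * (1 + y ^ 2)⁻¹ := by
            rw [← div_eq_mul_inv, inv_eq_one_div, div_le_div_iff₀ (by positivity) (by positivity)]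
            linarith
          calc 4 * A * C * (δ ^ 7)⁻¹ * (T ^ 4)⁻¹ * (y ^ 2)⁻¹ ≤ 4 * A * C * (δ ^ 7)⁻¹ * (T ^ 4)⁻¹ * (2 * (1 + y ^ 2)⁻¹) := by gcongr
            _ = _ := by ring
      _ ≤ ∫ y : ℝ, 8 * A * C * ((δ ^ 7)⁻¹ * (T ^ 4)⁻¹) * (1 + y ^ 2)⁻¹ := by
          apply setIntegral_le_integral hint
          filter_upwards with y
          positivity
      _ = _ := by
          rw [integral_const_mul, integral_univ_inv_one_add_sq]
  -- integrability of f on the line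
  have hfint : Integrable (fun y : ℝ => f (y * Complex.I)) := by
    have hP := Pd_I_integrable g hδ
    -- bounded factor
    have hs : 1 < (1 + (x : ℂ)).re := by simp; exact hx
    have hsum : Summable (fun n => ‖term aa (1 + x) n‖) := (aa_summable hs).norm
    have hb : ∀ y : ℝ, ‖Complex.exp (u * ((y : ℂ) * Complex.I)) * K (1 + x + (y : ℂ) * Complex.I)‖ ≤ ∑' n, ‖term aa (1 + x) n‖ := by
      intro y
      rw [norm_mul]
      have e1 : ‖Complex.exp (u * ((y : ℂ) * Complex.I))‖ = 1 := by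
        have : (u : ℂ) * ((y : ℂ) * Complex.I) = ((u * y : ℝ) : ℂ) * Complex.I := by push_cast; ring
        rw [this, Complex.norm_exp_ofReal_mul_I]
      rw [e1, one_mul, K_eq_aa (by simp; exact hx)]
      unfold LSeries
      apply tsum_of_norm_bounded hsum.hasSum
      intro n
      rw [term_shift, norm_mul, ← Complex.ofReal_neg, Complex.norm_exp_ofReal_mul_I, mul_one]
    have h1 : Integrable (fun y : ℝ => (Complex.exp (u * ((y : ℂ) * Complex.I)) * K (1 + x + (y : ℂ) * Complex.I)) * Pd g δ ((y : ℂ) * Complex.I)) := by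
      apply hP.bdd_mul (c := ∑' n, ‖term aa (1 + x) n‖)
      · apply Continuous.aestronglyMeasurable
        apply Continuous.mul (by fun_prop)
        rw [continuous_iff_continuousAt]
        intro y
        have him : ((y : ℂ) * Complex.I).im = y := by simp
        have hre : ((y : ℂ) * Complex.I).re = 0 := by simp
        have h5 := (hKb ((y : ℂ) * Complex.I) (by
          rw [him, hre]
          have := LL_pos y
          have : 0 < κ / LL y ^ 9 := by positivity
          linarith) (by rw [hre])).1.continuousAt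
        have h6 : ContinuousAt (fun y : ℝ => 1 + (x : ℂ) + (y : ℂ) * Complex.I) y := by fun_prop
        exact ContinuousAt.comp (f := fun y : ℝ => 1 + (x : ℂ) + (y : ℂ) * Complex.I) h5 h6
      · filter_upwards with y
        exact hb y
    refine h1.congr ?_
    filter_upwards with y
    rw [hf]
    unfold Fi
    ring
  have htot : 2 * Real.pi * ∑' n : ℕ, term aa (1 + x) n * g ((Real.log n - u) / δ)
      = (∫ y : ℝ in (-T)..T, f (y * Complex.I)) + ∫ y in (Ioc (-T) T)ᶜ, f (y * Complex.I) := by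
    rw [transform g hδ hx u, intervalIntegral.integral_of_le (by linarith), integral_add_compl measurableSet_Ioc hfint]
  have hfin := congrArg norm htot
  rw [norm_mul] at hfin
  have hpi := Real.pi_gt_three
  have hpi2 := Real.pi_lt_d2
  have h2pi : ‖(2 * Real.pi : ℂ)‖ = 2 * Real.pi := by
    have : (2 * Real.pi : ℂ) = ((2 * Real.pi : ℝ) : ℂ) := by push_cast; ring
    rw [this, Complex.norm_real, Real.norm_of_nonneg (by positivity)]
  rw [h2pi] at hfin
  set S := ‖∑' n : ℕ, term aa (1 + x) n * g ((Real.log n - u) / δ)‖ with hS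
  have hS0 : 0 ≤ S := norm_nonneg _
  set E1 := δ * Real.exp (-(κ * u / LL T ^ 9)) * T ^ 3 with hE1
  set E2 := (δ ^ 7)⁻¹ * (T ^ 4)⁻¹ with hE2
  have hE10 : 0 ≤ E1 := by positivity
  have hE20 : 0 ≤ E2 := by positivity
  have h1 : 2 * Real.pi * S ≤ (8 * A * C * E1 + 8 * A * C * E2) + 8 * A * C * E2 * Real.pi := by
    rw [hfin]
    exact (norm_add_le _ _).trans (add_le_add hmid htail)
  have hAC : 0 < A * C := by positivity
  have h2 : 8 * A * C * E2 * Real.pi ≤ 8 * A * C * E2 * 4 := by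
    gcongr
    linarith
  have h3 : S ≤ 2 * Real.pi * S := le_mul_of_one_le_left hS0 (by linarith)
  linarith [mul_nonneg hAC.le hE10, mul_nonneg hAC.le hE20]

end Pool.Agent.H17.ZB
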