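import Mathlib
import Pool.Agent.H17.Contour

/-! The prime number theorem with the error term `O(x exp(-c (log x)^{1/10}))`. -/

set_option autoImplicit false

open Filter Topology Set

namespace Pool.Agent.H17.ZB

open LSeries MeasureTheory

/-- the bump function -/
noncomputable def bmp : ContDiffBump (0 : ℝ) where
  rIn := 1 / 2
  rOut := 1
  rIn_pos := by norm_num
  rIn_lt_rOut := by norm_num

/-- the bump as a Schwartz function -/
noncomputable def gS : SchwartzMap ℝ ℂ :=
  HasCompactSupport.toSchwartzMap (f := fun v : ℝ => ((bmp v : ℝ) : ℂ))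
    (by
      have h1 := bmp.hasCompactSupport
      apply h1.mono
      intro v hv
      rw [Function.mem_support] at hv ⊢
      intro h2
      apply hv
      simp [h2])
    (by
      have h1 : ContDiff ℝ ((⊤ : ℕ∞)) bmp := bmp.contDiff
      exact Complex.ofRealCLM.contDiff.comp h1)

lemma gS_apply (v : ℝ) : gS v = ((bmp v : ℝ) : ℂ) := rfl

lemma bmp_zero {v : ℝ} (hv : 1 ≤ |v|) : bmp v = 0 := by
  apply ContDiffBump.zero_of_le_dist
  rw [Real.dist_eq, sub_zero]
  exact hv

lemma bmp_nonneg (v : ℝ) : 0 ≤ bmp v := bmp.nonneg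

lemma bmp_cont : Continuous (bmp : ℝ → ℝ) := bmp.continuous

lemma gS_sup : Sup1 gS := by
  intro v hv
  rw [gS_apply, bmp_zero hv.le]
  simp

/-- the mass of the bump -/
noncomputable def I0 : ℝ := ∫ v, bmp v

lemma I0_pos : 0 < I0 := bmp.integral_pos

lemma bmp_integrable : Integrable (bmp : ℝ → ℝ) := bmp.integrable

/-- the smooth sum -/
noncomputable def S0 (N : ℕ) (δ u : ℝ) : ℝ :=
  ∑ n ∈ Finset.Icc 1 N, (ArithmeticFunction.vonMangoldt n - 1) / n * bmp ((Real.log n - u) / δ)

lemma S0_bound : ∃ κ C : ℝ, 0 < κ ∧ 0 < C ∧ ∀ δ : ℝ, 0 < δ → δ ≤ 1 → ∀ u : ℝ, 0 ≤ u → ∀ T : ℝ, 3 ≤ T →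
    ∀ N : ℕ, Real.exp (u + δ) ≤ N →
    |S0 N δ u| ≤ C * (δ * Real.exp (-(κ * u / LL T ^ 9)) * T ^ 3 + (δ ^ 7)⁻¹ * (T ^ 4)⁻¹) := by
  obtain ⟨κ, C, hκ, hC, h⟩ := contour_bound gS_sup
  refine ⟨κ, C, hκ, hC, ?_⟩
  intro δ hδ hδ1 u hu T hT N hN
  have hfin : ∀ x : ℝ, ∑' n : ℕ, term aa (1 + x) n * gS ((Real.log n - u) / δ)
      = ∑ n ∈ Finset.Icc 1 N, term aa (1 + x) n * gS ((Real.log n - u) / δ) := by
    intro x
    apply tsum_eq_sum
    intro n hn
    rw [Finset.mem_Icc, not_and_or, not_le, not_le] at hn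
    rcases hn with h | h
    · have : n = 0 := by omega
      rw [this, term_zero, zero_mul]
    · rw [gS_apply, bmp_zero]
      · simp
      have h1 : (N : ℝ) < n := by exact_mod_cast h
      have h2 : Real.exp (u + δ) < n := lt_of_le_of_lt hN h1
      have h3 : u + δ < Real.log n := by
        rw [Real.lt_log_iff_exp_lt (by linarith [Real.exp_pos (u + δ)])]
        exact h2
      rw [abs_of_pos (by apply div_pos _ hδ; linarith), le_div_iff₀ hδ]
      linarith
  have hlim : Tendsto (fun x : ℝ => ‖∑ n ∈ Finset.Icc 1 N, term aa (1 + x) n * gS ((Real.log n - u) / δ)‖)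
      (𝓝[>] 0) (𝓝 ‖((S0 N δ u : ℝ) : ℂ)‖) := by
    apply Tendsto.norm
    have e : ((S0 N δ u : ℝ) : ℂ) = ∑ n ∈ Finset.Icc 1 N, (((ArithmeticFunction.vonMangoldt n - 1) / n : ℝ) : ℂ) * gS ((Real.log n - u) / δ) := by
      unfold S0
      push_cast
      apply Finset.sum_congr rfl
      intro n _
      rw [gS_apply]
    rw [e]
    apply tendsto_finsetSum
    intro n hn
    rw [Finset.mem_Icc] at hn
    apply Tendsto.mul_const
    have hn0 : (n : ℂ) ≠ 0 := by exact_mod_cast (by omega : n ≠ 0)
    have h1 : ∀ x : ℝ, term aa (1 + x) n = ((ArithmeticFunction.vonMangoldt n - 1 : ℝ) : ℂ) / (n : ℂ) ^ (1 + (x : ℂ)) := by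
      intro x
      rw [term_of_ne_zero (by omega)]
      rfl
    simp_rw [h1]
    apply Tendsto.mono_left _ nhdsWithin_le_nhds
    have h2 : Continuous (fun x : ℝ => ((ArithmeticFunction.vonMangoldt n - 1 : ℝ) : ℂ) / (n : ℂ) ^ (1 + (x : ℂ))) := by
      apply Continuous.div continuous_const
      · apply Continuous.const_cpow (by fun_prop) (Or.inl hn0)
      · intro x
        rw [Complex.cpow_def_of_ne_zero hn0]
        exact Complex.exp_ne_zero _
    have := h2.tendsto 0
    simpa using this
  rw [Complex.norm_real, Real.norm_eq_abs] at hlim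
  apply le_of_tendsto hlim
  have h1 : ∀ᶠ x : ℝ in 𝓝[>] 0, x ≤ 1 / 2 := by
    have : ∀ᶠ y : ℝ in 𝓝 0, y < 1 / 2 := eventually_lt_nhds (by norm_num)
    exact (this.filter_mono nhdsWithin_le_nhds).mono (fun y hy => hy.le)
  filter_upwards [h1, self_mem_nhdsWithin] with x hx1 hx0
  rw [← hfin]
  exact h x hx0 hx1 δ hδ hδ1 u hu T hT

/-- the averaged weights -/
noncomputable def om (δ a b : ℝ) (n : ℕ) : ℝ :=
  (∫ u in a..b, Real.exp u * bmp ((Real.log n - u) / δ)) / n

lemma om_cont (δ : ℝ) (n : ℕ) : Continuous (fun u : ℝ => Real.exp u * bmp ((Real.log n - u) / δ)) := by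
  have := bmp_cont
  fun_prop

lemma mass_eq {δ : ℝ} (hδ : 0 < δ) (l : ℝ) : ∫ u : ℝ, bmp ((l - u) / δ) = δ * I0 := by
  have h1 := integral_sub_left_eq_self (fun w : ℝ => bmp (w / δ)) volume l
  rw [h1]
  have h2 := MeasureTheory.Measure.integral_comp_div (fun w : ℝ => bmp w) δ
  rw [h2, abs_of_pos hδ]
  rfl

lemma mass_integrable {δ : ℝ} (hδ : 0 < δ) (l : ℝ) : Integrable (fun u : ℝ => bmp ((l - u) / δ)) := by
  have h1 : Integrable (fun w : ℝ => bmp (w / δ)) := bmp_integrable.comp_div hδ.ne'
  exact h1.comp_sub_left l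

lemma om_nonneg {δ a b : ℝ} (hab : a ≤ b) (n : ℕ) : 0 ≤ om δ a b n := by
  unfold om
  apply div_nonneg _ (by positivity)
  apply intervalIntegral.integral_nonneg hab
  intro u _
  have := bmp_nonneg ((Real.log n - u) / δ)
  positivity

lemma om_le {δ a b : ℝ} (hδ : 0 < δ) (hab : a ≤ b) {n : ℕ} (hn : 1 ≤ n) : om δ a b n ≤ Real.exp δ * (δ * I0) := by
  have hn0 : (0 : ℝ) < n := by exact_mod_cast hn
  unfold om
  rw [div_le_iff₀ hn0]
  calc ∫ u in a..b, Real.exp u * bmp ((Real.log n - u) / δ)
      ≤ ∫ u in a..b, (n * Real.exp δ) * bmp ((Real.log n - u) / δ) := by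
        apply intervalIntegral.integral_mono_on hab ((om_cont δ n).intervalIntegrable _ _)
        · exact ((mass_integrable hδ _).const_mul _).intervalIntegrable
        · intro u _
          have h0 := bmp_nonneg ((Real.log n - u) / δ)
          by_cases h : 1 ≤ |(Real.log n - u) / δ|
          · rw [bmp_zero h]; simp
          · push Not at h
            rw [abs_div, abs_of_pos hδ, div_lt_one hδ, abs_lt] at h
            have : Real.exp u ≤ n * Real.exp δ := by
              calc Real.exp u ≤ Real.exp (Real.log n + δ) := Real.exp_le_exp.mpr (by linarith)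
                _ = n * Real.exp δ := by rw [Real.exp_add, Real.exp_log hn0]
            gcongr
    _ = (n * Real.exp δ) * ∫ u in a..b, bmp ((Real.log n - u) / δ) := by
        rw [intervalIntegral.integral_const_mul]
    _ ≤ (n * Real.exp δ) * (δ * I0) := by
        gcongr
        rw [← mass_eq hδ (Real.log n), intervalIntegral.integral_of_le hab]
        apply setIntegral_le_integral (mass_integrable hδ _)
        filter_upwards with u
        exact bmp_nonneg _
    _ = _ := by ring

lemma om_ge {δ a b : ℝ} (hδ : 0 < δ) (hab : a ≤ b) {n : ℕ} (hn : 1 ≤ n) (h1 : a + δ ≤ Real.log n)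
    (h2 : Real.log n ≤ b - δ) : Real.exp (-δ) * (δ * I0) ≤ om δ a b n := by
  have hn0 : (0 : ℝ) < n := by exact_mod_cast hn
  unfold om
  rw [le_div_iff₀ hn0]
  have h3 : ∫ u in a..b, bmp ((Real.log n - u) / δ) = δ * I0 := by
    rw [← mass_eq hδ (Real.log n)]
    apply intervalIntegral.integral_eq_integral_of_support_subset
    intro u hu
    rw [Function.mem_support] at hu
    by_contra hcon
    apply hu
    apply bmp_zero
    rw [abs_div, abs_of_pos hδ, le_div_iff₀ hδ, one_mul]
    rw [Set.mem_Ioc, not_and_or, not_lt, not_le] at hcon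
    rcases hcon with h | h
    · rw [abs_of_nonneg (by linarith)]; linarith
    · rw [abs_of_nonpos (by linarith)]; linarith
  calc Real.exp (-δ) * (δ * I0) * n = (n * Real.exp (-δ)) * ∫ u in a..b, bmp ((Real.log n - u) / δ) := by
        rw [h3]; ring
    _ = ∫ u in a..b, (n * Real.exp (-δ)) * bmp ((Real.log n - u) / δ) := by
        rw [intervalIntegral.integral_const_mul]
    _ ≤ ∫ u in a..b, Real.exp u * bmp ((Real.log n - u) / δ) := by
        apply intervalIntegral.integral_mono_on hab _ ((om_cont δ n).intervalIntegrable _ _)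
        · intro u _
          have h0 := bmp_nonneg ((Real.log n - u) / δ)
          by_cases h : 1 ≤ |(Real.log n - u) / δ|
          · rw [bmp_zero h]; simp
          · push Not at h
            rw [abs_div, abs_of_pos hδ, div_lt_one hδ, abs_lt] at h
            have : n * Real.exp (-δ) ≤ Real.exp u := by
              calc n * Real.exp (-δ) = Real.exp (Real.log n + -δ) := by rw [Real.exp_add, Real.exp_log hn0]
                _ ≤ Real.exp u := Real.exp_le_exp.mpr (by linarith)
            gcongr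
        · exact ((mass_integrable hδ _).const_mul _).intervalIntegrable

lemma om_zero {δ a b : ℝ} (hδ : 0 < δ) (hab : a ≤ b) {n : ℕ} (h : b + δ < Real.log n) : om δ a b n = 0 := by
  unfold om
  have h1 : ∫ u in a..b, Real.exp u * bmp ((Real.log n - u) / δ) = ∫ u in a..b, (0 : ℝ) := by
    apply intervalIntegral.integral_congr
    intro u hu
    rw [uIcc_of_le hab] at hu
    show Real.exp u * bmp ((Real.log n - u) / δ) = 0
    rw [bmp_zero, mul_zero]
    rw [abs_div, abs_of_pos hδ, le_div_iff₀ hδ, one_mul, abs_of_nonneg (by linarith [hu.2])]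
    linarith [hu.2]
  rw [h1]
  simp

lemma J_eq (N : ℕ) (δ a b : ℝ) : ∫ u in a..b, Real.exp u * S0 N δ u
    = ∑ n ∈ Finset.Icc 1 N, (ArithmeticFunction.vonMangoldt n - 1) * om δ a b n := by
  have h1 : ∀ u : ℝ, Real.exp u * S0 N δ u = ∑ n ∈ Finset.Icc 1 N, ((ArithmeticFunction.vonMangoldt n - 1) / n) * (Real.exp u * bmp ((Real.log n - u) / δ)) := by
    intro u
    unfold S0
    rw [Finset.mul_sum]
    apply Finset.sum_congr rfl
    intro n _
    ring
  simp_rw [h1]
  rw [intervalIntegral.integral_finsetSum]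
  · apply Finset.sum_congr rfl
    intro n _
    rw [intervalIntegral.integral_const_mul]
    unfold om
    ring
  · intro n _
    exact ((om_cont δ n).intervalIntegrable _ _).const_mul _

lemma S0_cont (N : ℕ) (δ : ℝ) : Continuous (fun u : ℝ => Real.exp u * S0 N δ u) := by
  unfold S0
  apply Continuous.mul Real.continuous_exp
  apply continuous_finsetSum
  intro n _
  have := bmp_cont
  fun_prop

lemma J_bound {N : ℕ} {δ a b E : ℝ} (hab : a ≤ b) (hE0 : 0 ≤ E) (hE : ∀ u ∈ Icc a b, |S0 N δ u| ≤ E) :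
    |∑ n ∈ Finset.Icc 1 N, (ArithmeticFunction.vonMangoldt n - 1) * om δ a b n| ≤ E * Real.exp b := by
  rw [← J_eq]
  calc |∫ u in a..b, Real.exp u * S0 N δ u| ≤ ∫ u in a..b, |Real.exp u * S0 N δ u| :=
        intervalIntegral.abs_integral_le_integral_abs hab
    _ ≤ ∫ u in a..b, Real.exp u * E := by
        apply intervalIntegral.integral_mono_on hab ((S0_cont N δ).abs.intervalIntegrable _ _)
        · apply Continuous.intervalIntegrable
          fun_prop
        · intro u hu
          rw [abs_mul, abs_of_pos (Real.exp_pos u)]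
          have := hE u hu
          gcongr
    _ = (Real.exp b - Real.exp a) * E := by
        rw [intervalIntegral.integral_mul_const, integral_exp]
    _ ≤ Real.exp b * E := by
        gcongr
        linarith [Real.exp_pos a]
    _ = _ := mul_comm _ _

open Chebyshev in
lemma psi_sub_eq {x y : ℝ} (hxy : ⌊x⌋₊ ≤ ⌊y⌋₊) :
    psi y - psi x = ∑ n ∈ Finset.Ioc ⌊x⌋₊ ⌊y⌋₊, ArithmeticFunction.vonMangoldt n := by
  have h1 : psi y = psi x + ∑ n ∈ Finset.Ioc ⌊x⌋₊ ⌊y⌋₊, ArithmeticFunction.vonMangoldt n := by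
    unfold psi
    rw [← Finset.Ioc_union_Ioc_eq_Ioc (Nat.zero_le _) hxy, Finset.sum_union]
    rw [Finset.disjoint_left]
    intro n hn hn2
    rw [Finset.mem_Ioc] at hn hn2
    omega
  rw [h1]; ring

lemma psi_upper {δ a b E : ℝ} (hδ : 0 < δ) (hab : a + δ ≤ b - δ) {N : ℕ}
    (hN : Real.exp (b + δ) ≤ N) (hE0 : 0 ≤ E) (hE : ∀ u ∈ Icc a b, |S0 N δ u| ≤ E) :
    Chebyshev.psi (Real.exp (b - δ)) ≤ Chebyshev.psi (Real.exp (a + δ)) + Real.exp (b + 3 * δ) +
      Real.exp δ * (E * Real.exp b) / (δ * I0) := by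
  have hI := I0_pos
  have hab' : a ≤ b := by linarith
  have hJ := J_bound hab' hE0 hE
  set J := ∑ n ∈ Finset.Icc 1 N, (ArithmeticFunction.vonMangoldt n - 1) * om δ a b n with hJdef
  have hfl : ⌊Real.exp (a + δ)⌋₊ ≤ ⌊Real.exp (b - δ)⌋₊ := by
    apply Nat.floor_le_floor
    exact Real.exp_le_exp.mpr hab
  have h1 : Real.exp (-δ) * (δ * I0) * (Chebyshev.psi (Real.exp (b - δ)) - Chebyshev.psi (Real.exp (a + δ)))
      ≤ ∑ n ∈ Finset.Icc 1 N, ArithmeticFunction.vonMangoldt n * om δ a b n := by
    rw [psi_sub_eq hfl, Finset.mul_sum]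
    calc ∑ n ∈ Finset.Ioc ⌊Real.exp (a + δ)⌋₊ ⌊Real.exp (b - δ)⌋₊, Real.exp (-δ) * (δ * I0) * ArithmeticFunction.vonMangoldt n
        ≤ ∑ n ∈ Finset.Ioc ⌊Real.exp (a + δ)⌋₊ ⌊Real.exp (b - δ)⌋₊, ArithmeticFunction.vonMangoldt n * om δ a b n := by
          apply Finset.sum_le_sum
          intro n hn
          rw [Finset.mem_Ioc] at hn
          have hn1 : 1 ≤ n := by omega
          have hn0 : (0 : ℝ) < n := by exact_mod_cast hn1
          have h2 : Real.exp (a + δ) < n := (Nat.floor_lt (Real.exp_pos _).le).mp hn.1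
          have h3 : (n : ℝ) ≤ Real.exp (b - δ) := (Nat.le_floor_iff (Real.exp_pos _).le).mp hn.2
          have h4 := om_ge hδ hab' hn1 ((Real.le_log_iff_exp_le hn0).mpr h2.le) ((Real.log_le_iff_le_exp hn0).mpr h3)
          have h5 : 0 ≤ ArithmeticFunction.vonMangoldt n := ArithmeticFunction.vonMangoldt_nonneg
          rw [mul_comm]
          gcongr
      _ ≤ _ := by
          apply Finset.sum_le_sum_of_subset_of_nonneg
          · intro n hn
            rw [Finset.mem_Ioc] at hn
            rw [Finset.mem_Icc]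
            have h3 : (n : ℝ) ≤ Real.exp (b - δ) := (Nat.le_floor_iff (Real.exp_pos _).le).mp hn.2
            have h4 : Real.exp (b - δ) ≤ Real.exp (b + δ) := Real.exp_le_exp.mpr (by linarith)
            exact ⟨by omega, by exact_mod_cast (h3.trans (h4.trans hN))⟩
          · intro n _ _
            exact mul_nonneg ArithmeticFunction.vonMangoldt_nonneg (om_nonneg hab' n)
  have h2 : ∑ n ∈ Finset.Icc 1 N, ArithmeticFunction.vonMangoldt n * om δ a b n = ∑ n ∈ Finset.Icc 1 N, om δ a b n + J := by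
    rw [hJdef, ← Finset.sum_add_distrib]
    apply Finset.sum_congr rfl
    intro n _
    ring
  have h3 : ∑ n ∈ Finset.Icc 1 N, om δ a b n ≤ Real.exp (b + δ) * (Real.exp δ * (δ * I0)) := by
    calc ∑ n ∈ Finset.Icc 1 N, om δ a b n = ∑ n ∈ Finset.Icc 1 ⌊Real.exp (b + δ)⌋₊, om δ a b n := by
          symm
          apply Finset.sum_subset
          · intro n hn
            rw [Finset.mem_Icc] at hn ⊢
            have h4 : (n : ℝ) ≤ Real.exp (b + δ) := (Nat.le_floor_iff (Real.exp_pos _).le).mp hn.2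
            exact ⟨hn.1, by exact_mod_cast h4.trans hN⟩
          · intro n hn hn2
            rw [Finset.mem_Icc] at hn hn2
            apply om_zero hδ hab'
            have hn0 : (0 : ℝ) < n := by exact_mod_cast hn.1
            rw [Real.lt_log_iff_exp_lt hn0]
            apply (Nat.floor_lt (Real.exp_pos _).le).mp
            by_contra hcon
            exact hn2 ⟨hn.1, by omega⟩
      _ ≤ ∑ n ∈ Finset.Icc 1 ⌊Real.exp (b + δ)⌋₊, Real.exp δ * (δ * I0) := by
          apply Finset.sum_le_sum
          intro n hn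
          rw [Finset.mem_Icc] at hn
          exact om_le hδ hab' hn.1
      _ = ⌊Real.exp (b + δ)⌋₊ * (Real.exp δ * (δ * I0)) := by
          rw [Finset.sum_const, Nat.card_Icc, Nat.add_sub_cancel, nsmul_eq_mul]
      _ ≤ _ := by
          gcongr
          exact Nat.floor_le (Real.exp_pos _).le
  have hJ2 := (abs_le.mp hJ).2
  have h4 : Real.exp (-δ) * (δ * I0) * (Chebyshev.psi (Real.exp (b - δ)) - Chebyshev.psi (Real.exp (a + δ)))
      ≤ Real.exp (b + δ) * (Real.exp δ * (δ * I0)) + E * Real.exp b := by linarith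
  have hDI : 0 < δ * I0 := by positivity
  have h5 : Chebyshev.psi (Real.exp (b - δ)) - Chebyshev.psi (Real.exp (a + δ))
      ≤ (Real.exp (b + δ) * (Real.exp δ * (δ * I0)) + E * Real.exp b) / (Real.exp (-δ) * (δ * I0)) := by
    rw [le_div_iff₀ (by positivity)]
    linarith
  have h6 : (Real.exp (b + δ) * (Real.exp δ * (δ * I0)) + E * Real.exp b) / (Real.exp (-δ) * (δ * I0))
      = Real.exp (b + 3 * δ) + Real.exp δ * (E * Real.exp b) / (δ * I0) := by
    have e1 : Real.exp (b + 3 * δ) = Real.exp (b + δ) * Real.exp δ * Real.exp δ := by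
      rw [← Real.exp_add, ← Real.exp_add]; congr 1; ring
    rw [Real.exp_neg, e1]
    have := (Real.exp_pos δ).ne'
    field_simp
  rw [h6] at h5
  linarith

lemma psi_lower {δ a b E : ℝ} (hδ : 0 < δ) (hab : a + δ ≤ b - δ) {N : ℕ}
    (hN : Real.exp (b + δ) ≤ N) (hE0 : 0 ≤ E) (hE : ∀ u ∈ Icc a b, |S0 N δ u| ≤ E) :
    Real.exp (-(2 * δ)) * (Real.exp (b - δ) - 1 - Real.exp (a + δ)) - Real.exp (-δ) * (E * Real.exp b) / (δ * I0)
      ≤ Chebyshev.psi (Real.exp (b + δ)) := by
  have hI := I0_pos
  have hab' : a ≤ b := by linarith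
  have hJ := J_bound hab' hE0 hE
  set J := ∑ n ∈ Finset.Icc 1 N, (ArithmeticFunction.vonMangoldt n - 1) * om δ a b n with hJdef
  have hfl : ⌊Real.exp (a + δ)⌋₊ ≤ ⌊Real.exp (b - δ)⌋₊ := by
    apply Nat.floor_le_floor
    exact Real.exp_le_exp.mpr hab
  have h1 : ∑ n ∈ Finset.Icc 1 N, ArithmeticFunction.vonMangoldt n * om δ a b n
      ≤ Real.exp δ * (δ * I0) * Chebyshev.psi (Real.exp (b + δ)) := by
    unfold Chebyshev.psi
    rw [Finset.mul_sum]
    calc ∑ n ∈ Finset.Icc 1 N, ArithmeticFunction.vonMangoldt n * om δ a b n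
        = ∑ n ∈ Finset.Ioc 0 ⌊Real.exp (b + δ)⌋₊, ArithmeticFunction.vonMangoldt n * om δ a b n := by
          symm
          apply Finset.sum_subset
          · intro n hn
            rw [Finset.mem_Ioc] at hn
            rw [Finset.mem_Icc]
            have h4 : (n : ℝ) ≤ Real.exp (b + δ) := (Nat.le_floor_iff (Real.exp_pos _).le).mp hn.2
            exact ⟨hn.1, by exact_mod_cast h4.trans hN⟩
          · intro n hn hn2
            rw [Finset.mem_Icc] at hn
            rw [Finset.mem_Ioc] at hn2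
            rw [om_zero hδ hab', mul_zero]
            have hn0 : (0 : ℝ) < n := by exact_mod_cast hn.1
            rw [Real.lt_log_iff_exp_lt hn0]
            apply (Nat.floor_lt (Real.exp_pos _).le).mp
            by_contra hcon
            exact hn2 ⟨hn.1, by omega⟩
      _ ≤ _ := by
          apply Finset.sum_le_sum
          intro n hn
          rw [Finset.mem_Ioc] at hn
          rw [mul_comm]
          apply mul_le_mul_of_nonneg_right (om_le hδ hab' hn.1) ArithmeticFunction.vonMangoldt_nonneg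
  have h2 : ∑ n ∈ Finset.Icc 1 N, ArithmeticFunction.vonMangoldt n * om δ a b n = ∑ n ∈ Finset.Icc 1 N, om δ a b n + J := by
    rw [hJdef, ← Finset.sum_add_distrib]
    apply Finset.sum_congr rfl
    intro n _
    ring
  have h3 : (Real.exp (b - δ) - 1 - Real.exp (a + δ)) * (Real.exp (-δ) * (δ * I0)) ≤ ∑ n ∈ Finset.Icc 1 N, om δ a b n := by
    calc (Real.exp (b - δ) - 1 - Real.exp (a + δ)) * (Real.exp (-δ) * (δ * I0))
        ≤ ((⌊Real.exp (b - δ)⌋₊ - ⌊Real.exp (a + δ)⌋₊ : ℕ) : ℝ) * (Real.exp (-δ) * (δ * I0)) := by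
          have h4 := Nat.lt_floor_add_one (Real.exp (b - δ))
          have h5 := Nat.floor_le (Real.exp_pos (a + δ)).le
          rw [Nat.cast_sub hfl]
          gcongr
          linarith
      _ = ∑ n ∈ Finset.Ioc ⌊Real.exp (a + δ)⌋₊ ⌊Real.exp (b - δ)⌋₊, Real.exp (-δ) * (δ * I0) := by
          rw [Finset.sum_const, Nat.card_Ioc, nsmul_eq_mul]
      _ ≤ ∑ n ∈ Finset.Ioc ⌊Real.exp (a + δ)⌋₊ ⌊Real.exp (b - δ)⌋₊, om δ a b n := by
          apply Finset.sum_le_sum
          intro n hn
          rw [Finset.mem_Ioc] at hn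
          have hn1 : 1 ≤ n := by omega
          have hn0 : (0 : ℝ) < n := by exact_mod_cast hn1
          have h2 : Real.exp (a + δ) < n := (Nat.floor_lt (Real.exp_pos _).le).mp hn.1
          have h3 : (n : ℝ) ≤ Real.exp (b - δ) := (Nat.le_floor_iff (Real.exp_pos _).le).mp hn.2
          exact om_ge hδ hab' hn1 ((Real.le_log_iff_exp_le hn0).mpr h2.le) ((Real.log_le_iff_le_exp hn0).mpr h3)
      _ ≤ _ := by
          apply Finset.sum_le_sum_of_subset_of_nonneg
          · intro n hn
            rw [Finset.mem_Ioc] at hn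
            rw [Finset.mem_Icc]
            have h3 : (n : ℝ) ≤ Real.exp (b - δ) := (Nat.le_floor_iff (Real.exp_pos _).le).mp hn.2
            have h4 : Real.exp (b - δ) ≤ Real.exp (b + δ) := Real.exp_le_exp.mpr (by linarith)
            exact ⟨by omega, by exact_mod_cast (h3.trans (h4.trans hN))⟩
          · intro n _ _
            exact om_nonneg hab' n
  have hJ1 := (abs_le.mp hJ).1
  have h4 : (Real.exp (b - δ) - 1 - Real.exp (a + δ)) * (Real.exp (-δ) * (δ * I0)) - E * Real.exp b
      ≤ Real.exp δ * (δ * I0) * Chebyshev.psi (Real.exp (b + δ)) := by linarith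
  have hDI : 0 < δ * I0 := by positivity
  have h5 : ((Real.exp (b - δ) - 1 - Real.exp (a + δ)) * (Real.exp (-δ) * (δ * I0)) - E * Real.exp b) / (Real.exp δ * (δ * I0))
      ≤ Chebyshev.psi (Real.exp (b + δ)) := by
    rw [div_le_iff₀ (by positivity)]
    linarith
  refine le_trans (le_of_eq ?_) h5
  have e1 : Real.exp (-(2 * δ)) = (Real.exp δ * Real.exp δ)⁻¹ := by
    rw [← Real.exp_add, ← Real.exp_neg]; congr 1; ring
  rw [e1, Real.exp_neg δ]
  have := (Real.exp_pos δ).ne'
  field_simp

lemma psi_le_six {x : ℝ} (hx : 0 ≤ x) : Chebyshev.psi x ≤ 6 * x := by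
  have h1 := Chebyshev.psi_le_const_mul_self hx
  have h2 : Real.log 4 ≤ 2 := by
    rw [Real.log_le_iff_le_exp (by norm_num)]
    have h7 := Real.exp_one_gt_d9
    have h8 : Real.exp 2 = Real.exp 1 * Real.exp 1 := by rw [← Real.exp_add]; norm_num
    rw [h8]
    calc (4 : ℝ) ≤ 2.7 * 2.7 := by norm_num
      _ ≤ Real.exp 1 * Real.exp 1 :=
        mul_le_mul (by linarith) (by linarith) (by norm_num) (Real.exp_pos _).le
  have h3 := mul_le_mul_of_nonneg_right h2 hx
  linarith

lemma exp_one_lt_three : Real.exp 1 < 3 := by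
  have := Real.exp_one_lt_d9
  linarith

lemma exp_mul_le {k : ℕ} {δ : ℝ} (hδ1 : δ ≤ 1) : Real.exp (k * δ) ≤ 3 ^ k := by
  calc Real.exp (k * δ) ≤ Real.exp (k * 1) := by
        apply Real.exp_le_exp.mpr
        gcongr
    _ = Real.exp 1 ^ k := by rw [← Real.exp_nat_mul]
    _ ≤ 3 ^ k := by
        gcongr
        exact exp_one_lt_three.le

/-- **The prime number theorem with a strong error term.** -/
theorem psi_error : ∃ a C : ℝ, 0 < a ∧ 0 < C ∧ ∀ x : ℝ, 2 ≤ x →
    |Chebyshev.psi x - x| ≤ C * x * Real.exp (-a * (Real.log x) ^ ((1 : ℝ) / 10)) := by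
  obtain ⟨κ, C, hκ, hC, hS⟩ := S0_bound
  have hI := I0_pos
  set κ' : ℝ := κ / (4 * 5 ^ 9) with hκ'
  have hκ'0 : 0 < κ' := by positivity
  set a : ℝ := min (1 / 2) (κ' / 10) with ha
  have ha0 : 0 < a := by rw [ha]; positivity
  have ha1 : a ≤ 1 / 2 := min_le_left _ _
  have ha2 : 10 * a ≤ κ' := by
    have : a ≤ κ' / 10 := min_le_right _ _
    linarith
  set C1 : ℝ := 7 * Real.exp 5 + 2000 + 28 * C * 9 / I0 with hC1
  have hC10 : 0 < C1 := by positivity
  refine ⟨a, C1, ha0, hC10, ?_⟩
  intro x hx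
  have hx0 : 0 < x := by linarith
  set l : ℝ := Real.log x with hl
  have hl0 : 0 < l := Real.log_pos (by linarith)
  have hxl : Real.exp l = x := Real.exp_log hx0
  set r : ℝ := l ^ ((1 : ℝ) / 10) with hr
  have hr0 : 0 < r := by positivity
  by_cases hsmall : l < 5
  · -- trivial range
    have h1 : |Chebyshev.psi x - x| ≤ 7 * x := by
      rw [abs_le]
      have := psi_le_six hx0.le
      have := Chebyshev.psi_nonneg x
      constructor <;> linarith
    have h2 : r ≤ 5 := by
      calc r ≤ (5 : ℝ) ^ ((1 : ℝ) / 10) := by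
            rw [hr]
            gcongr
        _ ≤ (5 : ℝ) ^ (1 : ℝ) := Real.rpow_le_rpow_of_exponent_le (by norm_num) (by norm_num)
        _ = 5 := Real.rpow_one 5
    have h3 : Real.exp (-5) ≤ Real.exp (-a * r) := by
      apply Real.exp_le_exp.mpr
      have h4 := mul_le_mul ha1 h2 hr0.le (by norm_num : (0 : ℝ) ≤ 1 / 2)
      linarith
    calc |Chebyshev.psi x - x| ≤ 7 * x := h1
      _ = (7 * Real.exp 5) * x * Real.exp (-5) := by
        rw [Real.exp_neg]
        have := (Real.exp_pos 5).ne'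
        field_simp
      _ ≤ C1 * x * Real.exp (-a * r) := by
        gcongr
        rw [hC1]
        have : 0 < 28 * C * 9 / I0 := by positivity
        linarith
  · push Not at hsmall
    have hr1 : 1 ≤ r := by
      rw [hr]
      apply Real.one_le_rpow (by linarith) (by norm_num)
    have hr10 : r ^ 10 = l := by
      rw [hr, ← Real.rpow_natCast, ← Real.rpow_mul hl0.le]
      norm_num
    have hrl : r ≤ l := by
      rw [← hr10]
      exact le_self_pow₀ hr1 (by norm_num)
    set δ : ℝ := Real.exp (-a * r) with hδdef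
    have hδ : 0 < δ := Real.exp_pos _
    have hδ1 : δ ≤ 1 := by
      rw [hδdef]
      apply Real.exp_le_one_iff.mpr
      have h4 := mul_pos ha0 hr0
      linarith
    set T : ℝ := 3 * (δ ^ 3)⁻¹ with hT
    have hT3 : 3 ≤ T := by
      rw [hT]
      have : 1 ≤ (δ ^ 3)⁻¹ := (one_le_inv₀ (by positivity)).mpr (pow_le_one₀ hδ.le hδ1)
      linarith
    have hLT : LL T ≤ 5 * r := by
      unfold LL
      rw [abs_of_pos (by linarith)]
      have h1 : T + 3 ≤ 6 * Real.exp (3 * (a * r)) := by
        have h2 : (δ ^ 3)⁻¹ = Real.exp (3 * (a * r)) := by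
          rw [hδdef, ← Real.exp_nat_mul, ← Real.exp_neg]
          congr 1
          push_cast
          ring
        rw [← h2]
        rw [hT] at hT3 ⊢
        linarith
      calc Real.log (T + 3) ≤ Real.log (6 * Real.exp (3 * (a * r))) := Real.log_le_log (by linarith) h1
        _ = Real.log 6 + 3 * (a * r) := by
          rw [Real.log_mul (by norm_num) (Real.exp_pos _).ne', Real.log_exp]
        _ ≤ 2 + 3 * (1 / 2 * r) := by
          gcongr
          rw [Real.log_le_iff_le_exp (by norm_num)]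
          have h7 := Real.exp_one_gt_d9
          have h8 : Real.exp 2 = Real.exp 1 * Real.exp 1 := by rw [← Real.exp_add]; norm_num
          rw [h8]
          calc (6 : ℝ) ≤ 2.7 * 2.7 := by norm_num
            _ ≤ Real.exp 1 * Real.exp 1 :=
              mul_le_mul (by linarith) (by linarith) (by norm_num) (Real.exp_pos _).le
        _ ≤ 5 * r := by linarith
    have hLT0 := LL_pos T
    set E : ℝ := 28 * C * δ ^ 2 with hE
    have hE0 : 0 ≤ E := by positivity
    have hEbound : ∀ u : ℝ, l / 4 ≤ u → ∀ N : ℕ, Real.exp (u + δ) ≤ N → |S0 N δ u| ≤ E := by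
      intro u hu N hN
      have h1 := hS δ hδ hδ1 u (by linarith) T hT3 N hN
      refine h1.trans ?_
      have h2 : κ' * r ≤ κ * u / LL T ^ 9 := by
        rw [le_div_iff₀ (by positivity)]
        calc κ' * r * LL T ^ 9 ≤ κ' * r * (5 * r) ^ 9 := by gcongr
          _ = κ * (r ^ 10 / 4) := by rw [hκ']; ring
          _ = κ * (l / 4) := by rw [hr10]
          _ ≤ κ * u := by gcongr
      have h3 : Real.exp (-(κ * u / LL T ^ 9)) ≤ Real.exp (10 * (-a * r)) := by
        apply Real.exp_le_exp.mpr
        have : 10 * a * r ≤ κ' * r := by gcongr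
        linarith
      have h4 : Real.exp (10 * (-a * r)) = δ ^ 10 := by
        rw [hδdef, ← Real.exp_nat_mul]
        norm_num
      rw [h4] at h3
      have h5 : δ * Real.exp (-(κ * u / LL T ^ 9)) * T ^ 3 ≤ 27 * δ ^ 2 := by
        calc δ * Real.exp (-(κ * u / LL T ^ 9)) * T ^ 3 ≤ δ * δ ^ 10 * T ^ 3 := by gcongr
          _ = 27 * δ ^ 2 := by
            rw [hT]
            field_simp
            ring
      have h6 : (δ ^ 7)⁻¹ * (T ^ 4)⁻¹ ≤ δ ^ 2 := by
        have e : (δ ^ 7)⁻¹ * (T ^ 4)⁻¹ = δ ^ 5 / 81 := by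
          rw [hT]
          field_simp
          ring
        rw [e]
        have h7 : δ ^ 5 ≤ δ ^ 2 := pow_le_pow_of_le_one hδ.le hδ1 (by norm_num)
        have : 0 ≤ δ ^ 5 := by positivity
        linarith
      calc _ ≤ C * (27 * δ ^ 2 + δ ^ 2) := by gcongr
        _ = E := by rw [hE]; ring
    -- square root bound
    have hsqrt : Real.exp (l / 2) ≤ x * δ := by
      rw [← hxl, hδdef, ← Real.exp_add]
      apply Real.exp_le_exp.mpr
      have : a * r ≤ 1 / 2 * l := by
        apply mul_le_mul ha1 hrl hr0.le (by norm_num)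
      linarith
    have hExp1 : Real.exp δ ≤ 3 := by
      have := exp_mul_le (k := 1) hδ1
      simpa using this
    -- upper
    have hupper : Chebyshev.psi x - x ≤ C1 * x * δ := by
      set b : ℝ := l + δ with hb
      set N : ℕ := ⌈Real.exp (b + δ)⌉₊ with hN
      have hN' : Real.exp (b + δ) ≤ N := Nat.le_ceil _
      have h1 := psi_upper (δ := δ) (a := b / 2) (b := b) (E := E) hδ (by linarith) hN' hE0 (by
        intro u hu
        apply hEbound u (by linarith [hu.1])
        refine le_trans ?_ hN'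
        apply Real.exp_le_exp.mpr
        linarith [hu.2])
      have e1 : Real.exp (b - δ) = x := by rw [hb, add_sub_cancel_right, hxl]
      rw [e1] at h1
      have h2 : Chebyshev.psi (Real.exp (b / 2 + δ)) ≤ 54 * x * δ := by
        have h3 := psi_le_six (Real.exp_pos (b / 2 + δ)).le
        have h4 : Real.exp (b / 2 + δ) ≤ 9 * Real.exp (l / 2) := by
          have e2 : b / 2 + δ = l / 2 + 3 / 2 * δ := by rw [hb]; ring
          rw [e2, Real.exp_add, mul_comm]
          gcongr
          calc Real.exp (3 / 2 * δ) ≤ Real.exp ((2 : ℕ) * δ) := by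
                apply Real.exp_le_exp.mpr
                push_cast
                linarith
            _ ≤ 3 ^ 2 := exp_mul_le hδ1
            _ = 9 := by norm_num
        linarith
      have h3 : Real.exp (b + 3 * δ) ≤ x + 324 * x * δ := by
        have e2 : Real.exp (b + 3 * δ) = x * Real.exp (4 * δ) := by
          rw [← hxl, ← Real.exp_add]; congr 1; rw [hb]; ring
        rw [e2]
        have h4 : Real.exp (4 * δ) - 1 ≤ 4 * δ * Real.exp (4 * δ) := by
          have := Real.one_sub_le_exp_neg (4 * δ)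
          have h5 : Real.exp (4 * δ) * Real.exp (-(4 * δ)) = 1 := by rw [← Real.exp_add]; simp
          have h6 := Real.exp_pos (4 * δ)
          have h7 := mul_le_mul_of_nonneg_left this h6.le
          rw [h5] at h7
          linarith
        have h5 : Real.exp (4 * δ) ≤ 81 := by
          have := exp_mul_le (k := 4) hδ1
          norm_num at this
          exact this
        have h6 : Real.exp (4 * δ) ≤ 1 + 324 * δ := by
          have h7 := mul_le_mul_of_nonneg_left h5 (by linarith : (0 : ℝ) ≤ 4 * δ)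
          linarith
        have h8 := mul_le_mul_of_nonneg_left h6 hx0.le
        linarith
      have h4 : Real.exp δ * (E * Real.exp b) / (δ * I0) ≤ (28 * C * 9 / I0) * x * δ := by
        rw [div_le_iff₀ (by positivity)]
        have e2 : Real.exp b = x * Real.exp δ := by rw [← hxl, ← Real.exp_add]
        rw [e2]
        calc Real.exp δ * (E * (x * Real.exp δ)) ≤ 3 * (E * (x * 3)) := by gcongr
          _ = (28 * C * 9 / I0) * x * δ * (δ * I0) := by
            rw [hE]; field_simp; ring
      have h5 : Chebyshev.psi x ≤ 54 * x * δ + (x + 324 * x * δ) + (28 * C * 9 / I0) * x * δ := by linarith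
      have h6 : C1 * x * δ = 7 * Real.exp 5 * (x * δ) + 2000 * (x * δ) + (28 * C * 9 / I0) * x * δ := by
        rw [hC1]; ring
      have h7 : 0 ≤ x * δ := by positivity
      have h8 : 0 ≤ 7 * Real.exp 5 * (x * δ) := by positivity
      linarith
    -- lower
    have hlower : -(C1 * x * δ) ≤ Chebyshev.psi x - x := by
      set b : ℝ := l - δ with hb
      set N : ℕ := ⌈Real.exp (b + δ)⌉₊ with hN
      have hN' : Real.exp (b + δ) ≤ N := Nat.le_ceil _
      have h1 := psi_lower (δ := δ) (a := b / 2) (b := b) (E := E) hδ (by linarith) hN' hE0 (by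
        intro u hu
        apply hEbound u (by linarith [hu.1])
        refine le_trans ?_ hN'
        apply Real.exp_le_exp.mpr
        linarith [hu.2])
      have e1 : Real.exp (b + δ) = x := by rw [hb, sub_add_cancel, hxl]
      rw [e1] at h1
      have h2 : x - 4 * x * δ ≤ Real.exp (-(2 * δ)) * Real.exp (b - δ) := by
        have e2 : Real.exp (-(2 * δ)) * Real.exp (b - δ) = x * Real.exp (-(4 * δ)) := by
          rw [← hxl, ← Real.exp_add, ← Real.exp_add]; congr 1; rw [hb]; ring
        rw [e2]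
        have := Real.one_sub_le_exp_neg (4 * δ)
        have h8 := mul_le_mul_of_nonneg_left this hx0.le
        linarith
      have h3 : Real.exp (-(2 * δ)) * (1 + Real.exp (b / 2 + δ)) ≤ 4 * x * δ := by
        have h4 : Real.exp (-(2 * δ)) ≤ 1 := Real.exp_le_one_iff.mpr (by linarith)
        have h5 : Real.exp (b / 2 + δ) ≤ 3 * Real.exp (l / 2) := by
          have e2 : b / 2 + δ = l / 2 + 1 / 2 * δ := by rw [hb]; ring
          rw [e2, Real.exp_add, mul_comm]
          gcongr
          calc Real.exp (1 / 2 * δ) ≤ Real.exp δ := by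
                apply Real.exp_le_exp.mpr
                linarith
            _ ≤ 3 := hExp1
        have h6 : 1 ≤ Real.exp (l / 2) := Real.one_le_exp (by linarith)
        calc Real.exp (-(2 * δ)) * (1 + Real.exp (b / 2 + δ)) ≤ 1 * (1 + Real.exp (b / 2 + δ)) := by gcongr
          _ ≤ 4 * Real.exp (l / 2) := by linarith
          _ ≤ 4 * x * δ := by linarith
      have h4 : Real.exp (-δ) * (E * Real.exp b) / (δ * I0) ≤ (28 * C * 9 / I0) * x * δ := by
        rw [div_le_iff₀ (by positivity)]
        have e2 : Real.exp b ≤ x := by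
          rw [← hxl]
          apply Real.exp_le_exp.mpr
          rw [hb]; linarith
        have e3 : Real.exp (-δ) ≤ 1 := Real.exp_le_one_iff.mpr (by linarith)
        calc Real.exp (-δ) * (E * Real.exp b) ≤ 1 * (E * x) := by gcongr
          _ = 28 * C * δ ^ 2 * x * 1 := by rw [hE]; ring
          _ ≤ 28 * C * δ ^ 2 * x * 9 := by gcongr; norm_num
          _ = (28 * C * 9 / I0) * x * δ * (δ * I0) := by
            field_simp
      have h5 : Real.exp (-(2 * δ)) * (Real.exp (b - δ) - 1 - Real.exp (b / 2 + δ))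
          = Real.exp (-(2 * δ)) * Real.exp (b - δ) - Real.exp (-(2 * δ)) * (1 + Real.exp (b / 2 + δ)) := by ring
      rw [h5] at h1
      have h6 : C1 * x * δ = 7 * Real.exp 5 * (x * δ) + 2000 * (x * δ) + (28 * C * 9 / I0) * x * δ := by
        rw [hC1]; ring
      have h7 : 0 ≤ x * δ := by positivity
      have h8 : 0 ≤ 7 * Real.exp 5 * (x * δ) := by positivity
      linarith
    rw [abs_le]
    exact ⟨hlower, hupper⟩

end Pool.Agent.H17.ZB
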