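import Mathlib
import Pool.Agent.H17.QPNT

/-! Consequences of the prime number theorem with error term, for `θ` and `π`. -/

set_option autoImplicit false

open Filter Topology Set

namespace Pool.Agent.H17.ZB

open MeasureTheory

lemma exp_le_log_pow {a : ℝ} (ha : 0 < a) (A : ℕ) : ∃ C : ℝ, 0 < C ∧ ∀ x : ℝ, 2 ≤ x →
    Real.exp (-a * (Real.log x) ^ ((1 : ℝ) / 10)) ≤ C / (Real.log x) ^ A := by
  refine ⟨(10 * A).factorial / a ^ (10 * A), by positivity, fun x hx => ?_⟩
  set l : ℝ := Real.log x with hl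
  have hl0 : 0 < l := Real.log_pos (by linarith)
  set r : ℝ := l ^ ((1 : ℝ) / 10) with hr
  have hr0 : 0 < r := by positivity
  have hr10 : r ^ 10 = l := by
    rw [hr, ← Real.rpow_natCast, ← Real.rpow_mul hl0.le]
    norm_num
  have h1 := Real.pow_div_factorial_le_exp (x := a * r) (by positivity) (10 * A)
  have h2 : l ^ A = r ^ (10 * A) := by rw [pow_mul, hr10]
  rw [h2, neg_mul, Real.exp_neg, div_div, ← mul_pow, inv_eq_one_div,
    div_le_div_iff₀ (Real.exp_pos _) (by positivity), one_mul]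
  rw [div_le_iff₀ (by positivity)] at h1
  linarith

lemma rpow_tenth_le {l : ℝ} (hl : 0 < l) : l ^ ((1 : ℝ) / 10) ≤ l + 1 := by
  rcases le_total l 1 with h | h
  · have : l ^ ((1 : ℝ) / 10) ≤ 1 := Real.rpow_le_one hl.le h (by norm_num)
    linarith
  · calc l ^ ((1 : ℝ) / 10) ≤ l ^ (1 : ℝ) := Real.rpow_le_rpow_of_exponent_le h (by norm_num)
      _ = l := Real.rpow_one l
      _ ≤ l + 1 := by linarith

theorem theta_error : ∃ a C : ℝ, 0 < a ∧ a ≤ 1 / 4 ∧ 0 < C ∧ ∀ x : ℝ, 2 ≤ x →
    |Chebyshev.theta x - x| ≤ C * x * Real.exp (-a * (Real.log x) ^ ((1 : ℝ) / 10)) := by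
  obtain ⟨a, C, ha, hC, h⟩ := psi_error
  refine ⟨min a (1 / 4), C + 8 * Real.exp 1, by positivity, min_le_right _ _, by positivity, fun x hx => ?_⟩
  have hx0 : 0 < x := by linarith
  set l : ℝ := Real.log x with hl
  have hl0 : 0 < l := Real.log_pos (by linarith)
  have hxl : Real.exp l = x := Real.exp_log hx0
  set r : ℝ := l ^ ((1 : ℝ) / 10) with hr
  have hr0 : 0 < r := by positivity
  have hrl : r ≤ l + 1 := rpow_tenth_le hl0
  set a' : ℝ := min a (1 / 4) with ha'
  have ha'0 : 0 < a' := by positivity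
  have ha'1 : a' ≤ a := min_le_left _ _
  have ha'2 : a' ≤ 1 / 4 := min_le_right _ _
  have h1 := h x hx
  have h2 : Real.exp (-a * r) ≤ Real.exp (-a' * r) := by
    apply Real.exp_le_exp.mpr
    nlinarith
  have h3 := Chebyshev.psi_sub_theta_le (x := x) (by linarith)
  have h4 : Chebyshev.theta x ≤ Chebyshev.psi x := Chebyshev.theta_le_psi x
  have h5 : 2 * √x * Real.log x ≤ 8 * Real.exp 1 * x * Real.exp (-a' * r) := by
    have e1 : √x = Real.exp (l / 2) := by
      rw [← hxl, Real.sqrt_eq_iff_mul_self_eq (Real.exp_pos _).le (Real.exp_pos _).le, ← Real.exp_add]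
      congr 1; ring
    have e2 : Real.log x ≤ 4 * Real.exp (l / 4) := by
      rw [← hl]
      have := Real.add_one_le_exp (l / 4)
      linarith
    have e3 : Real.exp (l / 2) * Real.exp (l / 4) ≤ Real.exp 1 * x * Real.exp (-a' * r) := by
      rw [show Real.exp 1 * x * Real.exp (-a' * r) = Real.exp (1 + l + (-a' * r)) by
        rw [Real.exp_add, Real.exp_add, hxl], ← Real.exp_add]
      apply Real.exp_le_exp.mpr
      have : a' * r ≤ 1 / 4 * (l + 1) := by gcongr
      linarith
    rw [e1]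
    calc 2 * Real.exp (l / 2) * Real.log x ≤ 2 * Real.exp (l / 2) * (4 * Real.exp (l / 4)) := by gcongr
      _ = 8 * (Real.exp (l / 2) * Real.exp (l / 4)) := by ring
      _ ≤ 8 * (Real.exp 1 * x * Real.exp (-a' * r)) := by gcongr
      _ = _ := by ring
  have h6 : |Chebyshev.theta x - x| ≤ |Chebyshev.psi x - x| + 2 * √x * Real.log x := by
    rw [abs_le]
    have := neg_abs_le (Chebyshev.psi x - x)
    have := le_abs_self (Chebyshev.psi x - x)
    have : 0 ≤ 2 * √x * Real.log x := by positivity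
    constructor <;> linarith
  calc |Chebyshev.theta x - x| ≤ |Chebyshev.psi x - x| + 2 * √x * Real.log x := h6
    _ ≤ C * x * Real.exp (-a' * r) + 8 * Real.exp 1 * x * Real.exp (-a' * r) := by
      apply add_le_add _ h5
      exact h1.trans (by gcongr)
    _ = _ := by ring

theorem psi_error_log (A : ℕ) : ∃ C : ℝ, 0 < C ∧ ∀ x : ℝ, 2 ≤ x →
    |Chebyshev.psi x - x| ≤ C * x / (Real.log x) ^ A := by
  obtain ⟨a, C, ha, hC, h⟩ := psi_error
  obtain ⟨C', hC', h'⟩ := exp_le_log_pow ha A
  refine ⟨C * C', by positivity, fun x hx => ?_⟩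
  have hx0 : 0 < x := by linarith
  calc _ ≤ C * x * Real.exp (-a * (Real.log x) ^ ((1 : ℝ) / 10)) := h x hx
    _ ≤ C * x * (C' / (Real.log x) ^ A) := by
      gcongr
      exact h' x hx
    _ = _ := by ring

theorem theta_error_log (A : ℕ) : ∃ C : ℝ, 0 < C ∧ ∀ x : ℝ, 2 ≤ x →
    |Chebyshev.theta x - x| ≤ C * x / (Real.log x) ^ A := by
  obtain ⟨a, C, ha, _, hC, h⟩ := theta_error
  obtain ⟨C', hC', h'⟩ := exp_le_log_pow ha A
  refine ⟨C * C', by positivity, fun x hx => ?_⟩
  have hx0 : 0 < x := by linarith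
  calc _ ≤ C * x * Real.exp (-a * (Real.log x) ^ ((1 : ℝ) / 10)) := h x hx
    _ ≤ C * x * (C' / (Real.log x) ^ A) := by
      gcongr
      exact h' x hx
    _ = _ := by ring

/-- the logarithmic integral from 2 -/
noncomputable def Li (x : ℝ) : ℝ := ∫ t in (2 : ℝ)..x, 1 / Real.log t

lemma Li_eq {x : ℝ} (hx : 2 ≤ x) : Li x = x / Real.log x - 2 / Real.log 2 + ∫ t in (2 : ℝ)..x, 1 / Real.log t ^ 2 := by
  have h1 : ∀ t ∈ uIcc 2 x, HasDerivAt (fun t : ℝ => t / Real.log t) (1 / Real.log t - 1 / Real.log t ^ 2) t := by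
    intro t ht
    rw [uIcc_of_le hx] at ht
    have ht0 : t ≠ 0 := by linarith [ht.1]
    have hlt : Real.log t ≠ 0 := (Real.log_pos (by linarith [ht.1])).ne'
    have h2 : HasDerivAt (fun t : ℝ => t / Real.log t) ((1 * Real.log t - t * t⁻¹) / (Real.log t) ^ 2) t :=
      (hasDerivAt_id' t).div (Real.hasDerivAt_log ht0) hlt
    have e : 1 / Real.log t - 1 / Real.log t ^ 2 = (1 * Real.log t - t * t⁻¹) / (Real.log t) ^ 2 := by
      field_simp
    rw [e]
    exact h2
  have hI1 : IntervalIntegrable (fun t : ℝ => 1 / Real.log t) volume 2 x := by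
    apply ContinuousOn.intervalIntegrable
    intro t ht
    rw [uIcc_of_le hx] at ht
    have ht0 : t ≠ 0 := by linarith [ht.1]
    have hlt : Real.log t ≠ 0 := (Real.log_pos (by linarith [ht.1])).ne'
    apply ContinuousAt.continuousWithinAt
    fun_prop
  have hI2 : IntervalIntegrable (fun t : ℝ => 1 / Real.log t ^ 2) volume 2 x :=
    Chebyshev.intervalIntegrable_one_div_log_sq (by norm_num) (by linarith)
  have h3 := intervalIntegral.integral_eq_sub_of_hasDerivAt h1 (hI1.sub hI2)
  rw [intervalIntegral.integral_sub hI1 hI2] at h3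
  unfold Li
  linarith

lemma exp_mono {a : ℝ} (ha : 0 < a) (ha1 : a ≤ 1 / 4) {t x : ℝ} (ht : 2 ≤ t) (htx : t ≤ x) :
    Real.exp (-a * (Real.log t) ^ ((1 : ℝ) / 10)) ≤ Real.exp (-a * (Real.log x) ^ ((1 : ℝ) / 10)) * (x / t) ^ ((1 : ℝ) / 2) := by
  have ht0 : 0 < t := by linarith
  have hx0 : 0 < x := by linarith
  have hl0 : 0 < Real.log t := Real.log_pos (by linarith)
  have hll : Real.log t ≤ Real.log x := Real.log_le_log ht0 htx
  have hlx0 : 0 < Real.log x := by linarith
  set p : ℝ := (Real.log t) ^ ((1 : ℝ) / 10) with hp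
  set q : ℝ := (Real.log x) ^ ((1 : ℝ) / 10) with hq
  have hp0 : 0 < p := by positivity
  have hpq : p ≤ q := by rw [hp, hq]; gcongr
  have hp10 : p ^ 10 = Real.log t := by
    rw [hp, ← Real.rpow_natCast, ← Real.rpow_mul hl0.le]; norm_num
  have hq10 : q ^ 10 = Real.log x := by
    rw [hq, ← Real.rpow_natCast, ← Real.rpow_mul hlx0.le]; norm_num
  have hp9 : 1 / 2 ≤ p ^ 9 := by
    have h1 : (1 / 2 : ℝ) ≤ p ^ 10 := by
      rw [hp10]
      have := Real.log_two_gt_d9
      have h2 : Real.log 2 ≤ Real.log t := Real.log_le_log (by norm_num) ht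
      linarith
    rcases le_total p 1 with h | h
    · exact h1.trans (pow_le_pow_of_le_one hp0.le h (by norm_num))
    · have : 1 ≤ p ^ 9 := one_le_pow₀ h
      linarith
  have h1 : 10 * p ^ 9 * (q - p) ≤ q ^ 10 - p ^ 10 := by
    have h2 := one_add_mul_sub_le_pow (a := q / p) (by
      have : 0 ≤ q / p := by positivity
      linarith) 10
    rw [div_pow, le_div_iff₀ (by positivity)] at h2
    push_cast at h2
    have h3 : (1 + 10 * (q / p - 1)) * p ^ 10 = p ^ 10 + 10 * p ^ 9 * (q - p) := by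
      field_simp
    linarith
  have h2 : a * (q - p) ≤ 1 / 2 * (Real.log x - Real.log t) := by
    rw [← hp10, ← hq10]
    have h3 : 5 * (q - p) ≤ 10 * p ^ 9 * (q - p) := by nlinarith
    nlinarith
  have h3 : (x / t) ^ ((1 : ℝ) / 2) = Real.exp (1 / 2 * (Real.log x - Real.log t)) := by
    rw [Real.rpow_def_of_pos (by positivity), Real.log_div hx0.ne' ht0.ne']
    congr 1
    ring
  rw [h3, ← Real.exp_add]
  apply Real.exp_le_exp.mpr
  linarith

/-- **PNT with error term**: `π(x) = Li(x) + O(x exp(-a (log x)^{1/10}))`. -/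
theorem pi_error : ∃ a C : ℝ, 0 < a ∧ 0 < C ∧ ∀ x : ℝ, 2 ≤ x →
    |(Nat.primeCounting ⌊x⌋₊ : ℝ) - Li x| ≤ C * x * Real.exp (-a * (Real.log x) ^ ((1 : ℝ) / 10)) := by
  obtain ⟨a, C, ha, ha4, hC, h⟩ := theta_error
  refine ⟨a, 11 * C + 12, ha, by positivity, fun x hx => ?_⟩
  have hx0 : 0 < x := by linarith
  have hl2 := Real.log_two_gt_d9
  have hl0 : Real.log 2 ≤ Real.log x := Real.log_le_log (by norm_num) hx
  have hlx0 : 0 < Real.log x := by linarith
  set e : ℝ := Real.exp (-a * (Real.log x) ^ ((1 : ℝ) / 10)) with he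
  have he0 : 0 < e := Real.exp_pos _
  have hθ := Chebyshev.primeCounting_eq_theta_div_log_add_integral hx
  have hI2 : IntervalIntegrable (fun t : ℝ => 1 / Real.log t ^ 2) volume 2 x :=
    Chebyshev.intervalIntegrable_one_div_log_sq (by norm_num) (by linarith)
  have hI1 : IntervalIntegrable (fun t : ℝ => Chebyshev.theta t / (t * Real.log t ^ 2)) volume 2 x := by
    rw [intervalIntegrable_iff_integrableOn_Icc_of_le hx]
    exact Chebyshev.integrableOn_theta_div_id_mul_log_sq x
  have h1 : (Nat.primeCounting ⌊x⌋₊ : ℝ) - Li x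
      = (Chebyshev.theta x - x) / Real.log x + (∫ t in (2 : ℝ)..x, (Chebyshev.theta t / (t * Real.log t ^ 2) - 1 / Real.log t ^ 2)) + 2 / Real.log 2 := by
    rw [intervalIntegral.integral_sub hI1 hI2, hθ, Li_eq hx]
    ring
  have h2 : |(Chebyshev.theta x - x) / Real.log x| ≤ 2 * C * x * e := by
    rw [abs_div, abs_of_pos hlx0, div_le_iff₀ hlx0]
    have := h x hx
    rw [← he] at this
    have h3 : 0 ≤ C * x * e := by positivity
    nlinarith
  have h3 : |∫ t in (2 : ℝ)..x, (Chebyshev.theta t / (t * Real.log t ^ 2) - 1 / Real.log t ^ 2)| ≤ 9 * C * x * e := by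
    calc |∫ t in (2 : ℝ)..x, (Chebyshev.theta t / (t * Real.log t ^ 2) - 1 / Real.log t ^ 2)|
        ≤ ∫ t in (2 : ℝ)..x, 4 * C * e * x ^ ((1 : ℝ) / 2) * t ^ (-(1 : ℝ) / 2) := by
          rw [← Real.norm_eq_abs]
          apply intervalIntegral.norm_integral_le_of_norm_le hx
          · filter_upwards with t ht
            have ht2 : 2 ≤ t := ht.1.le
            have ht0 : 0 < t := by linarith
            have hlt : Real.log 2 ≤ Real.log t := Real.log_le_log (by norm_num) ht2
            have hlt0 : 0 < Real.log t := by linarith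
            have e1 : Chebyshev.theta t / (t * Real.log t ^ 2) - 1 / Real.log t ^ 2
                = (Chebyshev.theta t - t) / (t * Real.log t ^ 2) := by
              field_simp
            rw [e1, Real.norm_eq_abs, abs_div, abs_of_pos (show 0 < t * Real.log t ^ 2 by positivity), div_le_iff₀ (by positivity)]
            have h4 := h t ht2
            have h5 := exp_mono ha ha4 ht2 ht.2
            rw [← he] at h5
            have e2 : (x / t) ^ ((1 : ℝ) / 2) = x ^ ((1 : ℝ) / 2) * t ^ (-(1 : ℝ) / 2) := by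
              rw [Real.div_rpow hx0.le ht0.le, div_eq_mul_inv, ← Real.rpow_neg ht0.le]
              congr 2
              ring
            rw [e2] at h5
            have h6 : 1 ≤ 4 * Real.log t ^ 2 := by nlinarith
            set w := x ^ ((1 : ℝ) / 2) * t ^ (-(1 : ℝ) / 2) with hw
            have hw0 : 0 ≤ w := by positivity
            calc |Chebyshev.theta t - t| ≤ C * t * (e * w) := h4.trans (by gcongr)
              _ = C * t * (e * w) * 1 := (mul_one _).symm
              _ ≤ C * t * (e * w) * (4 * Real.log t ^ 2) := by gcongr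
              _ = _ := by rw [hw]; ring
          · apply IntervalIntegrable.const_mul
            apply intervalIntegral.intervalIntegrable_rpow
            right
            rw [uIcc_of_le hx, Set.mem_Icc]
            intro h
            linarith [h.1]
      _ = 4 * C * e * x ^ ((1 : ℝ) / 2) * (2 * (x ^ ((1 : ℝ) / 2) - 2 ^ ((1 : ℝ) / 2))) := by
          rw [intervalIntegral.integral_const_mul, integral_rpow (Or.inl (by norm_num))]
          have e3 : (-(1 : ℝ) / 2 + 1) = 1 / 2 := by norm_num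
          rw [e3]
          ring
      _ ≤ 4 * C * e * x ^ ((1 : ℝ) / 2) * (2 * x ^ ((1 : ℝ) / 2)) := by
          have : (0 : ℝ) ≤ 2 ^ ((1 : ℝ) / 2) := by positivity
          gcongr
          linarith
      _ = 8 * C * e * (x ^ ((1 : ℝ) / 2) * x ^ ((1 : ℝ) / 2)) := by ring
      _ = 8 * C * e * x := by
          rw [← Real.rpow_add hx0]; norm_num
      _ ≤ 9 * C * x * e := by
          have : 0 ≤ C * x * e := by positivity
          nlinarith
  have h4 : 2 / Real.log 2 ≤ 12 * x * e := by
    have h5 : 2 / Real.log 2 ≤ 3 := by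
      rw [div_le_iff₀ (by linarith)]; linarith
    have h6 : 1 / 4 ≤ x * e := by
      have hxl : Real.exp (Real.log x) = x := Real.exp_log hx0
      have hrl := rpow_tenth_le hlx0
      have h7 : a * (Real.log x) ^ ((1 : ℝ) / 10) ≤ 1 / 4 * (Real.log x + 1) := by gcongr
      calc (1 / 4 : ℝ) ≤ Real.exp (-(1 / 4)) := by
            have := Real.one_sub_le_exp_neg (1 / 4)
            linarith
        _ ≤ Real.exp (Real.log x + (-a * (Real.log x) ^ ((1 : ℝ) / 10))) := by
            apply Real.exp_le_exp.mpr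
            linarith
        _ = x * e := by rw [Real.exp_add, hxl]
    linarith
  rw [h1]
  have h5 : 0 ≤ 2 / Real.log 2 := by positivity
  calc _ ≤ |(Chebyshev.theta x - x) / Real.log x| + |∫ t in (2 : ℝ)..x, (Chebyshev.theta t / (t * Real.log t ^ 2) - 1 / Real.log t ^ 2)| + |2 / Real.log 2| :=
        abs_add_three _ _ _
    _ ≤ 2 * C * x * e + 9 * C * x * e + 12 * x * e := by
        rw [abs_of_nonneg h5]
        gcongr
    _ = _ := by ring

lemma primeCounting_le_id (n : ℕ) : Nat.primeCounting n ≤ n := by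
  rw [← Nat.primesLE_card_eq_primeCounting]
  calc (Nat.primesLE n).card ≤ (Finset.Icc 1 n).card := by
        apply Finset.card_le_card
        intro p hp
        rw [Nat.mem_primesLE] at hp
        rw [Finset.mem_Icc]
        exact ⟨hp.2.one_lt.le, hp.1⟩
    _ = n := by simp

/-- `|π(x) log x / x - 1| ≤ C / log x` -/
theorem pi_log_error : ∃ C : ℝ, 0 < C ∧ ∀ x : ℝ, 2 ≤ x →
    |(Nat.primeCounting ⌊x⌋₊ : ℝ) * Real.log x / x - 1| ≤ C / Real.log x := by
  obtain ⟨C1, hC1, h1⟩ := theta_error_log 1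
  obtain ⟨C2, hC2, h2⟩ := (Chebyshev.integral_theta_div_log_sq_isBigO).exists_pos
  rw [Asymptotics.IsBigOWith, eventually_atTop] at h2
  obtain ⟨X, hX⟩ := h2
  refine ⟨C1 + C2 + (Real.log (max X 2) + 1) ^ 2, by positivity, fun x hx => ?_⟩
  have hx0 : 0 < x := by linarith
  have hlx0 : 0 < Real.log x := Real.log_pos (by linarith)
  by_cases hxX : X ≤ x
  · have h3 := hX x hxX
    have hθ := Chebyshev.primeCounting_eq_theta_div_log_add_integral hx
    have h4 := h1 x hx
    rw [pow_one] at h4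
    have e1 : (Nat.primeCounting ⌊x⌋₊ : ℝ) * Real.log x / x - 1
        = (Chebyshev.theta x - x) / x + (∫ t in (2 : ℝ)..x, Chebyshev.theta t / (t * Real.log t ^ 2)) * (Real.log x / x) := by
      rw [hθ]
      field_simp
      ring
    rw [e1]
    rw [Real.norm_eq_abs, Real.norm_of_nonneg (by positivity)] at h3
    have h5 : |(Chebyshev.theta x - x) / x| ≤ C1 / Real.log x := by
      rw [abs_div, abs_of_pos hx0, div_le_iff₀ hx0]
      calc _ ≤ _ := h4
        _ = _ := by ring
    have h6 : |(∫ t in (2 : ℝ)..x, Chebyshev.theta t / (t * Real.log t ^ 2)) * (Real.log x / x)| ≤ C2 / Real.log x := by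
      rw [abs_mul, abs_of_pos (show 0 < Real.log x / x by positivity)]
      calc _ ≤ (C2 * (x / Real.log x ^ 2)) * (Real.log x / x) := by gcongr
        _ = C2 / Real.log x := by field_simp
    calc _ ≤ _ := abs_add_le _ _
      _ ≤ C1 / Real.log x + C2 / Real.log x := add_le_add h5 h6
      _ ≤ _ := by
        rw [← add_div]
        apply div_le_div_of_nonneg_right _ hlx0.le
        have : 0 ≤ (Real.log (max X 2) + 1) ^ 2 := by positivity
        linarith
  · push Not at hxX
    have h3 : Real.log x ≤ Real.log (max X 2) := by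
      apply Real.log_le_log hx0
      exact hxX.le.trans (le_max_left _ _)
    have h4 : (Nat.primeCounting ⌊x⌋₊ : ℝ) ≤ x := by
      calc (Nat.primeCounting ⌊x⌋₊ : ℝ) ≤ ⌊x⌋₊ := by
            exact_mod_cast (primeCounting_le_id _)
        _ ≤ x := Nat.floor_le hx0.le
    have h5 : |(Nat.primeCounting ⌊x⌋₊ : ℝ) * Real.log x / x - 1| ≤ Real.log x + 1 := by
      have h6 : (Nat.primeCounting ⌊x⌋₊ : ℝ) * Real.log x / x ≤ Real.log x := by
        rw [div_le_iff₀ hx0]
        nlinarith
      have h7 : 0 ≤ (Nat.primeCounting ⌊x⌋₊ : ℝ) * Real.log x / x := by positivity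
      rw [abs_le]
      constructor <;> linarith
    refine h5.trans ?_
    rw [le_div_iff₀ hlx0]
    nlinarith

end Pool.Agent.H17.ZB
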