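import Mathlib

/-! Lower bounds for sums of multiplicative functions over squarefree numbers, with the sharp
constant, by an elementary operator argument. -/

set_option autoImplicit false

open Filter Topology

namespace Pool.Agent.H17

/-- `∑_{T ⊆ S} w(T) Φ(u / ∏ T)` -/
noncomputable def Op (S : Finset ℕ) (w : ℕ → ℝ) (Φ : ℕ → ℝ) (u : ℕ) : ℝ :=
  ∑ T ∈ S.powerset, (∏ p ∈ T, w p) * Φ (u / ∏ p ∈ T, p)

lemma Op_empty (w Φ : ℕ → ℝ) (u : ℕ) : Op ∅ w Φ u = Φ u := by
  simp [Op]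

lemma Op_insert {S : Finset ℕ} {p : ℕ} (hp : p ∉ S) (w Φ : ℕ → ℝ) (u : ℕ) :
    Op (insert p S) w Φ u = Op S w Φ u + w p * Op S w Φ (u / p) := by
  unfold Op
  rw [Finset.sum_powerset_insert hp, Finset.mul_sum]
  congr 1
  apply Finset.sum_congr rfl
  intro T hT
  rw [Finset.mem_powerset] at hT
  have hpT : p ∉ T := fun h => hp (hT h)
  rw [Finset.prod_insert hpT, Finset.prod_insert hpT, Nat.div_div_eq_div_mul]
  ring

lemma Op_nonneg {S : Finset ℕ} {w Φ : ℕ → ℝ} (hw : ∀ p ∈ S, 0 ≤ w p) (hΦ : ∀ u, 0 ≤ Φ u) (u : ℕ) :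
    0 ≤ Op S w Φ u := by
  unfold Op
  apply Finset.sum_nonneg
  intro T hT
  rw [Finset.mem_powerset] at hT
  exact mul_nonneg (Finset.prod_nonneg (fun p hp => hw p (hT hp))) (hΦ _)

lemma Op_mono {S : Finset ℕ} {w Φ : ℕ → ℝ} (hw : ∀ p ∈ S, 0 ≤ w p) (hΦ : Monotone Φ) :
    Monotone (Op S w Φ) := by
  intro u v huv
  unfold Op
  apply Finset.sum_le_sum
  intro T hT
  rw [Finset.mem_powerset] at hT
  apply mul_le_mul_of_nonneg_left _ (Finset.prod_nonneg (fun p hp => hw p (hT hp)))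
  exact hΦ (Nat.div_le_div_right huv)

lemma Op_le_Op {S : Finset ℕ} {w Φ Ψ : ℕ → ℝ} (hw : ∀ p ∈ S, 0 ≤ w p) {u : ℕ} (h : ∀ v ≤ u, Φ v ≤ Ψ v) :
    Op S w Φ u ≤ Op S w Ψ u := by
  unfold Op
  apply Finset.sum_le_sum
  intro T hT
  rw [Finset.mem_powerset] at hT
  apply mul_le_mul_of_nonneg_left _ (Finset.prod_nonneg (fun p hp => hw p (hT hp)))
  exact h _ (Nat.div_le_self _ _)

lemma Op_weight_mono {S : Finset ℕ} {w w' Φ : ℕ → ℝ} (hw : ∀ p ∈ S, 0 ≤ w p) (hww : ∀ p ∈ S, w p ≤ w' p)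
    (hΦ : ∀ u, 0 ≤ Φ u) (u : ℕ) : Op S w Φ u ≤ Op S w' Φ u := by
  unfold Op
  apply Finset.sum_le_sum
  intro T hT
  rw [Finset.mem_powerset] at hT
  apply mul_le_mul_of_nonneg_right _ (hΦ _)
  exact Finset.prod_le_prod (fun p hp => hw p (hT hp)) (fun p hp => hww p (hT hp))

lemma Op_shift (S : Finset ℕ) (w F : ℕ → ℝ) (p u : ℕ) :
    Op S w (fun v => F (v / p)) u = Op S w F (u / p) := by
  unfold Op
  apply Finset.sum_congr rfl
  intro T _
  show (∏ p ∈ T, w p) * F (u / (∏ p ∈ T, p) / p) = _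
  rw [Nat.div_div_eq_div_mul, Nat.div_div_eq_div_mul, mul_comm p]

lemma Op_add (S : Finset ℕ) (w F G : ℕ → ℝ) (u : ℕ) :
    Op S w (fun v => F v + G v) u = Op S w F u + Op S w G u := by
  unfold Op
  rw [← Finset.sum_add_distrib]
  apply Finset.sum_congr rfl
  intro T _
  ring

lemma Op_smul (S : Finset ℕ) (w F : ℕ → ℝ) (c : ℝ) (u : ℕ) :
    Op S w (fun v => c * F v) u = c * Op S w F u := by
  unfold Op
  rw [Finset.mul_sum]
  apply Finset.sum_congr rfl
  intro T _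
  ring

lemma Op_union {S1 S2 : Finset ℕ} (h : Disjoint S1 S2) (w Φ : ℕ → ℝ) (u : ℕ) :
    Op (S1 ∪ S2) w Φ u = Op S1 w (Op S2 w Φ) u := by
  induction S1 using Finset.induction_on generalizing u with
  | empty => rw [Finset.empty_union, Op_empty]
  | insert p S hp ih =>
    rw [Finset.disjoint_insert_left] at h
    rw [Finset.insert_union, Op_insert (by rw [Finset.mem_union]; tauto), Op_insert hp, ih h.2, ih h.2]

lemma Op_comp {S : Finset ℕ} {w1 w2 w3 Φ : ℕ → ℝ} (h1 : ∀ p ∈ S, 0 ≤ w1 p) (h2 : ∀ p ∈ S, 0 ≤ w2 p)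
    (h3 : ∀ p ∈ S, w3 p = w1 p + w2 p + w1 p * w2 p) (hΦ : Monotone Φ) (u : ℕ) :
    Op S w1 (Op S w2 Φ) u ≤ Op S w3 Φ u := by
  induction S using Finset.induction_on generalizing u with
  | empty => rw [Op_empty, Op_empty, Op_empty]
  | insert p S hp ih =>
    have h1' : ∀ q ∈ S, 0 ≤ w1 q := fun q hq => h1 q (Finset.mem_insert_of_mem hq)
    have h2' : ∀ q ∈ S, 0 ≤ w2 q := fun q hq => h2 q (Finset.mem_insert_of_mem hq)
    have h3' : ∀ q ∈ S, w3 q = w1 q + w2 q + w1 q * w2 q := fun q hq => h3 q (Finset.mem_insert_of_mem hq)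
    have a1 := h1 p (Finset.mem_insert_self _ _)
    have a2 := h2 p (Finset.mem_insert_self _ _)
    have a3 := h3 p (Finset.mem_insert_self _ _)
    have ih' := ih h1' h2' h3'
    set X : ℕ → ℝ := Op S w1 (Op S w2 Φ) with hX
    have hXmono : Monotone X := Op_mono h1' (Op_mono h2' hΦ)
    have e1 : ∀ v, Op S w1 (Op (insert p S) w2 Φ) v = X v + w2 p * X (v / p) := by
      intro v
      have e2 : Op (insert p S) w2 Φ = fun t => Op S w2 Φ t + w2 p * Op S w2 Φ (t / p) := by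
        funext t
        exact Op_insert hp w2 Φ t
      rw [e2, Op_add, Op_smul S w1 (fun t => Op S w2 Φ (t / p)), Op_shift]
    rw [Op_insert hp, e1, e1, Op_insert hp]
    have b1 := ih' u
    have b2 := ih' (u / p)
    have b3 : X (u / p / p) ≤ X (u / p) := hXmono (Nat.div_le_self _ _)
    have b4 : w1 p * (w2 p * X (u / p / p)) ≤ w1 p * (w2 p * X (u / p)) := by gcongr
    have b5 : w3 p * X (u / p) ≤ w3 p * Op S w3 Φ (u / p) := by
      apply mul_le_mul_of_nonneg_left b2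
      rw [a3]; positivity
    rw [a3] at b5 ⊢
    nlinarith

lemma prod_le_prod_subset {S T : Finset ℕ} (hS : ∀ p ∈ S, p.Prime) (hT : T ⊆ S) :
    ∏ p ∈ T, p ≤ ∏ p ∈ S, p :=
  Finset.prod_le_prod_of_subset_of_one_le' hT (fun p hp _ => (hS p hp).one_lt.le)

lemma Op_upper {S : Finset ℕ} {w Φ : ℕ → ℝ} (hw : ∀ p ∈ S, 0 ≤ w p) (hΦ : Monotone Φ) (u : ℕ) :
    Op S w Φ u ≤ (∏ p ∈ S, (1 + w p)) * Φ u := by
  rw [Finset.prod_one_add, Finset.sum_mul]
  unfold Op
  apply Finset.sum_le_sum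
  intro T hT
  rw [Finset.mem_powerset] at hT
  apply mul_le_mul_of_nonneg_left _ (Finset.prod_nonneg (fun p hp => hw p (hT hp)))
  exact hΦ (Nat.div_le_self _ _)

lemma Op_lower {S : Finset ℕ} {w Φ : ℕ → ℝ} (hS : ∀ p ∈ S, p.Prime) (hw : ∀ p ∈ S, 0 ≤ w p) (hΦ : Monotone Φ) (u : ℕ) :
    (∏ p ∈ S, (1 + w p)) * Φ (u / ∏ p ∈ S, p) ≤ Op S w Φ u := by
  rw [Finset.prod_one_add, Finset.sum_mul]
  unfold Op
  apply Finset.sum_le_sum
  intro T hT
  rw [Finset.mem_powerset] at hT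
  apply mul_le_mul_of_nonneg_left _ (Finset.prod_nonneg (fun p hp => hw p (hT hp)))
  apply hΦ
  apply Nat.div_le_div_left (prod_le_prod_subset hS hT)
  exact Finset.prod_pos (fun p hp => (hS p (hT hp)).pos)

/-- harmonic sum with weights -/
noncomputable def Hs (Φ : ℕ → ℝ) (u : ℕ) : ℝ := ∑ n ∈ Finset.Icc 1 u, (1 / (n : ℝ)) * Φ (u / n)

lemma harm_le {S : Finset ℕ} (hS : ∀ p ∈ S, p.Prime) {Φ : ℕ → ℝ} (hΦ : Monotone Φ) (hΦ0 : ∀ u, 0 ≤ Φ u) (u : ℕ) :
    ∑ n ∈ (Finset.Icc 1 u).filter (fun n => n.primeFactors ⊆ S), (1 / (n : ℝ)) * Φ (u / n)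
      ≤ Op S (fun p => 1 / ((p : ℝ) - 1)) Φ u := by
  induction S using Finset.induction_on generalizing u with
  | empty =>
    rw [Op_empty]
    rcases Nat.eq_zero_or_pos u with hu | hu
    · subst hu
      simpa using hΦ0 0
    · have h1 : (Finset.Icc 1 u).filter (fun n => n.primeFactors ⊆ ∅) = {1} := by
        ext n
        simp only [Finset.mem_filter, Finset.mem_Icc, Finset.subset_empty, Nat.primeFactors_eq_empty, Finset.mem_singleton]
        omega
      rw [h1, Finset.sum_singleton]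
      simp
  | insert p S hp ih =>
    have hpp : p.Prime := hS p (Finset.mem_insert_self _ _)
    have hS' : ∀ q ∈ S, q.Prime := fun q hq => hS q (Finset.mem_insert_of_mem hq)
    have ih' := ih hS'
    have hp1 : (0 : ℝ) < (p : ℝ) - 1 := by
      have : (2 : ℝ) ≤ p := by exact_mod_cast hpp.two_le
      linarith
    have hp0 : (0 : ℝ) < p := by linarith
    have hw : ∀ q ∈ S, 0 ≤ (fun p : ℕ => 1 / ((p : ℝ) - 1)) q := by
      intro q hq
      have : (2 : ℝ) ≤ q := by exact_mod_cast (hS' q hq).two_le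
      have h2 : (0 : ℝ) < (q : ℝ) - 1 := by linarith
      simp only
      positivity
    induction u using Nat.strong_induction_on with
    | _ u ihu =>
      rcases Nat.eq_zero_or_pos u with hu | hu
      · subst hu
        have h1 : (0 : ℝ) ≤ Op (insert p S) (fun p => 1 / ((p : ℝ) - 1)) Φ 0 := by
          apply Op_nonneg _ hΦ0
          intro q hq
          rcases Finset.mem_insert.mp hq with rfl | hq
          · positivity
          · exact hw q hq
        simpa using h1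
      · rw [← Finset.sum_filter_add_sum_filter_not _ (fun n => p ∣ n)]
        have hlt : u / p < u := Nat.div_lt_self hu hpp.one_lt
        have hI := ihu (u / p) hlt
        have b1 : ∑ n ∈ ((Finset.Icc 1 u).filter (fun n => n.primeFactors ⊆ insert p S)).filter (fun n => p ∣ n), (1 / (n : ℝ)) * Φ (u / n)
            ≤ (1 / (p : ℝ)) * ∑ n ∈ (Finset.Icc 1 (u / p)).filter (fun n => n.primeFactors ⊆ insert p S), (1 / (n : ℝ)) * Φ (u / p / n) := by
          rw [Finset.mul_sum]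
          apply le_of_eq
          apply Finset.sum_nbij' (i := fun n => n / p) (j := fun m => p * m)
          · intro n hn
            rw [Finset.mem_filter, Finset.mem_filter, Finset.mem_Icc] at hn
            rw [Finset.mem_filter, Finset.mem_Icc]
            obtain ⟨⟨⟨h1, h2⟩, h3⟩, h4⟩ := hn
            refine ⟨⟨Nat.div_pos (Nat.le_of_dvd (by omega) h4) hpp.pos, Nat.div_le_div_right h2⟩, ?_⟩
            exact (Nat.primeFactors_mono (Nat.div_dvd_of_dvd h4) (by omega)).trans h3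
          · intro m hm
            rw [Finset.mem_filter, Finset.mem_Icc] at hm
            rw [Finset.mem_filter, Finset.mem_filter, Finset.mem_Icc]
            obtain ⟨⟨h1, h2⟩, h3⟩ := hm
            have h4 : p * m ≤ u := by
              rw [mul_comm]
              exact (Nat.le_div_iff_mul_le hpp.pos).mp h2
            refine ⟨⟨⟨Nat.mul_pos hpp.pos h1, h4⟩, ?_⟩, dvd_mul_right _ _⟩
            rw [Nat.primeFactors_mul hpp.ne_zero (by omega), Nat.Prime.primeFactors hpp]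
            intro q hq
            rcases Finset.mem_union.mp hq with h | h
            · rw [Finset.mem_singleton] at h
              rw [h]; exact Finset.mem_insert_self _ _
            · exact h3 h
          · intro n hn
            rw [Finset.mem_filter] at hn
            exact Nat.mul_div_cancel' hn.2
          · intro m _
            exact Nat.mul_div_cancel_left m hpp.pos
          · intro n hn
            rw [Finset.mem_filter, Finset.mem_filter, Finset.mem_Icc] at hn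
            obtain ⟨⟨⟨h1, h2⟩, h3⟩, h4⟩ := hn
            obtain ⟨m, rfl⟩ := h4
            show (1 / ((p * m : ℕ) : ℝ)) * Φ (u / (p * m)) = 1 / (p : ℝ) * (1 / ((p * m / p : ℕ) : ℝ) * Φ (u / p / (p * m / p)))
            rw [Nat.mul_div_cancel_left m hpp.pos, Nat.div_div_eq_div_mul]
            push_cast
            have hm : (m : ℝ) ≠ 0 := by
              rintro h5
              have : m = 0 := by exact_mod_cast h5
              subst this
              simp at h1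
            field_simp
        have b2 : ∑ n ∈ ((Finset.Icc 1 u).filter (fun n => n.primeFactors ⊆ insert p S)).filter (fun n => ¬ p ∣ n), (1 / (n : ℝ)) * Φ (u / n)
            ≤ ∑ n ∈ (Finset.Icc 1 u).filter (fun n => n.primeFactors ⊆ S), (1 / (n : ℝ)) * Φ (u / n) := by
          apply Finset.sum_le_sum_of_subset_of_nonneg
          · intro n hn
            rw [Finset.mem_filter, Finset.mem_filter] at hn
            rw [Finset.mem_filter]
            refine ⟨hn.1.1, ?_⟩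
            intro q hq
            rcases Finset.mem_insert.mp (hn.1.2 hq) with rfl | h
            · exact absurd (Nat.dvd_of_mem_primeFactors hq) hn.2
            · exact h
          · intro n _ _
            have := hΦ0 (u / n)
            positivity
        have b3 := ih' u
        have hXm : Monotone (Op S (fun p => 1 / ((p : ℝ) - 1)) Φ) := Op_mono hw hΦ
        have b4 : Op (insert p S) (fun p => 1 / ((p : ℝ) - 1)) Φ (u / p)
            ≤ (p / ((p : ℝ) - 1)) * Op S (fun p => 1 / ((p : ℝ) - 1)) Φ (u / p) := by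
          rw [Op_insert hp]
          have h5 : Op S (fun p => 1 / ((p : ℝ) - 1)) Φ (u / p / p) ≤ Op S (fun p => 1 / ((p : ℝ) - 1)) Φ (u / p) :=
            hXm (Nat.div_le_self _ _)
          have h6 : (p : ℝ) / ((p : ℝ) - 1) = 1 + 1 / ((p : ℝ) - 1) := by field_simp; ring
          rw [h6, add_mul, one_mul]
          gcongr
        rw [Op_insert hp]
        have b5 : (1 / (p : ℝ)) * ((p / ((p : ℝ) - 1)) * Op S (fun p => 1 / ((p : ℝ) - 1)) Φ (u / p))
            = 1 / ((p : ℝ) - 1) * Op S (fun p => 1 / ((p : ℝ) - 1)) Φ (u / p) := by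
          field_simp
        have b6 : (1 / (p : ℝ)) * ∑ n ∈ (Finset.Icc 1 (u / p)).filter (fun n => n.primeFactors ⊆ insert p S), (1 / (n : ℝ)) * Φ (u / p / n)
            ≤ (1 / (p : ℝ)) * ((p / ((p : ℝ) - 1)) * Op S (fun p => 1 / ((p : ℝ) - 1)) Φ (u / p)) := by
          apply mul_le_mul_of_nonneg_left (hI.trans b4) (by positivity)
        linarith

lemma Hs_le_Op {S : Finset ℕ} (hS : ∀ p ∈ S, p.Prime) {Φ : ℕ → ℝ} (hΦ : Monotone Φ) (hΦ0 : ∀ u, 0 ≤ Φ u) {u : ℕ}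
    (hu : ∀ p : ℕ, p.Prime → p ≤ u → p ∈ S) : Hs Φ u ≤ Op S (fun p => 1 / ((p : ℝ) - 1)) Φ u := by
  have h := harm_le hS hΦ hΦ0 u
  have h1 : (Finset.Icc 1 u).filter (fun n => n.primeFactors ⊆ S) = Finset.Icc 1 u := by
    apply Finset.filter_true_of_mem
    intro n hn q hq
    rw [Finset.mem_Icc] at hn
    exact hu q (Nat.prime_of_mem_primeFactors hq) ((Nat.le_of_mem_primeFactors hq).trans hn.2)
  rw [h1] at h
  exact h

/-- indicator of `u ≥ 1` -/
noncomputable def one1 (u : ℕ) : ℝ := if 1 ≤ u then 1 else 0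

lemma one1_mono : Monotone one1 := by
  intro u v huv
  unfold one1
  split_ifs
  · exact le_rfl
  · omega
  · exact zero_le_one
  · exact le_rfl

lemma one1_nonneg (u : ℕ) : 0 ≤ one1 u := by
  unfold one1
  split_ifs <;> norm_num

lemma Hs_mono_arg {Φ Ψ : ℕ → ℝ} {u : ℕ} (h : ∀ v ≤ u, Φ v ≤ Ψ v) : Hs Φ u ≤ Hs Ψ u := by
  unfold Hs
  apply Finset.sum_le_sum
  intro n _
  apply mul_le_mul_of_nonneg_left (h _ (Nat.div_le_self _ _)) (by positivity)

lemma log_step {k : ℕ} {v b t : ℝ} (hb : 1 ≤ b) (hbt : b ≤ t) (ht : t ≤ b + 1) (htv : t ≤ v) :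
    ((Real.log (v / b)) ^ (k + 1) - (Real.log (v / t)) ^ (k + 1)) / (k + 1) ≤ (1 / b) * (Real.log (v / b)) ^ k := by
  have hb0 : 0 < b := by linarith
  have ht0 : 0 < t := by linarith
  have hv0 : 0 < v := by linarith
  set A := Real.log (v / b) with hA
  set B := Real.log (v / t) with hB
  have hB0 : 0 ≤ B := Real.log_nonneg (by rw [le_div_iff₀ ht0]; linarith)
  have hBA : B ≤ A := by
    apply Real.log_le_log (by positivity)
    apply div_le_div_of_nonneg_left hv0.le hb0 hbt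
  have hAB : A - B ≤ 1 / b := by
    rw [hA, hB, Real.log_div hv0.ne' hb0.ne', Real.log_div hv0.ne' ht0.ne']
    have h1 : Real.log t - Real.log b = Real.log (t / b) := (Real.log_div ht0.ne' hb0.ne').symm
    have h2 : Real.log (t / b) ≤ t / b - 1 := Real.log_le_sub_one_of_pos (by positivity)
    have h3 : t / b - 1 ≤ 1 / b := by
      rw [div_sub_one hb0.ne']
      gcongr
      linarith
    linarith
  have hk : (0 : ℝ) < (k : ℝ) + 1 := by positivity
  rw [div_le_iff₀ hk]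
  have hA0 : 0 ≤ A := hB0.trans hBA
  have key : A ^ (k + 1) - B ^ (k + 1) ≤ (k + 1) * A ^ k * (A - B) := by
    have h1 := (Commute.all A B).geom_sum₂_mul (k + 1)
    rw [← h1]
    apply mul_le_mul_of_nonneg_right _ (by linarith)
    calc ∑ i ∈ Finset.range (k + 1), A ^ i * B ^ (k + 1 - 1 - i)
        ≤ ∑ i ∈ Finset.range (k + 1), A ^ k := by
          apply Finset.sum_le_sum
          intro i hi
          rw [Finset.mem_range] at hi
          have h2 : k = i + (k - i) := by omega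
          calc A ^ i * B ^ (k + 1 - 1 - i) ≤ A ^ i * A ^ (k + 1 - 1 - i) := by
                gcongr
            _ = A ^ k := by
                rw [← pow_add]
                congr 1
                omega
      _ = (k + 1) * A ^ k := by
          rw [Finset.sum_const, Finset.card_range, nsmul_eq_mul]
          push_cast
          ring
  calc A ^ (k + 1) - B ^ (k + 1) ≤ (k + 1) * A ^ k * (A - B) := key
    _ ≤ (k + 1) * A ^ k * (1 / b) := by gcongr
    _ = 1 / b * A ^ k * (k + 1) := by ring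

lemma log_sum (k : ℕ) {v : ℝ} (hv : 1 ≤ v) :
    (Real.log v) ^ (k + 1) / (k + 1) ≤ ∑ b ∈ Finset.Icc 1 ⌊v⌋₊, (1 / (b : ℝ)) * (Real.log (v / b)) ^ k := by
  set F : ℕ → ℝ := fun n => (Real.log (v / min (n : ℝ) v)) ^ (k + 1) / (k + 1) with hF
  have h1 : ∀ b ∈ Finset.Icc 1 ⌊v⌋₊, F b - F (b + 1) ≤ (1 / (b : ℝ)) * (Real.log (v / b)) ^ k := by
    intro b hb
    rw [Finset.mem_Icc] at hb
    have hb1 : (1 : ℝ) ≤ b := by exact_mod_cast hb.1
    have hbv : (b : ℝ) ≤ v := (Nat.le_floor_iff (by linarith)).mp hb.2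
    have h2 := log_step (k := k) (v := v) (b := b) (t := min ((b : ℝ) + 1) v) hb1 (le_min (by linarith) hbv)
      (min_le_left _ _) (min_le_right _ _)
    simp only [hF]
    rw [min_eq_left hbv, ← sub_div]
    push_cast
    exact h2
  have h3 := Finset.sum_le_sum h1
  refine le_trans (le_of_eq ?_) h3
  have h4 : ∀ N : ℕ, ∑ b ∈ Finset.Icc 1 N, (F b - F (b + 1)) = F 1 - F (N + 1) := by
    intro N
    induction N with
    | zero => simp
    | succ n ih =>
      rw [Finset.sum_Icc_succ_top (by omega), ih]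
      ring
  rw [h4]
  have e1 : F 1 = (Real.log v) ^ (k + 1) / (k + 1) := by
    simp only [hF]
    push_cast
    rw [min_eq_left hv, div_one]
  have e2 : F (⌊v⌋₊ + 1) = 0 := by
    simp only [hF]
    push_cast
    have h5 : v ≤ (⌊v⌋₊ : ℝ) + 1 := (Nat.lt_floor_add_one v).le
    rw [min_eq_right h5, div_self (by linarith), Real.log_one]
    simp
  rw [e1, e2, sub_zero]

lemma Hs_log {Φ : ℕ → ℝ} {k : ℕ} {c : ℝ} (h : ∀ v : ℝ, 1 ≤ v → c * (Real.log v) ^ k ≤ Φ ⌊v⌋₊) (hc : 0 ≤ c)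
    {v : ℝ} (hv : 1 ≤ v) : c / (k + 1) * (Real.log v) ^ (k + 1) ≤ Hs Φ ⌊v⌋₊ := by
  have h1 := log_sum k hv
  have h2 : c * ∑ b ∈ Finset.Icc 1 ⌊v⌋₊, (1 / (b : ℝ)) * (Real.log (v / b)) ^ k ≤ Hs Φ ⌊v⌋₊ := by
    unfold Hs
    rw [Finset.mul_sum]
    apply Finset.sum_le_sum
    intro b hb
    rw [Finset.mem_Icc] at hb
    have hb1 : (1 : ℝ) ≤ b := by exact_mod_cast hb.1
    have hb0 : (0 : ℝ) < b := by linarith
    have hbv : (b : ℝ) ≤ v := (Nat.le_floor_iff (by linarith)).mp hb.2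
    have h3 := h (v / b) (by rw [le_div_iff₀ hb0]; linarith)
    rw [Nat.floor_div_natCast] at h3
    calc c * (1 / (b : ℝ) * Real.log (v / b) ^ k) = 1 / (b : ℝ) * (c * Real.log (v / b) ^ k) := by ring
      _ ≤ 1 / (b : ℝ) * Φ (⌊v⌋₊ / b) := by gcongr
  have h3 : c / (k + 1) * (Real.log v) ^ (k + 1) = c * ((Real.log v) ^ (k + 1) / (k + 1)) := by ring
  rw [h3]
  exact (mul_le_mul_of_nonneg_left h1 hc).trans h2

lemma Hs_three {v : ℝ} (hv : 1 ≤ v) : (Real.log v) ^ 3 / 6 ≤ Hs (Hs (Hs one1)) ⌊v⌋₊ := by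
  have h0 : ∀ v : ℝ, 1 ≤ v → 1 * (Real.log v) ^ 0 ≤ one1 ⌊v⌋₊ := by
    intro v hv
    unfold one1
    rw [if_pos (Nat.le_floor (by exact_mod_cast hv))]
    simp
  have h1 : ∀ v : ℝ, 1 ≤ v → 1 * (Real.log v) ^ 1 ≤ Hs one1 ⌊v⌋₊ := by
    intro v hv
    have := Hs_log h0 zero_le_one hv
    simpa using this
  have h2 : ∀ v : ℝ, 1 ≤ v → (1 / 2) * (Real.log v) ^ 2 ≤ Hs (Hs one1) ⌊v⌋₊ := by
    intro v hv
    have := Hs_log h1 zero_le_one hv
    norm_num at this ⊢
    exact this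
  have h3 := Hs_log h2 (by norm_num) hv
  norm_num at h3
  linarith

/-- the weight `(1-1/p)^{-3} - 1` -/
noncomputable def h1w (p : ℕ) : ℝ := (1 + 1 / ((p : ℝ) - 1)) ^ 3 - 1

lemma G1_lower {S : Finset ℕ} (hS : ∀ p ∈ S, p.Prime) {v : ℝ} (hv : 1 ≤ v)
    (hall : ∀ p : ℕ, p.Prime → (p : ℝ) ≤ v → p ∈ S) :
    (Real.log v) ^ 3 / 6 ≤ Op S h1w one1 ⌊v⌋₊ := by
  set g : ℕ → ℝ := fun p => 1 / ((p : ℝ) - 1) with hg
  have hg0 : ∀ p ∈ S, 0 ≤ g p := by
    intro p hp
    have : (2 : ℝ) ≤ p := by exact_mod_cast (hS p hp).two_le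
    have h2 : (0 : ℝ) < (p : ℝ) - 1 := by linarith
    simp only [hg]
    positivity
  set g2 : ℕ → ℝ := fun p => g p + g p + g p * g p with hg2
  have hg20 : ∀ p ∈ S, 0 ≤ g2 p := by
    intro p hp
    have := hg0 p hp
    simp only [hg2]
    positivity
  have hall' : ∀ u ≤ ⌊v⌋₊, ∀ p : ℕ, p.Prime → p ≤ u → p ∈ S := by
    intro u hu p hp hpu
    apply hall p hp
    exact (Nat.le_floor_iff (by linarith)).mp (hpu.trans hu)
  have m1 : Monotone (Op S g one1) := Op_mono hg0 one1_mono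
  have m2 : Monotone (Op S g (Op S g one1)) := Op_mono hg0 m1
  have n1 : ∀ u, 0 ≤ Op S g one1 u := fun u => Op_nonneg hg0 one1_nonneg u
  have n2 : ∀ u, 0 ≤ Op S g (Op S g one1) u := fun u => Op_nonneg hg0 n1 u
  have s1 : ∀ u ≤ ⌊v⌋₊, Hs one1 u ≤ Op S g one1 u := fun u hu => Hs_le_Op hS one1_mono one1_nonneg (hall' u hu)
  have s2 : ∀ u ≤ ⌊v⌋₊, Hs (Hs one1) u ≤ Op S g (Op S g one1) u := by
    intro u hu
    exact (Hs_mono_arg (fun w hw => s1 w (hw.trans hu))).trans (Hs_le_Op hS m1 n1 (hall' u hu))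
  have s3 : Hs (Hs (Hs one1)) ⌊v⌋₊ ≤ Op S g (Op S g (Op S g one1)) ⌊v⌋₊ :=
    (Hs_mono_arg (fun w hw => s2 w hw)).trans (Hs_le_Op hS m2 n2 (hall' _ le_rfl))
  have s4 : Op S g (Op S g (Op S g one1)) ⌊v⌋₊ ≤ Op S g (Op S g2 one1) ⌊v⌋₊ :=
    Op_le_Op hg0 (fun w _ => Op_comp hg0 hg0 (fun p _ => rfl) one1_mono w)
  have s5 : Op S g (Op S g2 one1) ⌊v⌋₊ ≤ Op S h1w one1 ⌊v⌋₊ := by
    apply Op_comp hg0 hg20 _ one1_mono
    intro p _
    simp only [h1w, hg2, hg]
    ring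
  exact (Hs_three hv).trans (s3.trans (s4.trans s5))

lemma h1w_nonneg {p : ℕ} (hp : p.Prime) : 0 ≤ h1w p := by
  have : (2 : ℝ) ≤ p := by exact_mod_cast hp.two_le
  have h2 : (0 : ℝ) < (p : ℝ) - 1 := by linarith
  unfold h1w
  have h3 : 0 ≤ 1 / ((p : ℝ) - 1) := by positivity
  nlinarith [mul_nonneg h3 h3, mul_nonneg (mul_nonneg h3 h3) h3]

/-- comparison with the standard weight: `S1` is the set of special primes -/
lemma G_compare {S1 S2 : Finset ℕ} (hS1 : ∀ p ∈ S1, p.Prime) (hS2 : ∀ p ∈ S2, p.Prime) (hd : Disjoint S1 S2)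
    {h : ℕ → ℝ} (h0 : ∀ p ∈ S1, 0 ≤ h p) (hge : ∀ p ∈ S2, h1w p ≤ h p) {z : ℕ} {v : ℝ}
    (hz : v = (z : ℝ) / ((∏ p ∈ S1, p : ℕ) : ℝ)) (hv : 1 ≤ v)
    (hall : ∀ p : ℕ, p.Prime → (p : ℝ) ≤ v → p ∈ S1 ∪ S2) :
    (∏ p ∈ S1, (1 + h p) / (1 + h1w p)) * ((Real.log v) ^ 3 / 6) ≤ Op (S1 ∪ S2) h one1 z := by
  have hh1 : ∀ p ∈ S1 ∪ S2, 0 ≤ h1w p := by
    intro p hp
    rcases Finset.mem_union.mp hp with h | h
    · exact h1w_nonneg (hS1 p h)
    · exact h1w_nonneg (hS2 p h)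
  have hS : ∀ p ∈ S1 ∪ S2, p.Prime := by
    intro p hp
    rcases Finset.mem_union.mp hp with h | h
    · exact hS1 p h
    · exact hS2 p h
  have h1S1 : ∀ p ∈ S1, 0 ≤ h1w p := fun p hp => h1w_nonneg (hS1 p hp)
  have h1S2 : ∀ p ∈ S2, 0 ≤ h1w p := fun p hp => h1w_nonneg (hS2 p hp)
  have hS20 : ∀ p ∈ S2, 0 ≤ h p := fun p hp => (h1S2 p hp).trans (hge p hp)
  set k : ℕ := ∏ p ∈ S1, p with hk
  have hfl : ⌊v⌋₊ = z / k := by
    rw [hz]
    rw [Nat.floor_div_natCast, Nat.floor_natCast]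
  have a1 := G1_lower hS hv hall
  rw [Op_union hd, hfl] at a1
  have mono1 : Monotone (Op S2 h1w one1) := Op_mono h1S2 one1_mono
  have mono2 : Monotone (Op S2 h one1) := Op_mono hS20 one1_mono
  have a2 := Op_upper h1S1 mono1 (z / k)
  have a3 := Op_lower hS1 h0 mono2 z
  have a4 : Op S2 h1w one1 (z / k) ≤ Op S2 h one1 (z / k) := Op_weight_mono h1S2 hge one1_nonneg _
  rw [Op_union hd]
  have hP1 : 0 < ∏ p ∈ S1, (1 + h1w p) := Finset.prod_pos (fun p hp => by linarith [h1S1 p hp])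
  have hP : 0 ≤ ∏ p ∈ S1, (1 + h p) := Finset.prod_nonneg (fun p hp => by linarith [h0 p hp])
  rw [Finset.prod_div_distrib]
  have a5 : Real.log v ^ 3 / 6 ≤ (∏ p ∈ S1, (1 + h1w p)) * Op S2 h one1 (z / k) := by
    refine (a1.trans a2).trans ?_
    gcongr
  calc (∏ p ∈ S1, (1 + h p)) / (∏ p ∈ S1, (1 + h1w p)) * (Real.log v ^ 3 / 6)
      ≤ (∏ p ∈ S1, (1 + h p)) / (∏ p ∈ S1, (1 + h1w p)) * ((∏ p ∈ S1, (1 + h1w p)) * Op S2 h one1 (z / k)) := by
        gcongr
    _ = (∏ p ∈ S1, (1 + h p)) * Op S2 h one1 (z / k) := by field_simp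
    _ ≤ _ := a3

end Pool.Agent.H17
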