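import Mathlib
import Pool.Agent.H17.AvgMain

/-! Prime triples: definitions in the form of the problem, and the average lower bound. -/

set_option autoImplicit false

open Filter Topology Pool.Agent.H17

namespace Pool.Agent.H17.Triple

/-- The singular series of `{0, d', d}`. -/
noncomputable def singularSeries (d' d : ℕ) : ℝ :=
  ∏' p : Nat.Primes,
    ((1 - ((((({0, d', d} : Finset ℕ).image (fun n => n % (p : ℕ))).card : ℕ) : ℝ) / ((p : ℕ) : ℝ)))
      / (1 - 1 / ((p : ℕ) : ℝ)) ^ 3)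

/-- The number of primes `p ≤ x` such that `p - d` and `p - d'` are primes. -/
noncomputable def primeTriples (x : ℝ) (d' d : ℕ) : ℕ :=
  ((Finset.range (⌊x⌋₊ + 1)).filter (fun p => p.Prime ∧ (p - d).Prime ∧ (p - d').Prime)).card

/-- The triples `a < b < c` of elements of `A` for which the singular series of
`{0, c - b, c - a}` does not vanish. -/
noncomputable def triples (A : Finset ℕ) : Finset (ℕ × ℕ × ℕ) :=
  (A ×ˢ A ×ˢ A).filter (fun t => t.1 < t.2.1 ∧ t.2.1 < t.2.2 ∧
    singularSeries (t.2.2 - t.2.1) (t.2.2 - t.1) ≠ 0)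

lemma singularSeries_eq {a b c : ℕ} (hab : a < b) (hbc : b < c) :
    singularSeries (c - b) (c - a) = sing3 a b c := by
  unfold singularSeries sing3
  apply tprod_congr
  intro p
  have h := nu_shift hab.le hbc.le (p := (p : ℕ)) p.2.pos
  unfold locf
  rw [← h]
  rfl

lemma primeTriples_eq (x : ℝ) (d' d : ℕ) : primeTriples x d' d = pi3 x d' d := rfl

lemma mem_triples {A : Finset ℕ} {t : ℕ × ℕ × ℕ} :
    t ∈ triples A ↔ t ∈ adm A := by
  unfold triples adm
  rw [Finset.mem_filter, Finset.mem_filter, mem_tri, Finset.mem_product, Finset.mem_product]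
  constructor
  · rintro ⟨h1, h2, h3, h4⟩
    exact ⟨⟨h1, h2, h3⟩, by rwa [singularSeries_eq h2 h3] at h4⟩
  · rintro ⟨⟨h1, h2, h3⟩, h4⟩
    exact ⟨h1, h2, h3, by rwa [singularSeries_eq h2 h3]⟩

lemma triples_eq (A : Finset ℕ) : triples A = adm A := by
  ext t
  exact mem_triples

/-- translation of a set of shifts -/
lemma sum_translate (A : Finset ℕ) (m : ℕ) (hm : ∀ a ∈ A, m ≤ a) (F : ℕ → ℕ → ℝ) :
    ∑ t ∈ triples A, F (t.2.2 - t.2.1) (t.2.2 - t.1)
      = ∑ t ∈ triples (A.image (fun a => a - m)), F (t.2.2 - t.2.1) (t.2.2 - t.1) := by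
  apply Finset.sum_nbij' (i := fun t => (t.1 - m, t.2.1 - m, t.2.2 - m))
    (j := fun t => (t.1 + m, t.2.1 + m, t.2.2 + m))
  · intro t ht
    unfold triples at ht ⊢
    rw [Finset.mem_filter, Finset.mem_product, Finset.mem_product] at ht ⊢
    obtain ⟨⟨h1, h2, h3⟩, h4, h5, h6⟩ := ht
    have m1 := hm _ h1
    have m2 := hm _ h2
    have m3 := hm _ h3
    refine ⟨⟨Finset.mem_image_of_mem _ h1, Finset.mem_image_of_mem _ h2, Finset.mem_image_of_mem _ h3⟩, ?_, ?_, ?_⟩
    · show t.1 - m < t.2.1 - m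
      omega
    · show t.2.1 - m < t.2.2 - m
      omega
    · show singularSeries (t.2.2 - m - (t.2.1 - m)) (t.2.2 - m - (t.1 - m)) ≠ 0
      have e1 : t.2.2 - m - (t.2.1 - m) = t.2.2 - t.2.1 := by omega
      have e2 : t.2.2 - m - (t.1 - m) = t.2.2 - t.1 := by omega
      rw [e1, e2]; exact h6
  · intro t ht
    unfold triples at ht ⊢
    rw [Finset.mem_filter, Finset.mem_product, Finset.mem_product] at ht ⊢
    obtain ⟨⟨h1, h2, h3⟩, h4, h5, h6⟩ := ht
    have key : ∀ r ∈ A.image (fun a => a - m), r + m ∈ A := by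
      intro r hr
      rw [Finset.mem_image] at hr
      obtain ⟨a, ha, rfl⟩ := hr
      have := hm a ha
      rwa [Nat.sub_add_cancel this]
    refine ⟨⟨key _ h1, key _ h2, key _ h3⟩, ?_, ?_, ?_⟩
    · show t.1 + m < t.2.1 + m
      omega
    · show t.2.1 + m < t.2.2 + m
      omega
    · show singularSeries (t.2.2 + m - (t.2.1 + m)) (t.2.2 + m - (t.1 + m)) ≠ 0
      have e1 : t.2.2 + m - (t.2.1 + m) = t.2.2 - t.2.1 := by omega
      have e2 : t.2.2 + m - (t.1 + m) = t.2.2 - t.1 := by omega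
      rw [e1, e2]; exact h6
  · intro t ht
    unfold triples at ht
    rw [Finset.mem_filter, Finset.mem_product, Finset.mem_product] at ht
    obtain ⟨⟨h1, h2, h3⟩, _⟩ := ht
    have m1 := hm _ h1
    have m2 := hm _ h2
    have m3 := hm _ h3
    show (t.1 - m + m, t.2.1 - m + m, t.2.2 - m + m) = t
    rw [Nat.sub_add_cancel m1, Nat.sub_add_cancel m2, Nat.sub_add_cancel m3]
  · intro t _
    show (t.1 + m - m, t.2.1 + m - m, t.2.2 + m - m) = t
    rw [Nat.add_sub_cancel, Nat.add_sub_cancel, Nat.add_sub_cancel]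
  · intro t ht
    unfold triples at ht
    rw [Finset.mem_filter, Finset.mem_product, Finset.mem_product] at ht
    obtain ⟨⟨h1, h2, h3⟩, h4, h5, _⟩ := ht
    have m1 := hm _ h1
    have m2 := hm _ h2
    have m3 := hm _ h3
    show F (t.2.2 - t.2.1) (t.2.2 - t.1) = F (t.2.2 - m - (t.2.1 - m)) (t.2.2 - m - (t.1 - m))
    have e1 : t.2.2 - m - (t.2.1 - m) = t.2.2 - t.2.1 := by omega
    have e2 : t.2.2 - m - (t.1 - m) = t.2.2 - t.1 := by omega
    rw [e1, e2]

/-- average lower bound -/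
theorem average_lower : ∀ ε : ℝ, 0 < ε → ∃ K X : ℝ, ∀ x : ℝ, X ≤ x → ∀ A : Finset ℕ,
    (∀ a ∈ A, ∀ b ∈ A, (b : ℝ) ≤ a + (Real.log x) ^ 2) →
    (K * (Real.log x) ^ 3 ≤ (A.card : ℝ) ^ 3 ∨
      K * (Real.log x) ^ 3 ≤ ∑ t ∈ triples A, singularSeries (t.2.2 - t.2.1) (t.2.2 - t.1)) →
    (1 - ε) * ∑ t ∈ triples A,
        singularSeries (t.2.2 - t.2.1) (t.2.2 - t.1) * x / (Real.log x) ^ 3
      ≤ ∑ t ∈ triples A, (primeTriples x (t.2.2 - t.2.1) (t.2.2 - t.1) : ℝ) := by
  intro ε hε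
  set e : ℝ := min (ε / 20) (1 / 20) with he
  have he0 : 0 < e := lt_min (by positivity) (by norm_num)
  have he1 : e ≤ 1 / 20 := min_le_right _ _
  have he2 : 20 * e ≤ ε := by
    have := min_le_left (ε / 20) (1 / 20 : ℝ)
    linarith
  obtain ⟨K, X, hmain⟩ := average_lower_aux he0 he1
  refine ⟨K, max X 2, fun x hx A hA hcard => ?_⟩
  have hxX : X ≤ x := (le_max_left _ _).trans hx
  have hx2 : 2 ≤ x := (le_max_right _ _).trans hx
  have hL0 : 0 < Real.log x := Real.log_pos (by linarith)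
  rcases A.eq_empty_or_nonempty with hemp | hne
  · subst hemp
    simp [triples]
  · set m := A.min' hne with hm
    have hmle : ∀ a ∈ A, m ≤ a := fun a ha => A.min'_le a ha
    have hmA : m ∈ A := A.min'_mem hne
    set B := A.image (fun a => a - m) with hB
    have hBcard : B.card = A.card := by
      rw [hB]
      apply Finset.card_image_of_injOn
      intro r hr s hs hrs
      have h1 := hmle r hr
      have h2 := hmle s hs
      have h3 : r - m = s - m := hrs
      omega
    have hBle : ∀ a ∈ B, (a : ℝ) ≤ (Real.log x) ^ 2 := by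
      intro a ha
      rw [hB, Finset.mem_image] at ha
      obtain ⟨r, hr, rfl⟩ := ha
      have h1 := hA m hmA r hr
      rw [Nat.cast_sub (hmle r hr)]
      linarith
    have hS : ∑ t ∈ triples A, singularSeries (t.2.2 - t.2.1) (t.2.2 - t.1)
        = ∑ t ∈ adm B, sing3 t.1 t.2.1 t.2.2 := by
      rw [sum_translate A m hmle singularSeries, ← hB, ← triples_eq]
      apply Finset.sum_congr rfl
      intro t ht
      rw [triples_eq] at ht
      unfold adm at ht
      rw [Finset.mem_filter, mem_tri] at ht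
      exact singularSeries_eq ht.1.2.1 ht.1.2.2
    have hP : ∑ t ∈ triples A, (primeTriples x (t.2.2 - t.2.1) (t.2.2 - t.1) : ℝ)
        = ∑ t ∈ adm B, (pi3 x (t.2.2 - t.2.1) (t.2.2 - t.1) : ℝ) := by
      rw [sum_translate A m hmle (fun d' d => (primeTriples x d' d : ℝ)), ← hB, ← triples_eq]
      rfl
    have hcard' : K * (Real.log x) ^ 3 ≤ (B.card : ℝ) ^ 3 ∨ K * (Real.log x) ^ 3 ≤ ∑ t ∈ adm B, sing3 t.1 t.2.1 t.2.2 := by
      rw [hBcard, ← hS]
      exact hcard
    have h := hmain x hxX B hBle hcard'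
    have hSnn : 0 ≤ ∑ t ∈ adm B, sing3 t.1 t.2.1 t.2.2 := by
      apply Finset.sum_nonneg
      intro t ht
      unfold adm at ht
      rw [Finset.mem_filter, mem_tri] at ht
      exact sing3_nonneg ht.1.2.1 ht.1.2.2
    rw [hP]
    have e1 : ∑ t ∈ triples A, singularSeries (t.2.2 - t.2.1) (t.2.2 - t.1) * x / (Real.log x) ^ 3
        = x / (Real.log x) ^ 3 * ∑ t ∈ adm B, sing3 t.1 t.2.1 t.2.2 := by
      rw [← hS, Finset.mul_sum]
      apply Finset.sum_congr rfl
      intro t _
      ring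
    rw [e1]
    refine le_trans ?_ h
    apply mul_le_mul_of_nonneg_right (by linarith)
    positivity

end Pool.Agent.H17.Triple
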