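import Mathlib
import Pool.Agent.H17.Selberg
import Pool.Agent.H17.GBound
import Pool.Agent.H17.Avg

/-! Uniform upper bound for prime triples by Selberg's sieve. -/

set_option autoImplicit false

open Filter Topology

namespace Pool.Agent.H17

lemma class_count_lower (D N t : ℕ) (ht : t < D) :
    (N : ℝ) / D - 1 ≤ (((Finset.Icc 1 N).filter (fun n => n % D = t)).card : ℝ) := by
  have hD : 0 < D := by omega
  have h1 : N / D ≤ ((Finset.Icc 1 N).filter (fun n => n % D = t)).card := by
    calc N / D = (Finset.range (N / D)).card := by simp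
      _ ≤ _ := by
        apply Finset.card_le_card_of_injOn (fun j => j * D + (if t = 0 then D else t))
        · intro j hj
          simp only [Finset.coe_range, Set.mem_Iio] at hj
          simp only [Finset.coe_filter, Set.mem_ofPred_eq, Finset.mem_Icc]
          have h2 : (j + 1) * D ≤ N := (Nat.le_div_iff_mul_le hD).mp hj
          have h3 : (j + 1) * D = j * D + D := by ring
          by_cases h0 : t = 0
          · rw [if_pos h0]
            refine ⟨⟨by omega, by omega⟩, ?_⟩
            rw [← h3, Nat.mul_mod_left, h0]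
          · rw [if_neg h0]
            refine ⟨⟨by omega, by omega⟩, ?_⟩
            rw [Nat.mul_add_mod_self_right, Nat.mod_eq_of_lt ht]
        · intro i _ j _ hij
          have h2 : i * D + (if t = 0 then D else t) = j * D + (if t = 0 then D else t) := hij
          have h3 : i * D = j * D := by omega
          exact Nat.eq_of_mul_eq_mul_right hD h3
  have h2 : (N : ℝ) / D < ((N / D : ℕ) : ℝ) + 1 := by
    rw [← Nat.floor_div_eq_div (K := ℝ)]
    exact Nat.lt_floor_add_one _
  have h3 : ((N / D : ℕ) : ℝ) ≤ (((Finset.Icc 1 N).filter (fun n => n % D = t)).card : ℝ) := by exact_mod_cast h1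
  linarith

lemma count_residues (N D : ℕ) (hD : 0 < D) (P : ℕ → Prop) [DecidablePred P] (hP : ∀ m, P m ↔ P (m % D)) :
    |(((Finset.Icc 1 N).filter P).card : ℝ) - (((Finset.range D).filter P).card : ℝ) / D * N|
      ≤ (((Finset.range D).filter P).card : ℝ) := by
  have h1 : (((Finset.Icc 1 N).filter P).card : ℝ)
      = ∑ t ∈ (Finset.range D).filter P, (((Finset.Icc 1 N).filter (fun n => n % D = t)).card : ℝ) := by
    rw [Finset.card_eq_sum_card_fiberwise (f := fun n => n % D) (t := (Finset.range D).filter P)]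
    · push_cast
      apply Finset.sum_congr rfl
      intro t ht
      rw [Finset.mem_filter] at ht
      congr 2
      ext n
      simp only [Finset.mem_filter]
      constructor
      · rintro ⟨⟨h2, _⟩, h3⟩
        exact ⟨h2, h3⟩
      · rintro ⟨h2, h3⟩
        refine ⟨⟨h2, ?_⟩, h3⟩
        rw [hP, h3]; exact ht.2
    · intro n hn
      simp only [Finset.coe_filter, Set.mem_ofPred_eq, Finset.mem_Icc, Finset.mem_range] at hn ⊢
      exact ⟨Nat.mod_lt _ hD, (hP n).mp hn.2⟩
  have h2 : (((Finset.range D).filter P).card : ℝ) / D * N = ∑ t ∈ (Finset.range D).filter P, (N : ℝ) / D := by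
    rw [Finset.sum_const, nsmul_eq_mul]; ring
  rw [h1, h2, ← Finset.sum_sub_distrib]
  calc |∑ t ∈ (Finset.range D).filter P, ((((Finset.Icc 1 N).filter (fun n => n % D = t)).card : ℝ) - (N : ℝ) / D)|
      ≤ ∑ t ∈ (Finset.range D).filter P, |(((Finset.Icc 1 N).filter (fun n => n % D = t)).card : ℝ) - (N : ℝ) / D| :=
        Finset.abs_sum_le_sum_abs _ _
    _ ≤ ∑ t ∈ (Finset.range D).filter P, (1 : ℝ) := by
        apply Finset.sum_le_sum
        intro t ht
        rw [Finset.mem_filter, Finset.mem_range] at ht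
        rw [abs_le]
        have h3 := class_count D N t hD
        have h4 := class_count_lower D N t ht.1
        constructor <;> linarith
    _ = _ := by simp

/-- the polynomial `m (m + h) (m + d)` -/
def ff (h d m : ℕ) : ℕ := m * (m + h) * (m + d)

lemma ff_strictMono (h d : ℕ) : StrictMono (ff h d) := by
  intro m n hmn
  unfold ff
  have h1 : m + h < n + h := by omega
  have h2 : m + d < n + d := by omega
  have h3 : m * (m + h) ≤ n * (n + h) := Nat.mul_le_mul hmn.le h1.le
  calc m * (m + h) * (m + d) ≤ n * (n + h) * (m + d) := Nat.mul_le_mul_right _ h3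
    _ < n * (n + h) * (n + d) := by
      apply Nat.mul_lt_mul_of_pos_left h2
      apply Nat.mul_pos <;> omega

lemma prime_dvd_ff {p : ℕ} (hp : p.Prime) (h d m : ℕ) : p ∣ ff h d m ↔ (p ∣ m + 0 ∨ p ∣ m + h ∨ p ∣ m + d) := by
  unfold ff
  rw [hp.dvd_mul, hp.dvd_mul, add_zero]
  tauto

/-- the local densities as an arithmetic function -/
noncomputable def nuf (h d : ℕ) : ArithmeticFunction ℝ :=
  ArithmeticFunction.prodPrimeFactors (fun p => (nu 0 h d p : ℝ) / p)

lemma nuf_apply (h d : ℕ) {n : ℕ} (hn : n ≠ 0) : nuf h d n = ∏ p ∈ n.primeFactors, (nu 0 h d p : ℝ) / p := by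
  unfold nuf
  rw [ArithmeticFunction.prodPrimeFactors_apply hn]

lemma nuf_prime (h d : ℕ) {p : ℕ} (hp : p.Prime) : nuf h d p = (nu 0 h d p : ℝ) / p := by
  rw [nuf_apply h d hp.ne_zero, hp.primeFactors, Finset.prod_singleton]

lemma count_dvd_ff (h d : ℕ) {D : ℕ} (hD : Squarefree D) :
    ((Finset.range D).filter (fun t => D ∣ ff h d t)).card = ∏ p ∈ D.primeFactors, nu 0 h d p := by
  have h1 : ∏ p ∈ D.primeFactors, p = D := Nat.prod_primeFactors_of_squarefree hD
  have h2 := card_crt D.primeFactors (fun p hp => Nat.prime_of_mem_primeFactors hp)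
    (fun p t => p ∣ t + 0 ∨ p ∣ t + h ∨ p ∣ t + d) (by
      intro p _ t
      have key : ∀ s : ℕ, p ∣ t + s ↔ p ∣ t % p + s := by
        intro s
        exact ((Nat.mod_modEq t p).symm.add_right s).dvd_iff dvd_rfl
      rw [← key, ← key, ← key])
  rw [h1] at h2
  have h3 : (Finset.range D).filter (fun t => D ∣ ff h d t)
      = (Finset.range D).filter (fun t => ∀ p ∈ D.primeFactors, (p ∣ t + 0 ∨ p ∣ t + h ∨ p ∣ t + d)) := by
    apply Finset.filter_congr
    intro t _
    constructor
    · intro h4 p hp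
      rw [← prime_dvd_ff (Nat.prime_of_mem_primeFactors hp)]
      exact (Nat.dvd_of_mem_primeFactors hp).trans h4
    · intro h4
      rw [← h1]
      apply Finset.prod_primes_dvd
      · intro p hp
        exact (Nat.prime_of_mem_primeFactors hp).prime
      · intro p hp
        rw [prime_dvd_ff (Nat.prime_of_mem_primeFactors hp)]
        exact h4 p hp
  rw [h3, h2]
  apply Finset.prod_congr rfl
  intro p hp
  exact card_hit 0 h d (Nat.prime_of_mem_primeFactors hp).pos

lemma squarefree_WW (z : ℕ) : Squarefree (WW z) := by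
  unfold WW
  apply Finset.squarefree_prod_of_pairwise_isCoprime
  · intro p hp q hq hpq
    show IsRelPrime p q
    rw [← Nat.coprime_iff_isRelPrime]
    exact (Nat.coprime_primes (mem_PP.mp hp).2 (mem_PP.mp hq).2).mpr hpq
  · intro p hp
    exact (mem_PP.mp hp).2.squarefree

lemma primeFactors_WW (z : ℕ) : (WW z).primeFactors = PP z :=
  Nat.primeFactors_prod (fun _ hp => (mem_PP.mp hp).2)

/-- the sieve problem -/
noncomputable def sv (h d N z : ℕ) (hadm : ∀ p : ℕ, p.Prime → nu 0 h d p < p) : BoundingSieve where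
  support := (Finset.Icc 1 N).image (ff h d)
  prodPrimes := WW z
  prodPrimes_squarefree := squarefree_WW z
  weights := fun _ => 1
  weights_nonneg := fun _ => zero_le_one
  totalMass := N
  nu := nuf h d
  nu_mult := by
    unfold nuf
    exact ArithmeticFunction.IsMultiplicative.prodPrimeFactors _
  nu_pos_of_prime := by
    intro p hp _
    rw [nuf_prime h d hp]
    have h1 : (1 : ℝ) ≤ nu 0 h d p := by exact_mod_cast nu_pos 0 h d p
    have h2 : (0 : ℝ) < p := by exact_mod_cast hp.pos
    positivity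
  nu_lt_one_of_prime := by
    intro p hp _
    rw [nuf_prime h d hp]
    have h2 : (0 : ℝ) < p := by exact_mod_cast hp.pos
    rw [div_lt_one h2]
    exact_mod_cast hadm p hp

open BoundingSieve in
lemma sv_multSum (h d N z : ℕ) (hadm : ∀ p : ℕ, p.Prime → nu 0 h d p < p) (D : ℕ) :
    (sv h d N z hadm).multSum D = (((Finset.Icc 1 N).filter (fun m => D ∣ ff h d m)).card : ℝ) := by
  unfold multSum
  show ∑ n ∈ (Finset.Icc 1 N).image (ff h d), (if D ∣ n then (1 : ℝ) else 0) = _
  rw [Finset.sum_image (fun m _ n _ hmn => (ff_strictMono h d).injective hmn), Finset.card_filter]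
  push_cast
  rfl

open BoundingSieve in
lemma sv_rem (h d N z : ℕ) (hadm : ∀ p : ℕ, p.Prime → nu 0 h d p < p) {D : ℕ} (hD : D ∣ WW z) :
    |(sv h d N z hadm).rem D| ≤ 3 ^ D.primeFactors.card := by
  have hsq : Squarefree D := Squarefree.squarefree_of_dvd hD (squarefree_WW z)
  have hD0 : 0 < D := Nat.pos_of_ne_zero hsq.ne_zero
  have h1 := count_residues N D hD0 (fun m => D ∣ ff h d m) (by
    intro m
    unfold ff
    apply Nat.ModEq.dvd_iff _ dvd_rfl
    have h2 : m ≡ m % D [MOD D] := (Nat.mod_modEq m D).symm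
    exact (h2.mul (h2.add_right h)).mul (h2.add_right d))
  rw [count_dvd_ff h d hsq] at h1
  unfold rem
  rw [sv_multSum]
  have h3 : (sv h d N z hadm).nu D * (sv h d N z hadm).totalMass
      = ((∏ p ∈ D.primeFactors, nu 0 h d p : ℕ) : ℝ) / D * N := by
    show nuf h d D * (N : ℝ) = _
    rw [nuf_apply h d hsq.ne_zero, Finset.prod_div_distrib]
    have h4 : (∏ p ∈ D.primeFactors, (p : ℝ)) = D := by
      rw [← Nat.cast_prod, Nat.prod_primeFactors_of_squarefree hsq]
    rw [h4]
    push_cast
    ring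
  rw [h3]
  refine h1.trans ?_
  push_cast
  calc ∏ p ∈ D.primeFactors, (nu 0 h d p : ℝ) ≤ ∏ p ∈ D.primeFactors, (3 : ℝ) := by
        apply Finset.prod_le_prod
        · intro p _; positivity
        · intro p _; exact_mod_cast nu_le_three 0 h d p
    _ = 3 ^ D.primeFactors.card := by rw [Finset.prod_const]

lemma sum_divisors_WW (z : ℕ) (F : ℕ → ℝ) (z' : ℕ) :
    ∑ l ∈ (Nat.divisors (WW z)).filter (fun l => l ≤ z'), F l
      = ∑ T ∈ (PP z).powerset, (if ∏ p ∈ T, p ≤ z' then F (∏ p ∈ T, p) else 0) := by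
  rw [Finset.sum_filter]
  apply Finset.sum_nbij' (i := fun l => l.primeFactors) (j := fun T => ∏ p ∈ T, p)
  · intro l hl
    rw [Nat.mem_divisors] at hl
    rw [Finset.mem_powerset, ← primeFactors_WW]
    exact Nat.primeFactors_mono hl.1 hl.2
  · intro T hT
    rw [Finset.mem_powerset] at hT
    rw [Nat.mem_divisors]
    exact ⟨Finset.prod_dvd_prod_of_subset _ _ _ hT, (WW_pos z).ne'⟩
  · intro l hl
    rw [Nat.mem_divisors] at hl
    exact Nat.prod_primeFactors_of_squarefree (Squarefree.squarefree_of_dvd hl.1 (squarefree_WW z))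
  · intro T hT
    rw [Finset.mem_powerset] at hT
    exact Nat.primeFactors_prod (fun p hp => (mem_PP.mp (hT hp)).2)
  · intro l hl
    rw [Nat.mem_divisors] at hl
    rw [Nat.prod_primeFactors_of_squarefree (Squarefree.squarefree_of_dvd hl.1 (squarefree_WW z))]

/-- the local Selberg weight -/
noncomputable def hf (h d p : ℕ) : ℝ := ((nu 0 h d p : ℝ) / p) * (1 - (nu 0 h d p : ℝ) / p)⁻¹

lemma sv_GG (h d N z : ℕ) (hadm : ∀ p : ℕ, p.Prime → nu 0 h d p < p) :
    Selb.GG (sv h d N z hadm) z = Op (PP z) (hf h d) one1 z := by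
  unfold Selb.GG Op
  show ∑ l ∈ (Nat.divisors (WW z)).filter (fun l => l ≤ z), (sv h d N z hadm).selbergTerms l = _
  rw [sum_divisors_WW]
  apply Finset.sum_congr rfl
  intro T hT
  rw [Finset.mem_powerset] at hT
  have hpr : ∀ p ∈ T, p.Prime := fun p hp => (mem_PP.mp (hT hp)).2
  have hpos : 0 < ∏ p ∈ T, p := Finset.prod_pos (fun p hp => (hpr p hp).pos)
  have h1 : (sv h d N z hadm).selbergTerms (∏ p ∈ T, p) = ∏ p ∈ T, hf h d p := by
    rw [BoundingSieve.selbergTerms_apply, Nat.primeFactors_prod hpr]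
    show nuf h d (∏ p ∈ T, p) * ∏ p ∈ T, (1 - nuf h d p)⁻¹ = _
    rw [nuf_apply h d hpos.ne', Nat.primeFactors_prod hpr, ← Finset.prod_mul_distrib]
    apply Finset.prod_congr rfl
    intro p hp
    rw [nuf_prime h d (hpr p hp)]
    rfl
  rw [h1]
  unfold one1
  by_cases h2 : ∏ p ∈ T, p ≤ z
  · rw [if_pos h2, if_pos (show 1 ≤ z / ∏ p ∈ T, p from Nat.div_pos h2 hpos), mul_one]
  · rw [if_neg h2, if_neg (by rw [Nat.div_eq_of_lt (not_le.mp h2)]; omega), mul_zero]

open BoundingSieve in
/-- Selberg's bound for triples -/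
lemma triple_selberg (h d N z : ℕ) (hz : 1 ≤ z) (hadm : ∀ p : ℕ, p.Prime → nu 0 h d p < p) :
    (((Finset.Icc 1 N).filter (fun m => m.Prime ∧ (m + h).Prime ∧ (m + d).Prime)).card : ℝ)
      ≤ z + N * (Op (PP z) (hf h d) one1 z)⁻¹
        + (∑ l ∈ (Nat.divisors (WW z)).filter (fun l => l ≤ z), (3 : ℝ) ^ l.primeFactors.card) ^ 2 := by
  have h1 := Selb.selberg_bound (s := sv h d N z hadm) (z := z) hz
  rw [sv_GG] at h1
  have h2 : ∑ d1 ∈ (Nat.divisors (sv h d N z hadm).prodPrimes).filter (fun l => l ≤ z),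
        ∑ d2 ∈ (Nat.divisors (sv h d N z hadm).prodPrimes).filter (fun l => l ≤ z), |(sv h d N z hadm).rem (d1.lcm d2)|
      ≤ (∑ l ∈ (Nat.divisors (WW z)).filter (fun l => l ≤ z), (3 : ℝ) ^ l.primeFactors.card) ^ 2 := by
    rw [pow_two, Finset.sum_mul_sum]
    apply Finset.sum_le_sum
    intro d1 hd1
    apply Finset.sum_le_sum
    intro d2 hd2
    have hd1' : d1 ∣ WW z := (Nat.mem_divisors.mp (Finset.mem_filter.mp hd1).1).1
    have hd2' : d2 ∣ WW z := (Nat.mem_divisors.mp (Finset.mem_filter.mp hd2).1).1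
    refine (sv_rem h d N z hadm (Nat.lcm_dvd hd1' hd2')).trans ?_
    rw [← pow_add]
    apply pow_le_pow_right₀ (by norm_num)
    have e1 : d1 ≠ 0 := ne_zero_of_dvd_ne_zero (WW_pos z).ne' hd1'
    have e2 : d2 ≠ 0 := ne_zero_of_dvd_ne_zero (WW_pos z).ne' hd2'
    refine le_trans (Finset.card_le_card ?_) (Finset.card_union_le _ _)
    intro p hp
    have hpp := Nat.prime_of_mem_primeFactors hp
    have hdvd := (Nat.dvd_of_mem_primeFactors hp).trans (Nat.lcm_dvd_mul d1 d2)
    rw [Finset.mem_union, Nat.mem_primeFactors, Nat.mem_primeFactors]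
    rcases (hpp.dvd_mul).mp hdvd with hd | hd
    · left; exact ⟨hpp, hd, e1⟩
    · right; exact ⟨hpp, hd, e2⟩
  have h3 : (((Finset.Icc 1 N).filter (fun m => m.Prime ∧ (m + h).Prime ∧ (m + d).Prime)).card : ℝ)
      ≤ z + (sv h d N z hadm).siftedSum := by
    have e1 : (sv h d N z hadm).siftedSum = (((Finset.Icc 1 N).filter (fun m => Nat.Coprime (WW z) (ff h d m))).card : ℝ) := by
      unfold siftedSum
      show ∑ n ∈ (Finset.Icc 1 N).image (ff h d), (if Nat.Coprime (WW z) n then (1 : ℝ) else 0) = _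
      rw [Finset.sum_image (fun m _ n _ hmn => (ff_strictMono h d).injective hmn), Finset.card_filter]
      push_cast
      rfl
    rw [e1]
    have e2 : (Finset.Icc 1 N).filter (fun m => m.Prime ∧ (m + h).Prime ∧ (m + d).Prime)
        ⊆ Finset.Icc 1 z ∪ (Finset.Icc 1 N).filter (fun m => Nat.Coprime (WW z) (ff h d m)) := by
      intro m hm
      rw [Finset.mem_filter, Finset.mem_Icc] at hm
      rw [Finset.mem_union, Finset.mem_Icc, Finset.mem_filter, Finset.mem_Icc]
      obtain ⟨hm1, hp1, hp2, hp3⟩ := hm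
      by_cases hmz : m ≤ z
      · left; exact ⟨hm1.1, hmz⟩
      · right
        refine ⟨hm1, ?_⟩
        rw [Nat.coprime_comm, coprime_WW]
        intro p hp hdvd
        have hpp := (mem_PP.mp hp).2
        have hpz := (mem_PP.mp hp).1
        rw [prime_dvd_ff hpp] at hdvd
        rcases hdvd with hd | hd | hd
        · rw [add_zero] at hd
          have := (Nat.prime_dvd_prime_iff_eq hpp hp1).mp hd
          omega
        · have := (Nat.prime_dvd_prime_iff_eq hpp hp2).mp hd
          omega
        · have := (Nat.prime_dvd_prime_iff_eq hpp hp3).mp hd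
          omega
    have e3 := (Finset.card_le_card e2).trans (Finset.card_union_le _ _)
    rw [Nat.card_Icc, Nat.add_sub_cancel] at e3
    exact_mod_cast e3
  have h4 : (sv h d N z hadm).totalMass = N := rfl
  rw [h4] at h1
  linarith

lemma pi3_le_count {x : ℝ} {d' d : ℕ} (hd : d' < d) :
    pi3 x d' d ≤ ((Finset.Icc 1 ⌊x⌋₊).filter (fun m => m.Prime ∧ (m + (d - d')).Prime ∧ (m + d).Prime)).card := by
  unfold pi3
  apply Finset.card_le_card_of_injOn (fun p => p - d)
  · intro p hp
    simp only [Finset.coe_filter, Set.mem_ofPred_eq, Finset.mem_Icc, Finset.mem_range] at hp ⊢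
    obtain ⟨h1, h2, h3, h4⟩ := hp
    have h5 := h3.two_le
    have e1 : p - d + (d - d') = p - d' := by omega
    have e2 : p - d + d = p := by omega
    rw [e1, e2]
    exact ⟨⟨by omega, by omega⟩, h3, h4, h2⟩
  · intro p hp q hq hpq
    simp only [Finset.coe_filter, Set.mem_ofPred_eq, Finset.mem_range] at hp hq
    have h1 := hp.2.2.1.two_le
    have h2 := hq.2.2.1.two_le
    have h3 : p - d = q - d := hpq
    omega

end Pool.Agent.H17
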