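import Mathlib
import Pool.Agent.H17.Upper
import Pool.Agent.H17.AvgMain

/-! Uniform upper bound for prime triples by Selberg's sieve: the constant 48. -/

set_option autoImplicit false

open Filter Topology

namespace Pool.Agent.H17

lemma one_sub_sum_le_prod {ι : Type*} (T : Finset ι) (f a : ι → ℝ) (ha0 : ∀ i ∈ T, 0 ≤ a i) (ha1 : ∀ i ∈ T, a i ≤ 1)
    (hf : ∀ i ∈ T, 1 - a i ≤ f i) : 1 - ∑ i ∈ T, a i ≤ ∏ i ∈ T, f i := by
  classical
  induction T using Finset.induction_on with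
  | empty => simp
  | insert i T hi ih =>
    rw [Finset.sum_insert hi, Finset.prod_insert hi]
    have h0 := ha0 i (Finset.mem_insert_self _ _)
    have h1 := ha1 i (Finset.mem_insert_self _ _)
    have h2 := hf i (Finset.mem_insert_self _ _)
    have ih' := ih (fun j hj => ha0 j (Finset.mem_insert_of_mem hj)) (fun j hj => ha1 j (Finset.mem_insert_of_mem hj))
      (fun j hj => hf j (Finset.mem_insert_of_mem hj))
    have h3 : 0 ≤ ∏ j ∈ T, f j := by
      apply Finset.prod_nonneg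
      intro j hj
      have := hf j (Finset.mem_insert_of_mem hj)
      have := ha1 j (Finset.mem_insert_of_mem hj)
      linarith
    have h4 : 0 ≤ ∑ j ∈ T, a j := Finset.sum_nonneg (fun j hj => ha0 j (Finset.mem_insert_of_mem hj))
    calc 1 - (a i + ∑ j ∈ T, a j) ≤ (1 - a i) * (1 - ∑ j ∈ T, a j) := by nlinarith
      _ ≤ (1 - a i) * ∏ j ∈ T, f j := by
        apply mul_le_mul_of_nonneg_left ih' (by linarith)
      _ ≤ f i * ∏ j ∈ T, f j := by
        apply mul_le_mul_of_nonneg_right h2 h3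

lemma sum_inv_sq_le {y : ℕ} (hy : 0 < y) (T : Finset ℕ) (hT : ∀ n ∈ T, y < n) :
    ∑ n ∈ T, (24 : ℝ) / (n : ℝ) ^ 2 ≤ (24 : ℝ) / (y : ℝ) := by
  have h1 : T ⊆ Finset.Ioc y (T.sup id + y) := by
    intro n hn
    rw [Finset.mem_Ioc]
    refine ⟨hT n hn, ?_⟩
    have : id n ≤ T.sup id := Finset.le_sup hn
    simp only [id] at this
    omega
  calc ∑ n ∈ T, 24 / (n : ℝ) ^ 2 ≤ ∑ n ∈ Finset.Ioc y (T.sup id + y), 24 / (n : ℝ) ^ 2 := by
        apply Finset.sum_le_sum_of_subset_of_nonneg h1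
        intro n _ _
        positivity
    _ = 24 * ∑ n ∈ Finset.Ioc y (T.sup id + y), ((n : ℝ) ^ 2)⁻¹ := by
        rw [Finset.mul_sum]
        apply Finset.sum_congr rfl
        intro n _
        rw [div_eq_mul_inv]
    _ ≤ 24 * ((y : ℝ)⁻¹ - ((T.sup id + y : ℕ) : ℝ)⁻¹) := by
        gcongr
        exact sum_Ioc_inv_sq_le_sub hy.ne' (by omega)
    _ ≤ 24 / y := by
        have : (0 : ℝ) ≤ ((T.sup id + y : ℕ) : ℝ)⁻¹ := by positivity
        rw [div_eq_mul_inv]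
        linarith

/-- inclusion of a set of primes -/
def toPrS (S1 : Finset ℕ) (hS1 : ∀ p ∈ S1, p.Prime) (p : {r // r ∈ S1}) : Nat.Primes := ⟨p.1, hS1 p.1 p.2⟩

/-- comparison of a finite product with the singular series -/
lemma prod_locf_le {a b c : ℕ} (hab : a < b) (hbc : b < c) {y : ℕ} (hy : 24 < y) (S1 : Finset ℕ)
    (hS1 : ∀ p ∈ S1, p.Prime)
    (h : ∀ p : ℕ, p.Prime → (p ≤ y ∨ p ∣ (b - a) * (c - b) * (c - a)) → p ∈ S1) :
    (1 - 24 / (y : ℝ)) * ∏ p ∈ S1, locf a b c p ≤ sing3 a b c := by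
  have hy0 : (0 : ℝ) < y := by exact_mod_cast (by omega : 0 < y)
  -- S1 as a finset of Nat.Primes
  set S1' : Finset Nat.Primes := S1.attach.image (toPrS S1 hS1) with hS1'
  have hmem : ∀ q : Nat.Primes, q ∈ S1' ↔ (q : ℕ) ∈ S1 := by
    intro q
    rw [hS1', Finset.mem_image]
    constructor
    · rintro ⟨r, _, rfl⟩
      exact r.2
    · intro hq
      exact ⟨⟨q, hq⟩, Finset.mem_attach _ _, rfl⟩
  have hprod : ∏ q ∈ S1', locf a b c q = ∏ p ∈ S1, locf a b c p := by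
    rw [hS1', Finset.prod_image]
    · exact Finset.prod_attach S1 (fun p => locf a b c p)
    · intro r _ s _ hrs
      apply Subtype.ext
      exact congrArg (fun q : Nat.Primes => (q : ℕ)) hrs
  unfold sing3
  have hP := (multipliable_locf hab hbc).hasProd
  apply ge_of_tendsto hP
  filter_upwards [eventually_ge_atTop S1'] with T hT
  rw [← Finset.prod_sdiff hT, hprod]
  apply mul_le_mul_of_nonneg_right _ (Finset.prod_nonneg (fun p hp => locf_nonneg a b c (hS1 p hp)))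
  have hout : ∀ q ∈ T \ S1', y < (q : ℕ) ∧ nu a b c q = 3 := by
    intro q hq
    rw [Finset.mem_sdiff, hmem] at hq
    constructor
    · by_contra hcon
      exact hq.2 (h q q.2 (Or.inl (not_lt.mp hcon)))
    · apply nu_eq_three hab hbc
      intro hd
      exact hq.2 (h q q.2 (Or.inr hd))
  have h1 := one_sub_sum_le_prod (T \ S1') (fun q : Nat.Primes => locf a b c q) (fun q : Nat.Primes => 24 / ((q : ℕ) : ℝ) ^ 2)
    (fun q _ => by positivity)
    (by
      intro q hq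
      have h2 : (y : ℝ) < (q : ℕ) := by exact_mod_cast (hout q hq).1
      have h3 : (24 : ℝ) < y := by exact_mod_cast hy
      have hq0 : (0 : ℝ) < ((q : ℕ) : ℝ) := by exact_mod_cast q.2.pos
      rw [div_le_one (by positivity)]
      nlinarith)
    (by
      intro q hq
      have h2 := abs_locf_sub_one_le q.2 (hout q hq).2
      rw [abs_le] at h2
      linarith [h2.1])
  refine le_trans ?_ h1
  have h2 : ∑ q ∈ T \ S1', (24 : ℝ) / ((q : ℕ) : ℝ) ^ 2 ≤ (24 : ℝ) / (y : ℝ) := by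
    have h3 := sum_inv_sq_le (y := y) (by omega) ((T \ S1').image (fun q : Nat.Primes => (q : ℕ))) (by
      intro n hn
      rw [Finset.mem_image] at hn
      obtain ⟨q, hq, rfl⟩ := hn
      exact (hout q hq).1)
    rw [Finset.sum_image (s := T \ S1') (g := fun q : Nat.Primes => (q : ℕ)) (f := fun n : ℕ => (24 : ℝ) / (n : ℝ) ^ 2)
      (fun q _ r _ hqr => Nat.Primes.coe_nat_injective hqr)] at h3
    exact h3
  linarith

lemma nu_le_two_of_dvd {a b c p : ℕ} (hab : a < b) (hbc : b < c) (hp : p.Prime)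
    (h : p ∣ (b - a) * (c - b) * (c - a)) : nu a b c p ≤ 2 := by
  rw [hp.dvd_mul, hp.dvd_mul] at h
  unfold nu
  simp only [Finset.image_insert, Finset.image_singleton]
  have key : ∀ {r s : ℕ}, r < s → p ∣ s - r → r % p = s % p := by
    intro r s hrs hd
    exact (Nat.modEq_iff_dvd' hrs.le).mpr hd
  rcases h with (h | h) | h
  · rw [key hab h, Finset.insert_eq_of_mem (by simp)]
    exact Finset.card_le_two
  · rw [key hbc h, Finset.pair_eq_singleton]
    exact Finset.card_le_two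
  · rw [key (hab.trans hbc) h, Finset.insert_eq_of_mem (by simp)]
    exact Finset.card_le_two

lemma one_le_locf {a b c p : ℕ} (hp : p.Prime) (hp3 : 3 ≤ p) (h : nu a b c p ≤ 2) : 1 ≤ locf a b c p := by
  unfold locf
  have h1 := one_sub_inv_pos hp
  have hp0 : (0 : ℝ) < p := by exact_mod_cast hp.pos
  rw [le_div_iff₀ (by positivity), one_mul]
  have h2 : (nu a b c p : ℝ) ≤ 2 := by exact_mod_cast h
  set t : ℝ := 1 / p with ht
  have ht0 : 0 < t := by positivity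
  have h3 : (nu a b c p : ℝ) / p ≤ 2 * t := by
    rw [ht, mul_one_div]; gcongr
  have ht1 : t ≤ 1 / 3 := by
    rw [ht]
    apply one_div_le_one_div_of_le (by norm_num)
    exact_mod_cast hp3
  nlinarith [mul_pos ht0 ht0, mul_nonneg ht0.le (show 0 ≤ 1 / 3 - t by linarith), pow_pos ht0 3]

lemma inv_le_locf {a b c p : ℕ} (hp : p.Prime) (h : nu a b c p < p) : (1 : ℝ) / p ≤ locf a b c p := by
  unfold locf
  have h1 := one_sub_inv_pos hp
  have hp0 : (0 : ℝ) < p := by exact_mod_cast hp.pos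
  have h2 : (nu a b c p : ℝ) + 1 ≤ p := by exact_mod_cast h
  have h3 : (1 : ℝ) / p ≤ 1 - (nu a b c p : ℝ) / p := by
    rw [le_sub_iff_add_le, ← add_div, div_le_one hp0]
    linarith
  have h4 : (1 - 1 / (p : ℝ)) ^ 3 ≤ 1 := by
    apply pow_le_one₀ h1.le
    have : (0 : ℝ) < 1 / p := by positivity
    linarith
  rw [le_div_iff₀ (by positivity)]
  calc (1 : ℝ) / p * (1 - 1 / (p : ℝ)) ^ 3 ≤ 1 / p * 1 := by gcongr
    _ = 1 / p := mul_one _
    _ ≤ _ := h3

/-- uniform positive lower bound for nonzero singular series -/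
noncomputable def c0 : ℝ := 1 / 2 * ∏ p ∈ PP 48, (1 : ℝ) / p

lemma c0_pos : 0 < c0 := by
  unfold c0
  apply mul_pos (by norm_num)
  apply Finset.prod_pos
  intro p hp
  have : (0 : ℝ) < p := by exact_mod_cast (mem_PP.mp hp).2.pos
  positivity

lemma c0_le_sing3 {a b c : ℕ} (hab : a < b) (hbc : b < c) (h : ∀ p : ℕ, p.Prime → nu a b c p < p) :
    c0 ≤ sing3 a b c := by
  have hΔ := delta_ne_zero hab hbc
  have h1 := prod_locf_le hab hbc (y := 48) (by norm_num) (PP 48 ∪ ((b - a) * (c - b) * (c - a)).primeFactors)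
    (by
      intro p hp
      rcases Finset.mem_union.mp hp with h | h
      · exact (mem_PP.mp h).2
      · exact Nat.prime_of_mem_primeFactors h)
    (by
      intro p hp h
      rw [Finset.mem_union, mem_PP, Nat.mem_primeFactors]
      rcases h with h | h
      · left; exact ⟨h, hp⟩
      · right; exact ⟨hp, h, hΔ⟩)
  refine le_trans ?_ h1
  unfold c0
  have h2 : ∏ p ∈ PP 48, (1 : ℝ) / p ≤ ∏ p ∈ PP 48 ∪ ((b - a) * (c - b) * (c - a)).primeFactors, locf a b c p := by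
    rw [← Finset.union_sdiff_self_eq_union, Finset.prod_union Finset.disjoint_sdiff]
    have h3 : ∏ p ∈ PP 48, (1 : ℝ) / p ≤ ∏ p ∈ PP 48, locf a b c p := by
      apply Finset.prod_le_prod
      · intro p _; positivity
      · intro p hp
        exact inv_le_locf (mem_PP.mp hp).2 (h p (mem_PP.mp hp).2)
    have h4 : 1 ≤ ∏ p ∈ ((b - a) * (c - b) * (c - a)).primeFactors \ PP 48, locf a b c p := by
      rw [← Finset.prod_const_one (s := ((b - a) * (c - b) * (c - a)).primeFactors \ PP 48) (M := ℝ)]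
      apply Finset.prod_le_prod (fun _ _ => zero_le_one)
      intro p hp
      rw [Finset.mem_sdiff, mem_PP, Nat.mem_primeFactors] at hp
      apply one_le_locf hp.1.1 _ (nu_le_two_of_dvd hab hbc hp.1.1 hp.1.2.1)
      by_contra hcon
      apply hp.2
      exact ⟨by omega, hp.1.1⟩
    have h5 : 0 ≤ ∏ p ∈ PP 48, locf a b c p := Finset.prod_nonneg (fun p hp => locf_nonneg a b c (mem_PP.mp hp).2)
    calc ∏ p ∈ PP 48, (1 : ℝ) / p ≤ ∏ p ∈ PP 48, locf a b c p := h3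
      _ = (∏ p ∈ PP 48, locf a b c p) * 1 := (mul_one _).symm
      _ ≤ _ := by gcongr
  have h6 : (1 : ℝ) - 24 / ((48 : ℕ) : ℝ) = 1 / 2 := by norm_num
  rw [h6]
  gcongr

lemma omega_bound {δ : ℝ} (hδ : 0 < δ) : ∃ C : ℝ, 0 < C ∧ ∀ n : ℕ, n ≠ 0 → (3 : ℝ) ^ n.primeFactors.card ≤ C * (n : ℝ) ^ δ := by
  set T : ℕ := ⌈(3 : ℝ) ^ (1 / δ)⌉₊ with hT
  refine ⟨3 ^ (T + 1), by positivity, fun n hn => ?_⟩
  have hbig : ∀ p : ℕ, T < p → (3 : ℝ) ≤ (p : ℝ) ^ δ := by
    intro p hp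
    have h1 : (3 : ℝ) ^ (1 / δ) ≤ p := (Nat.le_ceil _).trans (by exact_mod_cast hp.le)
    calc (3 : ℝ) = ((3 : ℝ) ^ (1 / δ)) ^ δ := by
          rw [← Real.rpow_mul (by norm_num), one_div, inv_mul_cancel₀ hδ.ne', Real.rpow_one]
      _ ≤ (p : ℝ) ^ δ := by gcongr
  have h1 : (3 : ℝ) ^ n.primeFactors.card = ∏ p ∈ n.primeFactors, (3 : ℝ) := by rw [Finset.prod_const]
  have h2 : ∏ p ∈ n.primeFactors, (3 : ℝ) ≤ ∏ p ∈ n.primeFactors, ((if p ≤ T then 3 else 1) * (p : ℝ) ^ δ) := by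
    apply Finset.prod_le_prod
    · intro p _; norm_num
    · intro p hp
      have hp1 : (1 : ℝ) ≤ p := by exact_mod_cast (Nat.prime_of_mem_primeFactors hp).one_lt.le
      split_ifs with h
      · have : (1 : ℝ) ≤ (p : ℝ) ^ δ := Real.one_le_rpow hp1 hδ.le
        linarith
      · rw [one_mul]
        exact hbig p (not_le.mp h)
  have h3 : ∏ p ∈ n.primeFactors, (if p ≤ T then (3 : ℝ) else 1) ≤ 3 ^ (T + 1) := by
    rw [Finset.prod_ite, Finset.prod_const_one, mul_one, Finset.prod_const]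
    apply pow_le_pow_right₀ (by norm_num)
    calc (n.primeFactors.filter (fun p => p ≤ T)).card ≤ (Finset.range (T + 1)).card := by
          apply Finset.card_le_card
          intro p hp
          rw [Finset.mem_filter] at hp
          rw [Finset.mem_range]
          omega
      _ = T + 1 := by simp
  have h4 : ∏ p ∈ n.primeFactors, (p : ℝ) ^ δ ≤ (n : ℝ) ^ δ := by
    rw [Real.finsetProd_rpow _ _ (fun p _ => by positivity)]
    apply Real.rpow_le_rpow (Finset.prod_nonneg (fun p _ => by positivity)) _ hδ.le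
    rw [← Nat.cast_prod]
    exact_mod_cast Nat.le_of_dvd (Nat.pos_of_ne_zero hn) (Nat.prod_primeFactors_dvd n)
  rw [h1]
  refine h2.trans ?_
  rw [Finset.prod_mul_distrib]
  apply mul_le_mul h3 h4 (Finset.prod_nonneg (fun p _ => by positivity)) (by positivity)

lemma one_add_hf {h d p : ℕ} (hp : p.Prime) (hadm : nu 0 h d p < p) :
    1 + hf h d p = (1 - (nu 0 h d p : ℝ) / p)⁻¹ := by
  have hp0 : (0 : ℝ) < p := by exact_mod_cast hp.pos
  have h1 : (nu 0 h d p : ℝ) / p < 1 := by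
    rw [div_lt_one hp0]; exact_mod_cast hadm
  have h2 : (1 : ℝ) - (nu 0 h d p : ℝ) / p ≠ 0 := by linarith
  unfold hf
  generalize (nu 0 h d p : ℝ) / p = t at h2 ⊢
  field_simp
  ring

lemma one_add_h1w {p : ℕ} (hp : p.Prime) : 1 + h1w p = ((1 - 1 / (p : ℝ)) ^ 3)⁻¹ := by
  have hp0 : (0 : ℝ) < p := by exact_mod_cast hp.pos
  have h2 : (2 : ℝ) ≤ p := by exact_mod_cast hp.two_le
  have h3 : (0 : ℝ) < (p : ℝ) - 1 := by linarith
  unfold h1w
  have h4 : (1 : ℝ) - 1 / p = (p - 1) / p := by field_simp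
  rw [h4]
  field_simp
  ring

lemma ratio_eq {h d p : ℕ} (hp : p.Prime) (hadm : nu 0 h d p < p) :
    (1 + hf h d p) / (1 + h1w p) = (locf 0 h d p)⁻¹ := by
  rw [one_add_hf hp hadm, one_add_h1w hp]
  unfold locf
  rw [inv_div, div_inv_eq_mul, inv_mul_eq_div]

lemma h1w_le_hf {h d p : ℕ} (hp : p.Prime) (hadm : nu 0 h d p < p) (h3 : nu 0 h d p = 3) : h1w p ≤ hf h d p := by
  have h1 := ratio_eq hp hadm
  have h2 := locf_le_one hp h3
  have h4 := locf_pos hp hadm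
  have h5 : 0 ≤ h1w p := h1w_nonneg hp
  have h6 : 1 ≤ (locf 0 h d p)⁻¹ := (one_le_inv₀ h4).mpr h2
  rw [← h1, le_div_iff₀ (by linarith)] at h6
  linarith

lemma hf_nonneg {h d p : ℕ} (hp : p.Prime) (hadm : nu 0 h d p < p) : 0 ≤ hf h d p := by
  have hp0 : (0 : ℝ) < p := by exact_mod_cast hp.pos
  have h1 : (nu 0 h d p : ℝ) / p < 1 := by
    rw [div_lt_one hp0]; exact_mod_cast hadm
  unfold hf
  have h2 : (0 : ℝ) < 1 - (nu 0 h d p : ℝ) / p := by linarith
  positivity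

/-- lower bound for the Selberg denominator -/
lemma Op_hf_lower {h d z y : ℕ} (h0 : 0 < h) (hd : h < d) (hy : 24 < y) (hadm : ∀ p : ℕ, p.Prime → nu 0 h d p < p)
    (hyz : y ≤ z) (hdz : d ≤ z) {v : ℝ} (hv1 : 1 ≤ v)
    (hv : v ≤ (z : ℝ) / (((h - 0) * (d - h) * (d - 0) * WW y : ℕ) : ℝ)) :
    (1 - 24 / (y : ℝ)) * (Real.log v) ^ 3 / 6 ≤ sing3 0 h d * Op (PP z) (hf h d) one1 z := by
  set Δ := (h - 0) * (d - h) * (d - 0) with hΔ
  have hΔ0 : Δ ≠ 0 := delta_ne_zero h0 hd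
  have hW := (WW_pos y).ne'
  have hm0 : Δ * WW y ≠ 0 := mul_ne_zero hΔ0 hW
  set S1 := (Δ * WW y).primeFactors with hS1
  have hS1p : ∀ p ∈ S1, p.Prime := fun p hp => Nat.prime_of_mem_primeFactors hp
  have hmemS1 : ∀ p : ℕ, p.Prime → (p ∈ S1 ↔ (p ≤ y ∨ p ∣ Δ)) := by
    intro p hp
    rw [hS1, Nat.mem_primeFactors]
    constructor
    · rintro ⟨_, h2, _⟩
      rcases (hp.dvd_mul).mp h2 with h3 | h3
      · right; exact h3
      · left
        have : p ∈ (WW y).primeFactors := by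
          rw [Nat.mem_primeFactors]; exact ⟨hp, h3, hW⟩
        rw [primeFactors_WW, mem_PP] at this
        exact this.1
    · intro h2
      refine ⟨hp, ?_, hm0⟩
      rcases h2 with h3 | h3
      · apply Dvd.dvd.mul_left
        unfold WW
        exact Finset.dvd_prod_of_mem _ (mem_PP.mpr ⟨h3, hp⟩)
      · exact Dvd.dvd.mul_right h3 _
  have hsub : S1 ⊆ PP z := by
    intro p hp
    have hpp := hS1p p hp
    rw [mem_PP]
    refine ⟨?_, hpp⟩
    rcases (hmemS1 p hpp).mp hp with h1 | h1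
    · omega
    · rw [hΔ, hpp.dvd_mul, hpp.dvd_mul] at h1
      rcases h1 with (h2 | h2) | h2
      · have := Nat.le_of_dvd (by omega) h2
        omega
      · have := Nat.le_of_dvd (by omega) h2
        omega
      · have := Nat.le_of_dvd (by omega) h2
        omega
  set S2 := PP z \ S1 with hS2
  have hunion : S1 ∪ S2 = PP z := Finset.union_sdiff_of_subset hsub
  have hdisj : Disjoint S1 S2 := Finset.disjoint_sdiff
  have hk : ∏ p ∈ S1, p ≤ Δ * WW y := by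
    apply Nat.le_of_dvd (Nat.pos_of_ne_zero hm0)
    exact Nat.prod_primeFactors_dvd _
  have hkpos : 0 < ∏ p ∈ S1, p := Finset.prod_pos (fun p hp => (hS1p p hp).pos)
  set v' : ℝ := (z : ℝ) / ((∏ p ∈ S1, p : ℕ) : ℝ) with hv'
  have hvv' : v ≤ v' := by
    refine hv.trans ?_
    rw [hv']
    apply div_le_div_of_nonneg_left (Nat.cast_nonneg _)
    · exact_mod_cast hkpos
    · exact_mod_cast hk
  have hcmp := G_compare (S1 := S1) (S2 := S2) hS1p (fun p hp => (mem_PP.mp (Finset.mem_sdiff.mp hp).1).2) hdisj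
    (h := hf h d) (fun p hp => hf_nonneg (hS1p p hp) (hadm p (hS1p p hp)))
    (by
      intro p hp
      rw [hS2, Finset.mem_sdiff, mem_PP] at hp
      have hpp := hp.1.2
      apply h1w_le_hf hpp (hadm p hpp)
      apply nu_eq_three h0 hd
      intro hdvd
      exact hp.2 ((hmemS1 p hpp).mpr (Or.inr hdvd)))
    (z := z) (v := v') hv' (hv1.trans hvv')
    (by
      intro p hp hpv
      rw [hunion, mem_PP]
      refine ⟨?_, hp⟩
      have h1 : v' ≤ z := by
        rw [hv']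
        apply div_le_self (Nat.cast_nonneg _)
        exact_mod_cast hkpos
      exact_mod_cast hpv.trans h1)
  rw [hunion] at hcmp
  have hprod : ∏ p ∈ S1, (1 + hf h d p) / (1 + h1w p) = (∏ p ∈ S1, locf 0 h d p)⁻¹ := by
    rw [← Finset.prod_inv_distrib]
    apply Finset.prod_congr rfl
    intro p hp
    exact ratio_eq (hS1p p hp) (hadm p (hS1p p hp))
  rw [hprod] at hcmp
  have hlocpos : 0 < ∏ p ∈ S1, locf 0 h d p :=
    Finset.prod_pos (fun p hp => locf_pos (hS1p p hp) (hadm p (hS1p p hp)))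
  have hS := prod_locf_le h0 hd hy S1 hS1p (fun p hp h1 => (hmemS1 p hp).mpr h1)
  have hOp : 0 ≤ Op (PP z) (hf h d) one1 z :=
    Op_nonneg (fun p hp => hf_nonneg (mem_PP.mp hp).2 (hadm p (mem_PP.mp hp).2)) one1_nonneg z
  have hlog : (Real.log v) ^ 3 ≤ (Real.log v') ^ 3 := by
    apply pow_le_pow_left₀ (Real.log_nonneg hv1)
    exact Real.log_le_log (by linarith) hvv'
  have hlog' : (Real.log v') ^ 3 / 6 ≤ (∏ p ∈ S1, locf 0 h d p) * Op (PP z) (hf h d) one1 z := by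
    have h1 := mul_le_mul_of_nonneg_left hcmp hlocpos.le
    rwa [← mul_assoc, mul_inv_cancel₀ hlocpos.ne', one_mul] at h1
  have hy24 : 0 ≤ 1 - 24 / (y : ℝ) := by
    have h1 : (24 : ℝ) < y := by exact_mod_cast hy
    rw [sub_nonneg, div_le_one (by linarith)]
    exact h1.le
  calc (1 - 24 / (y : ℝ)) * (Real.log v) ^ 3 / 6 = (1 - 24 / (y : ℝ)) * ((Real.log v) ^ 3 / 6) := by ring
    _ ≤ (1 - 24 / (y : ℝ)) * ((∏ p ∈ S1, locf 0 h d p) * Op (PP z) (hf h d) one1 z) := by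
        apply mul_le_mul_of_nonneg_left _ hy24
        linarith
    _ = ((1 - 24 / (y : ℝ)) * ∏ p ∈ S1, locf 0 h d p) * Op (PP z) (hf h d) one1 z := by ring
    _ ≤ sing3 0 h d * Op (PP z) (hf h d) one1 z := mul_le_mul_of_nonneg_right hS hOp

lemma sing3_reflect {d' d : ℕ} (hd : d' ≤ d) : sing3 0 (d - d') d = sing3 0 d' d := by
  unfold sing3
  apply tprod_congr
  intro p
  unfold locf
  have h1 := nu_shift (a := 0) (Nat.zero_le d') hd (p := (p : ℕ)) p.2.pos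
  rw [Nat.sub_zero] at h1
  rw [h1]

/-- uniform upper bound with the classical constant -/
theorem pi3_upper {ε : ℝ} (hε : 0 < ε) : ∃ X : ℝ, ∀ x : ℝ, X ≤ x → ∀ d' d : ℕ, 0 < d' → d' < d →
    (d : ℝ) ≤ (Real.log x) ^ 2 → (∀ p : ℕ, p.Prime → nu 0 d' d p < p) →
    (pi3 x d' d : ℝ) ≤ (48 + ε) * (sing3 0 d' d * x / (Real.log x) ^ 3) := by
  -- choice of δ
  have hcont : Tendsto (fun δ : ℝ => (48 + ε / 2) * (1 - 24 * δ) * (1 / 2 - 2 * δ) ^ 3) (𝓝[>] 0) (𝓝 (6 + ε / 16)) := by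
    have h1 : Tendsto (fun δ : ℝ => (48 + ε / 2) * (1 - 24 * δ) * (1 / 2 - 2 * δ) ^ 3) (𝓝 0)
        (𝓝 ((48 + ε / 2) * (1 - 24 * 0) * (1 / 2 - 2 * 0) ^ 3)) := by
      apply Continuous.tendsto
      fun_prop
    have h2 : (48 + ε / 2) * (1 - 24 * 0) * (1 / 2 - 2 * 0) ^ 3 = 6 + ε / 16 := by ring
    rw [h2] at h1
    exact h1.mono_left nhdsWithin_le_nhds
  have hlt : ∀ᶠ δ : ℝ in 𝓝[>] 0, δ < 1 / 100 := by
    have : ∀ᶠ δ : ℝ in 𝓝 0, δ < 1 / 100 := eventually_lt_nhds (by norm_num)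
    exact this.filter_mono nhdsWithin_le_nhds
  obtain ⟨δ, ⟨hδ6, hδ100⟩, hδ0⟩ := (((hcont.eventually_const_lt (show (6 : ℝ) < 6 + ε / 16 by linarith)).and hlt).and
    self_mem_nhdsWithin).exists
  have hδ : 0 < δ := hδ0
  set y : ℕ := max 25 ⌈1 / δ⌉₊ with hy
  have hy24 : 24 < y := lt_of_lt_of_le (by norm_num) (le_max_left _ _)
  have hyδ : 24 / (y : ℝ) ≤ 24 * δ := by
    have h1 : 1 / δ ≤ y := (Nat.le_ceil _).trans (by exact_mod_cast le_max_right _ _)
    have hy0 : (0 : ℝ) < y := by exact_mod_cast (by omega : 0 < y)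
    rw [div_le_iff₀ hy0]
    rw [div_le_iff₀ hδ] at h1
    linarith
  obtain ⟨C, hC0, hC⟩ := omega_bound hδ
  have hc0 := c0_pos
  -- large x
  have hev : ∀ᶠ x : ℝ in atTop, 1 ≤ Real.log x ∧ 1 ≤ x ∧ (2 * (WW y : ℝ)) * (Real.log x) ^ 6 ≤ x ^ δ
      ∧ (y : ℝ) + 1 ≤ x ^ (1 / 4 : ℝ) ∧ (Real.log x) ^ 2 + 1 ≤ x ^ (1 / 4 : ℝ)
      ∧ (Real.log x) ^ 3 * (x ^ (1 / 2 : ℝ) + C ^ 2 * x ^ (1 - δ)) ≤ (ε / 2) * c0 * x := by
    have e1 : Tendsto (fun x : ℝ => x ^ (1 / 4 : ℝ)) atTop atTop := tendsto_rpow_atTop (by norm_num)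
    have e2 : ∀ (k : ℕ) {s : ℝ}, 0 < s → Tendsto (fun x : ℝ => (Real.log x) ^ k / x ^ s) atTop (𝓝 0) := by
      intro k s hs
      have h3 := (isLittleO_log_rpow_rpow_atTop (k : ℝ) (s := s) hs).tendsto_div_nhds_zero
      refine h3.congr ?_
      intro x
      rw [Real.rpow_natCast]
    have hW0 : (0 : ℝ) < WW y := by exact_mod_cast WW_pos y
    have e3 := (e2 6 hδ).eventually_lt_const (show (0 : ℝ) < 1 / (2 * (WW y : ℝ)) by positivity)
    have e4 := (e2 2 (show (0 : ℝ) < 1 / 4 by norm_num)).eventually_lt_const (show (0 : ℝ) < 1 / 2 by norm_num)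
    have e5 := (e2 3 (show (0 : ℝ) < 1 / 2 by norm_num)).eventually_lt_const (show (0 : ℝ) < (ε / 2) * c0 / 2 by positivity)
    have e6 := (e2 3 hδ).eventually_lt_const (show (0 : ℝ) < (ε / 2) * c0 / (2 * C ^ 2) by positivity)
    filter_upwards [Real.tendsto_log_atTop.eventually_ge_atTop 1, eventually_ge_atTop 1, e3, e1.eventually_ge_atTop ((y : ℝ) + 1),
      e1.eventually_ge_atTop 2, e4, e5, e6] with x h1 h2 h3 h4 h5 h6 h7 h8
    have hx0 : 0 < x := by linarith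
    refine ⟨h1, h2, ?_, h4, ?_, ?_⟩
    · rw [div_lt_div_iff₀ (by positivity) (by positivity)] at h3
      linarith
    · rw [div_lt_iff₀ (by positivity)] at h6
      linarith
    · rw [div_lt_iff₀ (by positivity)] at h7 h8
      have h9 : x ^ (1 / 2 : ℝ) * x ^ (1 / 2 : ℝ) = x := by
        rw [← Real.rpow_add hx0]; norm_num
      have h10 : x ^ δ * x ^ (1 - δ) = x := by
        rw [← Real.rpow_add hx0]; norm_num
      have h11 : 0 < x ^ (1 / 2 : ℝ) := by positivity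
      have h12 : 0 < x ^ (1 - δ) := by positivity
      calc (Real.log x) ^ 3 * (x ^ (1 / 2 : ℝ) + C ^ 2 * x ^ (1 - δ))
          = (Real.log x) ^ 3 * x ^ (1 / 2 : ℝ) + C ^ 2 * ((Real.log x) ^ 3 * x ^ (1 - δ)) := by ring
        _ ≤ ((ε / 2) * c0 / 2 * x ^ (1 / 2 : ℝ)) * x ^ (1 / 2 : ℝ) + C ^ 2 * (((ε / 2) * c0 / (2 * C ^ 2) * x ^ δ) * x ^ (1 - δ)) := by
            gcongr
        _ = (ε / 2) * c0 / 2 * (x ^ (1 / 2 : ℝ) * x ^ (1 / 2 : ℝ)) + C ^ 2 * ((ε / 2) * c0 / (2 * C ^ 2)) * (x ^ δ * x ^ (1 - δ)) := by ring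
        _ = (ε / 2) * c0 * x := by
            rw [h9, h10]
            field_simp
            ring
  obtain ⟨X, hX⟩ := eventually_atTop.mp hev
  refine ⟨X, fun x hx d' d hd'0 hd'd hdL hadm => ?_⟩
  obtain ⟨hL1, hx1, hlog6, hy4, hlog2, herr⟩ := hX x hx
  set L : ℝ := Real.log x with hL
  have hL0 : 0 < L := by linarith
  have hx0 : 0 < x := by linarith
  set h : ℕ := d - d' with hh
  have h0 : 0 < h := by omega
  have hhd : h < d := by omega
  have hnu : ∀ p : ℕ, p.Prime → nu 0 h d p = nu 0 d' d p := by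
    intro p hp
    have h1 := nu_shift (a := 0) (Nat.zero_le d') hd'd.le (p := p) hp.pos
    rw [Nat.sub_zero] at h1
    exact h1
  have hadm' : ∀ p : ℕ, p.Prime → nu 0 h d p < p := fun p hp => by rw [hnu p hp]; exact hadm p hp
  set z : ℕ := ⌊x ^ (1 / 2 - δ)⌋₊ with hz
  have hzle : (z : ℝ) ≤ x ^ (1 / 2 - δ) := Nat.floor_le (by positivity)
  have hzgt : x ^ (1 / 2 - δ) < (z : ℝ) + 1 := Nat.lt_floor_add_one _
  have hquarter : x ^ (1 / 4 : ℝ) ≤ x ^ (1 / 2 - δ) := by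
    apply Real.rpow_le_rpow_of_exponent_le hx1
    linarith
  have hyz : y ≤ z := Nat.le_floor (by linarith)
  have hdz : d ≤ z := Nat.le_floor (by linarith)
  have hz1 : 1 ≤ z := by omega
  have hz1' : (1 : ℝ) ≤ z := by exact_mod_cast hz1
  have hzhalf : x ^ (1 / 2 - δ) / 2 ≤ z := by linarith
  -- v
  set v : ℝ := x ^ (1 / 2 - 2 * δ) with hv
  have hv1 : 1 ≤ v := Real.one_le_rpow hx1 (by linarith)
  have hΔ := delta_le h0 hhd hdL
  have hΔpos : (0 : ℝ) < (((h - 0) * (d - h) * (d - 0) : ℕ) : ℝ) := by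
    exact_mod_cast Nat.pos_of_ne_zero (delta_ne_zero h0 hhd)
  have hWpos : (0 : ℝ) < WW y := by exact_mod_cast WW_pos y
  have hvz : v ≤ (z : ℝ) / (((h - 0) * (d - h) * (d - 0) * WW y : ℕ) : ℝ) := by
    rw [Nat.cast_mul, le_div_iff₀ (by positivity)]
    have h1 : (((h - 0) * (d - h) * (d - 0) : ℕ) : ℝ) * (WW y : ℝ) ≤ x ^ δ / 2 := by
      have h2 : (L ^ 2) ^ 3 = L ^ 6 := by ring
      rw [h2] at hΔ
      have h3 : (((h - 0) * (d - h) * (d - 0) : ℕ) : ℝ) * (WW y : ℝ) ≤ L ^ 6 * (WW y : ℝ) := by gcongr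
      linarith
    calc v * ((((h - 0) * (d - h) * (d - 0) : ℕ) : ℝ) * (WW y : ℝ)) ≤ v * (x ^ δ / 2) := by gcongr
      _ = x ^ (1 / 2 - δ) / 2 := by
        rw [hv, ← mul_div_assoc, ← Real.rpow_add hx0]
        congr 2
        ring
      _ ≤ z := hzhalf
  have hlogv : Real.log v = (1 / 2 - 2 * δ) * L := by rw [hv, Real.log_rpow hx0]
  have hOpl := Op_hf_lower h0 hhd hy24 hadm' hyz hdz hv1 hvz
  rw [hlogv] at hOpl
  have hS : c0 ≤ sing3 0 h d := c0_le_sing3 h0 hhd hadm'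
  have hSpos : 0 < sing3 0 h d := lt_of_lt_of_le hc0 hS
  set G := Op (PP z) (hf h d) one1 z with hG
  have hG1 : (1 - 24 * δ) * (1 / 2 - 2 * δ) ^ 3 * L ^ 3 / 6 ≤ sing3 0 h d * G := by
    refine le_trans ?_ hOpl
    rw [mul_pow, ← mul_assoc]
    have h1 : 0 ≤ (1 / 2 - 2 * δ) ^ 3 := by
      apply pow_nonneg; linarith
    gcongr
  have hcoef : 6 < (48 + ε / 2) * ((1 - 24 * δ) * (1 / 2 - 2 * δ) ^ 3) := by
    have : (48 + ε / 2) * ((1 - 24 * δ) * (1 / 2 - 2 * δ) ^ 3) = (48 + ε / 2) * (1 - 24 * δ) * (1 / 2 - 2 * δ) ^ 3 := by ring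
    rw [this]; exact hδ6
  have hGpos : 0 < G := by
    have h1 : 0 < (1 - 24 * δ) * (1 / 2 - 2 * δ) ^ 3 := by
      by_contra hcon
      push Not at hcon
      have : (48 + ε / 2) * ((1 - 24 * δ) * (1 / 2 - 2 * δ) ^ 3) ≤ 0 :=
        mul_nonpos_of_nonneg_of_nonpos (by linarith) hcon
      linarith
    have h2 : 0 < sing3 0 h d * G := lt_of_lt_of_le (by positivity) hG1
    exact (mul_pos_iff_of_pos_left hSpos).mp h2
  have hmain : x * G⁻¹ ≤ (48 + ε / 2) * (sing3 0 h d * x / L ^ 3) := by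
    rw [← div_eq_mul_inv, div_le_iff₀ hGpos]
    have h1 : L ^ 3 ≤ (48 + ε / 2) * (sing3 0 h d * G) := by
      have h2 : (48 + ε / 2) * ((1 - 24 * δ) * (1 / 2 - 2 * δ) ^ 3 * L ^ 3 / 6) ≤ (48 + ε / 2) * (sing3 0 h d * G) := by
        apply mul_le_mul_of_nonneg_left hG1 (by linarith)
      have h3 : (48 + ε / 2) * ((1 - 24 * δ) * (1 / 2 - 2 * δ) ^ 3 * L ^ 3 / 6)
          = ((48 + ε / 2) * ((1 - 24 * δ) * (1 / 2 - 2 * δ) ^ 3)) * (L ^ 3 / 6) := by ring
      have h4 : 6 * (L ^ 3 / 6) ≤ ((48 + ε / 2) * ((1 - 24 * δ) * (1 / 2 - 2 * δ) ^ 3)) * (L ^ 3 / 6) := by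
        apply mul_le_mul_of_nonneg_right hcoef.le (by positivity)
      linarith
    calc x = x / L ^ 3 * L ^ 3 := by field_simp
      _ ≤ x / L ^ 3 * ((48 + ε / 2) * (sing3 0 h d * G)) := by
          apply mul_le_mul_of_nonneg_left h1 (by positivity)
      _ = (48 + ε / 2) * (sing3 0 h d * x / L ^ 3) * G := by ring
  -- error terms
  have hsum : (∑ l ∈ (Nat.divisors (WW z)).filter (fun l => l ≤ z), (3 : ℝ) ^ l.primeFactors.card) ≤ C * x ^ ((1 - δ) / 2) := by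
    have h1 : (∑ l ∈ (Nat.divisors (WW z)).filter (fun l => l ≤ z), (3 : ℝ) ^ l.primeFactors.card)
        ≤ ∑ l ∈ (Nat.divisors (WW z)).filter (fun l => l ≤ z), C * (z : ℝ) ^ δ := by
      apply Finset.sum_le_sum
      intro l hl
      rw [Finset.mem_filter, Nat.mem_divisors] at hl
      have hl0 : l ≠ 0 := ne_zero_of_dvd_ne_zero (WW_pos z).ne' hl.1.1
      refine (hC l hl0).trans ?_
      have : (l : ℝ) ≤ z := by exact_mod_cast hl.2
      gcongr
    refine h1.trans ?_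
    rw [Finset.sum_const, nsmul_eq_mul]
    have h2 : ((Nat.divisors (WW z)).filter (fun l => l ≤ z)).card ≤ z := by
      calc _ ≤ (Finset.Icc 1 z).card := by
            apply Finset.card_le_card
            intro l hl
            rw [Finset.mem_filter, Nat.mem_divisors] at hl
            have hl0 : l ≠ 0 := ne_zero_of_dvd_ne_zero (WW_pos z).ne' hl.1.1
            rw [Finset.mem_Icc]
            exact ⟨Nat.pos_of_ne_zero hl0, hl.2⟩
        _ = z := by simp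
    have h3 : (((Nat.divisors (WW z)).filter (fun l => l ≤ z)).card : ℝ) ≤ z := by exact_mod_cast h2
    calc (((Nat.divisors (WW z)).filter (fun l => l ≤ z)).card : ℝ) * (C * (z : ℝ) ^ δ) ≤ z * (C * (z : ℝ) ^ δ) := by gcongr
      _ = C * ((z : ℝ) ^ (1 : ℝ) * (z : ℝ) ^ δ) := by rw [Real.rpow_one]; ring
      _ = C * (z : ℝ) ^ (1 + δ) := by rw [← Real.rpow_add (by linarith)]
      _ ≤ C * (x ^ (1 / 2 - δ)) ^ (1 + δ) := by gcongr
      _ = C * x ^ ((1 / 2 - δ) * (1 + δ)) := by rw [← Real.rpow_mul hx0.le]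
      _ ≤ C * x ^ ((1 - δ) / 2) := by
          apply mul_le_mul_of_nonneg_left _ hC0.le
          apply Real.rpow_le_rpow_of_exponent_le hx1
          nlinarith
  have hsum2 : (∑ l ∈ (Nat.divisors (WW z)).filter (fun l => l ≤ z), (3 : ℝ) ^ l.primeFactors.card) ^ 2 ≤ C ^ 2 * x ^ (1 - δ) := by
    have h1 : 0 ≤ (∑ l ∈ (Nat.divisors (WW z)).filter (fun l => l ≤ z), (3 : ℝ) ^ l.primeFactors.card) :=
      Finset.sum_nonneg (fun _ _ => by positivity)
    calc _ ≤ (C * x ^ ((1 - δ) / 2)) ^ 2 := by gcongr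
      _ = C ^ 2 * x ^ (1 - δ) := by
          rw [mul_pow, ← Real.rpow_natCast (x ^ ((1 - δ) / 2)) 2, ← Real.rpow_mul hx0.le]
          congr 2
          push_cast
          ring
  have hz' : (z : ℝ) ≤ x ^ (1 / 2 : ℝ) := by
    refine hzle.trans ?_
    apply Real.rpow_le_rpow_of_exponent_le hx1
    linarith
  have herr' : x ^ (1 / 2 : ℝ) + C ^ 2 * x ^ (1 - δ) ≤ (ε / 2) * (sing3 0 h d * x / L ^ 3) := by
    have h1 : x ^ (1 / 2 : ℝ) + C ^ 2 * x ^ (1 - δ) ≤ (ε / 2) * c0 * x / L ^ 3 := by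
      rw [le_div_iff₀ (by positivity)]
      linarith
    refine h1.trans ?_
    have h2 : (ε / 2) * c0 * x / L ^ 3 = (ε / 2) * (c0 * x / L ^ 3) := by ring
    rw [h2]
    gcongr
  -- assemble
  have hsel := triple_selberg h d ⌊x⌋₊ z hz1 hadm'
  have hcount : (pi3 x d' d : ℝ) ≤ (((Finset.Icc 1 ⌊x⌋₊).filter (fun m => m.Prime ∧ (m + h).Prime ∧ (m + d).Prime)).card : ℝ) := by
    exact_mod_cast pi3_le_count hd'd
  have hfloor : (⌊x⌋₊ : ℝ) * G⁻¹ ≤ x * G⁻¹ := by
    apply mul_le_mul_of_nonneg_right (Nat.floor_le hx0.le) (inv_nonneg.mpr hGpos.le)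
  rw [← sing3_reflect hd'd.le]
  have hfinal : (48 + ε) * (sing3 0 h d * x / L ^ 3) = (48 + ε / 2) * (sing3 0 h d * x / L ^ 3) + (ε / 2) * (sing3 0 h d * x / L ^ 3) := by ring
  rw [← hh, hfinal]
  linarith

end Pool.Agent.H17
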