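import Mathlib
import Pool.Agent.H17.TripleDefs
import Pool.Agent.H17.UpperMain

/-! Positive proportion of pairs satisfying the lower half of the uniform Hardy-Littlewood
conjecture for triples. -/

set_option autoImplicit false

open Filter Topology

namespace Pool.Agent.H17.Triple

lemma singularSeries_nonneg {a b c : ℕ} (hab : a < b) (hbc : b < c) : 0 ≤ singularSeries (c - b) (c - a) := by
  rw [singularSeries_eq hab hbc]
  exact sing3_nonneg hab hbc

lemma primeTriples_upper {ε : ℝ} (hε : 0 < ε) : ∃ X : ℝ, ∀ x : ℝ, X ≤ x → ∀ a b c : ℕ, a < b → b < c →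
    (c : ℝ) ≤ a + (Real.log x) ^ 2 → singularSeries (c - b) (c - a) ≠ 0 →
    (primeTriples x (c - b) (c - a) : ℝ) ≤ (48 + ε) * (singularSeries (c - b) (c - a) * x / (Real.log x) ^ 3) := by
  obtain ⟨X, hX⟩ := pi3_upper hε
  refine ⟨X, fun x hx a b c hab hbc hc hS => ?_⟩
  have hd : ((c - a : ℕ) : ℝ) ≤ (Real.log x) ^ 2 := by
    rw [Nat.cast_sub (hab.trans hbc).le]; linarith
  rw [singularSeries_eq hab hbc, sing3_ne_zero_iff hab hbc] at hS
  have hadm : ∀ p : ℕ, p.Prime → nu 0 (c - b) (c - a) p < p := by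
    intro p hp
    rw [nu_shift hab.le hbc.le hp.pos]
    exact hS p hp
  have h1 := hX x hx (c - b) (c - a) (by omega) (by omega) hd hadm
  have h2 : sing3 0 (c - b) (c - a) = sing3 a b c := by
    unfold sing3
    apply tprod_congr
    intro p
    unfold locf
    rw [nu_shift hab.le hbc.le p.2.pos]
  rw [h2, ← singularSeries_eq hab hbc] at h1
  exact h1

/-- weighted proportion -/
theorem weighted_proportion {ε : ℝ} (hε : 0 < ε) (hε1 : ε < 1) : ∃ K X : ℝ, ∀ x : ℝ, X ≤ x → ∀ A : Finset ℕ,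
    (∀ a ∈ A, ∀ b ∈ A, (b : ℝ) ≤ a + (Real.log x) ^ 2) →
    (K * (Real.log x) ^ 3 ≤ (A.card : ℝ) ^ 3 ∨
      K * (Real.log x) ^ 3 ≤ ∑ t ∈ triples A, singularSeries (t.2.2 - t.2.1) (t.2.2 - t.1)) →
    ε / 48 * ∑ t ∈ triples A, singularSeries (t.2.2 - t.2.1) (t.2.2 - t.1)
      ≤ ∑ t ∈ (triples A).filter (fun t => (1 - ε) * (singularSeries (t.2.2 - t.2.1) (t.2.2 - t.1) * x / (Real.log x) ^ 3)
          ≤ (primeTriples x (t.2.2 - t.2.1) (t.2.2 - t.1) : ℝ)), singularSeries (t.2.2 - t.2.1) (t.2.2 - t.1) := by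
  set e : ℝ := ε * (1 - ε) / 49 with he
  have h1ε : 0 < 1 - ε := by linarith
  have he0 : 0 < e := by positivity
  obtain ⟨K, X1, h1⟩ := average_lower e he0
  obtain ⟨X2, h2⟩ := primeTriples_upper he0
  refine ⟨K, max (max X1 X2) 2, fun x hx A hA hcard => ?_⟩
  have hx1 : X1 ≤ x := ((le_max_left _ _).trans (le_max_left _ _)).trans hx
  have hx2 : X2 ≤ x := ((le_max_right _ _).trans (le_max_left _ _)).trans hx
  have hx3 : 2 ≤ x := (le_max_right _ _).trans hx
  have hL0 : 0 < Real.log x := Real.log_pos (by linarith)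
  set L := Real.log x with hL
  set U : ℝ := x / L ^ 3 with hU
  have hU0 : 0 < U := by positivity
  have hmain := h1 x hx1 A hA hcard
  set S : ℕ × ℕ × ℕ → ℝ := fun t => singularSeries (t.2.2 - t.2.1) (t.2.2 - t.1) with hS
  set P : ℕ × ℕ × ℕ → ℝ := fun t => (primeTriples x (t.2.2 - t.2.1) (t.2.2 - t.1) : ℝ) with hP
  have hmem : ∀ t ∈ triples A, (t.1 ∈ A ∧ t.2.1 ∈ A ∧ t.2.2 ∈ A) ∧ t.1 < t.2.1 ∧ t.2.1 < t.2.2 ∧ S t ≠ 0 := by
    intro t ht
    unfold triples at ht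
    rw [Finset.mem_filter, Finset.mem_product, Finset.mem_product] at ht
    exact ⟨ht.1, ht.2.1, ht.2.2.1, ht.2.2.2⟩
  have hSU : ∀ t, S t * x / L ^ 3 = S t * U := fun t => by rw [hU]; ring
  have hm1 : (1 - e) * ((∑ t ∈ triples A, S t) * U) ≤ ∑ t ∈ triples A, P t := by
    refine le_trans (le_of_eq ?_) hmain
    rw [Finset.sum_mul]
    congr 1
    apply Finset.sum_congr rfl
    intro t _
    exact (hSU t).symm
  set G := (triples A).filter (fun t => (1 - ε) * (S t * x / L ^ 3) ≤ P t) with hG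
  set B := (triples A).filter (fun t => ¬ (1 - ε) * (S t * x / L ^ 3) ≤ P t) with hB
  have hsplitP : ∑ t ∈ triples A, P t = ∑ t ∈ G, P t + ∑ t ∈ B, P t :=
    (Finset.sum_filter_add_sum_filter_not _ _ _).symm
  have hsplitS : ∑ t ∈ triples A, S t = ∑ t ∈ G, S t + ∑ t ∈ B, S t :=
    (Finset.sum_filter_add_sum_filter_not _ _ _).symm
  have hGP : ∑ t ∈ G, P t ≤ (48 + e) * ((∑ t ∈ G, S t) * U) := by
    rw [Finset.sum_mul, Finset.mul_sum]
    apply Finset.sum_le_sum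
    intro t ht
    rw [hG, Finset.mem_filter] at ht
    obtain ⟨⟨ha, hb, hc⟩, hab, hbc, hne⟩ := hmem t ht.1
    have h3 := h2 x hx2 t.1 t.2.1 t.2.2 hab hbc (hA _ ha _ hc) hne
    rw [← hSU t]
    exact h3
  have hBP : ∑ t ∈ B, P t ≤ (1 - ε) * ((∑ t ∈ B, S t) * U) := by
    rw [Finset.sum_mul, Finset.mul_sum]
    apply Finset.sum_le_sum
    intro t ht
    rw [hB, Finset.mem_filter, not_le] at ht
    rw [← hSU t]
    exact ht.2.le
  have hBnn : 0 ≤ ∑ t ∈ B, S t := by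
    apply Finset.sum_nonneg
    intro t ht
    rw [hB, Finset.mem_filter] at ht
    obtain ⟨_, hab, hbc, _⟩ := hmem t ht.1
    exact singularSeries_nonneg hab hbc
  have hGnn : 0 ≤ ∑ t ∈ G, S t := by
    apply Finset.sum_nonneg
    intro t ht
    rw [hG, Finset.mem_filter] at ht
    obtain ⟨_, hab, hbc, _⟩ := hmem t ht.1
    exact singularSeries_nonneg hab hbc
  set g := ∑ t ∈ G, S t with hg
  set b := ∑ t ∈ B, S t with hb
  show ε / 48 * ∑ t ∈ triples A, S t ≤ g
  rw [hsplitS]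
  have h3 : (1 - e) * ((g + b) * U) ≤ (48 + e) * (g * U) + (1 - ε) * (b * U) := by
    rw [hsplitS, hsplitP] at hm1
    linarith
  have h4 : (1 - e) * (g + b) ≤ (48 + e) * g + (1 - ε) * b := by
    have h5 : ((1 - e) * (g + b)) * U ≤ ((48 + e) * g + (1 - ε) * b) * U := by linarith
    exact le_of_mul_le_mul_right h5 hU0
  -- (ε - e) (g + b) ≤ (47 + ε + e) g
  have h5 : (ε - e) * (g + b) ≤ (47 + ε + e) * g := by linarith
  have h6 : ε * (47 + ε + e) ≤ 48 * (ε - e) := by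
    rw [he]
    nlinarith [mul_pos hε h1ε, mul_pos hε (mul_pos hε h1ε)]
  have h7 : 0 < 47 + ε + e := by linarith
  have h8 : ε * (47 + ε + e) * (g + b) ≤ 48 * ((47 + ε + e) * g) := by
    calc ε * (47 + ε + e) * (g + b) ≤ 48 * (ε - e) * (g + b) := by
          apply mul_le_mul_of_nonneg_right h6 (by linarith)
      _ = 48 * ((ε - e) * (g + b)) := by ring
      _ ≤ 48 * ((47 + ε + e) * g) := by linarith
  have h9 : (47 + ε + e) * (ε / 48 * (g + b)) ≤ (47 + ε + e) * g := by linarith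
  exact le_of_mul_le_mul_left h9 h7

end Pool.Agent.H17.Triple
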