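import Mathlib
import Pool.Agent.H17.PosProp

/-! Positive proportion of pairs: counting version. -/

set_option autoImplicit false

open Filter Topology

namespace Pool.Agent.H17

/-- `(1 + 1/(p-1))^2` over the primes dividing `n` -/
noncomputable def FF2 (n : ℕ) : ℝ := ∏ p ∈ n.primeFactors, (1 + 1 / ((p : ℝ) - 1)) ^ 2

lemma one_le_fac {p : ℕ} (hp : p.Prime) : 1 ≤ 1 + 1 / ((p : ℝ) - 1) := by
  have : (2 : ℝ) ≤ p := by exact_mod_cast hp.two_le
  have h1 : (0 : ℝ) < (p : ℝ) - 1 := by linarith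
  have : 0 ≤ 1 / ((p : ℝ) - 1) := by positivity
  linarith

lemma one_le_fac2 {p : ℕ} (hp : p.Prime) : 1 ≤ (1 + 1 / ((p : ℝ) - 1)) ^ 2 := one_le_pow₀ (one_le_fac hp)

lemma locf_le_sq (a b c : ℕ) {p : ℕ} (hp : p.Prime) : locf a b c p ≤ (1 + 1 / ((p : ℝ) - 1)) ^ 2 := by
  have h1 := one_sub_inv_pos hp
  have hp0 : (0 : ℝ) < p := by exact_mod_cast hp.pos
  have hp2 : (2 : ℝ) ≤ p := by exact_mod_cast hp.two_le
  have hp1 : (0 : ℝ) < (p : ℝ) - 1 := by linarith
  unfold locf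
  have h3 : (1 : ℝ) ≤ nu a b c p := by exact_mod_cast nu_pos a b c p
  calc (1 - (nu a b c p : ℝ) / (p : ℝ)) / (1 - 1 / (p : ℝ)) ^ 3
      ≤ (1 - 1 / (p : ℝ)) / (1 - 1 / (p : ℝ)) ^ 3 := by gcongr
    _ = (1 + 1 / ((p : ℝ) - 1)) ^ 2 := by
        have h4 : (1 : ℝ) - 1 / p = (p - 1) / p := by field_simp
        rw [h4]
        field_simp
        ring

lemma sing3_le_FF2 {a b c : ℕ} (hab : a < b) (hbc : b < c) :
    sing3 a b c ≤ FF2 ((b - a) * (c - b) * (c - a)) := by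
  have hΔ := delta_ne_zero hab hbc
  set Δ := (b - a) * (c - b) * (c - a) with hΔd
  unfold sing3
  have h := (multipliable_locf hab hbc).hasProd
  apply le_of_tendsto' h
  intro T
  calc ∏ q ∈ T, locf a b c q ≤ ∏ q ∈ T, (if (q : ℕ) ∣ Δ then (1 + 1 / (((q : ℕ) : ℝ) - 1)) ^ 2 else 1) := by
        apply Finset.prod_le_prod
        · intro q _; exact locf_nonneg a b c q.2
        · intro q _
          split_ifs with hd
          · exact locf_le_sq a b c q.2
          · exact locf_le_one q.2 (nu_eq_three hab hbc hd)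
    _ = ∏ q ∈ T.filter (fun q : Nat.Primes => (q : ℕ) ∣ Δ), (1 + 1 / (((q : ℕ) : ℝ) - 1)) ^ 2 := by
        rw [Finset.prod_filter]
    _ = ∏ p ∈ (T.filter (fun q : Nat.Primes => (q : ℕ) ∣ Δ)).image (fun q : Nat.Primes => (q : ℕ)), (1 + 1 / ((p : ℝ) - 1)) ^ 2 := by
        rw [Finset.prod_image (s := T.filter (fun q : Nat.Primes => (q : ℕ) ∣ Δ)) (g := fun q : Nat.Primes => (q : ℕ))
          (f := fun p : ℕ => (1 + 1 / ((p : ℝ) - 1)) ^ 2) (fun q _ r _ hqr => Nat.Primes.coe_nat_injective hqr)]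
    _ ≤ FF2 Δ := by
        unfold FF2
        apply Finset.prod_le_prod_of_subset_of_one_le
        · intro p hp
          rw [Finset.mem_image] at hp
          obtain ⟨q, hq, rfl⟩ := hp
          rw [Finset.mem_filter] at hq
          rw [Nat.mem_primeFactors]
          exact ⟨q.2, hq.2, hΔ⟩
        · intro p hp
          rw [Finset.mem_image] at hp
          obtain ⟨q, hq, rfl⟩ := hp
          exact zero_le_one.trans (one_le_fac2 q.2)
        · intro p hp _
          exact one_le_fac2 (Nat.prime_of_mem_primeFactors hp)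

lemma FF2_nonneg (n : ℕ) : 0 ≤ FF2 n :=
  Finset.prod_nonneg (fun p _ => by positivity)

lemma FF2_mul_le {m n : ℕ} (hm : m ≠ 0) (hn : n ≠ 0) : FF2 (m * n) ≤ FF2 m * FF2 n := by
  unfold FF2
  rw [Nat.primeFactors_mul hm hn, ← Finset.union_sdiff_self_eq_union, Finset.prod_union Finset.disjoint_sdiff]
  apply mul_le_mul_of_nonneg_left _ (Finset.prod_nonneg (fun p _ => by positivity))
  apply Finset.prod_le_prod_of_subset_of_one_le Finset.sdiff_subset
  · intro p hp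
    positivity
  · intro p hp _
    exact one_le_fac2 (Nat.prime_of_mem_primeFactors hp)

lemma amgm3 {x y z : ℝ} (hx : 0 ≤ x) (hy : 0 ≤ y) (hz : 0 ≤ z) : x * y * z ≤ (x ^ 3 + y ^ 3 + z ^ 3) / 3 := by
  nlinarith [mul_nonneg (add_nonneg (add_nonneg hx hy) hz) (add_nonneg (add_nonneg (sq_nonneg (x - y)) (sq_nonneg (y - z))) (sq_nonneg (x - z)))]

lemma sing3_sq_le {a b c : ℕ} (hab : a < b) (hbc : b < c) :
    (sing3 a b c) ^ 2 ≤ (FF2 (b - a) ^ 6 + FF2 (c - b) ^ 6 + FF2 (c - a) ^ 6) / 3 := by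
  have h1 : b - a ≠ 0 := by omega
  have h2 : c - b ≠ 0 := by omega
  have h3 : c - a ≠ 0 := by omega
  have h4 : sing3 a b c ≤ FF2 (b - a) * FF2 (c - b) * FF2 (c - a) := by
    refine (sing3_le_FF2 hab hbc).trans ?_
    refine (FF2_mul_le (mul_ne_zero h1 h2) h3).trans ?_
    exact mul_le_mul_of_nonneg_right (FF2_mul_le h1 h2) (FF2_nonneg _)
  have h5 := amgm3 (sq_nonneg (FF2 (b - a))) (sq_nonneg (FF2 (c - b))) (sq_nonneg (FF2 (c - a)))
  calc (sing3 a b c) ^ 2 ≤ (FF2 (b - a) * FF2 (c - b) * FF2 (c - a)) ^ 2 :=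
        pow_le_pow_left₀ (sing3_nonneg hab hbc) h4 2
    _ = FF2 (b - a) ^ 2 * FF2 (c - b) ^ 2 * FF2 (c - a) ^ 2 := by ring
    _ ≤ _ := h5
    _ = _ := by ring

lemma pow12_le {t : ℝ} (h0 : 0 ≤ t) (h1 : t ≤ 1) : (1 + t) ^ 12 - 1 ≤ 4095 * t := by
  have h2 : ∀ n : ℕ, 1 ≤ n → (1 + t) ^ n - 1 ≤ (2 ^ n - 1) * t := by
    intro n hn
    induction n, hn using Nat.le_induction with
    | base => norm_num
    | succ n hn ih =>
      have h3 : (1 : ℝ) ≤ 2 ^ n := one_le_pow₀ (by norm_num)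
      have h4 : (1 + t) ^ (n + 1) - 1 = (1 + t) * ((1 + t) ^ n - 1) + t := by ring
      rw [h4]
      calc (1 + t) * ((1 + t) ^ n - 1) + t ≤ (1 + t) * ((2 ^ n - 1) * t) + t := by gcongr
        _ ≤ (1 + 1) * ((2 ^ n - 1) * t) + t := by
            have : 0 ≤ (2 ^ n - 1) * t := mul_nonneg (by linarith) h0
            gcongr
        _ = (2 ^ (n + 1) - 1) * t := by ring
  have h3 := h2 12 (by norm_num)
  norm_num at h3 ⊢
  linarith

/-- mean value of `FF2 n ^ 6` -/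
lemma sum_FF2_le (H : ℕ) : ∑ n ∈ Finset.Icc 1 H, FF2 n ^ 6 ≤ Real.exp 16380 * H := by
  set g : ℕ → ℝ := fun p => (1 + 1 / ((p : ℝ) - 1)) ^ 12 - 1 with hg
  have hg0 : ∀ p : ℕ, p.Prime → 0 ≤ g p := by
    intro p hp
    have := one_le_pow₀ (n := 12) (one_le_fac hp)
    simp only [hg]
    linarith
  have hgle : ∀ p : ℕ, p.Prime → g p ≤ 8190 / p := by
    intro p hp
    have h2 : (2 : ℝ) ≤ p := by exact_mod_cast hp.two_le
    have h1 : (0 : ℝ) < (p : ℝ) - 1 := by linarith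
    have h3 : 1 / ((p : ℝ) - 1) ≤ 2 / p := by
      rw [div_le_div_iff₀ h1 (by linarith)]; linarith
    have h4 : 1 / ((p : ℝ) - 1) ≤ 1 := by
      rw [div_le_one h1]; linarith
    have h5 := pow12_le (t := 1 / ((p : ℝ) - 1)) (by positivity) h4
    calc g p ≤ 4095 * (1 / ((p : ℝ) - 1)) := h5
      _ ≤ 4095 * (2 / p) := by gcongr
      _ = 8190 / p := by ring
  have h1 : ∀ n ∈ Finset.Icc 1 H, FF2 n ^ 6 = ∑ T ∈ (PP H).powerset, (if (∏ p ∈ T, p) ∣ n then ∏ p ∈ T, g p else 0) := by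
    intro n hn
    rw [Finset.mem_Icc] at hn
    have e1 : FF2 n ^ 6 = ∏ p ∈ n.primeFactors, (1 + g p) := by
      unfold FF2
      rw [← Finset.prod_pow]
      apply Finset.prod_congr rfl
      intro p _
      simp only [hg]
      ring
    rw [e1, Finset.prod_one_add, ← Finset.sum_filter]
    apply Finset.sum_congr _ (fun _ _ => rfl)
    ext T
    rw [Finset.mem_powerset, Finset.mem_filter, Finset.mem_powerset]
    constructor
    · intro hT
      refine ⟨?_, ?_⟩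
      · intro p hp
        have := hT hp
        rw [mem_PP]
        exact ⟨(Nat.le_of_mem_primeFactors this).trans hn.2, Nat.prime_of_mem_primeFactors this⟩
      · exact (Finset.prod_dvd_prod_of_subset _ _ _ hT).trans (Nat.prod_primeFactors_dvd n)
    · rintro ⟨hT, hd⟩ p hp
      rw [Nat.mem_primeFactors]
      exact ⟨(mem_PP.mp (hT hp)).2, (Finset.dvd_prod_of_mem _ hp).trans hd, by omega⟩
  rw [Finset.sum_congr rfl h1, Finset.sum_comm]
  have h2 : ∀ T ∈ (PP H).powerset, ∑ n ∈ Finset.Icc 1 H, (if (∏ p ∈ T, p) ∣ n then ∏ p ∈ T, g p else 0)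
      ≤ H * ∏ p ∈ T, (g p / p) := by
    intro T hT
    rw [Finset.mem_powerset] at hT
    have hgT : 0 ≤ ∏ p ∈ T, g p := Finset.prod_nonneg (fun p hp => hg0 p (mem_PP.mp (hT hp)).2)
    rw [← Finset.sum_filter, Finset.sum_const, nsmul_eq_mul]
    have e1 : ((Finset.Icc 1 H).filter (fun n => (∏ p ∈ T, p) ∣ n)).card = H / ∏ p ∈ T, p := by
      have e2 := Nat.Ioc_filter_dvd_card_eq_div H (∏ p ∈ T, p)
      rw [← e2]
      rfl
    rw [e1, Finset.prod_div_distrib]
    have e3 : ((H / ∏ p ∈ T, p : ℕ) : ℝ) ≤ (H : ℝ) / ∏ p ∈ T, (p : ℝ) := by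
      have := Nat.cast_div_le (α := ℝ) (m := H) (n := ∏ p ∈ T, p)
      rwa [Nat.cast_prod] at this
    calc ((H / ∏ p ∈ T, p : ℕ) : ℝ) * ∏ p ∈ T, g p ≤ ((H : ℝ) / ∏ p ∈ T, (p : ℝ)) * ∏ p ∈ T, g p := by gcongr
      _ = _ := by ring
  refine (Finset.sum_le_sum h2).trans ?_
  rw [← Finset.mul_sum, mul_comm]
  apply mul_le_mul_of_nonneg_right _ (Nat.cast_nonneg H)
  rw [← Finset.prod_one_add]
  calc ∏ p ∈ PP H, (1 + g p / p) ≤ ∏ p ∈ PP H, Real.exp (g p / p) := by
        apply Finset.prod_le_prod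
        · intro p hp
          have := hg0 p (mem_PP.mp hp).2
          positivity
        · intro p _
          have := Real.add_one_le_exp (g p / p)
          linarith
    _ = Real.exp (∑ p ∈ PP H, g p / p) := by rw [Real.exp_sum]
    _ ≤ Real.exp 16380 := by
        apply Real.exp_le_exp.mpr
        calc ∑ p ∈ PP H, g p / p ≤ ∑ p ∈ PP H, 8190 * ((p : ℝ) ^ 2)⁻¹ := by
              apply Finset.sum_le_sum
              intro p hp
              have hpp := (mem_PP.mp hp).2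
              have hp0 : (0 : ℝ) < p := by exact_mod_cast hpp.pos
              calc g p / p ≤ (8190 / p) / p := by
                    have := hgle p hpp
                    gcongr
                _ = 8190 * ((p : ℝ) ^ 2)⁻¹ := by rw [div_div, ← pow_two, div_eq_mul_inv]
          _ = 8190 * ∑ p ∈ PP H, ((p : ℝ) ^ 2)⁻¹ := by rw [Finset.mul_sum]
          _ ≤ 8190 * 2 := by
              gcongr
              calc ∑ p ∈ PP H, ((p : ℝ) ^ 2)⁻¹ ≤ ∑ p ∈ Finset.Ioc 1 (H + 1), ((p : ℝ) ^ 2)⁻¹ := by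
                    apply Finset.sum_le_sum_of_subset_of_nonneg
                    · intro p hp
                      rw [mem_PP] at hp
                      rw [Finset.mem_Ioc]
                      exact ⟨hp.2.one_lt, by omega⟩
                    · intro p _ _
                      positivity
                _ ≤ ((1 : ℕ) : ℝ)⁻¹ - ((H + 1 : ℕ) : ℝ)⁻¹ := sum_Ioc_inv_sq_le_sub (by norm_num) (by omega)
                _ ≤ 2 := by
                    have : (0 : ℝ) ≤ ((H + 1 : ℕ) : ℝ)⁻¹ := by positivity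
                    rw [Nat.cast_one, inv_one]
                    linarith
          _ = 16380 := by norm_num

namespace Triple

/-- the good pairs -/
noncomputable def goodPairs (x ε : ℝ) : Finset (ℕ × ℕ) :=
  (Finset.range (⌊(Real.log x) ^ 2⌋₊ + 1) ×ˢ Finset.range (⌊(Real.log x) ^ 2⌋₊ + 1)).filter (fun q =>
    Even q.1 ∧ Even q.2 ∧ 2 ≤ q.1 ∧ q.1 < q.2 ∧ singularSeries q.1 q.2 ≠ 0 ∧
    (1 - ε) * (singularSeries q.1 q.2 * x / (Real.log x) ^ 3) ≤ (primeTriples x q.1 q.2 : ℝ))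

/-- multiples of 6 -/
def A6 (m : ℕ) : Finset ℕ := (Finset.range m).image (fun i => 6 * i)

lemma card_A6 (m : ℕ) : (A6 m).card = m := by
  unfold A6
  rw [Finset.card_image_of_injective, Finset.card_range]
  intro i j h
  simpa using h

lemma mem_A6 {m a : ℕ} : a ∈ A6 m ↔ ∃ i < m, a = 6 * i := by
  unfold A6
  rw [Finset.mem_image]
  constructor
  · rintro ⟨i, hi, rfl⟩
    exact ⟨i, Finset.mem_range.mp hi, rfl⟩
  · rintro ⟨i, hi, rfl⟩
    exact ⟨i, Finset.mem_range.mpr hi, rfl⟩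

lemma adm_six {a b c : ℕ} (ha : 6 ∣ a) (hb : 6 ∣ b) (hc : 6 ∣ c) {p : ℕ} (hp : p.Prime) : nu a b c p < p := by
  by_cases hp6 : p ∣ 6
  · have h1 : nu a b c p = 1 := by
      unfold nu
      simp only [Finset.image_insert, Finset.image_singleton]
      rw [Nat.mod_eq_zero_of_dvd (hp6.trans ha), Nat.mod_eq_zero_of_dvd (hp6.trans hb), Nat.mod_eq_zero_of_dvd (hp6.trans hc)]
      simp
    rw [h1]; exact hp.one_lt
  · have h1 := nu_le_three a b c p
    have h2 : p ≠ 2 := by rintro rfl; exact hp6 (by norm_num)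
    have h3 : p ≠ 3 := by rintro rfl; exact hp6 (by norm_num)
    have h4 := hp.two_le
    omega

lemma triples_A6 (m : ℕ) : triples (A6 m) = tri (A6 m) := by
  unfold triples tri
  apply Finset.filter_congr
  intro t ht
  rw [Finset.mem_product, Finset.mem_product] at ht
  constructor
  · rintro ⟨h1, h2, _⟩
    exact ⟨h1, h2⟩
  · rintro ⟨h1, h2⟩
    refine ⟨h1, h2, ?_⟩
    rw [singularSeries_eq h1 h2, sing3_ne_zero_iff h1 h2]
    intro p hp
    have key : ∀ a ∈ A6 m, 6 ∣ a := by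
      intro a ha
      obtain ⟨i, _, rfl⟩ := mem_A6.mp ha
      exact dvd_mul_right _ _
    exact adm_six (key _ ht.1) (key _ ht.2.1) (key _ ht.2.2) hp

lemma card_tri_eq (A : Finset ℕ) : 6 * ((tri A).card : ℝ) = (A.card : ℝ) * (A.card - 1) * (A.card - 2) := by
  have h := sum_sym A (fun _ _ _ => 1) (fun _ _ _ => rfl) (fun _ _ _ => rfl)
  rw [sum_distinct_one] at h
  rw [h]
  simp

lemma sum_sq_A6 (m : ℕ) : ∑ t ∈ tri (A6 m), (sing3 t.1 t.2.1 t.2.2) ^ 2 ≤ 6 * Real.exp 16380 * (m : ℝ) ^ 3 := by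
  set C := Real.exp 16380 with hC
  set A := A6 m with hA
  have hAle : ∀ a ∈ A, a < 6 * m := by
    intro a ha
    obtain ⟨i, hi, rfl⟩ := mem_A6.mp ha
    omega
  -- sum over the larger element
  have key : ∀ b ∈ A, ∑ c ∈ A, (if b < c then FF2 (c - b) ^ 6 else 0) ≤ C * (6 * m) := by
    intro b hb
    rw [← Finset.sum_filter]
    have h1 : ∑ c ∈ A.filter (fun c => b < c), FF2 (c - b) ^ 6 = ∑ n ∈ (A.filter (fun c => b < c)).image (fun c => c - b), FF2 n ^ 6 := by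
      rw [Finset.sum_image]
      intro c hc c' hc' h
      simp only [Finset.coe_filter, Set.mem_ofPred_eq] at hc hc'
      have h2 : c - b = c' - b := h
      omega
    rw [h1]
    have h2 : (A.filter (fun c => b < c)).image (fun c => c - b) ⊆ Finset.Icc 1 (6 * m) := by
      intro n hn
      rw [Finset.mem_image] at hn
      obtain ⟨c, hc, rfl⟩ := hn
      rw [Finset.mem_filter] at hc
      have := hAle c hc.1
      rw [Finset.mem_Icc]
      omega
    refine (Finset.sum_le_sum_of_subset_of_nonneg h2 (fun n _ _ => by have := FF2_nonneg n; positivity)).trans ?_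
    refine (sum_FF2_le (6 * m)).trans ?_
    push_cast
    exact le_rfl
  have h1 : ∑ t ∈ tri A, (sing3 t.1 t.2.1 t.2.2) ^ 2
      ≤ ∑ t ∈ tri A, (FF2 (t.2.1 - t.1) ^ 6 + FF2 (t.2.2 - t.2.1) ^ 6 + FF2 (t.2.2 - t.1) ^ 6) / 3 := by
    apply Finset.sum_le_sum
    intro t ht
    rw [mem_tri] at ht
    exact sing3_sq_le ht.2.1 ht.2.2
  have h2 : ∑ t ∈ tri A, (FF2 (t.2.1 - t.1) ^ 6 + FF2 (t.2.2 - t.2.1) ^ 6 + FF2 (t.2.2 - t.1) ^ 6) / 3
      = (∑ t ∈ tri A, FF2 (t.2.1 - t.1) ^ 6 + ∑ t ∈ tri A, FF2 (t.2.2 - t.2.1) ^ 6 + ∑ t ∈ tri A, FF2 (t.2.2 - t.1) ^ 6) / 3 := by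
    rw [← Finset.sum_add_distrib, ← Finset.sum_add_distrib, Finset.sum_div]
  have hcard : (A.card : ℝ) = m := by rw [hA, card_A6]
  have hF : ∀ n, 0 ≤ FF2 n ^ 6 := fun n => by have := FF2_nonneg n; positivity
  have b1 : ∑ t ∈ tri A, FF2 (t.2.1 - t.1) ^ 6 ≤ 6 * C * (m : ℝ) ^ 3 := by
    rw [sum_tri A (fun a b c => FF2 (b - a) ^ 6)]
    calc ∑ a ∈ A, ∑ b ∈ A, ∑ c ∈ A, (if a < b ∧ b < c then FF2 (b - a) ^ 6 else 0)
        ≤ ∑ a ∈ A, ∑ b ∈ A, ∑ c ∈ A, (if a < b then FF2 (b - a) ^ 6 else 0) := by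
          apply Finset.sum_le_sum; intro a _
          apply Finset.sum_le_sum; intro b _
          apply Finset.sum_le_sum; intro c _
          by_cases h3 : a < b
          · rw [if_pos h3]
            split_ifs
            · exact le_rfl
            · exact hF _
          · rw [if_neg h3, if_neg (fun h => h3 h.1)]
      _ = ∑ a ∈ A, (m : ℝ) * ∑ b ∈ A, (if a < b then FF2 (b - a) ^ 6 else 0) := by
          apply Finset.sum_congr rfl; intro a _
          rw [Finset.mul_sum]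
          apply Finset.sum_congr rfl; intro b _
          rw [Finset.sum_const, nsmul_eq_mul, hcard]
      _ ≤ ∑ a ∈ A, (m : ℝ) * (C * (6 * m)) := by
          apply Finset.sum_le_sum; intro a ha
          have := key a ha
          gcongr
      _ = 6 * C * (m : ℝ) ^ 3 := by
          rw [Finset.sum_const, nsmul_eq_mul, hcard]; ring
  have b2 : ∑ t ∈ tri A, FF2 (t.2.2 - t.2.1) ^ 6 ≤ 6 * C * (m : ℝ) ^ 3 := by
    rw [sum_tri A (fun a b c => FF2 (c - b) ^ 6)]
    calc ∑ a ∈ A, ∑ b ∈ A, ∑ c ∈ A, (if a < b ∧ b < c then FF2 (c - b) ^ 6 else 0)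
        ≤ ∑ a ∈ A, ∑ b ∈ A, ∑ c ∈ A, (if b < c then FF2 (c - b) ^ 6 else 0) := by
          apply Finset.sum_le_sum; intro a _
          apply Finset.sum_le_sum; intro b _
          apply Finset.sum_le_sum; intro c _
          by_cases h3 : b < c
          · rw [if_pos h3]
            split_ifs
            · exact le_rfl
            · exact hF _
          · rw [if_neg h3, if_neg (fun h => h3 h.2)]
      _ ≤ ∑ a ∈ A, ∑ b ∈ A, C * (6 * m) := by
          apply Finset.sum_le_sum; intro a _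
          apply Finset.sum_le_sum; intro b hb
          exact key b hb
      _ = 6 * C * (m : ℝ) ^ 3 := by
          rw [Finset.sum_const, Finset.sum_const, nsmul_eq_mul, nsmul_eq_mul, hcard]; ring
  have b3 : ∑ t ∈ tri A, FF2 (t.2.2 - t.1) ^ 6 ≤ 6 * C * (m : ℝ) ^ 3 := by
    rw [sum_tri A (fun a b c => FF2 (c - a) ^ 6)]
    calc ∑ a ∈ A, ∑ b ∈ A, ∑ c ∈ A, (if a < b ∧ b < c then FF2 (c - a) ^ 6 else 0)
        ≤ ∑ a ∈ A, ∑ b ∈ A, ∑ c ∈ A, (if a < c then FF2 (c - a) ^ 6 else 0) := by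
          apply Finset.sum_le_sum; intro a _
          apply Finset.sum_le_sum; intro b _
          apply Finset.sum_le_sum; intro c _
          by_cases h3 : a < c
          · rw [if_pos h3]
            split_ifs
            · exact le_rfl
            · exact hF _
          · rw [if_neg h3, if_neg (fun h => h3 (h.1.trans h.2))]
      _ ≤ ∑ a ∈ A, ∑ b ∈ A, C * (6 * m) := by
          apply Finset.sum_le_sum; intro a ha
          apply Finset.sum_le_sum; intro b _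
          exact key a ha
      _ = 6 * C * (m : ℝ) ^ 3 := by
          rw [Finset.sum_const, Finset.sum_const, nsmul_eq_mul, nsmul_eq_mul, hcard]; ring
  rw [h2] at h1
  linarith

/-- explicit constant -/
noncomputable def cc : ℝ := c0 ^ 2 / (2 ^ 37 * Real.exp 16380)

lemma cc_pos : 0 < cc := by
  have := c0_pos
  unfold cc
  positivity

theorem count_pairs {ε : ℝ} (hε : 0 < ε) (hε1 : ε < 1) : ∃ X : ℝ, ∀ x : ℝ, X ≤ x →
    cc * ε ^ 2 * (Real.log x) ^ 4 ≤ ((goodPairs x ε).card : ℝ) := by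
  obtain ⟨K, X1, h1⟩ := weighted_proportion hε hε1
  have hev : ∀ᶠ x : ℝ in atTop, 12 ≤ Real.log x ∧ 12 ^ 3 * K ≤ (Real.log x) ^ 3 := by
    filter_upwards [Real.tendsto_log_atTop.eventually_ge_atTop 12,
      ((tendsto_pow_atTop (n := 3) (by norm_num)).comp Real.tendsto_log_atTop).eventually_ge_atTop (12 ^ 3 * K)] with x h2 h3
    exact ⟨h2, h3⟩
  obtain ⟨X2, h2⟩ := eventually_atTop.mp hev
  refine ⟨max X1 X2, fun x hx => ?_⟩
  have hmain := h1 x ((le_max_left _ _).trans hx)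
  obtain ⟨hL12, hLK⟩ := h2 x ((le_max_right _ _).trans hx)
  set L := Real.log x with hL
  have hL0 : 0 < L := by linarith
  set H : ℕ := ⌊L ^ 2⌋₊ with hH
  have hHle : (H : ℝ) ≤ L ^ 2 := Nat.floor_le (by positivity)
  have hHge : L ^ 2 < (H : ℝ) + 1 := Nat.lt_floor_add_one _
  set m : ℕ := H / 6 + 1 with hm
  have hm6 : (H : ℝ) < 6 * m := by
    have : H < 6 * m := by omega
    exact_mod_cast this
  have hLm : L ^ 2 / 12 ≤ m := by nlinarith
  have hm12 : (12 : ℝ) ≤ m := by nlinarith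
  have hm0 : (0 : ℝ) < m := by linarith
  set A := A6 m with hA
  have hAL : ∀ a ∈ A, a ≤ H := by
    intro a ha
    obtain ⟨i, hi, rfl⟩ := mem_A6.mp ha
    omega
  have hAL' : ∀ a ∈ A, (a : ℝ) ≤ L ^ 2 := by
    intro a ha
    refine le_trans ?_ hHle
    exact_mod_cast hAL a ha
  have hcardA : (A.card : ℝ) = m := by rw [hA, card_A6]
  have hdiam : ∀ a ∈ A, ∀ b ∈ A, (b : ℝ) ≤ a + L ^ 2 := by
    intro a _ b hb
    have := hAL' b hb
    have h3 : (0 : ℝ) ≤ a := Nat.cast_nonneg a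
    linarith
  have hsize : K * L ^ 3 ≤ (A.card : ℝ) ^ 3 := by
    rw [hcardA]
    calc K * L ^ 3 ≤ L ^ 3 / 12 ^ 3 * L ^ 3 := by
          apply mul_le_mul_of_nonneg_right _ (by positivity)
          rw [le_div_iff₀ (by positivity)]
          linarith
      _ = (L ^ 2 / 12) ^ 3 := by ring
      _ ≤ (m : ℝ) ^ 3 := by gcongr
  have hw := hmain A hdiam (Or.inl hsize)
  rw [triples_A6] at hw
  set S : ℕ × ℕ × ℕ → ℝ := fun t => singularSeries (t.2.2 - t.2.1) (t.2.2 - t.1) with hS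
  set G := (tri A).filter (fun t => (1 - ε) * (S t * x / L ^ 3) ≤ (primeTriples x (t.2.2 - t.2.1) (t.2.2 - t.1) : ℝ)) with hG
  have hSeq : ∀ t ∈ tri A, S t = sing3 t.1 t.2.1 t.2.2 := by
    intro t ht
    rw [mem_tri] at ht
    exact singularSeries_eq ht.2.1 ht.2.2
  have hc0 := c0_pos
  -- lower bound for the total
  have hlow : c0 * ((m : ℝ) ^ 3 / 12) ≤ ∑ t ∈ tri A, S t := by
    have h3 : c0 * ((tri A).card : ℝ) ≤ ∑ t ∈ tri A, S t := by
      rw [mul_comm, ← nsmul_eq_mul, ← Finset.sum_const]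
      apply Finset.sum_le_sum
      intro t ht
      rw [hSeq t ht]
      rw [mem_tri] at ht
      apply c0_le_sing3 ht.2.1 ht.2.2
      intro p hp
      have key : ∀ a ∈ A6 m, 6 ∣ a := by
        intro a ha
        obtain ⟨i, _, rfl⟩ := mem_A6.mp ha
        exact dvd_mul_right _ _
      exact adm_six (key _ ht.1.1) (key _ ht.1.2.1) (key _ ht.1.2.2) hp
    refine le_trans ?_ h3
    apply mul_le_mul_of_nonneg_left _ hc0.le
    have h4 := card_tri_eq A
    rw [hcardA] at h4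
    have h5 : (m : ℝ) ^ 3 / 2 ≤ (m : ℝ) * (m - 1) * (m - 2) := by nlinarith
    linarith
  have hup := sum_sq_A6 m
  -- Cauchy-Schwarz
  have hCS : (∑ t ∈ G, S t) ^ 2 ≤ (G.card : ℝ) * ∑ t ∈ G, S t ^ 2 := by
    have h3 := Finset.sum_mul_sq_le_sq_mul_sq G (fun _ => (1 : ℝ)) S
    simpa using h3
  have hGsq : ∑ t ∈ G, S t ^ 2 ≤ 6 * Real.exp 16380 * (m : ℝ) ^ 3 := by
    refine le_trans ?_ hup
    calc ∑ t ∈ G, S t ^ 2 ≤ ∑ t ∈ tri A, S t ^ 2 := by
          apply Finset.sum_le_sum_of_subset_of_nonneg (Finset.filter_subset _ _)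
          intro t _ _
          positivity
      _ = _ := by
          apply Finset.sum_congr rfl
          intro t ht
          rw [hSeq t ht]
  have hGlow : ε / 48 * (c0 * ((m : ℝ) ^ 3 / 12)) ≤ ∑ t ∈ G, S t := by
    refine le_trans ?_ hw
    gcongr
  have hE : 0 < Real.exp 16380 := Real.exp_pos _
  have hGcard : (ε / 48 * (c0 * ((m : ℝ) ^ 3 / 12))) ^ 2 ≤ (G.card : ℝ) * (6 * Real.exp 16380 * (m : ℝ) ^ 3) := by
    calc (ε / 48 * (c0 * ((m : ℝ) ^ 3 / 12))) ^ 2 ≤ (∑ t ∈ G, S t) ^ 2 := by gcongr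
      _ ≤ (G.card : ℝ) * ∑ t ∈ G, S t ^ 2 := hCS
      _ ≤ _ := by gcongr
  -- from triples to pairs
  have hfib : G.card ≤ (goodPairs x ε).card * m := by
    have h3 : G.card ≤ (goodPairs x ε ×ˢ A).card := by
      apply Finset.card_le_card_of_injOn (fun t => ((t.2.2 - t.2.1, t.2.2 - t.1), t.1))
      · intro t ht
        rw [Finset.mem_coe, hG, Finset.mem_filter, mem_tri] at ht
        obtain ⟨⟨⟨ha, hb, hc⟩, hab, hbc⟩, hgood⟩ := ht
        rw [Finset.mem_coe, Finset.mem_product]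
        refine ⟨?_, ha⟩
        have ha' := hAL _ ha
        have hb' := hAL _ hb
        have hc' := hAL _ hc
        obtain ⟨i, _, hi⟩ := mem_A6.mp ha
        obtain ⟨j, _, hj⟩ := mem_A6.mp hb
        obtain ⟨k, _, hk⟩ := mem_A6.mp hc
        unfold goodPairs
        rw [Finset.mem_filter, Finset.mem_product, Finset.mem_range, Finset.mem_range]
        refine ⟨⟨?_, ?_⟩, ?_, ?_, ?_, ?_, ?_, ?_⟩
        · show t.2.2 - t.2.1 < H + 1
          omega
        · show t.2.2 - t.1 < H + 1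
          omega
        · show Even (t.2.2 - t.2.1)
          refine ⟨3 * (k - j), by omega⟩
        · show Even (t.2.2 - t.1)
          refine ⟨3 * (k - i), by omega⟩
        · show 2 ≤ t.2.2 - t.2.1
          omega
        · show t.2.2 - t.2.1 < t.2.2 - t.1
          omega
        · show singularSeries (t.2.2 - t.2.1) (t.2.2 - t.1) ≠ 0
          rw [singularSeries_eq hab hbc, sing3_ne_zero_iff hab hbc]
          intro p hp
          exact adm_six ⟨i, hi⟩ ⟨j, hj⟩ ⟨k, hk⟩ hp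
        · exact hgood
      · intro t ht s hs hts
        rw [Finset.mem_coe, hG, Finset.mem_filter, mem_tri] at ht hs
        obtain ⟨⟨_, hab, hbc⟩, _⟩ := ht
        obtain ⟨⟨_, hab', hbc'⟩, _⟩ := hs
        simp only [Prod.mk.injEq] at hts
        obtain ⟨⟨h4, h5⟩, h6⟩ := hts
        apply Prod.ext
        · exact h6
        · apply Prod.ext
          · omega
          · omega
    rw [Finset.card_product, card_A6] at h3
    exact h3
  have hfib' : (G.card : ℝ) ≤ ((goodPairs x ε).card : ℝ) * m := by exact_mod_cast hfib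
  set g : ℝ := ((goodPairs x ε).card : ℝ) with hg
  have hg0 : 0 ≤ g := Nat.cast_nonneg _
  have h7 : ε ^ 2 * c0 ^ 2 / (576 ^ 2) * (m : ℝ) ^ 6 ≤ (g * m) * (6 * Real.exp 16380 * (m : ℝ) ^ 3) := by
    calc ε ^ 2 * c0 ^ 2 / (576 ^ 2) * (m : ℝ) ^ 6 = (ε / 48 * (c0 * ((m : ℝ) ^ 3 / 12))) ^ 2 := by ring
      _ ≤ (G.card : ℝ) * (6 * Real.exp 16380 * (m : ℝ) ^ 3) := hGcard
      _ ≤ _ := by gcongr
  have h8 : ε ^ 2 * c0 ^ 2 / (576 ^ 2) * (m : ℝ) ^ 2 ≤ g * (6 * Real.exp 16380) := by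
    have hm4 : 0 < (m : ℝ) ^ 4 := by positivity
    have h9 : (ε ^ 2 * c0 ^ 2 / (576 ^ 2) * (m : ℝ) ^ 2) * (m : ℝ) ^ 4 ≤ (g * (6 * Real.exp 16380)) * (m : ℝ) ^ 4 := by
      calc (ε ^ 2 * c0 ^ 2 / (576 ^ 2) * (m : ℝ) ^ 2) * (m : ℝ) ^ 4 = ε ^ 2 * c0 ^ 2 / (576 ^ 2) * (m : ℝ) ^ 6 := by ring
        _ ≤ _ := h7
        _ = _ := by ring
    exact le_of_mul_le_mul_right h9 hm4
  have h9 : L ^ 4 / 144 ≤ (m : ℝ) ^ 2 := by
    calc L ^ 4 / 144 = (L ^ 2 / 12) ^ 2 := by ring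
      _ ≤ _ := by gcongr
  unfold cc
  have h10 : ε ^ 2 * c0 ^ 2 / (576 ^ 2) * (L ^ 4 / 144) ≤ g * (6 * Real.exp 16380) := by
    refine le_trans ?_ h8
    gcongr
  have h11 : c0 ^ 2 / (2 ^ 37 * Real.exp 16380) * ε ^ 2 * L ^ 4 * (6 * Real.exp 16380)
      = ε ^ 2 * c0 ^ 2 * L ^ 4 * (6 / 2 ^ 37) := by
    field_simp
  have h12 : ε ^ 2 * c0 ^ 2 * L ^ 4 * (6 / 2 ^ 37) ≤ ε ^ 2 * c0 ^ 2 / (576 ^ 2) * (L ^ 4 / 144) := by
    have : ε ^ 2 * c0 ^ 2 / (576 ^ 2) * (L ^ 4 / 144) = ε ^ 2 * c0 ^ 2 * L ^ 4 * (1 / (576 ^ 2 * 144)) := by ring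
    rw [this]
    apply mul_le_mul_of_nonneg_left _ (by positivity)
    norm_num
  have h13 : c0 ^ 2 / (2 ^ 37 * Real.exp 16380) * ε ^ 2 * L ^ 4 * (6 * Real.exp 16380) ≤ g * (6 * Real.exp 16380) := by
    rw [h11]; exact h12.trans h10
  exact le_of_mul_le_mul_right h13 (by positivity)

end Triple

end Pool.Agent.H17
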