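import Mathlib
import Pool.Agent.H17.Selberg
import Pool.Agent.H17.GBound

/-! A weighted Brun–Titchmarsh inequality by Selberg's sieve, and `∑ 3^ω(e)/e ≤ (1+log K)^3`. -/

set_option autoImplicit false

open Filter Topology

namespace Pool.Agent.H17

/-- primes `≤ D` not dividing `b` -/
def PPb (b D : ℕ) : Finset ℕ := (Finset.range (D + 1)).filter (fun p => p.Prime ∧ ¬ p ∣ b)

lemma mem_PPb {b D p : ℕ} : p ∈ PPb b D ↔ p ≤ D ∧ p.Prime ∧ ¬ p ∣ b := by
  unfold PPb
  rw [Finset.mem_filter, Finset.mem_range, Nat.lt_succ_iff]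

/-- their product -/
def WWb (b D : ℕ) : ℕ := ∏ p ∈ PPb b D, p

lemma WWb_pos (b D : ℕ) : 0 < WWb b D := Finset.prod_pos (fun _ hp => (mem_PPb.mp hp).2.1.pos)

lemma squarefree_WWb (b D : ℕ) : Squarefree (WWb b D) := by
  unfold WWb
  apply Finset.squarefree_prod_of_pairwise_isCoprime
  · intro p hp q hq hpq
    show IsRelPrime p q
    rw [← Nat.coprime_iff_isRelPrime]
    exact (Nat.coprime_primes (mem_PPb.mp hp).2.1 (mem_PPb.mp hq).2.1).mpr hpq
  · intro p hp
    exact (mem_PPb.mp hp).2.1.squarefree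

lemma primeFactors_WWb (b D : ℕ) : (WWb b D).primeFactors = PPb b D :=
  Nat.primeFactors_prod (fun _ hp => (mem_PPb.mp hp).2.1)

lemma coprime_of_dvd_WWb {b D e : ℕ} (h : e ∣ WWb b D) : e.Coprime b := by
  apply Nat.Coprime.coprime_dvd_left h
  unfold WWb
  apply Nat.Coprime.prod_left
  intro p hp
  rw [mem_PPb] at hp
  exact (Nat.Prime.coprime_iff_not_dvd hp.2.1).mpr hp.2.2

/-- the density `1/e` -/
noncomputable def nuOne : ArithmeticFunction ℝ :=
  ArithmeticFunction.prodPrimeFactors (fun p => 1 / (p : ℝ))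

lemma nuOne_apply {n : ℕ} (hn : n ≠ 0) : nuOne n = ∏ p ∈ n.primeFactors, 1 / (p : ℝ) := by
  unfold nuOne
  rw [ArithmeticFunction.prodPrimeFactors_apply hn]

lemma nuOne_squarefree {n : ℕ} (hn : Squarefree n) : nuOne n = 1 / (n : ℝ) := by
  rw [nuOne_apply hn.ne_zero, Finset.prod_div_distrib, Finset.prod_const_one, ← Nat.cast_prod,
    Nat.prod_primeFactors_of_squarefree hn]

lemma nuOne_prime {p : ℕ} (hp : p.Prime) : nuOne p = 1 / (p : ℝ) := nuOne_squarefree hp.squarefree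

/-- the sieve problem -/
noncomputable def svb (b D : ℕ) (I : Finset ℕ) (w : ℕ → ℝ) (hw : ∀ n, 0 ≤ w n) (X : ℝ) : BoundingSieve where
  support := I
  prodPrimes := WWb b D
  prodPrimes_squarefree := squarefree_WWb b D
  weights := w
  weights_nonneg := hw
  totalMass := X
  nu := nuOne
  nu_mult := by
    unfold nuOne
    exact ArithmeticFunction.IsMultiplicative.prodPrimeFactors _
  nu_pos_of_prime := by
    intro p hp _
    rw [nuOne_prime hp]
    have h2 : (0 : ℝ) < p := by exact_mod_cast hp.pos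
    positivity
  nu_lt_one_of_prime := by
    intro p hp _
    rw [nuOne_prime hp]
    have h2 : (1 : ℝ) < p := by exact_mod_cast hp.one_lt
    rw [div_lt_one (by linarith)]
    exact h2

lemma sum_divisors_WWb (b D : ℕ) (F : ℕ → ℝ) (z' : ℕ) :
    ∑ l ∈ (Nat.divisors (WWb b D)).filter (fun l => l ≤ z'), F l
      = ∑ T ∈ (PPb b D).powerset, (if ∏ p ∈ T, p ≤ z' then F (∏ p ∈ T, p) else 0) := by
  rw [Finset.sum_filter]
  apply Finset.sum_nbij' (i := fun l => l.primeFactors) (j := fun T => ∏ p ∈ T, p)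
  · intro l hl
    rw [Nat.mem_divisors] at hl
    rw [Finset.mem_powerset, ← primeFactors_WWb]
    exact Nat.primeFactors_mono hl.1 hl.2
  · intro T hT
    rw [Finset.mem_powerset] at hT
    rw [Nat.mem_divisors]
    exact ⟨Finset.prod_dvd_prod_of_subset _ _ _ hT, (WWb_pos b D).ne'⟩
  · intro l hl
    rw [Nat.mem_divisors] at hl
    exact Nat.prod_primeFactors_of_squarefree (Squarefree.squarefree_of_dvd hl.1 (squarefree_WWb b D))
  · intro T hT
    rw [Finset.mem_powerset] at hT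
    exact Nat.primeFactors_prod (fun p hp => (mem_PPb.mp (hT hp)).2.1)
  · intro l hl
    rw [Nat.mem_divisors] at hl
    rw [Nat.prod_primeFactors_of_squarefree (Squarefree.squarefree_of_dvd hl.1 (squarefree_WWb b D))]

lemma svb_GG (b D : ℕ) (I : Finset ℕ) (w : ℕ → ℝ) (hw : ∀ n, 0 ≤ w n) (X : ℝ) :
    Selb.GG (svb b D I w hw X) D = Op (PPb b D) (fun p => 1 / ((p : ℝ) - 1)) one1 D := by
  unfold Selb.GG Op
  show ∑ l ∈ (Nat.divisors (WWb b D)).filter (fun l => l ≤ D), (svb b D I w hw X).selbergTerms l = _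
  rw [sum_divisors_WWb]
  apply Finset.sum_congr rfl
  intro T hT
  rw [Finset.mem_powerset] at hT
  have hpr : ∀ p ∈ T, p.Prime := fun p hp => (mem_PPb.mp (hT hp)).2.1
  have hpos : 0 < ∏ p ∈ T, p := Finset.prod_pos (fun p hp => (hpr p hp).pos)
  have h1 : (svb b D I w hw X).selbergTerms (∏ p ∈ T, p) = ∏ p ∈ T, 1 / ((p : ℝ) - 1) := by
    rw [BoundingSieve.selbergTerms_apply, Nat.primeFactors_prod hpr]
    show nuOne (∏ p ∈ T, p) * ∏ p ∈ T, (1 - nuOne p)⁻¹ = _
    rw [nuOne_apply hpos.ne', Nat.primeFactors_prod hpr, ← Finset.prod_mul_distrib]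
    apply Finset.prod_congr rfl
    intro p hp
    rw [nuOne_prime (hpr p hp)]
    have h2 : (1 : ℝ) < p := by exact_mod_cast (hpr p hp).one_lt
    have h3 : (p : ℝ) ≠ 0 := by linarith
    have h4 : (p : ℝ) - 1 ≠ 0 := by linarith
    rw [one_sub_div h3, inv_div]
    field_simp
  rw [h1]
  unfold one1
  by_cases h2 : ∏ p ∈ T, p ≤ D
  · rw [if_pos h2, if_pos (show 1 ≤ D / ∏ p ∈ T, p from Nat.div_pos h2 hpos), mul_one]
  · rw [if_neg h2, if_neg (by rw [Nat.div_eq_of_lt (not_le.mp h2)]; omega), mul_zero]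

lemma log_le_Hs_one1 {D : ℕ} (hD : 1 ≤ D) : Real.log D ≤ Hs one1 D := by
  have h0 : ∀ v : ℝ, 1 ≤ v → 1 * (Real.log v) ^ 0 ≤ one1 ⌊v⌋₊ := by
    intro v hv
    unfold one1
    rw [if_pos (Nat.le_floor (by exact_mod_cast hv))]
    simp
  have := Hs_log h0 zero_le_one (v := (D : ℝ)) (by exact_mod_cast hD)
  simpa using this

/-- the constant `b/φ(b)` -/
noncomputable def Cb (b : ℕ) : ℝ := ∏ p ∈ b.primeFactors, (1 + 1 / ((p : ℝ) - 1))

lemma Cb_pos (b : ℕ) : 0 < Cb b := by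
  unfold Cb
  apply Finset.prod_pos
  intro p hp
  have h2 : (1 : ℝ) < p := by exact_mod_cast (Nat.prime_of_mem_primeFactors hp).one_lt
  have h4 : 0 < (p : ℝ) - 1 := by linarith
  positivity

lemma GG_lower (b : ℕ) (hb : 1 ≤ b) {D : ℕ} (hD : 1 ≤ D) :
    Real.log D ≤ Cb b * Op (PPb b D) (fun p => 1 / ((p : ℝ) - 1)) one1 D := by
  have hpos : ∀ p : ℕ, p.Prime → 0 ≤ (fun p : ℕ => 1 / ((p : ℝ) - 1)) p := by
    intro p hp
    have h2 : (1 : ℝ) < p := by exact_mod_cast hp.one_lt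
    have h4 : 0 < (p : ℝ) - 1 := by linarith
    simp only
    positivity
  have hprb : ∀ p ∈ b.primeFactors, p.Prime := fun p hp => Nat.prime_of_mem_primeFactors hp
  have hprD : ∀ p ∈ PPb b D, p.Prime := fun p hp => (mem_PPb.mp hp).2.1
  have hdisj : Disjoint b.primeFactors (PPb b D) := by
    rw [Finset.disjoint_left]
    intro p hp hp2
    exact (mem_PPb.mp hp2).2.2 (Nat.dvd_of_mem_primeFactors hp)
  have hprU : ∀ p ∈ b.primeFactors ∪ PPb b D, p.Prime := by
    intro p hp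
    rcases Finset.mem_union.mp hp with h | h
    · exact hprb p h
    · exact hprD p h
  have h1 := Hs_le_Op (u := D) hprU one1_mono one1_nonneg (by
    intro p hp hpD
    rw [Finset.mem_union, mem_PPb, Nat.mem_primeFactors]
    by_cases hpb : p ∣ b
    · left; exact ⟨hp, hpb, by omega⟩
    · right; exact ⟨hpD, hp, hpb⟩)
  rw [Op_union hdisj] at h1
  have h2 := Op_upper (S := b.primeFactors) (w := fun p => 1 / ((p : ℝ) - 1))
    (Φ := Op (PPb b D) (fun p => 1 / ((p : ℝ) - 1)) one1) (fun p hp => hpos p (hprb p hp))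
    (Op_mono (fun p hp => hpos p (hprD p hp)) one1_mono) D
  exact (log_le_Hs_one1 hD).trans (h1.trans h2)

open BoundingSieve in
lemma svb_err (b D : ℕ) (I : Finset ℕ) (w : ℕ → ℝ) (hw : ∀ n, 0 ≤ w n) (X : ℝ) :
    ∑ d1 ∈ (Nat.divisors (WWb b D)).filter (fun l => l ≤ D),
      ∑ d2 ∈ (Nat.divisors (WWb b D)).filter (fun l => l ≤ D), |(svb b D I w hw X).rem (d1.lcm d2)|
      ≤ ∑ e ∈ (Finset.Icc 1 (D ^ 2)).filter (fun e => Squarefree e ∧ e.Coprime b),
          (3 : ℝ) ^ e.primeFactors.card * |(∑ n ∈ I.filter (fun n => e ∣ n), w n) - X / e| := by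
  classical
  set V := (Nat.divisors (WWb b D)).filter (fun l => l ≤ D) with hV
  set E := (Finset.Icc 1 (D ^ 2)).filter (fun e => Squarefree e ∧ e.Coprime b) with hE
  have hmap : ∀ u ∈ V ×ˢ V, (u.1.lcm u.2) ∈ E := by
    intro u hu
    rw [Finset.mem_product, hV, Finset.mem_filter, Finset.mem_filter, Nat.mem_divisors, Nat.mem_divisors] at hu
    obtain ⟨⟨⟨h1, h2⟩, h3⟩, ⟨h4, _⟩, h5⟩ := hu
    have h6 : u.1.lcm u.2 ∣ WWb b D := Nat.lcm_dvd h1 h4
    rw [hE, Finset.mem_filter, Finset.mem_Icc]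
    refine ⟨⟨Nat.pos_of_ne_zero (ne_zero_of_dvd_ne_zero h2 h6), ?_⟩,
      Squarefree.squarefree_of_dvd h6 (squarefree_WWb b D), coprime_of_dvd_WWb h6⟩
    have h7 : u.1 * u.2 ≠ 0 := Nat.mul_ne_zero (ne_zero_of_dvd_ne_zero h2 h1) (ne_zero_of_dvd_ne_zero h2 h4)
    calc u.1.lcm u.2 ≤ u.1 * u.2 := Nat.le_of_dvd (Nat.pos_of_ne_zero h7) (Nat.lcm_dvd_mul _ _)
      _ ≤ D * D := Nat.mul_le_mul h3 h5
      _ = D ^ 2 := by ring
  rw [← Finset.sum_product', ← Finset.sum_fiberwise_of_maps_to hmap]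
  apply Finset.sum_le_sum
  intro e he
  have hesq : Squarefree e := (Finset.mem_filter.mp he).2.1
  have hrem : (svb b D I w hw X).rem e = (∑ n ∈ I.filter (fun n => e ∣ n), w n) - X / e := by
    unfold BoundingSieve.rem BoundingSieve.multSum
    show (∑ n ∈ I, (if e ∣ n then w n else 0)) - nuOne e * X = _
    rw [Finset.sum_filter, nuOne_squarefree hesq]
    ring
  have h1 : ∑ u ∈ (V ×ˢ V).filter (fun u => u.1.lcm u.2 = e), |(svb b D I w hw X).rem (u.1.lcm u.2)|
      = (((V ×ˢ V).filter (fun u => u.1.lcm u.2 = e)).card : ℝ) * |(svb b D I w hw X).rem e| := by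
    rw [← nsmul_eq_mul, ← Finset.sum_const]
    apply Finset.sum_congr rfl
    intro u hu
    rw [(Finset.mem_filter.mp hu).2]
  rw [h1, hrem]
  apply mul_le_mul_of_nonneg_right _ (abs_nonneg _)
  have h2 : (V ×ˢ V).filter (fun u => u.1.lcm u.2 = e) ⊆ (e.divisors ×ˢ e.divisors).filter (fun u => u.1.lcm u.2 = e) := by
    intro u hu
    rw [Finset.mem_filter] at hu ⊢
    refine ⟨?_, hu.2⟩
    rw [Finset.mem_product, Nat.mem_divisors, Nat.mem_divisors]
    exact ⟨⟨by rw [← hu.2]; exact Nat.dvd_lcm_left _ _, hesq.ne_zero⟩, ⟨by rw [← hu.2]; exact Nat.dvd_lcm_right _ _, hesq.ne_zero⟩⟩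
  have h3 := Finset.card_le_card h2
  rw [Nat.card_pair_lcm_eq hesq] at h3
  have h4 : ArithmeticFunction.cardDistinctFactors e = e.primeFactors.card := by
    rw [ArithmeticFunction.cardDistinctFactors_apply, ← List.card_toFinset]
    rfl
  rw [h4] at h3
  exact_mod_cast h3

open BoundingSieve in
/-- **Weighted Brun–Titchmarsh inequality** (explicit constant `Cb b = b/φ(b)`). -/
theorem weighted_bt_explicit (b : ℕ) (hb : 1 ≤ b) (D : ℕ) (hD : 2 ≤ D) (I : Finset ℕ) (w : ℕ → ℝ)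
    (hw : ∀ n, 0 ≤ w n) (X : ℝ) (hX : 0 ≤ X) :
    ∑ n ∈ I.filter (fun n => n.Prime ∧ D < n), w n ≤ Cb b * X / Real.log D +
      ∑ e ∈ (Finset.Icc 1 (D ^ 2)).filter (fun e => Squarefree e ∧ e.Coprime b),
        (3 : ℝ) ^ e.primeFactors.card * |(∑ n ∈ I.filter (fun n => e ∣ n), w n) - X / e| := by
  have h1 := Selb.selberg_bound (s := svb b D I w hw X) (z := D) (by omega)
  rw [svb_GG] at h1
  have h2 := svb_err b D I w hw X
  have h3 := GG_lower b hb (D := D) (by omega)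
  have hlog : 0 < Real.log D := Real.log_pos (by exact_mod_cast (by omega : 1 < D))
  set G := Op (PPb b D) (fun p => 1 / ((p : ℝ) - 1)) one1 D with hG
  have hCb := Cb_pos b
  have hG0 : 0 < G := by
    by_contra hcon
    have := mul_nonpos_of_nonneg_of_nonpos hCb.le (not_lt.mp hcon)
    linarith
  have h4 : X * G⁻¹ ≤ Cb b * X / Real.log D := by
    rw [← div_eq_mul_inv, div_le_div_iff₀ hG0 hlog]
    calc X * Real.log D ≤ X * (Cb b * G) := by gcongr
      _ = Cb b * X * G := by ring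
  have h5 : ∑ n ∈ I.filter (fun n => n.Prime ∧ D < n), w n ≤ (svb b D I w hw X).siftedSum := by
    unfold BoundingSieve.siftedSum
    show _ ≤ ∑ n ∈ I, (if Nat.Coprime (WWb b D) n then w n else 0)
    rw [← Finset.sum_filter]
    apply Finset.sum_le_sum_of_subset_of_nonneg
    · intro n hn
      rw [Finset.mem_filter] at hn ⊢
      refine ⟨hn.1, ?_⟩
      unfold WWb
      apply Nat.Coprime.prod_left
      intro p hp
      rw [mem_PPb] at hp
      rw [Nat.coprime_primes hp.2.1 hn.2.1]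
      have := hn.2.2
      omega
    · intro n _ _
      exact hw n
  have h6 : (svb b D I w hw X).totalMass = X := rfl
  rw [h6] at h1
  calc ∑ n ∈ I.filter (fun n => n.Prime ∧ D < n), w n ≤ (svb b D I w hw X).siftedSum := h5
    _ ≤ X * G⁻¹ + _ := h1
    _ ≤ _ := add_le_add h4 h2

theorem weighted_bt (b : ℕ) (hb : 2 ≤ b) : ∃ C : ℝ, 0 < C ∧ ∀ D : ℕ, 2 ≤ D → ∀ (I : Finset ℕ) (w : ℕ → ℝ),
    (∀ n, 0 ≤ w n) → ∀ X : ℝ, 0 ≤ X →
    ∑ n ∈ I.filter (fun n => n.Prime ∧ D < n), w n ≤ C * X / Real.log D +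
      ∑ e ∈ (Finset.Icc 1 (D ^ 2)).filter (fun e => Squarefree e ∧ e.Coprime b),
        (3 : ℝ) ^ e.primeFactors.card * |(∑ n ∈ I.filter (fun n => e ∣ n), w n) - X / e| :=
  ⟨Cb b, Cb_pos b, fun D hD I w hw X hX => weighted_bt_explicit b (by omega) D hD I w hw X hX⟩

theorem sum_three_omega (K : ℕ) (hK : 1 ≤ K) :
    ∑ e ∈ (Finset.Icc 1 K).filter Squarefree, (3 : ℝ) ^ e.primeFactors.card / e ≤ (1 + Real.log K) ^ 3 := by
  classical
  have h1 : ∀ e ∈ (Finset.Icc 1 K).filter Squarefree, (3 : ℝ) ^ e.primeFactors.card / e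
      = ∑ f ∈ Nat.finMulAntidiag 3 e, ∏ i, (1 / (f i : ℝ)) := by
    intro e he
    rw [Finset.mem_filter, Finset.mem_Icc] at he
    have h2 : ∀ f ∈ Nat.finMulAntidiag 3 e, ∏ i, (1 / (f i : ℝ)) = 1 / (e : ℝ) := by
      intro f hf
      rw [Nat.mem_finMulAntidiag] at hf
      rw [Finset.prod_div_distrib, Finset.prod_const_one, ← Nat.cast_prod, hf.1]
    rw [Finset.sum_congr rfl h2, Finset.sum_const, Nat.card_finMulAntidiag_of_squarefree he.2]
    have h4 : ArithmeticFunction.cardDistinctFactors e = e.primeFactors.card := by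
      rw [ArithmeticFunction.cardDistinctFactors_apply, ← List.card_toFinset]
      rfl
    rw [h4, nsmul_eq_mul]
    push_cast
    ring
  rw [Finset.sum_congr rfl h1]
  have h2 : ∑ e ∈ (Finset.Icc 1 K).filter Squarefree, ∑ f ∈ Nat.finMulAntidiag 3 e, ∏ i, (1 / (f i : ℝ))
      ≤ ∑ f ∈ Fintype.piFinset (fun _ : Fin 3 => Finset.Icc 1 K), ∏ i, (1 / (f i : ℝ)) := by
    rw [Finset.sum_sigma']
    rw [← Finset.sum_image (g := fun u : (_ : ℕ) × (Fin 3 → ℕ) => u.2) (f := fun f : Fin 3 → ℕ => ∏ i, (1 / (f i : ℝ)))]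
    · apply Finset.sum_le_sum_of_subset_of_nonneg
      · intro f hf
        rw [Finset.mem_image] at hf
        obtain ⟨⟨e, g⟩, hu, rfl⟩ := hf
        rw [Finset.mem_sigma, Finset.mem_filter, Finset.mem_Icc] at hu
        simp only at hu
        rw [Fintype.mem_piFinset]
        intro i
        have h3 := Nat.dvd_of_mem_finMulAntidiag hu.2 i
        have h4 := Nat.ne_zero_of_mem_finMulAntidiag hu.2 i
        rw [Finset.mem_Icc]
        exact ⟨Nat.pos_of_ne_zero h4, (Nat.le_of_dvd (by omega) h3).trans hu.1.1.2⟩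
      · intro f _ _
        apply Finset.prod_nonneg
        intro i _
        positivity
    · rintro ⟨e1, f1⟩ hu ⟨e2, f2⟩ hv huv
      simp only [Finset.coe_sigma, Set.mem_sigma_iff, Finset.mem_coe, Nat.mem_finMulAntidiag] at hu hv huv
      subst huv
      have : e1 = e2 := by rw [← hu.2.1, ← hv.2.1]
      subst this
      rfl
  refine h2.trans ?_
  have h5 := Finset.prod_univ_sum (fun _ : Fin 3 => Finset.Icc 1 K) (fun (_ : Fin 3) (n : ℕ) => (1 / (n : ℝ)))
  rw [← h5, Finset.prod_const, Finset.card_univ, Fintype.card_fin]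
  have h3 : ∑ n ∈ Finset.Icc 1 K, (1 / (n : ℝ)) ≤ 1 + Real.log K := by
    have h4 := harmonic_le_one_add_log K
    rw [harmonic_eq_sum_Icc] at h4
    push_cast at h4
    simpa [one_div] using h4
  gcongr

lemma count_dvd_Ioc (y z e : ℕ) (he : 1 ≤ e) :
    |((((Finset.Ioc y (y + z)).filter (fun n => e ∣ n)).card : ℕ) : ℝ) - (z : ℝ) / e| ≤ 1 := by
  have h1 : ((Finset.Ioc y (y + z)).filter (fun n => e ∣ n)).card = (y + z) / e - y / e := by
    have h2 : (Finset.Ioc y (y + z)).filter (fun n => e ∣ n)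
        = (Finset.Ioc 0 (y + z)).filter (fun n => e ∣ n) \ (Finset.Ioc 0 y).filter (fun n => e ∣ n) := by
      ext n
      simp only [Finset.mem_sdiff, Finset.mem_filter, Finset.mem_Ioc]
      constructor
      · rintro ⟨⟨h1, h2⟩, h3⟩
        exact ⟨⟨⟨by omega, h2⟩, h3⟩, fun h => by omega⟩
      · rintro ⟨⟨⟨h1, h2⟩, h3⟩, h4⟩
        refine ⟨⟨?_, h2⟩, h3⟩
        by_contra hcon
        exact h4 ⟨⟨h1, by omega⟩, h3⟩
    rw [h2, Finset.card_sdiff_of_subset, Nat.Ioc_filter_dvd_card_eq_div, Nat.Ioc_filter_dvd_card_eq_div]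
    intro n hn
    rw [Finset.mem_filter, Finset.mem_Ioc] at hn ⊢
    exact ⟨⟨hn.1.1, by omega⟩, hn.2⟩
  rw [h1]
  have he0 : (0 : ℝ) < e := by exact_mod_cast he
  have hle : y / e ≤ (y + z) / e := Nat.div_le_div_right (by omega)
  rw [Nat.cast_sub hle]
  have a1 : (((y + z) / e : ℕ) : ℝ) ≤ ((y + z : ℕ) : ℝ) / e := Nat.cast_div_le
  have a2 : ((y / e : ℕ) : ℝ) ≤ (y : ℝ) / e := Nat.cast_div_le
  have a3 : ((y + z : ℕ) : ℝ) / e < (((y + z) / e : ℕ) : ℝ) + 1 := by
    rw [← Nat.floor_div_eq_div (K := ℝ)]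
    exact Nat.lt_floor_add_one _
  have a4 : (y : ℝ) / e < ((y / e : ℕ) : ℝ) + 1 := by
    rw [← Nat.floor_div_eq_div (K := ℝ)]
    exact Nat.lt_floor_add_one _
  push_cast at a1 a3
  rw [add_div] at a1 a3
  push_cast
  rw [abs_le]
  constructor <;> linarith

lemma log_pow_four_le {t : ℝ} (ht : 1 ≤ t) : (1 + Real.log t) ^ 4 ≤ 6561 * t ^ ((1 : ℝ) / 2) := by
  have h1 : Real.log t ≤ 8 * t ^ ((1 : ℝ) / 8) := by
    have := Real.log_le_rpow_div (x := t) (by linarith) (show (0 : ℝ) < 1 / 8 by norm_num)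
    linarith
  have h2 : 1 ≤ t ^ ((1 : ℝ) / 8) := Real.one_le_rpow ht (by norm_num)
  have h3 : 0 ≤ Real.log t := Real.log_nonneg ht
  calc (1 + Real.log t) ^ 4 ≤ (9 * t ^ ((1 : ℝ) / 8)) ^ 4 := by
        gcongr
        linarith
    _ = 6561 * t ^ ((1 : ℝ) / 2) := by
        rw [mul_pow, ← Real.rpow_natCast (t ^ ((1 : ℝ) / 8)) 4, ← Real.rpow_mul (by linarith)]
        norm_num

/-- **Brun–Titchmarsh** (with some constant) -/
theorem bt_interval : ∃ C : ℝ, 0 < C ∧ ∀ y z : ℕ, 2 ≤ z →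
    ((((Finset.Ioc y (y + z)).filter Nat.Prime).card : ℕ) : ℝ) ≤ C * z / Real.log z := by
  have hC1 := Cb_pos 1
  refine ⟨8 * Cb 1 + 2 * 6561 + Real.log 256, by
    have : 0 < Real.log 256 := Real.log_pos (by norm_num)
    linarith, fun y z hz => ?_⟩
  have hz0 : (0 : ℝ) < z := by exact_mod_cast (by omega : 0 < z)
  have hz1 : (1 : ℝ) < z := by exact_mod_cast (by omega : 1 < z)
  have hlog : 0 < Real.log z := Real.log_pos hz1
  have hlog256 : 0 < Real.log 256 := Real.log_pos (by norm_num)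
  by_cases hsmall : z < 256
  · have h1 : ((((Finset.Ioc y (y + z)).filter Nat.Prime).card : ℕ) : ℝ) ≤ z := by
      have h2 := Finset.card_le_card (Finset.filter_subset Nat.Prime (Finset.Ioc y (y + z)))
      rw [Nat.card_Ioc] at h2
      exact_mod_cast (by omega : ((Finset.Ioc y (y + z)).filter Nat.Prime).card ≤ z)
    refine h1.trans ?_
    rw [le_div_iff₀ hlog]
    have h3 : Real.log z ≤ Real.log 256 := by
      apply Real.log_le_log hz0
      exact_mod_cast hsmall.le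
    nlinarith
  · have hz256 : (256 : ℝ) ≤ z := by exact_mod_cast (not_lt.mp hsmall)
    set r : ℝ := (z : ℝ) ^ ((1 : ℝ) / 4) with hr
    set D : ℕ := ⌊r⌋₊ with hD
    have hr4 : 4 ≤ r := by
      have h1 : (256 : ℝ) ^ ((1 : ℝ) / 4) = 4 := by
        rw [show (256 : ℝ) = (4 : ℝ) ^ (4 : ℝ) by norm_num, ← Real.rpow_mul (by norm_num)]
        norm_num
      calc (4 : ℝ) = (256 : ℝ) ^ ((1 : ℝ) / 4) := h1.symm
        _ ≤ r := by rw [hr]; gcongr
    have hDr : (D : ℝ) ≤ r := Nat.floor_le (by linarith)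
    have hD4 : 4 ≤ D := Nat.le_floor (by exact_mod_cast hr4)
    have hrD : r / 2 ≤ D := by
      have := Nat.lt_floor_add_one r
      rw [← hD] at this
      linarith
    have hlogD : Real.log z / 8 ≤ Real.log D := by
      have h1 : (z : ℝ) ^ ((1 : ℝ) / 8) ≤ r / 2 := by
        have h2 : r = (z : ℝ) ^ ((1 : ℝ) / 8) * (z : ℝ) ^ ((1 : ℝ) / 8) := by
          rw [hr, ← Real.rpow_add hz0]; norm_num
        have h3 : 2 ≤ (z : ℝ) ^ ((1 : ℝ) / 8) := by
          have h4 : (256 : ℝ) ^ ((1 : ℝ) / 8) = 2 := by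
            rw [show (256 : ℝ) = (2 : ℝ) ^ (8 : ℝ) by norm_num, ← Real.rpow_mul (by norm_num)]
            norm_num
          calc (2 : ℝ) = (256 : ℝ) ^ ((1 : ℝ) / 8) := h4.symm
            _ ≤ _ := by gcongr
        rw [h2]
        nlinarith
      calc Real.log z / 8 = Real.log ((z : ℝ) ^ ((1 : ℝ) / 8)) := by
            rw [Real.log_rpow hz0]; ring
        _ ≤ Real.log D := Real.log_le_log (by positivity) (h1.trans hrD)
    have hlogD0 : 0 < Real.log D := by linarith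
    have h1 := weighted_bt_explicit 1 le_rfl D (by omega) (Finset.Ioc y (y + z)) (fun _ => 1) (fun _ => zero_le_one) z hz0.le
    have e1 : ∑ n ∈ (Finset.Ioc y (y + z)).filter (fun n => n.Prime ∧ D < n), (1 : ℝ)
        = (((Finset.Ioc y (y + z)).filter (fun n => n.Prime ∧ D < n)).card : ℝ) := by simp
    rw [e1] at h1
    have hr2 : r ^ 2 = (z : ℝ) ^ ((1 : ℝ) / 2) := by
      rw [hr, ← Real.rpow_natCast, ← Real.rpow_mul hz0.le]; norm_num
    have hD2 : ((D ^ 2 : ℕ) : ℝ) ≤ (z : ℝ) ^ ((1 : ℝ) / 2) := by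
      push_cast
      rw [← hr2]
      gcongr
    have hhalf : (z : ℝ) ^ ((1 : ℝ) / 2) ≤ z := by
      calc (z : ℝ) ^ ((1 : ℝ) / 2) ≤ (z : ℝ) ^ (1 : ℝ) := Real.rpow_le_rpow_of_exponent_le hz1.le (by norm_num)
        _ = z := Real.rpow_one _
    have e2 : ∑ e ∈ (Finset.Icc 1 (D ^ 2)).filter (fun e => Squarefree e ∧ e.Coprime 1),
        (3 : ℝ) ^ e.primeFactors.card * |(∑ n ∈ (Finset.Ioc y (y + z)).filter (fun n => e ∣ n), (1 : ℝ)) - z / e|
        ≤ (D ^ 2 : ℕ) * (1 + Real.log (D ^ 2 : ℕ)) ^ 3 := by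
      calc _ ≤ ∑ e ∈ (Finset.Icc 1 (D ^ 2)).filter (fun e => Squarefree e ∧ e.Coprime 1),
            ((D ^ 2 : ℕ) : ℝ) * ((3 : ℝ) ^ e.primeFactors.card / e) := by
            apply Finset.sum_le_sum
            intro e he
            rw [Finset.mem_filter, Finset.mem_Icc] at he
            have he1 := he.1.1
            have h2 := count_dvd_Ioc y z e he1
            have he0 : (0 : ℝ) < e := by exact_mod_cast he1
            have h3 : (∑ n ∈ (Finset.Ioc y (y + z)).filter (fun n => e ∣ n), (1 : ℝ))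
                = ((((Finset.Ioc y (y + z)).filter (fun n => e ∣ n)).card : ℕ) : ℝ) := by simp
            rw [h3]
            have h4 : (e : ℝ) ≤ ((D ^ 2 : ℕ) : ℝ) := by exact_mod_cast he.1.2
            calc (3 : ℝ) ^ e.primeFactors.card * |((((Finset.Ioc y (y + z)).filter (fun n => e ∣ n)).card : ℕ) : ℝ) - z / e|
                ≤ (3 : ℝ) ^ e.primeFactors.card * 1 := by gcongr
              _ = e * ((3 : ℝ) ^ e.primeFactors.card / e) := by field_simp
              _ ≤ _ := by gcongr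
        _ = ((D ^ 2 : ℕ) : ℝ) * ∑ e ∈ (Finset.Icc 1 (D ^ 2)).filter Squarefree, ((3 : ℝ) ^ e.primeFactors.card / e) := by
            rw [Finset.mul_sum]
            apply Finset.sum_congr _ (fun _ _ => rfl)
            apply Finset.filter_congr
            intro e _
            simp
        _ ≤ _ := by
            apply mul_le_mul_of_nonneg_left _ (by positivity)
            exact sum_three_omega (D ^ 2) (Nat.pos_of_ne_zero (by positivity))
    have e3 : ((D ^ 2 : ℕ) : ℝ) * (1 + Real.log (D ^ 2 : ℕ)) ^ 3 ≤ 6561 * z / Real.log z := by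
      have hD21 : (1 : ℝ) ≤ ((D ^ 2 : ℕ) : ℝ) := by
        exact_mod_cast Nat.pos_of_ne_zero (by positivity)
      have h2 : Real.log ((D ^ 2 : ℕ) : ℝ) ≤ Real.log z := Real.log_le_log (by linarith) (hD2.trans hhalf)
      have h3 : 0 ≤ Real.log ((D ^ 2 : ℕ) : ℝ) := Real.log_nonneg hD21
      rw [le_div_iff₀ hlog]
      calc ((D ^ 2 : ℕ) : ℝ) * (1 + Real.log (D ^ 2 : ℕ)) ^ 3 * Real.log z
          ≤ (z : ℝ) ^ ((1 : ℝ) / 2) * (1 + Real.log z) ^ 3 * (1 + Real.log z) := by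
            gcongr
            linarith
        _ = (z : ℝ) ^ ((1 : ℝ) / 2) * (1 + Real.log z) ^ 4 := by ring
        _ ≤ (z : ℝ) ^ ((1 : ℝ) / 2) * (6561 * (z : ℝ) ^ ((1 : ℝ) / 2)) := by
            gcongr
            exact log_pow_four_le hz1.le
        _ = 6561 * ((z : ℝ) ^ ((1 : ℝ) / 2) * (z : ℝ) ^ ((1 : ℝ) / 2)) := by ring
        _ = 6561 * z := by
            rw [← Real.rpow_add hz0]
            norm_num
    have e4 : (D : ℝ) ≤ 6561 * z / Real.log z := by
      refine le_trans ?_ e3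
      have hD1 : (1 : ℝ) ≤ D := by exact_mod_cast (by omega : 1 ≤ D)
      have h3 : 0 ≤ Real.log ((D ^ 2 : ℕ) : ℝ) := Real.log_nonneg (by push_cast; nlinarith)
      calc (D : ℝ) ≤ ((D ^ 2 : ℕ) : ℝ) * 1 := by push_cast; nlinarith
        _ ≤ _ := by
          gcongr
          apply one_le_pow₀
          linarith
    have e5 : Cb 1 * z / Real.log D ≤ 8 * Cb 1 * z / Real.log z := by
      rw [div_le_div_iff₀ hlogD0 hlog]
      have : Cb 1 * z * Real.log z ≤ Cb 1 * z * (8 * Real.log D) := by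
        gcongr
        linarith
      linarith
    have e6 : (((Finset.Ioc y (y + z)).filter Nat.Prime).card : ℝ)
        ≤ D + (((Finset.Ioc y (y + z)).filter (fun n => n.Prime ∧ D < n)).card : ℝ) := by
      have h2 : (Finset.Ioc y (y + z)).filter Nat.Prime ⊆ Finset.Icc 1 D ∪ (Finset.Ioc y (y + z)).filter (fun n => n.Prime ∧ D < n) := by
        intro n hn
        rw [Finset.mem_filter] at hn
        rw [Finset.mem_union, Finset.mem_Icc, Finset.mem_filter]
        by_cases h : n ≤ D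
        · left; exact ⟨hn.2.one_lt.le, h⟩
        · right; exact ⟨hn.1, hn.2, not_le.mp h⟩
      have h3 := (Finset.card_le_card h2).trans (Finset.card_union_le _ _)
      rw [Nat.card_Icc, Nat.add_sub_cancel] at h3
      exact_mod_cast h3
    have e7 : (8 * Cb 1 + 2 * 6561 + Real.log 256) * z / Real.log z
        = 8 * Cb 1 * z / Real.log z + 6561 * z / Real.log z + 6561 * z / Real.log z + Real.log 256 * z / Real.log z := by
      ring
    have e8 : 0 ≤ Real.log 256 * z / Real.log z := by positivity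
    rw [e7]
    linarith

end Pool.Agent.H17
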